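import Pool.Agent.Q208.F.Iter

/-!
# If a forcing notion in a ccc extension adds no reals then `ω₁` stays regular
-/

open Cardinal Set
open Q208.F.Tree

namespace Q208.F.Ext

variable {P X : Type} [Preorder P] {E : Ext P X}

theorem exists_enumO : ∃ ε : O → ℕ → O, ∀ a, ∀ b < a, ∃ j, ε a j = b := by
  have h : ∀ a : O, ∃ e : ℕ → O, ∀ b < a, ∃ j, e j = b := by
    intro a
    by_cases hne : (Iio a).Nonempty
    · obtain ⟨e, he⟩ := (countable_Iio a).exists_eq_range hne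
      refine ⟨e, fun b hb => ?_⟩
      have : b ∈ range e := by rw [← he]; exact hb
      exact this
    · exact ⟨fun _ => a, fun b hb => absurd ⟨b, hb⟩ hne⟩
  choose ε hε using h
  exact ⟨ε, hε⟩

/-- a countable family of names of countable ordinals is bounded -/
theorem bounding (hccc : CCC P) (hN : E.NNR) (M : ℕ → O → Set E.R)
    (hdown : ∀ k b, Down (M k b)) (hmono : ∀ k b b', b ≤ b' → M k b ⊆ M k b')
    (hreg : ∀ k b s, (∀ s' ≤ s, ∃ s'' ≤ s', s'' ∈ M k b) → s ∈ M k b) (r : E.R)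
    (hdense : ∀ k, ∀ s ≤ r, ∃ s' ≤ s, ∃ b, s' ∈ M k b) :
    ∃ s ≤ r, ∃ b, ∀ k, s ∈ M k b := by
  by_contra hno
  push Not at hno
  -- the exact bounds
  let V : ℕ → O → Set E.R := fun k b => {s | s ∈ M k b ∧ ∀ s' ≤ s, ∀ b' < b, s' ∉ M k b'}
  have hV : ∀ k, ∀ s ≤ r, ∃ s' ≤ s, ∃ b, s' ∈ V k b := by
    intro k s hs
    obtain ⟨s₀, hs₀, b₀, hb₀⟩ := hdense k s hs
    obtain ⟨b, ⟨s', hs', hb⟩, hmin⟩ := wellFounded_lt.has_min
      {b : O | ∃ s' ≤ s, s' ∈ M k b} ⟨b₀, s₀, hs₀, hb₀⟩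
    exact ⟨s', hs', b, hb, fun s'' hs'' b' hb' hmem => hmin b' ⟨s'', hs''.trans hs', hmem⟩ hb'⟩
  have hVdown : ∀ k b, Down (V k b) := fun k b s hs s' hs' =>
    ⟨hdown k b s hs.1 s' hs', fun s'' hs'' => hs.2 s'' (hs''.trans hs')⟩
  have hVuniq : ∀ k a b s, s ∈ V k a → s ∈ V k b → a = b := by
    intro k a b s ha hb
    rcases lt_trichotomy a b with h | h | h
    · exact absurd ha.1 (hb.2 s le_rfl a h)
    · exact h
    · exact absurd hb.1 (ha.2 s le_rfl b h)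
  obtain ⟨ε, hε⟩ := exists_enumO
  -- a name for a surjection of `ω` onto `ω₁`
  let U : ℕ → O → Set E.R := fun i b => {s | ∃ a, s ∈ V i.unpair.1 a ∧ ε a i.unpair.2 = b}
  have hUdown : ∀ i b, Down (U i b) := by
    rintro i b s ⟨a, ha, h⟩ s' hs'
    exact ⟨a, hVdown _ _ _ ha _ hs', h⟩
  have hUuniq : ∀ i b c s, s ∈ U i b → s ∈ U i c → b = c := by
    rintro i b c s ⟨a, ha, h⟩ ⟨a', ha', h'⟩
    rw [← h, ← h', hVuniq _ _ _ _ ha ha']
  have hUsurj : ∀ b, ∀ s ≤ r, ∃ s' ≤ s, ∃ i, s' ∈ U i b := by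
    intro b s hs
    obtain ⟨k, hk⟩ := hno s hs b
    have h1 : ∃ s' ≤ s, ∀ s'' ≤ s', s'' ∉ M k b := by
      by_contra h2
      push Not at h2
      exact hk (hreg k b s h2)
    obtain ⟨s₁, hs₁, h1⟩ := h1
    obtain ⟨s₂, hs₂, a, ha⟩ := hV k s₁ (hs₁.trans hs)
    have hba : b < a := by
      by_contra hlt
      exact h1 s₂ hs₂ (hmono k a b (not_lt.1 hlt) ha.1)
    obtain ⟨j, hj⟩ := hε a b hba
    exact ⟨s₂, hs₂.trans hs₁, Nat.pair k j, a, by simpa using ha, by simpa using hj⟩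
  -- the order of the values is a real
  let A : ℕ → Set E.R := fun m =>
    {s | ∃ b c, s ∈ U m.unpair.1 b ∧ s ∈ U m.unpair.2 c ∧ b < c}
  have hAdown : ∀ m, Down (A m) := by
    rintro m s ⟨b, c, hb, hc, hbc⟩ s' hs'
    exact ⟨b, c, hUdown _ _ _ hb _ hs', hUdown _ _ _ hc _ hs', hbc⟩
  obtain ⟨r', hr', B, hB⟩ := hN A r
  have claim : ∀ b : O, ∀ (i : ℕ) (c : O) (q : P) (s s' : E.R), s ≤ r' → s' ≤ r' →
      s.1.1 = q → s'.1.1 = q → s ∈ U i b → s' ∈ U i c → ¬ b < c := by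
    intro b
    induction b using (wellFounded_lt (α := O)).induction with
    | _ b ih =>
      intro i c q s s' hs hs' hq hq' hsU hsU' hbc
      obtain ⟨s₁, hs₁, j, hj⟩ := hUsurj b s' (hs'.trans hr')
      have hs₁A : s₁ ∈ A (Nat.pair j i) := by
        refine ⟨b, c, ?_, ?_, hbc⟩
        · simpa using hj
        · simpa using hUdown _ _ _ hsU' _ hs₁
      have hq₁ : s₁.1.1 ≤ r'.1.1 := (hs₁.trans hs').1
      -- decide `B`
      have h1 : ∃ q₂ ≤ s₁.1.1, q₂ ∈ (forcing P).lit (B (Nat.pair j i)) := by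
        by_contra h2
        push Not at h2
        have h3 := (hB (Nat.pair j i)).2 s₁.1.1 hq₁ h2
        have h4 : s₁ ≤ res r' s₁.1.1 hq₁ := ⟨le_rfl, (hs₁.trans hs').2⟩
        exact h3 s₁ h4 (mem_lit_of_mem hs₁A le_rfl)
      obtain ⟨q₂, hq₂, hq₂B⟩ := h1
      have h2 := (hB (Nat.pair j i)).1 q₂ (hq₂.trans hq₁) hq₂B
      have hq₂s : q₂ ≤ s.1.1 := by
        rw [hq, ← hq']; exact hq₂.trans hs₁.1
      have h3 : res s q₂ hq₂s ≤ res r' q₂ (hq₂.trans hq₁) := res_le_res hs _ _ le_rfl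
      obtain ⟨s₃, hs₃, t, ht, hs₃t⟩ := h2 _ h3
      obtain ⟨b₃, c₃, hb₃, hc₃, hbc₃⟩ := hAdown _ _ ht _ hs₃t
      rw [Nat.unpair_pair] at hb₃ hc₃
      have h4 : c₃ = b := hUuniq i _ _ s₃ hc₃
        (hUdown _ _ _ hsU _ (hs₃.trans (res_le _ _ _)))
      rw [h4] at hbc₃
      have hq₃ : s₃.1.1 ≤ s₁.1.1 := hs₃.1.trans hq₂
      exact ih b₃ hbc₃ j b s₃.1.1 s₃ (res s₁ s₃.1.1 hq₃)
        (hs₃.trans ((res_le _ _ _).trans hs)) ((res_le _ _ _).trans (hs₁.trans hs')) rfl rfl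
        hb₃ (hUdown _ _ _ hj _ (res_le _ _ _)) hbc₃
  -- the values are countably many
  have hcount : ∀ i, {b | ∃ s ≤ r', s ∈ U i b}.Countable := by
    intro i
    have h1 : ∀ b : {b | ∃ s ≤ r', s ∈ U i b}, ∃ s ≤ r', s ∈ U i b.1 := fun b => b.2
    choose f hf1 hf2 using h1
    refine hccc _ (fun b => (f b).1.1) ?_
    rintro b b' hne ⟨q, hqb, hqb'⟩
    have h2 := claim b.1 i b'.1 q (res (f b) q hqb) (res (f b') q hqb')
      ((res_le _ _ _).trans (hf1 b)) ((res_le _ _ _).trans (hf1 b')) rfl rfl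
      (res_mem (hUdown _ _) (hf2 b) _) (res_mem (hUdown _ _) (hf2 b') _)
    have h3 := claim b'.1 i b.1 q (res (f b') q hqb') (res (f b) q hqb)
      ((res_le _ _ _).trans (hf1 b')) ((res_le _ _ _).trans (hf1 b)) rfl rfl
      (res_mem (hUdown _ _) (hf2 b') _) (res_mem (hUdown _ _) (hf2 b) _)
    exact hne (Subtype.ext (le_antisymm (not_lt.1 h3) (not_lt.1 h2)))
  apply not_countable_O
  have h1 : (⋃ i, {b | ∃ s ≤ r', s ∈ U i b}) = Set.univ := by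
    ext b
    simp only [mem_iUnion, mem_univ, iff_true]
    obtain ⟨s, hs, i, hi⟩ := hUsurj b r' hr'
    exact ⟨i, s, hs, hi⟩
  rw [← Set.countable_univ_iff, ← h1]
  exact Set.countable_iUnion hcount

/-! ### Closing the countable parts of a tree -/

/-- the colour `n` is not used above the node `u` -/
def Blk (LT : N → N → Set P) (F : N → ℕ → Set E.R) (u : N) (n : ℕ) : Set E.R :=
  {s | ∀ s' ≤ s, ∀ u', (u = u' ∨ s'.1.1 ∈ LT u u') → s' ∉ F u' n}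

/-- if the colour `n` is used above the node `u` then it is used above `u` at a node below `b` -/
def W (LT : N → N → Set P) (F : N → ℕ → Set E.R) (u : N) (n : ℕ) (b : O) : Set E.R :=
  {s | ∀ s' ≤ s, ∃ s'' ≤ s', (∃ u', inT b u' ∧ (u = u' ∨ s''.1.1 ∈ LT u u') ∧ s'' ∈ F u' n) ∨
    s'' ∈ Blk LT F u n}

variable {LT : N → N → Set P} {F : N → ℕ → Set E.R}

theorem down_Blk (u : N) (n : ℕ) : Down (Blk LT F u n) :=
  fun _ hs _ hs' s'' hs'' => hs s'' (hs''.trans hs')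

theorem down_W (u : N) (n : ℕ) (b : O) : Down (W LT F u n b) :=
  fun _ hs _ hs' s'' hs'' => hs s'' (hs''.trans hs')

theorem W_mono (u : N) (n : ℕ) {b b' : O} (h : b ≤ b') : W LT F u n b ⊆ W LT F u n b' := by
  intro s hs s' hs'
  obtain ⟨s'', hs'', h1 | h1⟩ := hs s' hs'
  · obtain ⟨u', hu', h2⟩ := h1
    exact ⟨s'', hs'', Or.inl ⟨u', hu'.mono h, h2⟩⟩
  · exact ⟨s'', hs'', Or.inr h1⟩

theorem W_reg (u : N) (n : ℕ) (b : O) (s : E.R)
    (h : ∀ s' ≤ s, ∃ s'' ≤ s', s'' ∈ W LT F u n b) : s ∈ W LT F u n b := by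
  intro s' hs'
  obtain ⟨s₁, hs₁, h1⟩ := h s' hs'
  obtain ⟨s₂, hs₂, h2⟩ := h1 s₁ le_rfl
  exact ⟨s₂, hs₂.trans hs₁, h2⟩

theorem exists_gt_pair (a b : O) : ∃ c : O, a < c ∧ b < c := by
  obtain ⟨c, hc⟩ := exists_gt (S := {a, b}) (Set.toFinite _).countable
  exact ⟨c, hc a (by simp), hc b (by simp)⟩

theorem W_dense (hLT : ∀ u v, Down (LT u v)) (hF : ∀ u n, Down (F u n)) (u : N) (n : ℕ)
    (s : E.R) : ∃ s' ≤ s, ∃ b, s' ∈ W LT F u n b := by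
  by_cases h : ∃ s' ≤ s, s' ∈ Blk LT F u n
  · obtain ⟨s', hs', h⟩ := h
    exact ⟨s', hs', u.1, fun s'' hs'' => ⟨s'', le_rfl, Or.inr (down_Blk _ _ _ h _ hs'')⟩⟩
  · push Not at h
    have h1 := h s le_rfl
    simp only [Blk, mem_ofPred_eq, not_forall, not_not] at h1
    obtain ⟨s', hs', u', hu', hF'⟩ := h1
    obtain ⟨b, hb1, hb2⟩ := exists_gt_pair u'.1 u'.2
    refine ⟨s', hs', b, fun s'' hs'' => ⟨s'', le_rfl, Or.inl ⟨u', ⟨hb1, hb2⟩, ?_, ?_⟩⟩⟩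
    · rcases hu' with h2 | h2
      · exact Or.inl h2
      · exact Or.inr (hLT _ _ _ h2 _ hs''.1)
    · exact hF _ _ _ hF' _ hs''

theorem closure (hccc : CCC P) (hN : E.NNR) (hLT : ∀ u v, Down (LT u v))
    (hF : ∀ u n, Down (F u n)) (r : E.R) (a₀ : O) :
    ∃ s ≤ r, ∃ δ, a₀ < δ ∧ ∀ u, inT δ u → ∀ n, s ∈ W LT F u n δ := by
  -- the closure function
  let Cl : O → O → Set E.R := fun a b => {s | ∀ u, inT a u → ∀ n, s ∈ W LT F u n b}
  have hCldown : ∀ a b, Down (Cl a b) := fun a b s hs s' hs' u hu n =>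
    down_W _ _ _ _ (hs u hu n) _ hs'
  have hCl : ∀ a s, ∃ s' ≤ s, ∃ b, a < b ∧ s' ∈ Cl a b := by
    intro a s
    by_cases hne : ∃ x, inT a x
    · obtain ⟨s', hs', b, hb⟩ := bounding hccc hN
        (fun k b => W LT F (enm a k.unpair.1) k.unpair.2 b) (fun k b => down_W _ _ _)
        (fun k b b' hbb => W_mono _ _ hbb) (fun k b s hs => W_reg _ _ _ s hs) s
        (fun k s _ => W_dense hLT hF _ _ s)
      obtain ⟨c, hc1, hc2⟩ := exists_gt_pair a b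
      refine ⟨s', hs', c, hc1, fun u hu n => ?_⟩
      have : u ∈ range (enm a) := by rw [range_enm hne]; exact hu
      obtain ⟨j, rfl⟩ := this
      have := hb (Nat.pair j n)
      simp only [Nat.unpair_pair] at this
      exact W_mono _ _ hc2.le this
    · obtain ⟨c, hc1, _⟩ := exists_gt_pair a a
      exact ⟨s, le_rfl, c, hc1, fun u hu => absurd ⟨u, hu⟩ hne⟩
  -- its exact values
  let H : O → O → Set E.R := fun a b =>
    {s | a < b ∧ s ∈ Cl a b ∧ ∀ s' ≤ s, ∀ b' < b, a < b' → s' ∉ Cl a b'}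
  have hHdown : ∀ a b, Down (H a b) := fun a b s hs s' hs' =>
    ⟨hs.1, hCldown _ _ _ hs.2.1 _ hs', fun s'' hs'' => hs.2.2 s'' (hs''.trans hs')⟩
  have hHuniq : ∀ a b b' s, s ∈ H a b → s ∈ H a b' → b = b' := by
    intro a b b' s h h'
    rcases lt_trichotomy b b' with h1 | h1 | h1
    · exact absurd h.2.1 (h'.2.2 s le_rfl b h1 h.1)
    · exact h1
    · exact absurd h'.2.1 (h.2.2 s le_rfl b' h1 h'.1)
  have hH : ∀ a s, ∃ s' ≤ s, ∃ b, s' ∈ H a b := by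
    intro a s
    obtain ⟨s₀, hs₀, b₀, hab₀, hb₀⟩ := hCl a s
    obtain ⟨b, ⟨hab, s', hs', hb⟩, hmin⟩ := wellFounded_lt.has_min
      {b : O | a < b ∧ ∃ s' ≤ s, s' ∈ Cl a b} ⟨b₀, hab₀, s₀, hs₀, hb₀⟩
    exact ⟨s', hs', b, hab, hb, fun s'' hs'' b' hb' hab' hmem =>
      hmin b' ⟨hab', s'', hs''.trans hs', hmem⟩ hb'⟩
  -- its iterates
  let G : ℕ → O → Set E.R := fun k => Nat.rec (fun b => {_s | b = a₀})
    (fun _ Gk b => {s | ∃ a, s ∈ Gk a ∧ s ∈ H a b}) k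
  have hG0 : ∀ b s, s ∈ G 0 b ↔ b = a₀ := fun b s => Iff.rfl
  have hGs : ∀ k b s, s ∈ G (k + 1) b ↔ ∃ a, s ∈ G k a ∧ s ∈ H a b := fun k b s => Iff.rfl
  have hGdown : ∀ k b, Down (G k b) := by
    intro k
    induction k with
    | zero => intro b s hs s' _; exact hs
    | succ k ih =>
      intro b s hs s' hs'
      obtain ⟨a, h1, h2⟩ := (hGs k b s).1 hs
      exact (hGs k b s').2 ⟨a, ih _ _ h1 _ hs', hHdown _ _ _ h2 _ hs'⟩
  have hGuniq : ∀ k b b' s, s ∈ G k b → s ∈ G k b' → b = b' := by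
    intro k
    induction k with
    | zero =>
      intro b b' s h h'
      rw [(hG0 b s).1 h, (hG0 b' s).1 h']
    | succ k ih =>
      intro b b' s h h'
      obtain ⟨a, h1, h2⟩ := (hGs k b s).1 h
      obtain ⟨a', h1', h2'⟩ := (hGs k b' s).1 h'
      have := ih _ _ s h1 h1'
      subst this
      exact hHuniq _ _ _ s h2 h2'
  have hGdense : ∀ k s, ∃ s' ≤ s, ∃ b, s' ∈ G k b := by
    intro k
    induction k with
    | zero => intro s; exact ⟨s, le_rfl, a₀, (hG0 _ _).2 rfl⟩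
    | succ k ih =>
      intro s
      obtain ⟨s₁, hs₁, a, ha⟩ := ih s
      obtain ⟨s₂, hs₂, b, hb⟩ := hH a s₁
      exact ⟨s₂, hs₂.trans hs₁, b, (hGs _ _ _).2 ⟨a, hGdown _ _ _ ha _ hs₂, hb⟩⟩
  let M : ℕ → O → Set E.R := fun k b => {s | ∀ s' ≤ s, ∃ s'' ≤ s', ∃ b' ≤ b, s'' ∈ G k b'}
  obtain ⟨s₀, hs₀, b₀, hb₀⟩ := bounding hccc hN M
    (fun k b s hs s' hs' s'' hs'' => hs s'' (hs''.trans hs'))
    (fun k b b' hbb s hs s' hs' => by
      obtain ⟨s'', hs'', c, hc, h⟩ := hs s' hs'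
      exact ⟨s'', hs'', c, hc.trans hbb, h⟩)
    (fun k b s hs s' hs' => by
      obtain ⟨s₁, hs₁, h1⟩ := hs s' hs'
      obtain ⟨s₂, hs₂, h2⟩ := h1 s₁ le_rfl
      exact ⟨s₂, hs₂.trans hs₁, h2⟩) r
    (fun k s _ => by
      obtain ⟨s', hs', b, hb⟩ := hGdense k s
      exact ⟨s', hs', b, fun s'' hs'' => ⟨s'', le_rfl, b, le_rfl, hGdown _ _ _ hb _ hs''⟩⟩)
  obtain ⟨δ, ⟨s, hs, hδ⟩, hmin⟩ := wellFounded_lt.has_min
    {b : O | ∃ s ≤ r, ∀ k, s ∈ M k b} ⟨b₀, s₀, hs₀, hb₀⟩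
  refine ⟨s, hs, δ, ?_, fun u hu n => ?_⟩
  · obtain ⟨s', hs', b', hb', h⟩ := hδ 1 s le_rfl
    obtain ⟨a, ha, h2⟩ := (hGs 0 b' s').1 h
    rw [(hG0 _ _).1 ha] at h2
    exact h2.1.trans_le hb'
  · refine W_reg _ _ _ _ fun s' hs' => ?_
    have hm : max u.1 u.2 < δ := max_lt hu.1 hu.2
    have h1 : ∃ k, s' ∉ M k (max u.1 u.2) := by
      by_contra h2
      push Not at h2
      exact hmin _ ⟨s', hs'.trans hs, h2⟩ hm
    obtain ⟨k, hk⟩ := h1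
    have h2 : ∃ s₁ ≤ s', ∀ s₂ ≤ s₁, ∀ b' ≤ max u.1 u.2, s₂ ∉ G k b' := by
      by_contra h3
      push Not at h3
      exact hk h3
    obtain ⟨s₁, hs₁, h3⟩ := h2
    obtain ⟨s₂, hs₂, b', hb', h4⟩ := hδ k s₁ (hs₁.trans hs')
    have hb'm : max u.1 u.2 < b' := by
      by_contra hlt
      exact h3 s₂ hs₂ b' (not_lt.1 hlt) h4
    obtain ⟨s₃, hs₃, b'', hb'', h5⟩ := hδ (k + 1) s₂ (hs₂.trans (hs₁.trans hs'))
    obtain ⟨a, ha, h6⟩ := (hGs k b'' s₃).1 h5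
    have h7 : a = b' := hGuniq k _ _ s₃ ha (hGdown _ _ _ h4 _ hs₃)
    subst h7
    have h8 : inT a u := ⟨(le_max_left _ _).trans_lt hb'm, (le_max_right _ _).trans_lt hb'm⟩
    exact ⟨s₃, hs₃.trans (hs₂.trans hs₁), W_mono _ _ hb'' (h6.2.1 u h8 n)⟩

end Q208.F.Ext
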