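import Pool.Agent.Q208.F.Tools

/-!
# Tools for forcing with Cohen reals
-/

open Cardinal Set MeasureTheory Filter Topology
open scoped ENNReal

namespace Q208.F

variable {L K W ι : Type}

/-- The criterion when only a Cohen block is changed. -/
theorem null_criterion_cohen {S : Set ((L × ℕ → Bool) × (K × ℕ → Bool))} (hS : MeasurableSet S)
    (l : L)
    (h : ∀ x : L × ℕ → Bool, {c : ℕ → Bool | ∀ᵐ y ∂(nu (K × ℕ)), (repl x l c, y) ∉ S} ∈
      residual (ℕ → Bool)) :
    (cohenRandom (L × ℕ) (K × ℕ)).null S := by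
  rw [null_iff]
  have hm : MeasurableSet {x | nu (K × ℕ) (sec S x) ≠ 0} :=
    (measurable_sec hS) (MeasurableSet.singleton (0 : ℝ≥0∞)).compl
  refine meagre_of_resample hm l fun x => ?_
  change _ᶜ ∈ residual _
  filter_upwards [h x] with c hc
  intro hne
  apply hne
  rw [ae_iff] at hc
  simpa [sec] using hc

/-- If, whatever the other coordinates are, `S` implies `T` for comeager many values of the Cohen
real `l`, then every condition which forces `Φ` forces `Ψ`. -/
theorem mem_of_cohen {Φ Ψ : Set (CR L K)} {S T : (L × ℕ → Bool) × (K × ℕ → Bool) → Prop}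
    (hΦ : Rep Φ S) (hΨ : Rep Ψ T) (l : L)
    (h : ∀ a, ∀ᶠ c in residual (ℕ → Bool), ∀ᵐ b ∂(nu (K × ℕ)),
      S (repl a l c, b) → T (repl a l c, b)) {p : CR L K} (hp : p ∈ Φ) :
    p ∈ Ψ := by
  have h1 : (cohenRandom (L × ℕ) (K × ℕ)).null {ω | S ω ∧ ¬ T ω} := by
    refine null_criterion_cohen (hΦ.meas.inter hΨ.meas.compl) l fun a => ?_
    filter_upwards [h a] with c hc
    filter_upwards [hc] with b hb hmem
    exact hmem.2 (hb hmem.1)
  rw [hΨ.iff]
  refine CI.mono _ ?_ (CI.union h1 (hΦ.iff.1 hp))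
  rintro ω ⟨h2, h3⟩
  by_cases h4 : S ω
  · exact Or.inl ⟨h4, h3⟩
  · exact Or.inr ⟨h2, h4⟩

/-- The names `x i` do not depend on the Cohen real with index `l`. -/
def CFree (l : L) (x : ι → Set (CR L K)) : Prop :=
  ∀ a b c i, ((repl a l c, b) ∈ ess (x i) ↔ (a, b) ∈ ess (x i))

theorem exists_csupp [Countable ι] (x : ι → Set (CR L K)) :
    ∃ D : Set L, D.Countable ∧ ∀ l ∉ D, CFree l x := by
  obtain ⟨C, D, hC, hD, hCD⟩ := exists_supp_family (S := fun i => ess (x i))
    (fun i => ess_measurable _)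
  refine ⟨Prod.fst '' C, hC.image _, fun l hl a b c i => ?_⟩
  refine hCD i _ _ (fun j hj => repl_other _ _ _ fun h => ?_) (fun j _ => rfl)
  exact hl ⟨j, hj, h⟩

/-- the indices of the Cohen reals on which the names depend -/
noncomputable def csupp [Countable ι] (x : ι → Set (CR L K)) : Set L := (exists_csupp x).choose

theorem csupp_countable [Countable ι] (x : ι → Set (CR L K)) : (csupp x).Countable :=
  (exists_csupp x).choose_spec.1

theorem cfree_of_notMem [Countable ι] {x : ι → Set (CR L K)} {l : L} (hl : l ∉ csupp x) :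
    CFree l x := (exists_csupp x).choose_spec.2 l hl

theorem coh_repl (l : L) (a : L × ℕ → Bool) (b : K × ℕ → Bool) (c : ℕ → Bool) :
    coh l (repl a l c, b) = c := by
  unfold coh
  simp only [repl_same]

theorem coh_repl_other {l l' : L} (h : l' ≠ l) (a : L × ℕ → Bool) (b : K × ℕ → Bool)
    (c : ℕ → Bool) : coh l' (repl a l c, b) = coh l' (a, b) := by
  unfold coh
  funext n
  exact repl_other _ _ _ h

namespace TV

variable {Ω : Type} (T : TV Ω)

/-- `𝔠 ≤ |K|`: there is a family indexed by `K` which lists all sets of natural numbers -/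
def contLe (K : Type) : Ω :=
  T.ex fun X : K → ℕ → Ω => T.all fun A : ℕ → Ω => T.ex fun k => T.all fun n : ℕ =>
    T.iff (T.lit (A n)) (T.lit (X k n))

end TV

theorem contLe_iff (K : Type) : classical.contLe K ↔ 𝔠 ≤ #K := by
  unfold TV.contLe
  simp only [classical_ex, classical_all, classical_iff, classical_lit]
  have h1 : (𝔠 : Cardinal.{0}) = #(Set ℕ) := by
    rw [Cardinal.mk_set, Cardinal.mk_nat, Cardinal.two_power_aleph0]
  rw [h1]
  constructor
  · rintro ⟨X, hX⟩
    refine Cardinal.mk_le_of_surjective (f := fun k => {n | X k n}) fun A => ?_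
    obtain ⟨k, hk⟩ := hX fun n => n ∈ A
    exact ⟨k, by ext n; exact (hk n).symm⟩
  · rintro ⟨e, he⟩
    refine ⟨fun k n => n ∈ Function.invFun e k, fun A => ⟨e {n | A n}, fun n => ?_⟩⟩
    beta_reduce
    rw [Function.leftInverse_invFun he]
    rfl

/-- the name of the Cohen real as a set of natural numbers -/
def nmC (l : L) : ℕ → Set (CR L K) := nmS fun ω n => coh l ω n = true

theorem rep_nmC (l : L) (n : ℕ) :
    Rep ((forcing (CR L K)).lit (nmC l n)) (fun ω => coh l ω n = true) :=
  rep_nmS ((measurable_coh l n) (measurableSet_singleton true))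

theorem isMeagre_singleton_real (x : ℕ → Bool) : IsMeagre ({x} : Set (ℕ → Bool)) := by
  change ({x} : Set (ℕ → Bool))ᶜ ∈ residual _
  refine residual_of_dense_open isClosed_singleton.isOpen_compl ?_
  rw [dense_iff_inter_open]
  rintro U hU ⟨y, hy⟩
  obtain ⟨F, hF⟩ := exists_cyl hU hy
  obtain ⟨n, hn⟩ := Infinite.exists_notMem_finset F
  by_cases h : y = x
  · refine ⟨Function.update y n (!(y n)), hF fun i hi => ?_, ?_⟩
    · exact Function.update_of_ne (by rintro rfl; exact hn hi) _ _
    · intro h2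
      have h3 : Function.update y n (!(y n)) = x := h2
      have := congrFun h3 n
      rw [Function.update_self, h] at this
      simp at this
  · exact ⟨y, hy, h⟩

/-- the continuum is larger than all ground model cardinals below `|L|` -/
theorem not_contLe (hW : #W < #L) (hL : ℵ₀ < #L) (p : CR L K) :
    p ∈ (forcing (CR L K)).neg ((forcing (CR L K)).contLe W) := by
  intro q _ hq
  obtain ⟨r, hr, X, hX⟩ := mem_ex.1 hq q le_rfl
  obtain ⟨l, hl⟩ := exists_notMem hW hL (fun w => csupp (X w)) fun w => csupp_countable _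
  obtain ⟨s, hs, w, hw⟩ := mem_ex.1 (hX (nmC l)) r le_rfl
  have hrepX : ∀ n, Rep ((forcing (CR L K)).lit (X w n)) (fun ω => ω ∈ ess (X w n)) :=
    fun n => rep_lit _
  have hrep : Rep ((forcing (CR L K)).all fun n : ℕ => (forcing (CR L K)).iff
      ((forcing (CR L K)).lit (nmC l n)) ((forcing (CR L K)).lit (X w n)))
      (fun ω => ∀ n, ((coh l ω n = true → ω ∈ ess (X w n)) ∧
        (ω ∈ ess (X w n) → coh l ω n = true))) :=
    Rep.all fun n => Rep.conj (Rep.imp (rep_nmC l n) (hrepX n)) (Rep.imp (hrepX n) (rep_nmC l n))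
  refine not_mem_of_rep hrep hw (CI.mono _ Set.inter_subset_right ?_)
  refine null_criterion_cohen hrep.meas l fun a => ?_
  have h1 : ∀ y : K × ℕ → Bool, ∀ n c, ((repl a l c, y) ∈ ess (X w n) ↔ (a, y) ∈ ess (X w n)) :=
    fun y n c => cfree_of_notMem (hl w) a y c n
  -- for fixed `y` only one `c` is possible; use Fubini the other way round
  classical
  have hmeas : MeasurableSet {p : (ℕ → Bool) × (K × ℕ → Bool) |
      ∀ n, (p.1 n = true ↔ (a, p.2) ∈ ess (X w n))} := by
    have : {p : (ℕ → Bool) × (K × ℕ → Bool) | ∀ n, (p.1 n = true ↔ (a, p.2) ∈ ess (X w n))} =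
        ⋂ n, ({p | p.1 n = true} ∩ {p | (a, p.2) ∈ ess (X w n)} ∪
          ({p | p.1 n = true}ᶜ ∩ {p | (a, p.2) ∈ ess (X w n)}ᶜ)) := by
      ext p
      simp only [mem_ofPred_eq, mem_iInter, mem_union, mem_inter_iff, mem_compl_iff]
      refine forall_congr' fun n => ?_
      tauto
    rw [this]
    have hm1 : ∀ n, MeasurableSet {p : (ℕ → Bool) × (K × ℕ → Bool) | p.1 n = true} := fun n =>
      measurableSet_eq_fun ((measurable_pi_apply n).comp measurable_fst) measurable_const
    have hm2 : ∀ n, MeasurableSet {p : (ℕ → Bool) × (K × ℕ → Bool) | (a, p.2) ∈ ess (X w n)} :=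
      fun n => measurable_snd (measurable_prodMk_left (ess_measurable (X w n)))
    exact MeasurableSet.iInter fun n =>
      ((hm1 n).inter (hm2 n)).union ((hm1 n).compl.inter (hm2 n).compl)
  -- the set of `c` with positive section is countable
  have hcount : {c : ℕ → Bool | nu (K × ℕ) {y | ∀ n, (c n = true ↔ (a, y) ∈ ess (X w n))} ≠ 0}.Countable := by
    have := Measure.countable_meas_pos_of_disjoint_iUnion (μ := nu (K × ℕ))
      (As := fun c : ℕ → Bool => {y | ∀ n, (c n = true ↔ (a, y) ∈ ess (X w n))})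
      (fun c => measurable_prodMk_left hmeas) (by
        intro c c' hne
        change Disjoint _ _
        rw [Set.disjoint_left]
        intro y hy hy'
        apply hne
        funext n
        rw [Bool.eq_iff_iff]
        exact (hy n).trans (hy' n).symm)
    refine this.mono fun c hc => ?_
    exact pos_iff_ne_zero.mpr hc
  have hmg : IsMeagre {c : ℕ → Bool |
      nu (K × ℕ) {y | ∀ n, (c n = true ↔ (a, y) ∈ ess (X w n))} ≠ 0} := by
    have h3 : {c : ℕ → Bool |
        nu (K × ℕ) {y | ∀ n, (c n = true ↔ (a, y) ∈ ess (X w n))} ≠ 0} =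
        ⋃ c ∈ {c : ℕ → Bool |
          nu (K × ℕ) {y | ∀ n, (c n = true ↔ (a, y) ∈ ess (X w n))} ≠ 0}, {c} := by
      ext c; simp
    rw [h3]
    exact isMeagre_biUnion hcount fun c _ => isMeagre_singleton_real c
  have h4 : {c : ℕ → Bool |
      nu (K × ℕ) {y | ∀ n, (c n = true ↔ (a, y) ∈ ess (X w n))} ≠ 0}ᶜ ∈ residual (ℕ → Bool) := hmg
  filter_upwards [h4] with c hc
  rw [mem_compl_iff, mem_ofPred_eq, not_not] at hc
  rw [ae_iff]
  refine measure_mono_null (fun y hy => ?_) hc
  rw [mem_ofPred_eq, not_not] at hy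
  intro n
  have h5 := hy n
  rw [coh_repl, h1] at h5
  exact ⟨h5.1, h5.2⟩

end Q208.F
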