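import Pool.Agent.Q208.F.Space

/-!
# Coordinates: supports, and changing one block of coordinates
-/

open Cardinal Set MeasureTheory Topology
open scoped ENNReal

namespace Q208.F

variable {A B L K : Type}

/-- membership in `S` only depends on the coordinates in `C` and `D` -/
def SuppOn (C : Set A) (D : Set B) (S : Set ((A → Bool) × (B → Bool))) : Prop :=
  ∀ p q : (A → Bool) × (B → Bool), (∀ i ∈ C, p.1 i = q.1 i) → (∀ i ∈ D, p.2 i = q.2 i) →
    (p ∈ S ↔ q ∈ S)

theorem SuppOn.mono {C C' : Set A} {D D' : Set B} {S : Set ((A → Bool) × (B → Bool))}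
    (h : SuppOn C D S) (hC : C ⊆ C') (hD : D ⊆ D') : SuppOn C' D' S :=
  fun p q h1 h2 => h p q (fun i hi => h1 i (hC hi)) (fun i hi => h2 i (hD hi))

/-- every measurable set has a countable support -/
theorem exists_supp {S : Set ((A → Bool) × (B → Bool))} (hS : MeasurableSet S) :
    ∃ (C : Set A) (D : Set B), C.Countable ∧ D.Countable ∧ SuppOn C D S := by
  -- the sets with a countable support form a σ-algebra
  let m : MeasurableSpace ((A → Bool) × (B → Bool)) :=
    { MeasurableSet' := fun S => ∃ (C : Set A) (D : Set B), C.Countable ∧ D.Countable ∧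
        SuppOn C D S
      measurableSet_empty := ⟨∅, ∅, countable_empty, countable_empty, fun _ _ _ _ => Iff.rfl⟩
      measurableSet_compl := by
        rintro S ⟨C, D, hC, hD, h⟩
        exact ⟨C, D, hC, hD, fun p q h1 h2 => not_congr (h p q h1 h2)⟩
      measurableSet_iUnion := by
        intro f hf
        choose C D hC hD h using hf
        refine ⟨⋃ n, C n, ⋃ n, D n, countable_iUnion hC, countable_iUnion hD, fun p q h1 h2 => ?_⟩
        simp only [mem_iUnion]
        refine exists_congr fun n => h n p q (fun i hi => h1 i (mem_iUnion.mpr ⟨n, hi⟩))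
          (fun i hi => h2 i (mem_iUnion.mpr ⟨n, hi⟩)) }
  have hle : (Prod.instMeasurableSpace : MeasurableSpace ((A → Bool) × (B → Bool))) ≤ m := by
    refine sup_le ?_ ?_
    · rw [MeasurableSpace.comap_le_iff_le_map]
      refine iSup_le fun i => ?_
      rintro _ ⟨s, _, rfl⟩
      refine ⟨{i}, ∅, countable_singleton _, countable_empty, fun p q h1 _ => ?_⟩
      simp only [mem_preimage]
      rw [h1 i rfl]
    · rw [MeasurableSpace.comap_le_iff_le_map]
      refine iSup_le fun i => ?_
      rintro _ ⟨s, _, rfl⟩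
      refine ⟨∅, {i}, countable_empty, countable_singleton _, fun p q _ h2 => ?_⟩
      simp only [mem_preimage]
      rw [h2 i rfl]
  exact hle _ hS

theorem exists_supp_family {ι : Type} [Countable ι] {S : ι → Set ((A → Bool) × (B → Bool))}
    (hS : ∀ i, MeasurableSet (S i)) :
    ∃ (C : Set A) (D : Set B), C.Countable ∧ D.Countable ∧ ∀ i, SuppOn C D (S i) := by
  choose C D hC hD h using fun i => exists_supp (hS i)
  exact ⟨⋃ i, C i, ⋃ i, D i, countable_iUnion hC, countable_iUnion hD,
    fun i => (h i).mono (subset_iUnion C i) (subset_iUnion D i)⟩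

open Classical in
/-- change the block `l` to `c` -/
noncomputable def repl (x : L × ℕ → Bool) (l : L) (c : ℕ → Bool) : L × ℕ → Bool :=
  fun p => if p.1 = l then c p.2 else x p

theorem repl_same (x : L × ℕ → Bool) (l : L) (c : ℕ → Bool) (n : ℕ) : repl x l c (l, n) = c n := by
  simp [repl]

theorem repl_block (x : L × ℕ → Bool) (l : L) (c : ℕ → Bool) :
    (fun n => repl x l c (l, n)) = c := by
  funext n; exact repl_same x l c n

theorem repl_other (x : L × ℕ → Bool) (l : L) (c : ℕ → Bool) {p : L × ℕ} (h : p.1 ≠ l) :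
    repl x l c p = x p := by
  simp [repl, h]

theorem repl_self (x : L × ℕ → Bool) (l : L) : repl x l (fun n => x (l, n)) = x := by
  funext p
  by_cases h : p.1 = l
  · obtain ⟨a, n⟩ := p
    change a = l at h
    subst h
    exact repl_same _ _ _ _
  · exact repl_other _ _ _ h

theorem measurable_repl (l : L) :
    Measurable fun p : (L × ℕ → Bool) × (ℕ → Bool) => repl p.1 l p.2 := by
  rw [measurable_pi_iff]
  intro q
  by_cases h : q.1 = l
  · simp only [repl, h, if_true]
    exact (measurable_pi_apply q.2).comp measurable_snd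
  · simp only [repl, h, if_false]
    exact (measurable_pi_apply q).comp measurable_fst

theorem continuous_repl (l : L) :
    Continuous fun p : (L × ℕ → Bool) × (ℕ → Bool) => repl p.1 l p.2 := by
  refine continuous_pi fun q => ?_
  by_cases h : q.1 = l
  · simp only [repl, h, if_true]
    exact (continuous_apply q.2).comp continuous_snd
  · simp only [repl, h, if_false]
    exact (continuous_apply q).comp continuous_fst

/-- resampling one block preserves the measure -/
theorem measurePreserving_repl (k : K) :
    MeasurePreserving (fun p : (K × ℕ → Bool) × (ℕ → Bool) => repl p.1 k p.2)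
      ((nu (K × ℕ)).prod (nu ℕ)) (nu (K × ℕ)) := by
  classical
  refine ⟨measurable_repl k, ?_⟩
  refine Measure.eq_infinitePi _ ?_
  intro s t ht
  rw [Measure.map_apply (measurable_repl k)
    (MeasurableSet.pi s.countable_toSet fun i _ => ht i)]
  let s1 : Finset (K × ℕ) := s.filter fun q => q.1 ≠ k
  let s2 : Finset ℕ := (s.filter fun q => q.1 = k).image Prod.snd
  have h1 : (fun p : (K × ℕ → Bool) × (ℕ → Bool) => repl p.1 k p.2) ⁻¹' ((s : Set (K × ℕ)).pi t) =
      ((s1 : Set (K × ℕ)).pi t) ×ˢ ((s2 : Set ℕ).pi fun n => t (k, n)) := by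
    ext p
    simp only [mem_preimage, Set.mem_pi, mem_prod, s1, s2, Finset.coe_filter, Finset.coe_image,
      mem_ofPred_eq, mem_image]
    constructor
    · intro h
      refine ⟨fun q hq => ?_, ?_⟩
      · have := h q hq.1
        rwa [repl_other _ _ _ hq.2] at this
      · rintro n ⟨q, ⟨hq1, hq2⟩, rfl⟩
        obtain ⟨a, n⟩ := q
        change a = k at hq2
        subst hq2
        have := h (a, n) hq1
        rwa [repl_same] at this
    · rintro ⟨ha, hb⟩ q hq
      by_cases hk : q.1 = k
      · obtain ⟨a, n⟩ := q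
        change a = k at hk
        subst hk
        rw [repl_same]
        exact hb n ⟨(a, n), ⟨hq, rfl⟩, rfl⟩
      · rw [repl_other _ _ _ hk]
        exact ha q ⟨hq, hk⟩
  rw [h1, Measure.prod_prod, nu, nu, Measure.infinitePi_pi _ (fun i _ => ht i),
    Measure.infinitePi_pi _ (fun i _ => ht (k, i))]
  have h2 : ∏ n ∈ s2, coin (t (k, n)) = ∏ q ∈ s.filter (fun q => q.1 = k), coin (t q) := by
    rw [Finset.prod_image]
    · refine Finset.prod_congr rfl fun q hq => ?_
      have : q.1 = k := (Finset.mem_filter.mp hq).2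
      rw [← this]
    · intro q hq q' hq' h
      have h1 : q.1 = k := (Finset.mem_filter.mp hq).2
      have h2 : q'.1 = k := (Finset.mem_filter.mp hq').2
      exact Prod.ext (h1.trans h2.symm) h
  rw [h2, mul_comm]
  exact Finset.prod_filter_mul_prod_filter_not s (fun q => q.1 = k) (fun q => coin (t q))

/-- a measurable set is null if it is null for almost all resamplings of one block -/
theorem null_of_resample {S : Set (K × ℕ → Bool)} (hS : MeasurableSet S) (k : K)
    (h : ∀ᵐ y ∂(nu (K × ℕ)), nu ℕ {r | repl y k r ∈ S} = 0) : nu (K × ℕ) S = 0 := by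
  rw [← (measurePreserving_repl k).measure_preimage hS.nullMeasurableSet]
  rw [Measure.measure_prod_null ((measurable_repl k) hS)]
  filter_upwards [h] with y hy
  exact hy

/-- a measurable set is meager if it is meager for all changes of one block -/
theorem meagre_of_resample {G : Set (L × ℕ → Bool)} (hG : MeasurableSet G) (l : L)
    (h : ∀ x, IsMeagre {c | repl x l c ∈ G}) : IsMeagre G := by
  by_contra hG'
  obtain ⟨F, t, hFt⟩ := exists_cyl_of_not_meagre hG hG'
  -- the complement of a countable union of nowhere dense sets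
  have h1 : (cyl F t \ G)ᶜ ∈ residual (L × ℕ → Bool) := hFt
  rw [mem_residual_iff] at h1
  obtain ⟨D, hD1, hD2, hD3, hD4⟩ := h1
  -- for comeager many `x`, the sections are comeager
  have h2 : ∀ U ∈ D, ∀ (F' : Finset ℕ) (s : ℕ → Bool),
      {x | ∃ c ∈ cyl F' s, repl x l c ∈ U} ∈ residual (L × ℕ → Bool) := by
    intro U hU F' s
    refine residual_of_dense_open ?_ ?_
    · have : {x | ∃ c ∈ cyl F' s, repl x l c ∈ U} = ⋃ c ∈ cyl F' s, {x | repl x l c ∈ U} := by
        ext x; simp
      rw [this]
      refine isOpen_biUnion fun c _ => ?_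
      exact (hD1 U hU).preimage ((continuous_repl l).comp (continuous_id.prodMk continuous_const))
    · rw [dense_iff_inter_open]
      intro V hV ⟨x, hx⟩
      obtain ⟨E, hE⟩ := exists_cyl hV hx
      classical
      -- a basic set where the block `l` is changed to `s`
      let E' : Finset (L × ℕ) := E.filter (fun q => q.1 ≠ l) ∪ F'.image fun n => (l, n)
      obtain ⟨z, hz1, hz2⟩ := (hD2 U hU).inter_open_nonempty (cyl E' (repl x l s))
        (isOpen_cyl _ _) ⟨repl x l s, fun _ _ => rfl⟩
      refine ⟨repl z l (fun n => x (l, n)), hE ?_, fun n => z (l, n), ?_, ?_⟩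
      · intro q hq
        by_cases hql : q.1 = l
        · obtain ⟨a, n⟩ := q
          change a = l at hql
          subst hql
          rw [repl_same]
        · rw [repl_other _ _ _ hql]
          have := hz1 q (Finset.mem_union_left _ (Finset.mem_filter.mpr ⟨hq, hql⟩))
          rw [this, repl_other _ _ _ hql]
      · intro n hn
        have := hz1 (l, n) (Finset.mem_union_right _ (Finset.mem_image_of_mem _ hn))
        change z (l, n) = s n
        rw [this, repl_same]
      · have : repl (repl z l fun n => x (l, n)) l (fun n => z (l, n)) = z := by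
          funext q
          by_cases hql : q.1 = l
          · obtain ⟨a, n⟩ := q
            change a = l at hql
            subst hql
            rw [repl_same]
          · rw [repl_other _ _ _ hql, repl_other _ _ _ hql]
        rw [this]; exact hz2
  have h3 : {x | ∀ U ∈ D, ∀ F' : Finset ℕ, ∀ s : ℕ → Bool, ∃ c ∈ cyl F' s, repl x l c ∈ U} ∈
      residual (L × ℕ → Bool) := by
    have h4 : {x | ∀ U ∈ D, ∀ F' : Finset ℕ, ∀ s : ℕ → Bool, ∃ c ∈ cyl F' s, repl x l c ∈ U} =
        ⋂ U ∈ D, ⋂ F' : Finset ℕ, ⋂ s : Finset ℕ,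
          {x | ∃ c ∈ cyl F' (fun n => decide (n ∈ s)), repl x l c ∈ U} := by
      ext x
      simp only [mem_ofPred_eq, mem_iInter]
      constructor
      · intro h U hU F' s
        exact h U hU F' _
      · intro h U hU F' s
        obtain ⟨c, hc1, hc2⟩ := h U hU F' (F'.filter fun n => s n = true)
        refine ⟨c, fun n hn => ?_, hc2⟩
        have := hc1 n hn
        simp only [Finset.mem_filter, hn, true_and, Bool.decide_eq_true] at this
        exact this
    rw [h4]
    refine (countable_bInter_mem hD3).mpr fun U hU => ?_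
    refine countable_iInter_mem.mpr fun F' => countable_iInter_mem.mpr fun s => h2 U hU F' _
  -- choose such a point in the basic set
  obtain ⟨x, hx1, hx2⟩ : ∃ x ∈ cyl F t,
      x ∈ {x | ∀ U ∈ D, ∀ F' : Finset ℕ, ∀ s : ℕ → Bool, ∃ c ∈ cyl F' s, repl x l c ∈ U} := by
    by_contra hno
    push Not at hno
    have : cyl F t ⊆ {x | ∀ U ∈ D, ∀ F' : Finset ℕ, ∀ s : ℕ → Bool,
        ∃ c ∈ cyl F' s, repl x l c ∈ U}ᶜ := fun x hx => hno x hx
    refine not_meagre_of_open (isOpen_cyl F t) ⟨t, fun _ _ => rfl⟩ (IsMeagre.mono this ?_)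
    unfold IsMeagre
    rw [compl_compl]; exact h3
  -- the section is comeager in a nonempty open set
  classical
  let F' : Finset ℕ := (F.filter fun q => q.1 = l).image Prod.snd
  have h5 : {c | ∀ U ∈ D, repl x l c ∈ U} ∈ residual (ℕ → Bool) := by
    have : {c | ∀ U ∈ D, repl x l c ∈ U} = ⋂ U ∈ D, {c | repl x l c ∈ U} := by ext; simp
    rw [this]
    refine (countable_bInter_mem hD3).mpr fun U hU => ?_
    refine residual_of_dense_open ?_ ?_
    · exact (hD1 U hU).preimage ((continuous_repl l).comp (continuous_const.prodMk continuous_id))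
    · rw [dense_iff_inter_open]
      intro V hV ⟨s, hs⟩
      obtain ⟨E, hE⟩ := exists_cyl hV hs
      obtain ⟨c, hc1, hc2⟩ := hx2 U hU E s
      exact ⟨c, hE hc1, hc2⟩
  have h6 : ∀ c ∈ cyl F' (fun n => t (l, n)), repl x l c ∈ cyl F t := by
    intro c hc q hq
    by_cases hql : q.1 = l
    · obtain ⟨a, n⟩ := q
      change a = l at hql
      subst hql
      rw [repl_same]
      have h8 : n ∈ F' := Finset.mem_image.mpr ⟨(a, n), Finset.mem_filter.mpr ⟨hq, rfl⟩, rfl⟩
      exact hc n h8
    · rw [repl_other _ _ _ hql]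
      exact hx1 q hq
  have h7 : cyl F' (fun n => t (l, n)) ⊆ {c | repl x l c ∈ G} ∪ {c | ∀ U ∈ D, repl x l c ∈ U}ᶜ := by
    intro c hc
    by_cases hcU : ∀ U ∈ D, repl x l c ∈ U
    · refine Or.inl ?_
      have h8 : repl x l c ∈ ⋂₀ D := Set.mem_sInter.mpr hcU
      have h9 := hD4 h8
      rw [Set.mem_compl_iff] at h9
      by_contra hcG
      have h10 : repl x l c ∈ cyl F t := h6 c hc
      have h11 : repl x l c ∉ G := hcG
      exact h9 (Set.mem_sdiff_of_mem h10 h11)
    · exact Or.inr hcU
  have h8 : IsMeagre ({c | ∀ U ∈ D, repl x l c ∈ U}ᶜ : Set (ℕ → Bool)) := by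
    unfold IsMeagre
    rw [compl_compl]; exact h5
  exact not_meagre_of_open (isOpen_cyl F' _) ⟨_, fun _ _ => rfl⟩
    (IsMeagre.mono h7 (IsMeagre.union (h x) h8))

/-- The criterion: a measurable set is null if, for every `x`, for comeager many `c`, for almost
all `y`, for almost all `r`, the point where the block `l` is changed to `c` and the block `k` is
changed to `r` is outside the set. -/
theorem null_criterion {S : Set ((L × ℕ → Bool) × (K × ℕ → Bool))} (hS : MeasurableSet S)
    (l : L) (k : K)
    (h : ∀ x : L × ℕ → Bool, {c : ℕ → Bool | ∀ᵐ y ∂(nu (K × ℕ)), ∀ᵐ r ∂(nu ℕ),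
      (repl x l c, repl y k r) ∉ S} ∈ residual (ℕ → Bool)) :
    (cohenRandom (L × ℕ) (K × ℕ)).null S := by
  rw [null_iff]
  have hm : MeasurableSet {x | nu (K × ℕ) (sec S x) ≠ 0} :=
    (measurable_sec hS) (MeasurableSet.singleton (0 : ℝ≥0∞)).compl
  refine meagre_of_resample hm l fun x => ?_
  change _ᶜ ∈ residual _
  filter_upwards [h x] with c hc
  intro hne
  apply hne
  refine null_of_resample (measurable_prodMk_left hS) k ?_
  filter_upwards [hc] with y hy
  rw [ae_iff] at hy
  simpa [sec] using hy

/-- The criterion when only a random block is changed. -/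
theorem null_criterion_random {S : Set ((A → Bool) × (K × ℕ → Bool))} (hS : MeasurableSet S)
    (k : K)
    (h : ∀ (x : A → Bool) (y : K × ℕ → Bool), ∀ᵐ r ∂(nu ℕ), (x, repl y k r) ∉ S) :
    (cohenRandom A (K × ℕ)).null S := by
  rw [null_iff]
  have : {x : A → Bool | nu (K × ℕ) (sec S x) ≠ 0} = ∅ := by
    ext x
    simp only [mem_ofPred_eq, mem_empty_iff_false, iff_false, not_not]
    refine null_of_resample (measurable_prodMk_left hS) k (ae_of_all _ fun y => ?_)
    have := h x y
    rw [ae_iff] at this
    simpa [sec] using this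
  rw [this]
  exact IsMeagre.empty

end Q208.F
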