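import Pool.Agent.Q208.F.SubForce

/-!
# After adding random reals, `cov(M)` and the splitting number are at most `ℵ₁`
-/

open Cardinal Set MeasureTheory Filter Topology
open scoped ENNReal

namespace Q208.F

variable {L K W : Type}

theorem classical_inMeager (f : ℕ → ℕ) {R : ℕ → ℕ → Prop} (hR : ∀ n m, R n m ↔ f n = m)
    (C : ℕ → List ℕ → Prop) :
    classical.inMeager R C ↔ ∃ k, ∀ n, C k ((List.range n).map f) := by
  unfold TV.inMeager
  simp only [classical_ex, classical_all, classical_imp, classical_lit,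
    classical_initSeg f R hR]
  refine exists_congr fun k => ⟨fun h n => h _ (by simp), fun h s hs => ?_⟩
  rw [hs]; exact h _

theorem classical_meagerCode (C : ℕ → List ℕ → Prop) :
    classical.meagerCode C ↔ ∀ k s, ∃ t, s <+: t ∧ ¬ C k t := by
  unfold TV.meagerCode
  simp only [classical_ex, classical_all, classical_conj, classical_lit, classical_neg,
    classical_grd]

section rep

variable {Ω : Type} [MeasurableSpace Ω] {I : CI Ω}

theorem Rep.meagerCode {C : ℕ → List ℕ → Set (Cond I)} {S : Ω → ℕ → List ℕ → Prop}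
    (h : ∀ k s, Rep ((forcing (Cond I)).lit (C k s)) (fun ω => S ω k s)) :
    Rep ((forcing (Cond I)).meagerCode C) (fun ω => classical.meagerCode (S ω)) := by
  refine Rep.congr (Rep.all fun k => Rep.all fun s => Rep.ex fun t =>
    Rep.conj (rep_grd _) (h k t).neg) fun ω => ?_
  rw [classical_meagerCode]

theorem Rep.inMeager {x : ℕ → ℕ → Set (Cond I)} {R : Ω → ℕ → ℕ → Prop}
    {C : ℕ → List ℕ → Set (Cond I)} {S : Ω → ℕ → List ℕ → Prop}
    (hx : ∀ n m, Rep ((forcing (Cond I)).lit (x n m)) (fun ω => R ω n m))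
    (h : ∀ k s, Rep ((forcing (Cond I)).lit (C k s)) (fun ω => S ω k s)) :
    Rep ((forcing (Cond I)).inMeager x C) (fun ω => classical.inMeager (R ω) (S ω)) := by
  refine Rep.congr (Rep.ex fun k => Rep.all fun s => Rep.imp (Rep.initSeg hx s) (h k s))
    fun ω => ?_
  unfold TV.inMeager
  simp only [classical_ex, classical_all, classical_imp, classical_lit]

end rep

/-- the `n`-th block of `r` codes `v` -/
def mt (r : ℕ → Bool) (n v : ℕ) : Prop := ∀ i ≤ n, r (Nat.pair n i) = v.testBit i

theorem mt_prob (n v : ℕ) : nu ℕ {r | mt r n v} = (2⁻¹ : ℝ≥0∞) ^ (n + 1) := by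
  classical
  have h1 : {r | mt r n v} = cyl ((Finset.range (n + 1)).image fun i => Nat.pair n i)
      (fun j => v.testBit (Nat.unpair j).2) := by
    ext r
    simp only [mt, cyl, mem_ofPred_eq, Finset.mem_image, Finset.mem_range,
      forall_exists_index, and_imp, forall_apply_eq_imp_iff₂, Nat.unpair_pair]
    exact forall_congr' fun i => by rw [Nat.lt_succ_iff]
  rw [h1, nu_cyl, Finset.card_image_of_injective _ (fun a b h => by simpa using h)]
  simp

theorem ae_eventually_not_mt (f : ℕ → ℕ) :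
    ∀ᵐ r ∂(nu ℕ), ∃ j, ∀ n, j ≤ n → ¬ mt r n (f n) := by
  have h1 : nu ℕ {r | ∃ᶠ n in atTop, mt r n (f n)} = 0 := by
    apply measure_setOfPred_frequently_eq_zero
    simp_rw [mt_prob, pow_succ]
    rw [ENNReal.tsum_mul_right, ENNReal.tsum_geometric, ENNReal.one_sub_inv_two, inv_inv]
    exact ENNReal.mul_ne_top ENNReal.ofNat_ne_top (by simp)
  have h2 : ∀ᵐ r ∂(nu ℕ), ¬ ∃ᶠ n in atTop, mt r n (f n) := by
    rw [ae_iff]
    simp only [not_not]
    exact h1
  filter_upwards [h2] with r hr
  rw [not_frequently, eventually_atTop] at hr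
  obtain ⟨j, hj⟩ := hr
  exact ⟨j, hj⟩

/-- the meager set of all `x` such that for almost all `n`, the `n`-th block of `r` does not
code `x n` -/
def codeOf (r : ℕ → Bool) (j : ℕ) (s : List ℕ) : Prop :=
  ∀ n, j ≤ n → n < s.length → ¬ mt r n (s.getD n 0)

theorem codeOf_meager (r : ℕ → Bool) : classical.meagerCode (codeOf r) := by
  rw [classical_meagerCode]
  intro j s
  let n := max j s.length
  obtain ⟨v, hv⟩ : ∃ v, mt r n v := by
    refine ⟨Nat.ofBits (n := n + 1) fun i => r (Nat.pair n i.1), fun i hi => ?_⟩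
    rw [Nat.testBit_ofBits_lt _ _ (Nat.lt_succ_of_le hi)]
  refine ⟨s ++ List.replicate (n - s.length) 0 ++ [v], ?_, ?_⟩
  · rw [List.append_assoc]; exact List.prefix_append _ _
  · intro h
    have hn : s.length ≤ n := le_max_right _ _
    have hlen : (s ++ List.replicate (n - s.length) 0).length = n := by simp; omega
    refine h n (le_max_left _ _) (by simp; omega) ?_
    have h2 : (s ++ List.replicate (n - s.length) 0 ++ [v]).getD n 0 = v := by
      rw [List.getD_append_right _ _ _ _ hlen.le, hlen]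
      simp
    rw [h2]; exact hv

/-- the name of the meager set of a random real -/
def covN (k : K) : ℕ → List ℕ → Set (CR L K) :=
  fun j s => {p | p.1 ⊆ {ω | codeOf (ran k ω) j s}}

theorem measurableSet_mt (k : K) (n v : ℕ) :
    MeasurableSet {ω : (L × ℕ → Bool) × (K × ℕ → Bool) | mt (ran k ω) n v} := by
  have : {ω : (L × ℕ → Bool) × (K × ℕ → Bool) | mt (ran k ω) n v} =
      ⋂ i ∈ Finset.range (n + 1), {ω | ran k ω (Nat.pair n i) = v.testBit i} := by
    ext ω
    simp only [mt, mem_ofPred_eq, mem_iInter, Finset.mem_range]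
    exact forall_congr' fun i => by rw [Nat.lt_succ_iff]
  rw [this]
  exact Finset.measurableSet_biInter _ fun i _ =>
    (measurable_ran k (Nat.pair n i)) (measurableSet_singleton (v.testBit i))

theorem rep_covN (k : K) (j : ℕ) (s : List ℕ) :
    Rep ((forcing (CR L K)).lit (covN k j s)) (fun ω => codeOf (ran k ω) j s) := by
  refine rep_lit_of ?_ fun _ => Iff.rfl
  have : {ω : (L × ℕ → Bool) × (K × ℕ → Bool) | codeOf (ran k ω) j s} =
      ⋂ n : ℕ, {ω | j ≤ n → n < s.length → ¬ mt (ran k ω) n (s.getD n 0)} := by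
    ext ω; simp [codeOf]
  rw [this]
  refine MeasurableSet.iInter fun n => ?_
  by_cases h : j ≤ n ∧ n < s.length
  · have h2 : {ω : (L × ℕ → Bool) × (K × ℕ → Bool) | j ≤ n → n < s.length →
        ¬ mt (ran k ω) n (s.getD n 0)} = {ω | mt (ran k ω) n (s.getD n 0)}ᶜ := by
      ext ω; simp [h.1, h.2]
    rw [h2]
    exact (measurableSet_mt k n _).compl
  · have h2 : {ω : (L × ℕ → Bool) × (K × ℕ → Bool) | j ≤ n → n < s.length →
        ¬ mt (ran k ω) n (s.getD n 0)} = Set.univ := by
      ext ω
      simp only [mem_ofPred_eq, mem_univ, iff_true]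
      intro h3 h4
      exact absurd ⟨h3, h4⟩ h
    rw [h2]; exact MeasurableSet.univ

/-- a random block outside of a countable support -/
theorem exists_ran_block (e : W ↪ K) (hW : ¬ Countable W) {D : Set (K × ℕ)} (hD : D.Countable) :
    ∃ w : W, ∀ n, (e w, n) ∉ D := by
  by_contra hno
  push Not at hno
  apply hW
  have h1 : (Prod.fst '' D).Countable := hD.image _
  have h2 : ∀ w, e w ∈ Prod.fst '' D := fun w => by
    obtain ⟨n, hn⟩ := hno w
    exact ⟨_, hn, rfl⟩
  have h3 : (Set.range e).Countable := h1.mono (by rintro _ ⟨w, rfl⟩; exact h2 w)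
  have h4 : Countable (Set.range e) := h3
  exact (Equiv.ofInjective e e.injective).countable_iff.mpr h4

theorem mem_covMLe (e : W ↪ K) (hW : ¬ Countable W) (p : CR L K) :
    p ∈ (forcing (CR L K)).covMLe W := by
  refine mem_ex_of_mem (fun w => covN (e w))
    (down_conj (down_all fun _ => down_all fun _ => down_all fun _ => down_ex _)
      (down_all fun _ => down_imp _ _)) ⟨fun w => ?_, fun x => ?_⟩
  · refine (Rep.meagerCode (S := fun ω => codeOf (ran (e w) ω))
      (fun j s => rep_covN (e w) j s)).of_null ?_ p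
    refine CI.mono _ ?_ (CI.empty _)
    intro ω hω
    exact hω (codeOf_meager _)
  · refine mem_imp.2 fun q _ hqx => ?_
    obtain ⟨C, D, hC, hD, hCD⟩ := exists_supp_family (ι := ℕ × ℕ)
      (S := fun nm => ess (x nm.1 nm.2)) (fun nm => ess_measurable _)
    obtain ⟨w, hw⟩ := exists_ran_block e hW hD
    refine ⟨q, le_rfl, mem_ex_of_mem w (down_ex _) ?_⟩
    have hrepx : ∀ n m, Rep ((forcing (CR L K)).lit (x n m)) (fun ω => ω ∈ ess (x n m)) :=
      fun n m => rep_lit _
    have hrep := Rep.inMeager (R := fun ω n m => ω ∈ ess (x n m)) hrepx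
      (S := fun ω => codeOf (ran (e w) ω)) (fun j s => rep_covN (e w) j s)
    have hfun := Rep.isFun (S := fun n m ω => ω ∈ ess (x n m)) hrepx
    rw [hrep.iff]
    have h1 := hfun.iff.1 hqx
    have h2 : (cohenRandom (L × ℕ) (K × ℕ)).null
        {ω | (classical.isFun fun n m => ω ∈ ess (x n m)) ∧
          ¬ classical.inMeager (fun n m => ω ∈ ess (x n m)) (codeOf (ran (e w) ω))} := by
      refine null_criterion_random (hfun.meas.inter hrep.meas.compl) (e w) fun a b => ?_
      have hsupp : ∀ r n m, ((a, repl b (e w) r) ∈ ess (x n m) ↔ (a, b) ∈ ess (x n m)) := by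
        intro r n m
        refine hCD (n, m) _ _ (fun i _ => rfl) (fun i hi => repl_other _ _ _ fun h => ?_)
        obtain ⟨c, d⟩ := i
        change c = e w at h
        subst h
        exact hw d hi
      by_cases hf : classical.isFun fun n m => (a, b) ∈ ess (x n m)
      · obtain ⟨f, hf⟩ := (classical_isFun _).1 hf
        filter_upwards [ae_eventually_not_mt f] with r hr hmem
        apply hmem.2
        rw [classical_inMeager f (fun n m => by rw [hsupp, hf])]
        obtain ⟨j, hj⟩ := hr
        refine ⟨j, fun n i hi hi' => ?_⟩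
        rw [List.length_map, List.length_range] at hi'
        rw [List.getD_eq_getElem _ _ (by simpa using hi')]
        have h3 : ran (e w) (a, repl b (e w) r) = r := by
          unfold ran
          simp only [repl_same]
        rw [h3]
        simpa using hj i hi
      · filter_upwards with r hmem
        apply hf
        have := hmem.1
        simp only [hsupp] at this
        exact this
    refine CI.mono _ ?_ (CI.union h1 h2)
    rintro ω ⟨h3, h4⟩
    by_cases h5 : classical.isFun fun n m => ω ∈ ess (x n m)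
    · exact Or.inr ⟨h5, h4⟩
    · exact Or.inl ⟨h3, h5⟩

/-! ### The splitting number -/

/-- the name of the set coded by a random real -/
def splN (k : K) : ℕ → Set (CR L K) := nmS fun ω n => ran k ω n = true

theorem rep_splN (k : K) (n : ℕ) :
    Rep ((forcing (CR L K)).lit (splN k n)) (fun ω => ran k ω n = true) :=
  rep_nmS ((measurable_ran k n) (measurableSet_singleton true))

/-- a random set meets an infinite set in an infinite set -/
theorem ae_infinite {A : Set ℕ} (hA : A.Infinite) (b : Bool) :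
    ∀ᵐ r ∂(nu ℕ), ∀ n, ∃ m, n ≤ m ∧ m ∈ A ∧ r m = b := by
  rw [ae_all_iff]
  intro n
  rw [ae_iff]
  have h1 : ∀ k : ℕ, nu ℕ {r | ¬ ∃ m, n ≤ m ∧ m ∈ A ∧ r m = b} ≤ (2⁻¹ : ℝ≥0∞) ^ k := by
    intro k
    have h2 : (A ∩ {m | n ≤ m}).Infinite := by
      refine (hA.sdiff (Set.finite_Iio n)).mono ?_
      rintro m ⟨h3, h4⟩
      exact ⟨h3, show n ≤ m from not_lt.mp h4⟩
    obtain ⟨t, ht, htk⟩ := h2.exists_subset_card_eq k
    rw [← htk, ← nu_cyl t (fun _ => !b)]
    refine measure_mono fun r hr m hm => ?_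
    by_contra hne
    apply hr
    refine ⟨m, (ht hm).2, (ht hm).1, ?_⟩
    cases h : r m <;> cases b <;> simp_all
  have h3 : Tendsto (fun m : ℕ => (2⁻¹ : ℝ≥0∞) ^ m) atTop (𝓝 0) :=
    ENNReal.tendsto_pow_atTop_nhds_zero_of_lt_one (by simp)
  exact le_antisymm (ge_of_tendsto' h3 h1) zero_le

theorem mem_splitLe (e : W ↪ K) (hW : ¬ Countable W) (p : CR L K) :
    p ∈ (forcing (CR L K)).splitLe W := by
  refine mem_ex_of_mem (fun w => splN (e w)) (down_all fun _ => down_imp _ _) fun A => ?_
  refine mem_imp.2 fun q _ hqA => ?_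
  obtain ⟨C, D, hC, hD, hCD⟩ := exists_supp_family (ι := ℕ)
    (S := fun n => ess (A n)) (fun n => ess_measurable _)
  obtain ⟨w, hw⟩ := exists_ran_block e hW hD
  refine ⟨q, le_rfl, mem_ex_of_mem w (down_conj (down_all fun _ => down_ex _)
    (down_all fun _ => down_ex _)) ?_⟩
  have hrepA : ∀ n, Rep ((forcing (CR L K)).lit (A n)) (fun ω => ω ∈ ess (A n)) :=
    fun n => rep_lit _
  have hinf := Rep.inf (S := fun ω n => ω ∈ ess (A n)) hrepA
  have h1 := hinf.iff.1 hqA
  have hrep : Rep ((forcing (CR L K)).conj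
      ((forcing (CR L K)).all fun n : ℕ => (forcing (CR L K)).ex fun m : ℕ =>
        (forcing (CR L K)).conj ((forcing (CR L K)).grd (n ≤ m))
        ((forcing (CR L K)).conj ((forcing (CR L K)).lit (A m))
          ((forcing (CR L K)).lit (splN (e w) m))))
      ((forcing (CR L K)).all fun n : ℕ => (forcing (CR L K)).ex fun m : ℕ =>
        (forcing (CR L K)).conj ((forcing (CR L K)).grd (n ≤ m))
        ((forcing (CR L K)).conj ((forcing (CR L K)).lit (A m))
          ((forcing (CR L K)).neg ((forcing (CR L K)).lit (splN (e w) m))))))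
      (fun ω => (∀ n : ℕ, ∃ m : ℕ, n ≤ m ∧ ω ∈ ess (A m) ∧ ran (e w) ω m = true) ∧
        (∀ n : ℕ, ∃ m : ℕ, n ≤ m ∧ ω ∈ ess (A m) ∧ ¬ ran (e w) ω m = true)) :=
    Rep.conj (Rep.all fun n => Rep.ex fun m => Rep.conj (rep_grd _)
      (Rep.conj (hrepA m) (rep_splN _ m)))
      (Rep.all fun n => Rep.ex fun m => Rep.conj (rep_grd _)
      (Rep.conj (hrepA m) (rep_splN _ m).neg))
  rw [hrep.iff]
  have h2 : (cohenRandom (L × ℕ) (K × ℕ)).null
      {ω | (classical.inf fun n => ω ∈ ess (A n)) ∧
        ¬ ((∀ n : ℕ, ∃ m : ℕ, n ≤ m ∧ ω ∈ ess (A m) ∧ ran (e w) ω m = true) ∧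
        (∀ n : ℕ, ∃ m : ℕ, n ≤ m ∧ ω ∈ ess (A m) ∧ ¬ ran (e w) ω m = true))} := by
    refine null_criterion_random (hinf.meas.inter hrep.meas.compl) (e w) fun a b => ?_
    have hsupp : ∀ r n, ((a, repl b (e w) r) ∈ ess (A n) ↔ (a, b) ∈ ess (A n)) := by
      intro r n
      refine hCD n _ _ (fun i _ => rfl) (fun i hi => repl_other _ _ _ fun h => ?_)
      obtain ⟨c, d⟩ := i
      change c = e w at h
      subst h
      exact hw d hi
    have hran : ∀ r, ran (e w) (a, repl b (e w) r) = r := by
      intro r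
      unfold ran
      simp only [repl_same]
    by_cases hf : {n | (a, b) ∈ ess (A n)}.Infinite
    · filter_upwards [ae_infinite hf true, ae_infinite hf false] with r hr1 hr2 hmem
      apply hmem.2
      simp only [hsupp, hran]
      refine ⟨hr1, fun n => ?_⟩
      obtain ⟨m, h3, h4, h5⟩ := hr2 n
      exact ⟨m, h3, h4, by simp [h5]⟩
    · filter_upwards with r hmem
      apply hf
      have := hmem.1
      simp only [hsupp] at this
      exact (classical_inf _).1 this
  refine CI.mono _ ?_ (CI.union h1 h2)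
  rintro ω ⟨h3, h4⟩
  by_cases h5 : classical.inf fun n => ω ∈ ess (A n)
  · exact Or.inr ⟨h5, h4⟩
  · exact Or.inl ⟨h3, h5⟩

end Q208.F
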