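import Pool.Agent.Q208.F.SubClassical
import Pool.Agent.Q208.F.CovSplit

/-!
# The classical meaning of the sentences on `cov(M)` and the splitting number
-/

open Cardinal Set Filter Topology

namespace Q208.F

/-- the basic open sets of the Baire space -/
def cylB (s : List ℕ) : Set (ℕ → ℕ) := {x | s = (List.range s.length).map x}

theorem mem_cylB {s : List ℕ} {x : ℕ → ℕ} :
    x ∈ cylB s ↔ ∀ i < s.length, s.getD i 0 = x i := by
  unfold cylB
  rw [mem_ofPred_eq]
  constructor
  · intro h i hi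
    rw [List.getD_eq_getElem _ _ hi]
    have h1 : s[i] = ((List.range s.length).map x)[i]'(by simpa using hi) := by
      congr 1
    rw [h1]
    simp
  · intro h
    apply List.ext_getElem
    · simp
    · intro i h1 h2
      have := h i h1
      rw [List.getD_eq_getElem _ _ h1] at this
      simp [this]

theorem isOpen_cylB (s : List ℕ) : IsOpen (cylB s) := by
  have : cylB s = ⋂ i ∈ Finset.range s.length, {x : ℕ → ℕ | x i = s.getD i 0} := by
    ext x
    simp only [mem_cylB, mem_iInter, Finset.mem_range, mem_ofPred_eq]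
    exact forall_congr' fun i => imp_congr_right fun _ => eq_comm
  rw [this]
  exact isOpen_biInter_finset fun i _ =>
    (isOpen_discrete ({s.getD i 0} : Set ℕ)).preimage (continuous_apply (A := fun _ : ℕ => ℕ) i)

theorem self_mem_cylB (x : ℕ → ℕ) (n : ℕ) : x ∈ cylB ((List.range n).map x) := by
  unfold cylB
  simp

theorem exists_cylB {U : Set (ℕ → ℕ)} (hU : IsOpen U) {x : ℕ → ℕ} (hx : x ∈ U) :
    ∃ n, cylB ((List.range n).map x) ⊆ U := by
  rw [isOpen_pi_iff] at hU
  obtain ⟨F, u, h1, h2⟩ := hU x hx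
  obtain ⟨N, hN⟩ := F.bddAbove
  refine ⟨N + 1, fun y hy => h2 fun i hi => ?_⟩
  rw [mem_cylB] at hy
  have hi' : i ≤ N := hN hi
  have := hy i (by simp; omega)
  rw [List.getD_eq_getElem _ _ (by simp; omega)] at this
  simp only [List.getElem_map, List.getElem_range] at this
  rw [← this]
  exact (h1 i hi).2

/-- every list is an initial segment of a point -/
theorem exists_point (s : List ℕ) : ∃ x : ℕ → ℕ, x ∈ cylB s :=
  ⟨fun i => s.getD i 0, mem_cylB.2 fun _ _ => rfl⟩

theorem cylB_anti {s t : List ℕ} (h : s <+: t) : cylB t ⊆ cylB s := by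
  intro x hx
  rw [mem_cylB] at hx ⊢
  intro i hi
  obtain ⟨r, rfl⟩ := h
  rw [← hx i (by simp; omega), List.getD_append _ _ _ _ hi]

theorem meagre_of_code {C : ℕ → List ℕ → Prop} (h : ∀ k s, ∃ t, s <+: t ∧ ¬ C k t) :
    IsMeagre {x : ℕ → ℕ | ∃ k, ∀ n, C k ((List.range n).map x)} := by
  have h1 : {x : ℕ → ℕ | ∃ k, ∀ n, C k ((List.range n).map x)} =
      ⋃ k, {x | ∀ n, C k ((List.range n).map x)} := by ext; simp
  rw [h1]
  refine isMeagre_iUnion fun k => ?_
  refine residual_of_dense_open ?_ ?_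
  · have : ({x : ℕ → ℕ | ∀ n, C k ((List.range n).map x)})ᶜ =
        ⋃ s : {s : List ℕ // ¬ C k s}, cylB s.1 := by
      ext x
      simp only [mem_compl_iff, mem_ofPred_eq, not_forall, mem_iUnion]
      constructor
      · rintro ⟨n, hn⟩
        exact ⟨⟨_, hn⟩, self_mem_cylB x n⟩
      · rintro ⟨⟨s, hs⟩, hx⟩
        refine ⟨s.length, fun h2 => hs ?_⟩
        have : s = (List.range s.length).map x := hx
        rw [this]; exact h2
    rw [this]
    exact isOpen_iUnion fun s => isOpen_cylB _
  · rw [dense_iff_inter_open]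
    intro U hU ⟨x, hx⟩
    obtain ⟨n, hn⟩ := exists_cylB hU hx
    obtain ⟨t, ht, hCt⟩ := h k ((List.range n).map x)
    obtain ⟨y, hy⟩ := exists_point t
    refine ⟨y, hn (cylB_anti ht hy), ?_⟩
    simp only [mem_compl_iff, mem_ofPred_eq, not_forall]
    refine ⟨t.length, fun h2 => hCt ?_⟩
    have : t = (List.range t.length).map y := hy
    rw [this]; exact h2

theorem range_prefix {a b : ℕ} (h : a ≤ b) : List.range a <+: List.range b := by
  obtain ⟨c, rfl⟩ := Nat.exists_eq_add_of_le h
  rw [List.range_add]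
  exact List.prefix_append _ _

theorem code_of_meagre {A : Set (ℕ → ℕ)} (hA : IsMeagre A) :
    ∃ C : ℕ → List ℕ → Prop, (∀ k s, ∃ t, s <+: t ∧ ¬ C k t) ∧
      ∀ x ∈ A, ∃ k, ∀ n, C k ((List.range n).map x) := by
  have h1 : Aᶜ ∈ residual (ℕ → ℕ) := hA
  rw [mem_residual_iff] at h1
  obtain ⟨D, hD1, hD2, hD3, hD4⟩ := h1
  have hne : (insert Set.univ D).Nonempty := ⟨Set.univ, mem_insert _ _⟩
  obtain ⟨U, hU⟩ := (hD3.insert Set.univ).exists_eq_range hne
  have hUo : ∀ k, IsOpen (U k) := by
    intro k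
    have : U k ∈ insert Set.univ D := by rw [hU]; exact ⟨k, rfl⟩
    rcases this with h | h
    · rw [h]; exact isOpen_univ
    · exact hD1 _ h
  have hUd : ∀ k, Dense (U k) := by
    intro k
    have : U k ∈ insert Set.univ D := by rw [hU]; exact ⟨k, rfl⟩
    rcases this with h | h
    · rw [h]; exact dense_univ
    · exact hD2 _ h
  refine ⟨fun k s => ¬ cylB s ⊆ U k, fun k s => ?_, fun x hx => ?_⟩
  · obtain ⟨y, hy1, hy2⟩ := (hUd k).inter_open_nonempty (cylB s) (isOpen_cylB s) (exists_point s)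
    obtain ⟨n, hn⟩ := exists_cylB (hUo k) hy2
    let m := max n s.length
    refine ⟨(List.range m).map y, ?_, not_not.mpr ?_⟩
    · have h2 : s = (List.range s.length).map y := hy1
      have h3 : (List.range s.length) <+: List.range m := range_prefix (le_max_right _ _)
      rw [h2]
      exact h3.map y
    · refine (cylB_anti ?_).trans hn
      have h3 : (List.range n) <+: List.range m := range_prefix (le_max_left _ _)
      exact h3.map y
  · have h2 : x ∉ ⋂₀ D := fun h => hD4 h hx
    rw [Set.mem_sInter] at h2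
    push Not at h2
    obtain ⟨V, hV, hxV⟩ := h2
    have : V ∈ insert Set.univ D := mem_insert_of_mem _ hV
    rw [hU] at this
    obtain ⟨k, rfl⟩ := this
    exact ⟨k, fun n h => hxV (h (self_mem_cylB x n))⟩

theorem isMeagre_singleton_baire (x : ℕ → ℕ) : IsMeagre {x} := by
  have h := meagre_of_code (C := fun _ s => s = (List.range s.length).map x) (fun _ s => by
    refine ⟨s ++ [x s.length + 1], List.prefix_append _ _, fun h => ?_⟩
    have h2 : (s ++ [x s.length + 1]).getD s.length 0 =
        (((List.range (s ++ [x s.length + 1]).length).map x)).getD s.length 0 := by rw [← h]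
    rw [List.getD_append_right _ _ _ _ le_rfl, List.getD_eq_getElem _ _ (by simp)] at h2
    simp at h2)
  refine h.mono ?_
  rintro _ rfl
  exact ⟨0, fun n => by simp⟩

theorem covMLe_iff (K : Type) : classical.covMLe K ↔ covM ≤ #K := by
  have h0 : covM = sInf {κ : Cardinal.{0} | ∃ F : Set (Set (ℕ → ℕ)), (∀ A ∈ F, IsMeagre A) ∧
      (∀ x : ℕ → ℕ, True → ∃ A ∈ F, x ∈ A) ∧ #F = κ} := by
    unfold covM
    simp only [true_imp_iff]
  rw [h0, ← index_iff (fun A : Set (ℕ → ℕ) => IsMeagre A) (fun _ : ℕ → ℕ => True)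
    (fun x A => x ∈ A) K ⟨fun _ => 0, trivial⟩ (fun x _ => ⟨{x}, isMeagre_singleton_baire x, rfl⟩)]
  unfold TV.covMLe
  simp only [classical_ex, classical_conj, classical_all, classical_imp, classical_meagerCode]
  constructor
  · rintro ⟨C, h1, h2⟩
    refine ⟨fun k => {x | ∃ j, ∀ n, C k j ((List.range n).map x)}, fun k =>
      meagre_of_code (h1 k), fun x _ => ?_⟩
    obtain ⟨k, hk⟩ := h2 (fun n m => x n = m) ((classical_isFun _).2 ⟨x, fun _ _ => Iff.rfl⟩)
    exact ⟨k, (classical_inMeager x (fun _ _ => Iff.rfl) _).1 hk⟩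
  · rintro ⟨X, h1, h2⟩
    choose C hC1 hC2 using fun k => code_of_meagre (h1 k)
    refine ⟨C, hC1, fun R hR => ?_⟩
    obtain ⟨x, hx⟩ := (classical_isFun _).1 hR
    obtain ⟨k, hk⟩ := h2 x trivial
    exact ⟨k, (classical_inMeager x hx _).2 (hC2 k x hk)⟩

theorem splitLe_iff (K : Type) : classical.splitLe K ↔ splitNumber ≤ #K := by
  have h0 : splitNumber = sInf {κ : Cardinal.{0} | ∃ F : Set (Set ℕ), (∀ S ∈ F, True) ∧
      (∀ A : Set ℕ, A.Infinite → ∃ S ∈ F, (A ∩ S).Infinite ∧ (A \ S).Infinite) ∧ #F = κ} := by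
    unfold splitNumber
    simp only [implies_true, true_and]
  rw [h0, ← index_iff (fun _ : Set ℕ => True) (fun A : Set ℕ => A.Infinite)
    (fun A S => (A ∩ S).Infinite ∧ (A \ S).Infinite) K ⟨Set.univ, Set.infinite_univ⟩
    (fun A hA => ?_)]
  · unfold TV.splitLe
    simp only [classical_ex, classical_conj, classical_all, classical_imp, classical_inf,
      classical_lit, classical_grd, classical_neg, implies_true, true_and]
    have h1 : ∀ B : Set ℕ, (∀ n, ∃ m, n ≤ m ∧ m ∈ B) ↔ B.Infinite := by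
      intro B
      rw [Set.infinite_iff_exists_gt]
      constructor
      · intro h a
        obtain ⟨m, h1, h2⟩ := h (a + 1)
        exact ⟨m, h2, h1⟩
      · intro h a
        obtain ⟨m, h1, h2⟩ := h a
        exact ⟨m, h2.le, h1⟩
    constructor
    · rintro ⟨S, hS⟩
      refine ⟨fun k => {n | S k n}, fun A hA => ?_⟩
      obtain ⟨k, h2, h3⟩ := hS (fun n => n ∈ A) hA
      exact ⟨k, (h1 _).1 h2, (h1 _).1 h3⟩
    · rintro ⟨S, hS⟩
      refine ⟨fun k n => n ∈ S k, fun A hA => ?_⟩
      obtain ⟨k, h2, h3⟩ := hS {n | A n} hA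
      exact ⟨k, (h1 _).2 h2, (h1 _).2 h3⟩
  · -- every infinite set is split by some set
    have : Infinite A := hA.to_subtype
    have hA' : {n | n ∈ A}.Infinite := hA
    refine ⟨(Nat.nth (· ∈ A)) '' {n | Even n}, trivial, ?_, ?_⟩
    · refine Set.Infinite.mono ?_ ((Set.infinite_of_injective_forall_mem (f := fun n : ℕ => 2 * n)
        (s := {n | Even n}) (fun a b h => by simpa using h) (fun n => by simp)).image
        ((Nat.nth_injective hA').injOn))
      rintro _ ⟨n, hn, rfl⟩
      exact ⟨Nat.nth_mem_of_infinite hA' n, n, hn, rfl⟩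
    · refine Set.Infinite.mono ?_ ((Set.infinite_of_injective_forall_mem
        (f := fun n : ℕ => 2 * n + 1)
        (s := {n | ¬ Even n}) (fun a b h => by simpa using h) (fun n => by simp)).image
        ((Nat.nth_injective hA').injOn))
      rintro _ ⟨n, hn, rfl⟩
      refine ⟨Nat.nth_mem_of_infinite hA' n, ?_⟩
      rintro ⟨m, hm, hmn⟩
      exact hn ((Nat.nth_injective hA' hmn) ▸ hm)

end Q208.F
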