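import Pool.Agent.Q208.F.SubForce

/-!
# The cardinals `ss_c`, `ss_cc`, `cov(M)`, `s`, and the classical meaning of the sentences
-/

open Cardinal Set Filter Topology

namespace Q208.F

/-- the subseries of `a` along `X`, with terms `a (i_0), a (i_1), ...` for the increasing enumeration
`i_0 < i_1 < ...` of `X`, converges -/
def SubConv (X : Set ℕ) (a : ℕ → ℚ) : Prop :=
  ∃ l : ℝ, Tendsto (fun J => ∑ j ∈ Finset.range J, (a (Nat.nth (· ∈ X) j) : ℝ)) atTop (𝓝 l)

/-- the subseries of `a` along `X` converges conditionally: it converges, but the series of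
the absolute values diverges -/
def SubCondConv (X : Set ℕ) (a : ℕ → ℚ) : Prop :=
  SubConv X a ∧ ¬ Summable fun j => |(a (Nat.nth (· ∈ X) j) : ℝ)|

/-- the series `a` of rational numbers is conditionally convergent -/
def CondConv (a : ℕ → ℚ) : Prop :=
  (∃ l : ℝ, Tendsto (fun n => ∑ i ∈ Finset.range n, (a i : ℝ)) atTop (𝓝 l)) ∧
    ¬ Summable fun i => |(a i : ℝ)|

/-- `ss_c` -/
noncomputable def ssc : Cardinal.{0} :=
  sInf {κ | ∃ F : Set (Set ℕ), (∀ X ∈ F, X.Infinite ∧ Xᶜ.Infinite) ∧
    (∀ a : ℕ → ℚ, CondConv a → ∃ X ∈ F, SubConv X a) ∧ #F = κ}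

/-- `ss_cc` -/
noncomputable def sscc : Cardinal.{0} :=
  sInf {κ | ∃ F : Set (Set ℕ), (∀ X ∈ F, X.Infinite ∧ Xᶜ.Infinite) ∧
    (∀ a : ℕ → ℚ, CondConv a → ∃ X ∈ F, SubCondConv X a) ∧ #F = κ}

/-- `cov(M)`: the least size of a family of meager subsets of the Baire space with union the whole
space -/
noncomputable def covM : Cardinal.{0} :=
  sInf {κ | ∃ F : Set (Set (ℕ → ℕ)), (∀ A ∈ F, IsMeagre A) ∧ (∀ x, ∃ A ∈ F, x ∈ A) ∧ #F = κ}

/-- the splitting number: the least size of a family of sets such that each infinite set `A` is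
split by a member `S` (both `A ∩ S` and `A \ S` are infinite) -/
noncomputable def splitNumber : Cardinal.{0} :=
  sInf {κ | ∃ F : Set (Set ℕ),
    (∀ A : Set ℕ, A.Infinite → ∃ S ∈ F, (A ∩ S).Infinite ∧ (A \ S).Infinite) ∧ #F = κ}

/-! ### Families indexed by a type -/

theorem index_iff {α β : Type} (Q : α → Prop) (Dom : β → Prop) (R : β → α → Prop) (K : Type)
    (hne : ∃ b, Dom b) (hex : ∀ b, Dom b → ∃ x, Q x ∧ R b x) :
    (∃ X : K → α, (∀ k, Q (X k)) ∧ ∀ b, Dom b → ∃ k, R b (X k)) ↔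
      sInf {κ : Cardinal.{0} | ∃ F : Set α, (∀ x ∈ F, Q x) ∧ (∀ b, Dom b → ∃ x ∈ F, R b x) ∧
        #F = κ} ≤ #K := by
  constructor
  · rintro ⟨X, h1, h2⟩
    refine le_trans (csInf_le' ⟨Set.range X, ?_, ?_, rfl⟩) Cardinal.mk_range_le
    · rintro _ ⟨k, rfl⟩; exact h1 k
    · intro b hb
      obtain ⟨k, hk⟩ := h2 b hb
      exact ⟨X k, ⟨k, rfl⟩, hk⟩
  · intro h
    have hnonempty : {κ : Cardinal.{0} | ∃ F : Set α, (∀ x ∈ F, Q x) ∧
        (∀ b, Dom b → ∃ x ∈ F, R b x) ∧ #F = κ}.Nonempty := by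
      refine ⟨_, {x | Q x}, fun x hx => hx, fun b hb => ?_, rfl⟩
      obtain ⟨x, hx, hx'⟩ := hex b hb
      exact ⟨x, hx, hx'⟩
    obtain ⟨F, h1, h2, h3⟩ := csInf_mem hnonempty
    rw [← h3] at h
    obtain ⟨b, hb⟩ := hne
    obtain ⟨x0, hx0, _⟩ := h2 b hb
    obtain ⟨⟨e, he⟩⟩ := h
    have : Nonempty F := ⟨⟨x0, hx0⟩⟩
    refine ⟨fun k => (Function.invFun e k).1, fun k => h1 _ (Function.invFun e k).2,
      fun b hb => ?_⟩
    obtain ⟨x, hx, hx'⟩ := h2 b hb
    refine ⟨e ⟨x, hx⟩, ?_⟩
    beta_reduce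
    rw [Function.leftInverse_invFun he]
    exact hx'

/-! ### Subseries -/

section subseries

open Classical in
theorem sum_nth (X : Set ℕ) (a : ℕ → ℝ) (n : ℕ) :
    ∑ i ∈ Finset.range n, (if i ∈ X then a i else 0) =
      ∑ j ∈ Finset.range (Nat.count (· ∈ X) n), a (Nat.nth (· ∈ X) j) := by
  induction n with
  | zero => simp
  | succ n ih =>
    rw [Finset.sum_range_succ, ih, Nat.count_succ]
    by_cases h : n ∈ X
    · rw [if_pos h, if_pos h, Finset.sum_range_succ, Nat.nth_count h]
    · rw [if_neg h, if_neg h, add_zero, add_zero]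

open Classical in
theorem tendsto_sum_iff {X : Set ℕ} (hX : X.Infinite) (a : ℕ → ℝ) (l : ℝ) :
    Tendsto (fun J => ∑ j ∈ Finset.range J, a (Nat.nth (· ∈ X) j)) atTop (𝓝 l) ↔
      Tendsto (fun n => ∑ i ∈ Finset.range n, (if i ∈ X then a i else 0)) atTop (𝓝 l) := by
  have hX' : {n | n ∈ X}.Infinite := hX
  constructor
  · intro h
    have h1 : Tendsto (Nat.count (· ∈ X)) atTop atTop := by
      refine tendsto_atTop_atTop.mpr fun b => ⟨Nat.nth (· ∈ X) b, fun n hn => ?_⟩
      have := Nat.count_monotone (· ∈ X) hn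
      rwa [Nat.count_nth_of_infinite hX'] at this
    refine (h.comp h1).congr fun n => ?_
    rw [sum_nth]
    rfl
  · intro h
    have h1 : Tendsto (Nat.nth (· ∈ X)) atTop atTop := (Nat.nth_strictMono hX').tendsto_atTop
    refine (h.comp h1).congr fun J => ?_
    rw [Function.comp_apply, sum_nth, Nat.count_nth_of_infinite hX']

open Classical in
theorem cauchy_iff (f : ℕ → ℚ) (X : Set ℕ) :
    (∀ m : ℕ, ∃ N : ℕ, ∀ n n', N ≤ n → n ≤ n' →
      |∑ i ∈ Finset.Ico n n', if i ∈ X then f i else 0| ≤ 1 / ((m : ℚ) + 1)) ↔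
    ∃ l : ℝ, Tendsto (fun n => ∑ i ∈ Finset.range n, (if i ∈ X then (f i : ℝ) else 0)) atTop
      (𝓝 l) := by
  have hcast : ∀ n n' : ℕ, n ≤ n' →
      dist (∑ i ∈ Finset.range n', (if i ∈ X then (f i : ℝ) else 0))
        (∑ i ∈ Finset.range n, (if i ∈ X then (f i : ℝ) else 0)) =
      ((|∑ i ∈ Finset.Ico n n', if i ∈ X then f i else 0| : ℚ) : ℝ) := by
    intro n n' h
    rw [Real.dist_eq, ← Finset.sum_Ico_eq_sub _ h, Rat.cast_abs, Rat.cast_sum]
    congr 1
    refine Finset.sum_congr rfl fun i _ => ?_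
    split_ifs <;> simp
  constructor
  · intro h
    refine cauchySeq_tendsto_of_complete ?_
    rw [Metric.cauchySeq_iff']
    intro ε hε
    obtain ⟨m, hm⟩ := exists_nat_one_div_lt hε
    obtain ⟨N, hN⟩ := h m
    refine ⟨N, fun n hn => ?_⟩
    rw [hcast N n hn]
    refine lt_of_le_of_lt ?_ hm
    have := hN N n le_rfl hn
    have h2 : ((|∑ i ∈ Finset.Ico N n, if i ∈ X then f i else 0| : ℚ) : ℝ) ≤
        ((1 / ((m : ℚ) + 1) : ℚ) : ℝ) := by exact_mod_cast this
    refine h2.trans (le_of_eq ?_)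
    push_cast
    rfl
  · rintro ⟨l, hl⟩ m
    have h1 := hl.cauchySeq
    rw [Metric.cauchySeq_iff] at h1
    obtain ⟨N, hN⟩ := h1 (1 / ((m : ℝ) + 1)) (by positivity)
    refine ⟨N, fun n n' h2 h3 => ?_⟩
    have h4 := hN n' (h2.trans h3) n h2
    rw [hcast n n' h3] at h4
    have h5 : ((|∑ i ∈ Finset.Ico n n', if i ∈ X then f i else 0| : ℚ) : ℝ) ≤
        ((1 / ((m : ℚ) + 1) : ℚ) : ℝ) := by
      refine h4.le.trans (le_of_eq ?_)
      push_cast
      rfl
    exact_mod_cast h5

theorem classical_conv_iff {X : Set ℕ} (hX : X.Infinite) (f : ℕ → ℚ) {a : ℕ → ℚ → Prop}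
    (ha : ∀ n q, a n q ↔ f n = q) : classical.conv (fun i => i ∈ X) a ↔ SubConv X f := by
  classical
  rw [classical_conv X f ha, cauchy_iff]
  unfold SubConv
  exact exists_congr fun l => (tendsto_sum_iff hX (fun i => (f i : ℝ)) l).symm

open Classical in
theorem abs_iff (f : ℕ → ℚ) (X : Set ℕ) :
    (∃ M : ℕ, ∀ n : ℕ, (∑ i ∈ Finset.range n, if i ∈ X then |f i| else 0) ≤ (M : ℚ)) ↔
    ∃ l : ℝ, Tendsto (fun n => ∑ i ∈ Finset.range n, (if i ∈ X then |(f i : ℝ)| else 0)) atTop
      (𝓝 l) := by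
  have hcast : ∀ n : ℕ, ∑ i ∈ Finset.range n, (if i ∈ X then |(f i : ℝ)| else 0) =
      ((∑ i ∈ Finset.range n, if i ∈ X then |f i| else 0 : ℚ) : ℝ) := by
    intro n
    rw [Rat.cast_sum]
    refine Finset.sum_congr rfl fun i _ => ?_
    split_ifs <;> simp
  have hmono : Monotone fun n => ∑ i ∈ Finset.range n, (if i ∈ X then |(f i : ℝ)| else 0) := by
    refine monotone_nat_of_le_succ fun n => ?_
    rw [Finset.sum_range_succ]
    have : 0 ≤ (if n ∈ X then |(f n : ℝ)| else 0) := by split_ifs <;> positivity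
    linarith
  constructor
  · rintro ⟨M, hM⟩
    have hb : BddAbove (Set.range fun n =>
        ∑ i ∈ Finset.range n, (if i ∈ X then |(f i : ℝ)| else 0)) := by
      refine ⟨M, ?_⟩
      rintro _ ⟨n, rfl⟩
      beta_reduce
      rw [hcast]
      exact_mod_cast hM n
    exact ⟨_, tendsto_atTop_ciSup hmono hb⟩
  · rintro ⟨l, hl⟩
    obtain ⟨M, hM⟩ := exists_nat_ge l
    refine ⟨M, fun n => ?_⟩
    have h1 := (hmono.ge_of_tendsto hl n).trans hM
    beta_reduce at h1
    rw [hcast] at h1
    exact_mod_cast h1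

theorem classical_absConv_iff {X : Set ℕ} (hX : X.Infinite) (f : ℕ → ℚ) {a : ℕ → ℚ → Prop}
    (ha : ∀ n q, a n q ↔ f n = q) : classical.absConv (fun i => i ∈ X) a ↔
      Summable fun j => |(f (Nat.nth (· ∈ X) j) : ℝ)| := by
  classical
  rw [classical_absConv X f ha, abs_iff]
  constructor
  · rintro ⟨l, hl⟩
    rw [← tendsto_sum_iff hX] at hl
    exact ((hasSum_iff_tendsto_nat_of_nonneg (fun j => abs_nonneg _) l).mpr hl).summable
  · intro h
    refine ⟨_, (tendsto_sum_iff hX _ _).mp h.hasSum.tendsto_sum_nat⟩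

theorem nth_univ (j : ℕ) : Nat.nth (· ∈ (Set.univ : Set ℕ)) j = j := by
  classical
  have h1 : (fun x => x ∈ (Set.univ : Set ℕ)) = fun _ => True := by funext x; simp
  rw [show Nat.nth (· ∈ (Set.univ : Set ℕ)) = Nat.nth (fun _ => True) from congrArg Nat.nth h1]
  exact Nat.nth_true j

theorem subConv_univ (f : ℕ → ℚ) : SubConv Set.univ f ↔
    ∃ l : ℝ, Tendsto (fun n => ∑ i ∈ Finset.range n, (f i : ℝ)) atTop (𝓝 l) := by
  unfold SubConv
  simp only [nth_univ]

theorem classical_condConv_univ (f : ℕ → ℚ) {a : ℕ → ℚ → Prop}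
    (ha : ∀ n q, a n q ↔ f n = q) :
    classical.condConv classical.everything a ↔ CondConv f := by
  unfold TV.condConv
  rw [classical_conj, classical_neg, classical_everything,
    classical_conv_iff Set.infinite_univ f ha, classical_absConv_iff Set.infinite_univ f ha,
    subConv_univ]
  unfold CondConv
  simp only [nth_univ]

theorem classical_condConv_iff {X : Set ℕ} (hX : X.Infinite) (f : ℕ → ℚ) {a : ℕ → ℚ → Prop}
    (ha : ∀ n q, a n q ↔ f n = q) :
    classical.condConv (fun i => i ∈ X) a ↔ SubCondConv X f := by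
  unfold TV.condConv
  rw [classical_conj, classical_neg, classical_conv_iff hX f ha, classical_absConv_iff hX f ha]
  rfl

end subseries

/-! ### Existence of good subseries -/

/-- some series is conditionally convergent -/
theorem exists_condConv : ∃ a : ℕ → ℚ, CondConv a := by
  -- a point of the product space
  have h1 := mem_condConv (L := Unit) (K := Unit) () () Cond.top
  have hrep := Rep.condConv (rep_everything (I := cohenRandom (Unit × ℕ) (Unit × ℕ)))
    (rep_serN () ())
  have h2 := hrep.iff.1 h1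
  have h3 : ∃ ω : (Unit × ℕ → Bool) × (Unit × ℕ → Bool),
      classical.condConv classical.everything (fun n q => serN () () ω n = q) := by
    by_contra hno
    push Not at hno
    apply (cohenRandom (Unit × ℕ) (Unit × ℕ)).univ
    refine CI.mono _ ?_ h2
    intro ω _
    exact ⟨trivial, hno ω⟩
  obtain ⟨ω, hω⟩ := h3
  exact ⟨serN () () ω, (classical_condConv_univ _ fun _ _ => Iff.rfl).1 hω⟩

/-- a sparse set along which a null sequence is absolutely summable -/
theorem exists_sparse {a : ℕ → ℝ} (ha : Tendsto a atTop (𝓝 0)) :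
    ∃ Z : Set ℕ, Z.Infinite ∧ Zᶜ.Infinite ∧ Summable (Z.indicator fun i => |a i|) := by
  have h1 : ∀ j N : ℕ, ∃ n, N + 1 < n ∧ |a n| ≤ (1 / 2 : ℝ) ^ j := by
    intro j N
    have h2 := ha.abs
    rw [abs_zero] at h2
    have h3 := (h2.eventually (gt_mem_nhds (show (0 : ℝ) < (1 / 2) ^ j by positivity))).and
      (eventually_gt_atTop (N + 1))
    obtain ⟨n, h4, h5⟩ := h3.exists
    exact ⟨n, h5, h4.le⟩
  choose g hg1 hg2 using h1
  let z : ℕ → ℕ := fun j => Nat.rec (g 0 0) (fun j n => g (j + 1) n) j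
  have hz : ∀ j, z (j + 1) = g (j + 1) (z j) := fun j => rfl
  have hz1 : ∀ j, z j + 1 < z (j + 1) := fun j => by rw [hz]; exact hg1 _ _
  have hz2 : ∀ j, |a (z j)| ≤ (1 / 2 : ℝ) ^ j := by
    intro j
    cases j with
    | zero => exact hg2 0 0
    | succ j => rw [hz]; exact hg2 _ _
  have hmono : StrictMono z := strictMono_nat_of_lt_succ fun j => (Nat.lt_succ_self _).trans (hz1 j)
  refine ⟨Set.range z, Set.infinite_range_of_injective hmono.injective, ?_, ?_⟩
  · refine (Set.infinite_range_of_injective (f := fun j => z j + 1) fun i j h => ?_).mono ?_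
    · exact hmono.injective (by simpa using h)
    · rintro _ ⟨j, rfl⟩ ⟨i, hi⟩
      beta_reduce at hi
      rcases lt_or_ge j i with h | h
      · have := hmono.monotone (show j + 1 ≤ i from h)
        have := hz1 j
        omega
      · have := hmono.monotone h
        omega
  · rw [← hmono.injective.summable_iff]
    · refine Summable.of_nonneg_of_le (fun j => ?_) (fun j => ?_) summable_geometric_two
      · simp
      · simp only [Function.comp, Set.mem_range_self, Set.indicator_of_mem]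
        exact hz2 j
    · intro x hx
      exact Set.indicator_of_notMem hx _

theorem CondConv.tendsto {a : ℕ → ℚ} (ha : CondConv a) :
    Tendsto (fun i => (a i : ℝ)) atTop (𝓝 0) := by
  obtain ⟨l, hl⟩ := ha.1
  have h1 := (hl.comp (tendsto_add_atTop_nat 1)).sub hl
  rw [sub_self] at h1
  refine h1.congr fun n => ?_
  simp only [Function.comp]
  rw [Finset.sum_range_succ]
  ring

theorem exists_subCondConv {a : ℕ → ℚ} (ha : CondConv a) :
    ∃ X : Set ℕ, (X.Infinite ∧ Xᶜ.Infinite) ∧ SubCondConv X a := by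
  classical
  obtain ⟨Z, h1, h2, h3⟩ := exists_sparse ha.tendsto
  refine ⟨Zᶜ, ⟨h2, by rwa [compl_compl]⟩, ?_, ?_⟩
  · -- convergence
    obtain ⟨l, hl⟩ := ha.1
    have h4 : Summable (Z.indicator fun i => (a i : ℝ)) := by
      refine Summable.of_norm ?_
      refine h3.congr fun i => ?_
      by_cases hi : i ∈ Z
      · rw [Set.indicator_of_mem hi, Set.indicator_of_mem hi, Real.norm_eq_abs]
      · simp [hi]
    refine ⟨l - ∑' i, Z.indicator (fun i => (a i : ℝ)) i, ?_⟩
    rw [tendsto_sum_iff h2 (fun i => (a i : ℝ))]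
    refine (hl.sub h4.hasSum.tendsto_sum_nat).congr fun n => ?_
    rw [← Finset.sum_sub_distrib]
    refine Finset.sum_congr rfl fun i _ => ?_
    by_cases hi : i ∈ Z
    · simp [hi]
    · simp [hi]
  · intro h4
    apply ha.2
    have h5 : Summable (Zᶜ.indicator fun i => |(a i : ℝ)|) := by
      have hh : HasSum (Zᶜ.indicator fun i => |(a i : ℝ)|)
          (∑' j, |(a (Nat.nth (· ∈ Zᶜ) j) : ℝ)|) := by
        rw [hasSum_iff_tendsto_nat_of_nonneg (fun i => Set.indicator_nonneg
          (fun _ _ => abs_nonneg _) _)]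
        have := (tendsto_sum_iff h2 (fun i => |(a i : ℝ)|) _).mp h4.hasSum.tendsto_sum_nat
        refine this.congr fun n => Finset.sum_congr rfl fun i _ => ?_
        by_cases hi : i ∈ Zᶜ
        · rw [if_pos hi, Set.indicator_of_mem hi]
        · rw [if_neg hi, Set.indicator_of_notMem hi]
      exact hh.summable
    refine (h5.add h3).congr fun i => ?_
    by_cases hi : i ∈ Z
    · simp [hi]
    · simp [hi]

/-! ### The classical meaning of the sentences -/

theorem all_isFun_iff {Y : Type} (Φ : (ℕ → Y) → Prop) (Ψ : (ℕ → Y → Prop) → Prop)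
    (h : ∀ (f : ℕ → Y) (R : ℕ → Y → Prop), (∀ n y, R n y ↔ f n = y) → (Ψ R ↔ Φ f)) :
    (∀ R : ℕ → Y → Prop, classical.isFun R → Ψ R) ↔ ∀ f : ℕ → Y, Φ f := by
  constructor
  · intro h1 f
    exact (h f (fun n y => f n = y) fun _ _ => Iff.rfl).1
      (h1 _ ((classical_isFun _).2 ⟨f, fun _ _ => Iff.rfl⟩))
  · intro h1 R hR
    obtain ⟨f, hf⟩ := (classical_isFun _).1 hR
    exact (h f R hf).2 (h1 f)

theorem sscLe_iff (K : Type) : classical.sscLe K ↔ ssc ≤ #K := by
  unfold ssc
  rw [← index_iff (fun X : Set ℕ => X.Infinite ∧ Xᶜ.Infinite) CondConv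
    (fun a X => SubConv X a) K exists_condConv (fun a ha => by
      obtain ⟨X, h1, h2⟩ := exists_subCondConv ha
      exact ⟨X, h1, h2.1⟩)]
  unfold TV.sscLe
  simp only [classical_ex, classical_conj, classical_all, classical_imp, classical_inf,
    classical_coinf]
  refine exists_congr fun X => and_congr_right fun hX => ?_
  rw [← all_isFun_iff (fun f => CondConv f → ∃ k, SubConv (X k) f)
    (fun R => classical.condConv classical.everything R → ∃ k, classical.conv (X k) R)]
  · exact forall_congr' fun R => by rw [and_imp]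
  · intro f R hR
    rw [classical_condConv_univ f hR]
    refine imp_congr_right fun _ => exists_congr fun k => ?_
    exact classical_conv_iff (hX k).1 f hR

theorem ssccLe_iff (K : Type) : classical.ssccLe K ↔ sscc ≤ #K := by
  unfold sscc
  rw [← index_iff (fun X : Set ℕ => X.Infinite ∧ Xᶜ.Infinite) CondConv
    (fun a X => SubCondConv X a) K exists_condConv (fun a ha => exists_subCondConv ha)]
  unfold TV.ssccLe
  simp only [classical_ex, classical_conj, classical_all, classical_imp, classical_inf,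
    classical_coinf]
  refine exists_congr fun X => and_congr_right fun hX => ?_
  rw [← all_isFun_iff (fun f => CondConv f → ∃ k, SubCondConv (X k) f)
    (fun R => classical.condConv classical.everything R → ∃ k, classical.condConv (X k) R)]
  · exact forall_congr' fun R => by rw [and_imp]
  · intro f R hR
    rw [classical_condConv_univ f hR]
    refine imp_congr_right fun _ => exists_congr fun k => ?_
    exact classical_condConv_iff (hX k).1 f hR

end Q208.F
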