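import Pool.Agent.Q208.F.EqForce
import Pool.Agent.Q208.F.SubClassical

/-!
# The classical meaning of the sentences on `b_b^eq`, `d_b^eq`, `non(E)`, `cov(E)`
-/

open Cardinal Set MeasureTheory Filter Topology
open scoped ENNReal

namespace Q208.F

/-- `X` belongs to the ideal `E`: it is covered by countably many closed sets of measure zero -/
def InE (X : Set (ℕ → Bool)) : Prop :=
  ∃ F : ℕ → Set (ℕ → Bool), (∀ n, IsClosed (F n) ∧ nu ℕ (F n) = 0) ∧ X ⊆ ⋃ n, F n

/-- the uniformity number of the ideal `E` -/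
noncomputable def nonE : Cardinal.{0} := sInf {κ | ∃ X : Set (ℕ → Bool), ¬ InE X ∧ #X = κ}

/-- the covering number of the ideal `E` -/
noncomputable def covE : Cardinal.{0} :=
  sInf {κ | ∃ F : Set (Set (ℕ → Bool)), (∀ A ∈ F, InE A) ∧ (∀ x, ∃ A ∈ F, x ∈ A) ∧ #F = κ}

/-- families indexed by a type and sets of at most that size -/
theorem range_iff {α : Type} (P : Set α → Prop) (h0 : ¬ P ∅) (K : Type) :
    (∃ X : K → α, P (Set.range X)) ↔ ∃ F : Set α, P F ∧ #F ≤ #K := by
  constructor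
  · rintro ⟨X, hX⟩
    exact ⟨_, hX, Cardinal.mk_range_le⟩
  · rintro ⟨F, hF, ⟨e⟩⟩
    have hne : F.Nonempty := by
      by_contra h
      rw [not_nonempty_iff_eq_empty] at h
      exact h0 (h ▸ hF)
    have : Nonempty F := hne.to_subtype
    refine ⟨fun k => (Function.invFun e k).1, ?_⟩
    have h1 : Set.range (fun k => (Function.invFun e k).1) = F := by
      ext a
      constructor
      · rintro ⟨k, rfl⟩
        exact (Function.invFun e k).2
      · intro ha
        refine ⟨e ⟨a, ha⟩, ?_⟩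
        beta_reduce
        rw [Function.leftInverse_invFun e.injective]
    rw [h1]; exact hF

/-! ### Closed null sets and their codes -/

/-- the basic clopen set of the sequence `t` -/
def cylL (t : List Bool) : Set (ℕ → Bool) := {x | t = (List.range t.length).map x}

theorem mem_cylL_iff {t : List Bool} {x : ℕ → Bool} :
    x ∈ cylL t ↔ x ∈ cyl (Finset.range t.length) (fun i => t.getD i false) := by
  unfold cylL cyl
  simp only [mem_ofPred_eq, Finset.mem_range]
  constructor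
  · intro h i hi
    have h1 : t.getD i false = ((List.range t.length).map x).getD i false := by rw [← h]
    rw [h1, List.getD_eq_getElem _ _ (by simpa using hi)]
    simp
  · intro h
    apply List.ext_getElem
    · simp
    · intro i h1 h2
      have := h i h1
      rw [List.getD_eq_getElem _ _ h1] at this
      simp [this]

theorem cylL_eq (t : List Bool) :
    cylL t = cyl (Finset.range t.length) (fun i => t.getD i false) := by
  ext x; exact mem_cylL_iff

theorem isOpen_cylL (t : List Bool) : IsOpen (cylL t) := by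
  rw [cylL_eq]; exact isOpen_cyl _ _

theorem nu_cylL (t : List Bool) : nu ℕ (cylL t) = (2⁻¹ : ℝ≥0∞) ^ t.length := by
  rw [cylL_eq, nu_cyl, Finset.card_range]

theorem isClosed_code (C : List Bool → Prop) :
    IsClosed {x : ℕ → Bool | ∀ n, C ((List.range n).map x)} := by
  have : {x : ℕ → Bool | ∀ n, C ((List.range n).map x)} =
      (⋃ t : {t : List Bool // ¬ C t}, cylL t.1)ᶜ := by
    ext x
    simp only [mem_compl_iff, mem_ofPred_eq, mem_iUnion, not_exists]
    constructor
    · rintro h ⟨t, ht⟩ hx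
      apply ht
      have h1 : t = (List.range t.length).map x := hx
      rw [h1]; exact h _
    · intro h n
      by_contra hC
      refine h ⟨_, hC⟩ ?_
      change _ = _
      simp
  rw [this, isClosed_compl_iff]
  exact isOpen_iUnion fun t => isOpen_cylL _

/-- the code of a closed set -/
def codeC (F : Set (ℕ → Bool)) (t : List Bool) : Prop := (F ∩ cylL t).Nonempty

theorem mem_of_code {F : Set (ℕ → Bool)} (hF : IsClosed F) {x : ℕ → Bool}
    (h : ∀ n, codeC F ((List.range n).map x)) : x ∈ F := by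
  by_contra hx
  obtain ⟨G, hG⟩ := exists_cyl hF.isOpen_compl (show x ∈ Fᶜ from hx)
  obtain ⟨N, hN⟩ := G.bddAbove
  obtain ⟨y, hy1, hy2⟩ := h (N + 1)
  refine hG ?_ hy1
  rw [mem_cylL_iff] at hy2
  intro i hi
  have hi' : i ≤ N := hN hi
  have := hy2 i (by simp; omega)
  rw [this]
  beta_reduce
  rw [List.getD_eq_getElem _ _ (by simp; omega)]
  simp

theorem code_of_mem {F : Set (ℕ → Bool)} {x : ℕ → Bool} (hx : x ∈ F) (n : ℕ) :
    codeC F ((List.range n).map x) := ⟨x, hx, by change _ = _; simp⟩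

/-- codes of closed null sets -/
theorem nullCode_of_closed {F : Set (ℕ → Bool)} (hF : IsClosed F) (h0 : nu ℕ F = 0) (m : ℕ) :
    ∃ n : ℕ, ∀ s : Finset (List Bool), (∀ t ∈ s, t.length = n ∧ codeC F t) →
      (m + 1) * s.card ≤ 2 ^ n := by
  classical
  -- the measures of the neighbourhoods tend to the measure of the set
  let U : ℕ → Set (ℕ → Bool) := fun n => {x | codeC F ((List.range n).map x)}
  have hU : ∀ n, U n = ⋃ t ∈ (finite_lists n).toFinset.filter (codeC F), cylL t := by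
    intro n
    ext x
    simp only [U, mem_ofPred_eq, mem_iUnion, Finset.mem_filter, Set.Finite.mem_toFinset,
      exists_prop]
    constructor
    · intro h
      exact ⟨_, ⟨by simp, h⟩, by change _ = _; simp⟩
    · rintro ⟨t, ⟨h1, h2⟩, h3⟩
      have h4 : t = (List.range t.length).map x := h3
      rw [h1] at h4
      rw [← h4]; exact h2
  have hmeas : ∀ n, MeasurableSet (U n) := by
    intro n
    rw [hU]
    refine Finset.measurableSet_biUnion _ fun t _ => ?_
    rw [cylL_eq]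
    have : cyl (Finset.range t.length) (fun i => t.getD i false) =
        ⋂ i ∈ Finset.range t.length, {x : ℕ → Bool | x i = t.getD i false} := by
      ext x; simp [cyl]
    rw [this]
    exact Finset.measurableSet_biInter _ fun i _ =>
      measurableSet_eq_fun (measurable_pi_apply i) measurable_const
  have hanti : Antitone U := by
    intro n n' h x hx
    obtain ⟨y, hy1, hy2⟩ := hx
    refine ⟨y, hy1, ?_⟩
    have h3 : (List.range n').map x = (List.range n').map y := by
      have : (List.range n').map x = (List.range ((List.range n').map x).length).map y := hy2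
      simpa using this
    have h4 : (List.range n).map x = (List.range n).map y := by
      apply List.map_congr_left
      intro i hi
      have hi' : i < n := List.mem_range.mp hi
      exact List.map_inj_left.mp h3 i (List.mem_range.mpr (by omega))
    change _ = _
    rw [h4]; simp
  have hinter : ⋂ n, U n = F := by
    ext x
    rw [mem_iInter]
    exact ⟨fun h => mem_of_code hF h, fun h n => code_of_mem h n⟩
  have h1 : Tendsto (fun n => nu ℕ (U n)) atTop (𝓝 0) := by
    have := tendsto_measure_iInter_atTop (μ := nu ℕ) (fun n => (hmeas n).nullMeasurableSet) hanti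
      ⟨0, measure_ne_top _ _⟩
    rw [hinter, h0] at this
    exact this
  have h2 : (0 : ℝ≥0∞) < ((m : ℝ≥0∞) + 1)⁻¹ := by
    rw [ENNReal.inv_pos]
    exact ENNReal.add_ne_top.mpr ⟨ENNReal.natCast_ne_top _, ENNReal.one_ne_top⟩
  obtain ⟨n, hn⟩ := (h1.eventually (gt_mem_nhds h2)).exists
  refine ⟨n, fun s hs => ?_⟩
  have h3 : s.card * (2⁻¹ : ℝ≥0∞) ^ n ≤ nu ℕ (U n) := by
    have h4 : (⋃ t ∈ s, cylL t) ⊆ U n := by
      rw [hU]
      intro x hx
      simp only [mem_iUnion, exists_prop] at hx ⊢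
      obtain ⟨t, ht, hxt⟩ := hx
      exact ⟨t, by simpa [finite_lists] using hs t ht, hxt⟩
    refine le_trans ?_ (measure_mono h4)
    rw [measure_biUnion_finset]
    · rw [Finset.sum_congr rfl fun t ht => by rw [nu_cylL, (hs t ht).1], Finset.sum_const,
        nsmul_eq_mul]
    · intro t ht t' ht' hne
      change Disjoint (cylL t) (cylL t')
      rw [Set.disjoint_left]
      intro x hx hx'
      apply hne
      have h5 : t = (List.range t.length).map x := hx
      have h6 : t' = (List.range t'.length).map x := hx'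
      rw [h5, h6, (hs t ht).1, (hs t' ht').1]
    · intro t _
      rw [cylL_eq]
      have : cyl (Finset.range t.length) (fun i => t.getD i false) =
          ⋂ i ∈ Finset.range t.length, {x : ℕ → Bool | x i = t.getD i false} := by
        ext x; simp [cyl]
      rw [this]
      exact Finset.measurableSet_biInter _ fun i _ =>
        measurableSet_eq_fun (measurable_pi_apply i) measurable_const
  have h4 := h3.trans hn.le
  have h5 : ((m : ℝ≥0∞) + 1) * s.card ≤ 2 ^ n := by
    rw [← ENNReal.inv_pow, ← div_eq_mul_inv, ENNReal.div_le_iff (by simp) (by simp),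
      ← ENNReal.div_eq_inv_mul, ENNReal.le_div_iff_mul_le (by simp) (by simp), mul_comm] at h4
    exact h4
  exact_mod_cast h5

theorem inE_of_code {C : ℕ → List Bool → Prop} (hC : classical.nullCode C) :
    InE {x | classical.inE (fun n => x n = true) C} := by
  rw [classical_nullCode] at hC
  refine ⟨fun j => {x | ∀ n, C j ((List.range n).map x)}, fun j => ⟨isClosed_code _, nu_code (hC j)⟩,
    fun x hx => ?_⟩
  rw [mem_ofPred_eq, classical_inE] at hx
  obtain ⟨j, hj⟩ := hx
  exact mem_iUnion.mpr ⟨j, hj⟩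

theorem code_of_inE {X : Set (ℕ → Bool)} (hX : InE X) :
    ∃ C : ℕ → List Bool → Prop, classical.nullCode C ∧
      ∀ x ∈ X, classical.inE (fun n => x n = true) C := by
  obtain ⟨F, hF1, hF2⟩ := hX
  refine ⟨fun j => codeC (F j), (classical_nullCode _).2 fun j m =>
    nullCode_of_closed (hF1 j).1 (hF1 j).2 m, fun x hx => ?_⟩
  rw [classical_inE]
  obtain ⟨j, hj⟩ := mem_iUnion.mp (hF2 hx)
  exact ⟨j, fun n => code_of_mem hj n⟩

theorem inE_iff {X : Set (ℕ → Bool)} : InE X ↔ ∃ C : ℕ → List Bool → Prop, classical.nullCode C ∧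
      ∀ x ∈ X, classical.inE (fun n => x n = true) C := by
  refine ⟨code_of_inE, ?_⟩
  rintro ⟨C, h1, h2⟩
  obtain ⟨F, hF1, hF2⟩ := inE_of_code h1
  exact ⟨F, hF1, fun x hx => hF2 (h2 x hx)⟩

open Classical in
/-- predicates on `ℕ` and characteristic functions -/
noncomputable def toB (X : ℕ → Prop) : ℕ → Bool := fun n => decide (X n)

theorem toB_eq (X : ℕ → Prop) : (fun n => toB X n = true) = X := by
  funext n; simp [toB]

theorem not_inE_univ : ¬ InE (Set.univ : Set (ℕ → Bool)) := by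
  rintro ⟨F, hF1, hF2⟩
  have h1 : nu ℕ (⋃ n, F n) = 0 := measure_iUnion_null fun n => (hF1 n).2
  have h2 : nu ℕ (Set.univ : Set (ℕ → Bool)) = 0 := measure_mono_null hF2 h1
  rw [measure_univ] at h2
  exact one_ne_zero h2

theorem inE_empty : InE ∅ := ⟨fun _ => ∅, fun _ => ⟨isClosed_empty, measure_empty⟩, by simp⟩

theorem nonELe_iff (K : Type) : classical.nonELe K ↔ nonE ≤ #K := by
  have h1 : classical.nonELe K ↔ ∃ x : K → ℕ → Bool, ¬ InE (Set.range x) := by
    unfold TV.nonELe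
    simp only [classical_ex, classical_all, classical_imp, classical_neg, inE_iff]
    constructor
    · rintro ⟨x, hx⟩
      refine ⟨fun i => toB (x i), ?_⟩
      rintro ⟨C, h1, h2⟩
      obtain ⟨i, hi⟩ := hx C h1
      refine hi ?_
      have := h2 _ ⟨i, rfl⟩
      beta_reduce at this
      rwa [toB_eq] at this
    · rintro ⟨x, hx⟩
      refine ⟨fun i n => x i n = true, fun C hC => ?_⟩
      by_contra hno
      push Not at hno
      apply hx
      refine ⟨C, hC, ?_⟩
      rintro _ ⟨i, rfl⟩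
      exact hno i
  rw [h1, range_iff (fun X => ¬ InE X) (not_not.mpr inE_empty)]
  unfold nonE
  constructor
  · rintro ⟨X, h2, h3⟩
    refine le_trans (csInf_le' ?_) h3
    exact ⟨X, h2, rfl⟩
  · intro h
    have hne : {κ : Cardinal.{0} | ∃ X : Set (ℕ → Bool), ¬ InE X ∧ #X = κ}.Nonempty :=
      ⟨_, Set.univ, not_inE_univ, rfl⟩
    obtain ⟨X, h2, h3⟩ := csInf_mem hne
    exact ⟨X, h2, h3 ▸ h⟩

theorem isClosed_singleton_null (x : ℕ → Bool) : nu ℕ {x} = 0 := by
  have h1 : ∀ n : ℕ, nu ℕ {x} ≤ (2⁻¹ : ℝ≥0∞) ^ n := by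
    intro n
    have : ({x} : Set (ℕ → Bool)) ⊆ cyl (Finset.range n) x := by
      rintro _ rfl i _
      rfl
    refine (measure_mono this).trans ?_
    rw [nu_cyl, Finset.card_range]
  have h3 : Tendsto (fun m : ℕ => (2⁻¹ : ℝ≥0∞) ^ m) atTop (𝓝 0) :=
    ENNReal.tendsto_pow_atTop_nhds_zero_of_lt_one (by simp)
  exact le_antisymm (ge_of_tendsto' h3 h1) zero_le

theorem covELe_iff (K : Type) : classical.covELe K ↔ covE ≤ #K := by
  have h0 : covE = sInf {κ : Cardinal.{0} | ∃ F : Set (Set (ℕ → Bool)), (∀ A ∈ F, InE A) ∧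
      (∀ x : ℕ → Bool, True → ∃ A ∈ F, x ∈ A) ∧ #F = κ} := by
    unfold covE
    simp only [true_imp_iff]
  rw [h0, ← index_iff (fun A : Set (ℕ → Bool) => InE A) (fun _ : ℕ → Bool => True)
    (fun x A => x ∈ A) K ⟨fun _ => true, trivial⟩ (fun x _ => ⟨{x}, ⟨fun _ => {x}, fun _ =>
      ⟨isClosed_singleton, isClosed_singleton_null x⟩, fun y hy => mem_iUnion.mpr ⟨0, hy⟩⟩, rfl⟩)]
  unfold TV.covELe
  simp only [classical_ex, classical_conj, classical_all]
  constructor
  · rintro ⟨C, h1, h2⟩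
    refine ⟨fun i => {x | classical.inE (fun n => x n = true) (C i)}, fun i =>
      inE_of_code (h1 i), fun x _ => ?_⟩
    exact h2 fun n => x n = true
  · rintro ⟨X, h1, h2⟩
    choose C hC1 hC2 using fun i => code_of_inE (h1 i)
    refine ⟨C, hC1, fun x => ?_⟩
    obtain ⟨i, hi⟩ := h2 (toB x) trivial
    refine ⟨i, ?_⟩
    have := hC2 i _ hi
    rwa [toB_eq] at this

theorem all_isFun_iff' {Y : Type} (Φ : (ℕ → Y) → Prop) (Ψ : (ℕ → Y → Prop) → Prop)
    (hΨ : ∀ R, Ψ R → classical.isFun R)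
    (h : ∀ (f : ℕ → Y) (R : ℕ → Y → Prop), (∀ n y, R n y ↔ f n = y) → (Ψ R ↔ Φ f)) :
    (∃ R : ℕ → Y → Prop, Ψ R) ↔ ∃ f : ℕ → Y, Φ f := by
  constructor
  · rintro ⟨R, hR⟩
    obtain ⟨f, hf⟩ := (classical_isFun _).1 (hΨ R hR)
    exact ⟨f, (h f R hf).1 hR⟩
  · rintro ⟨f, hf⟩
    exact ⟨fun n y => f n = y, (h f _ fun _ _ => Iff.rfl).2 hf⟩

/-- The meaning of `b_b^eq ≤ |K|`. -/
theorem bEqLe_iff (K : Type) {b : ℕ → ℕ} (hb : ∀ k, 1 ≤ b k) :
    classical.bEqLe K (fun k m => b k = m) ↔ ∃ F : Set (ℕ → ℕ), (∀ f ∈ F, InProd b f) ∧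
      (¬ ∃ I h : ℕ → ℕ, IsPart I ∧ InProd b h ∧ ∀ f ∈ F, EvEq f I h) ∧ #F ≤ #K := by
  have h1 : (∃ F : Set (ℕ → ℕ), (∀ f ∈ F, InProd b f) ∧
      (¬ ∃ I h : ℕ → ℕ, IsPart I ∧ InProd b h ∧ ∀ f ∈ F, EvEq f I h) ∧ #F ≤ #K) ↔
      ∃ F : Set (ℕ → ℕ), ((∀ f ∈ F, InProd b f) ∧
      (¬ ∃ I h : ℕ → ℕ, IsPart I ∧ InProd b h ∧ ∀ f ∈ F, EvEq f I h)) ∧ #F ≤ #K := by
    simp only [and_assoc]
  rw [h1, ← range_iff]
  · unfold TV.bEqLe
    simp only [classical_ex, classical_conj, classical_all, classical_imp, classical_neg]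
    constructor
    · rintro ⟨F, hF1, hF2⟩
      choose g hg using fun i => (classical_isFun _).1 (prod_isFun (hF1 i))
      refine ⟨g, ?_, ?_⟩
      · rintro _ ⟨i, rfl⟩
        exact (classical_inProd (fun _ _ => Iff.rfl) (hg i)).1 (hF1 i)
      · rintro ⟨I, h, hI, hh, hev⟩
        obtain ⟨i, hi⟩ := hF2 (fun n m => I n = m) (fun n m => h n = m)
          ⟨(classical_part fun _ _ => Iff.rfl).2 hI,
            (classical_inProd (fun _ _ => Iff.rfl) fun _ _ => Iff.rfl).2 hh⟩
        exact hi ((classical_evEq (hg i) (fun _ _ => Iff.rfl) fun _ _ => Iff.rfl).2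
          (hev _ ⟨i, rfl⟩))
    · rintro ⟨g, hg1, hg2⟩
      refine ⟨fun i n m => g i n = m, fun i => (classical_inProd (fun _ _ => Iff.rfl)
        fun _ _ => Iff.rfl).2 (hg1 _ ⟨i, rfl⟩), fun RI Rh hR => ?_⟩
      by_contra hno
      push Not at hno
      obtain ⟨I, hI⟩ := (classical_isFun _).1 hR.1.1
      obtain ⟨h, hh⟩ := (classical_isFun _).1 (prod_isFun hR.2)
      apply hg2
      refine ⟨I, h, (classical_part hI).1 hR.1, (classical_inProd (fun _ _ => Iff.rfl) hh).1 hR.2,
        ?_⟩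
      rintro _ ⟨i, rfl⟩
      exact (classical_evEq (fun _ _ => Iff.rfl) hI hh).1 (hno i)
  · rintro ⟨_, h⟩
    apply h
    exact ⟨id, fun _ => 0, ⟨rfl, strictMono_id⟩, fun k => hb k, by simp⟩

/-- The meaning of `d_b^eq ≤ |K|`. -/
theorem dEqLe_iff (K : Type) {b : ℕ → ℕ} (hb : ∀ k, 1 ≤ b k) :
    classical.dEqLe K (fun k m => b k = m) ↔ ∃ D : Set ((ℕ → ℕ) × (ℕ → ℕ)),
      (∀ d ∈ D, IsPart d.1 ∧ InProd b d.2) ∧
      (∀ f : ℕ → ℕ, InProd b f → ∃ d ∈ D, EvEq f d.1 d.2) ∧ #D ≤ #K := by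
  have h1 : (∃ D : Set ((ℕ → ℕ) × (ℕ → ℕ)), (∀ d ∈ D, IsPart d.1 ∧ InProd b d.2) ∧
      (∀ f : ℕ → ℕ, InProd b f → ∃ d ∈ D, EvEq f d.1 d.2) ∧ #D ≤ #K) ↔
      ∃ D : Set ((ℕ → ℕ) × (ℕ → ℕ)), ((∀ d ∈ D, IsPart d.1 ∧ InProd b d.2) ∧
      (∀ f : ℕ → ℕ, InProd b f → ∃ d ∈ D, EvEq f d.1 d.2)) ∧ #D ≤ #K := by
    simp only [and_assoc]
  rw [h1, ← range_iff]
  · unfold TV.dEqLe
    simp only [classical_ex, classical_conj, classical_all, classical_imp]
    constructor
    · rintro ⟨RI, Rh, hR1, hR2⟩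
      choose I hI using fun i => (classical_isFun _).1 (hR1 i).1.1
      choose h hh using fun i => (classical_isFun _).1 (prod_isFun (hR1 i).2)
      refine ⟨fun i => (I i, h i), ?_, fun f hf => ?_⟩
      · rintro _ ⟨i, rfl⟩
        exact ⟨(classical_part (hI i)).1 (hR1 i).1,
          (classical_inProd (fun _ _ => Iff.rfl) (hh i)).1 (hR1 i).2⟩
      · obtain ⟨i, hi⟩ := hR2 (fun n m => f n = m)
          ((classical_inProd (fun _ _ => Iff.rfl) fun _ _ => Iff.rfl).2 hf)
        exact ⟨_, ⟨i, rfl⟩, (classical_evEq (fun _ _ => Iff.rfl) (hI i) (hh i)).1 hi⟩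
    · rintro ⟨X, hX1, hX2⟩
      refine ⟨fun i n m => (X i).1 n = m, fun i n m => (X i).2 n = m, fun i =>
        ⟨(classical_part fun _ _ => Iff.rfl).2 (hX1 _ ⟨i, rfl⟩).1,
          (classical_inProd (fun _ _ => Iff.rfl) fun _ _ => Iff.rfl).2 (hX1 _ ⟨i, rfl⟩).2⟩,
        fun R hR => ?_⟩
      obtain ⟨f, hf⟩ := (classical_isFun _).1 (prod_isFun hR)
      obtain ⟨_, ⟨i, rfl⟩, h2⟩ := hX2 f ((classical_inProd (fun _ _ => Iff.rfl) hf).1 hR)
      exact ⟨i, (classical_evEq hf (fun _ _ => Iff.rfl) fun _ _ => Iff.rfl).2 h2⟩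
  · rintro ⟨_, h⟩
    obtain ⟨d, hd, _⟩ := h (fun _ => 0) fun k => hb k
    exact hd

end Q208.F
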