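import Pool.Agent.Q208.F.EqProb

/-!
# Random reals and the cardinals `b_b^eq`, `d_b^eq`, `non(E)`, `cov(E)`
-/

open Cardinal Set MeasureTheory Filter Topology
open scoped ENNReal

namespace Q208.F

variable {L K W : Type}

/-! ### Values of names of functions -/

/-- the value at `ω` of the function with the name `x` -/
noncomputable def fval (x : ℕ → ℕ → Set (CR L K)) (ω : (L × ℕ → Bool) × (K × ℕ → Bool)) : ℕ → ℕ :=
  fun n => sInf {m | ω ∈ ess (x n m)}

theorem fval_spec {x : ℕ → ℕ → Set (CR L K)} {ω : (L × ℕ → Bool) × (K × ℕ → Bool)}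
    (h : classical.isFun fun n m => ω ∈ ess (x n m)) (n m : ℕ) :
    ω ∈ ess (x n m) ↔ fval x ω n = m := by
  obtain ⟨f, hf⟩ := (classical_isFun _).1 h
  have h1 : fval x ω n = f n := by
    unfold fval
    have : {m | ω ∈ ess (x n m)} = {f n} := by
      ext m
      rw [mem_ofPred_eq, hf, mem_singleton_iff, eq_comm]
    rw [this, csInf_singleton]
  rw [h1]; exact hf n m

theorem measurable_sInf {α : Type*} [MeasurableSpace α] {P : α → ℕ → Prop}
    (hP : ∀ c, MeasurableSet {x | P x c}) : Measurable fun x => sInf {c | P x c} := by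
  classical
  have h1 : ∀ x, ∃ N, P x N ∨ ∀ c, ¬ P x c := by
    intro x
    by_cases h : ∃ c, P x c
    · obtain ⟨c, hc⟩ := h
      exact ⟨c, Or.inl hc⟩
    · push Not at h
      exact ⟨0, Or.inr h⟩
  have h2 : (fun x => sInf {c | P x c}) = fun x => Nat.find (h1 x) := by
    funext x
    by_cases h : ∃ c, P x c
    · have hne : {c | P x c}.Nonempty := h
      rw [Nat.sInf_def hne]
      refine le_antisymm (Nat.find_min' _ ?_) (Nat.find_min' _ (Or.inl (Nat.find_spec hne)))
      rcases Nat.find_spec (h1 x) with h3 | h3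
      · exact h3
      · obtain ⟨c, hc⟩ := h
        exact absurd hc (h3 c)
    · push Not at h
      have h3 : {c | P x c} = ∅ := by
        ext c; simp [h c]
      rw [h3, Nat.sInf_empty, eq_comm, Nat.find_eq_zero]
      exact Or.inr h
  rw [h2]
  refine measurable_find _ fun N => ?_
  have h3 : {x | P x N ∨ ∀ c, ¬ P x c} = {x | P x N} ∪ ⋂ c, {x | P x c}ᶜ := by
    ext x; simp
  rw [h3]
  exact (hP N).union (MeasurableSet.iInter fun c => (hP c).compl)

theorem measurable_fval (x : ℕ → ℕ → Set (CR L K)) : Measurable (fval x) :=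
  measurable_pi_iff.mpr fun n => measurable_sInf fun m => ess_measurable (x n m)

theorem free_fval {x : ℕ → ℕ → Set (CR L K)} {k : K} (h : Free k fun p : ℕ × ℕ => x p.1 p.2)
    (a : L × ℕ → Bool) (b : K × ℕ → Bool) (r : ℕ → Bool) :
    fval x (a, repl b k r) = fval x (a, b) := by
  funext n
  unfold fval
  congr 1
  ext m
  exact h a b r (n, m)

/-! ### Measurability -/

theorem measurable_ipart (n : ℕ) : Measurable fun b : ℕ → ℕ => ipart b n := by
  refine measurable_sInf fun c => ?_
  refine measurableSet_le measurable_const (Finset.measurable_sum _ fun k _ => ?_)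
  exact (Measurable.of_discrete (f := fun m : ℕ => 1 / (m : ℝ))).comp (measurable_pi_apply k)

theorem measurableSet_hh (n m : ℕ) :
    MeasurableSet {p : (ℕ → ℕ) × (ℕ → Bool) | hh p.1 p.2 n = m} := by
  have h1 : {p : (ℕ → ℕ) × (ℕ → Bool) | hh p.1 p.2 n = m} =
      ⋃ c : ℕ, ({p : (ℕ → ℕ) × (ℕ → Bool) | p.1 n = c} ∩
        {p | hh (fun _ => c) p.2 n = m}) := by
    ext p
    simp only [mem_ofPred_eq, mem_iUnion, mem_inter_iff, exists_eq_left']
    unfold hh
    exact Iff.rfl
  rw [h1]
  refine MeasurableSet.iUnion fun c => MeasurableSet.inter ?_ ?_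
  · exact measurableSet_eq_fun ((measurable_pi_apply n).comp measurable_fst) measurable_const
  · have h2 : {p : (ℕ → ℕ) × (ℕ → Bool) | hh (fun _ => c) p.2 n = m} =
        Prod.snd ⁻¹' {r : ℕ → Bool | hh (fun _ => c) r n = m} := rfl
    rw [h2]
    refine measurable_snd ?_
    -- a set depending on finitely many coordinates
    let Lc := Nat.clog 2 c
    have h3 : {r : ℕ → Bool | hh (fun _ => c) r n = m} =
        (fun r : ℕ → Bool => fun i : Fin Lc => r (Nat.pair n i.1)) ⁻¹'
          {s : Fin Lc → Bool | (if Nat.ofBits s < c then Nat.ofBits s else 0) = m} := rfl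
    rw [h3]
    have h4 : Measurable fun r : ℕ → Bool => fun i : Fin Lc => r (Nat.pair n i.1) :=
      measurable_pi_iff.mpr fun i => measurable_pi_apply _
    exact h4 (Set.toFinite _).measurableSet

/-- the name of the interval partition -/
noncomputable def nmI (b : ℕ → ℕ → Set (CR L K)) : ℕ → ℕ → Set (CR L K) :=
  nm fun ω => ipart (fval b ω)

/-- the name of the random member of `∏ b` -/
noncomputable def nmH (b : ℕ → ℕ → Set (CR L K)) (k : K) : ℕ → ℕ → Set (CR L K) :=
  nm fun ω => hh (fval b ω) (ran k ω)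

theorem rep_nmI (b : ℕ → ℕ → Set (CR L K)) (n m : ℕ) :
    Rep ((forcing (CR L K)).lit (nmI b n m)) (fun ω => ipart (fval b ω) n = m) :=
  rep_nm (((measurable_ipart n).comp (measurable_fval b)) (measurableSet_singleton m))

theorem rep_nmH (b : ℕ → ℕ → Set (CR L K)) (k : K) (n m : ℕ) :
    Rep ((forcing (CR L K)).lit (nmH b k n m)) (fun ω => hh (fval b ω) (ran k ω) n = m) := by
  refine rep_nm ?_
  have h1 : Measurable fun ω : (L × ℕ → Bool) × (K × ℕ → Bool) => (fval b ω, ran k ω) :=
    (measurable_fval b).prodMk (measurable_pi_iff.mpr fun n => measurable_ran k n)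
  exact h1 (measurableSet_hh n m)

theorem rep_ess (x : ℕ → ℕ → Set (CR L K)) (n m : ℕ) :
    Rep ((forcing (CR L K)).lit (x n m)) (fun ω => ω ∈ ess (x n m)) := rep_lit _

/-! ### The forced sentences -/

theorem div_isFun {B : ℕ → ℕ → Prop} (h : classical.divergent B) : classical.isFun B := h.1

theorem prod_isFun {B F : ℕ → ℕ → Prop} (h : classical.inProd B F) : classical.isFun F := h.1

theorem mem_part {b : ℕ → ℕ → Set (CR L K)} {p : CR L K} (hp : p ∈ (forcing (CR L K)).divergent b) :
    p ∈ (forcing (CR L K)).part (nmI b) := by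
  refine mem_of_imp (Rep.divergent (B := fun ω n m => ω ∈ ess (b n m)) (rep_ess b))
    (Rep.part (R := fun ω n m => ipart (fval b ω) n = m) (rep_nmI b)) (fun ω h => ?_) hp
  have h1 := (classical_divergent (fval_spec (div_isFun h))).1 h
  exact (classical_part fun _ _ => Iff.rfl).2 (isPart_ipart h1.2 h1.1)

theorem mem_inProd {b : ℕ → ℕ → Set (CR L K)} (k : K) {p : CR L K}
    (hp : p ∈ (forcing (CR L K)).divergent b) :
    p ∈ (forcing (CR L K)).inProd b (nmH b k) := by
  refine mem_of_imp (Rep.divergent (B := fun ω n m => ω ∈ ess (b n m)) (rep_ess b))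
    (Rep.inProd (B := fun ω n m => ω ∈ ess (b n m))
      (R := fun ω n m => hh (fval b ω) (ran k ω) n = m) (rep_ess b) (rep_nmH b k))
    (fun ω h => ?_) hp
  have h1 := (classical_divergent (fval_spec (div_isFun h))).1 h
  exact (classical_inProd (fval_spec (div_isFun h)) fun _ _ => Iff.rfl).2 (hh_lt h1.1 _)

theorem mem_evEq {b f : ℕ → ℕ → Set (CR L K)} {k : K} (hbk : Free k fun p : ℕ × ℕ => b p.1 p.2)
    (hfk : Free k fun p : ℕ × ℕ => f p.1 p.2) {p : CR L K}
    (hb : p ∈ (forcing (CR L K)).divergent b) (hf : p ∈ (forcing (CR L K)).inProd b f) :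
    p ∈ (forcing (CR L K)).evEq f (nmI b) (nmH b k) := by
  refine mem_of_random (Rep.conj
      (Rep.divergent (B := fun ω n m => ω ∈ ess (b n m)) (rep_ess b))
      (Rep.inProd (B := fun ω n m => ω ∈ ess (b n m)) (R := fun ω n m => ω ∈ ess (f n m))
        (rep_ess b) (rep_ess f)))
    (Rep.evEq (Rf := fun ω n m => ω ∈ ess (f n m)) (RJ := fun ω n m => ipart (fval b ω) n = m)
      (Rh := fun ω n m => hh (fval b ω) (ran k ω) n = m) (rep_ess f) (rep_nmI b) (rep_nmH b k))
    k (fun x y => ?_) (mem_conj.2 ⟨hb, hf⟩)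
  have hsb : ∀ r n m, ((x, repl y k r) ∈ ess (b n m) ↔ (x, y) ∈ ess (b n m)) :=
    fun r n m => hbk x y r (n, m)
  have hsf : ∀ r n m, ((x, repl y k r) ∈ ess (f n m) ↔ (x, y) ∈ ess (f n m)) :=
    fun r n m => hfk x y r (n, m)
  simp only [hsb, hsf, free_fval hbk, ran_repl]
  by_cases h : classical.divergent (fun n m => (x, y) ∈ ess (b n m)) ∧
      classical.inProd (fun n m => (x, y) ∈ ess (b n m)) (fun n m => (x, y) ∈ ess (f n m))
  · have h1 := (classical_divergent (fval_spec (div_isFun h.1))).1 h.1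
    have h2 := (classical_inProd (fval_spec (div_isFun h.1)) (fval_spec (prod_isFun h.2))).1 h.2
    filter_upwards [ae_evEq h1.2 h1.1 h2] with r hr _
    exact (classical_evEq (fval_spec (prod_isFun h.2)) (fun _ _ => Iff.rfl)
      (fun _ _ => Iff.rfl)).2 hr
  · filter_upwards with r hr
    exact absurd hr h

/-- `b_b^eq` is larger than all ground model cardinals below `|K|` -/
theorem not_bEqLe (hW : #W < #K) (hK : ℵ₀ < #K) (p : CR L K) :
    p ∈ (forcing (CR L K)).all fun b : ℕ → ℕ → Set (CR L K) =>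
      (forcing (CR L K)).imp ((forcing (CR L K)).divergent b)
        ((forcing (CR L K)).neg ((forcing (CR L K)).bEqLe W b)) := by
  refine mem_all.2 fun b => mem_imp.2 fun q _ hqb => ⟨q, le_rfl, fun r hr hbad => ?_⟩
  obtain ⟨s, hs, F, hF1, hF2⟩ := mem_ex.1 hbad r le_rfl
  obtain ⟨k, hkb, hkF⟩ := exists_free hW hK (fun (w : W) (p : ℕ × ℕ) => F w p.1 p.2)
    (rsupp_countable fun p : ℕ × ℕ => b p.1 p.2)
  have hdown : Down ((forcing (CR L K)).divergent b) := by
    refine down_conj (down_isFun _) (down_conj (down_all fun _ => down_neg _)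
      (down_all fun _ => down_ex _))
  have hsb : s ∈ (forcing (CR L K)).divergent b := hdown _ hqb _ (hs.trans hr)
  obtain ⟨t, ht, hex⟩ := mem_imp.1 (hF2 (nmI b) (nmH b k)) s le_rfl
    ⟨mem_part hsb, mem_inProd k hsb⟩
  obtain ⟨u, hu, w, hw⟩ := mem_ex.1 hex t le_rfl
  have hub : u ∈ (forcing (CR L K)).divergent b := hdown _ hsb _ (hu.trans ht)
  have huF : u ∈ (forcing (CR L K)).inProd b (F w) := by
    refine down_conj (down_isFun _) (down_all fun _ => down_all fun _ => down_all fun _ =>
      down_imp _ _) _ (hF1 w) _ (hu.trans ht)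
  exact hw u le_rfl (mem_evEq (free_of_notMem hkb) (hkF w) hub huF)

/-- `d_b^eq` is at most the size of any uncountable subset of the index set -/
theorem mem_dEqLe (e : W ↪ K) (hW : ¬ Countable W) (p : CR L K) :
    p ∈ (forcing (CR L K)).all fun b : ℕ → ℕ → Set (CR L K) =>
      (forcing (CR L K)).imp ((forcing (CR L K)).divergent b) ((forcing (CR L K)).dEqLe W b) := by
  refine mem_all.2 fun b => mem_imp.2 fun q _ hqb => ⟨q, le_rfl, ?_⟩
  have hdown : Down ((forcing (CR L K)).divergent b) := by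
    refine down_conj (down_isFun _) (down_conj (down_all fun _ => down_neg _)
      (down_all fun _ => down_ex _))
  refine mem_ex_of_mem (fun _ => nmI b) (down_ex _) (mem_ex_of_mem (fun w => nmH b (e w))
    (down_conj (down_all fun _ => down_conj (down_conj (down_isFun _) (down_conj (down_lit _)
      (down_all fun _ => down_all fun _ => down_all fun _ => down_imp _ _)))
      (down_conj (down_isFun _) (down_all fun _ => down_all fun _ => down_all fun _ =>
      down_imp _ _))) (down_all fun _ => down_imp _ _)) ⟨fun w => ⟨mem_part hqb,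
        mem_inProd (e w) hqb⟩, fun f => ?_⟩)
  refine mem_imp.2 fun r hr hrf => ?_
  obtain ⟨w, hw⟩ := exists_notMem_of_embedding e hW
    ((rsupp_countable fun p : ℕ × ℕ => b p.1 p.2).union
      (rsupp_countable fun p : ℕ × ℕ => f p.1 p.2))
  refine ⟨r, le_rfl, mem_ex_of_mem w (down_ex _) ?_⟩
  exact mem_evEq (free_of_notMem fun h => hw (Or.inl h)) (free_of_notMem fun h => hw (Or.inr h))
    (hdown _ hqb _ hr) hrf

/-! ### The ideal `E` -/

/-- the name of the random real as a set of natural numbers -/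
def nmX (k : K) : ℕ → Set (CR L K) := nmS fun ω n => ran k ω n = true

theorem rep_nmX (k : K) (n : ℕ) :
    Rep ((forcing (CR L K)).lit (nmX k n)) (fun ω => ran k ω n = true) :=
  rep_nmS ((measurable_ran k n) (measurableSet_singleton true))

theorem mem_not_inE {C : ℕ → List Bool → Set (CR L K)} {k : K}
    (hk : Free k fun p : ℕ × List Bool => C p.1 p.2) {p : CR L K}
    (hC : p ∈ (forcing (CR L K)).nullCode C) :
    p ∈ (forcing (CR L K)).neg ((forcing (CR L K)).inE (nmX k) C) := by
  have hrep : ∀ j t, Rep ((forcing (CR L K)).lit (C j t)) (fun ω => ω ∈ ess (C j t)) :=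
    fun j t => rep_lit _
  refine mem_of_random (Rep.nullCode (S := fun ω j t => ω ∈ ess (C j t)) hrep)
    (Rep.neg (Rep.inE (X := fun ω n => ran k ω n = true) (S := fun ω j t => ω ∈ ess (C j t))
      (rep_nmX k) hrep)) k (fun x y => ?_) hC
  have hsC : ∀ r j t, ((x, repl y k r) ∈ ess (C j t) ↔ (x, y) ∈ ess (C j t)) :=
    fun r j t => hk x y r (j, t)
  simp only [hsC, ran_repl]
  by_cases h : classical.nullCode fun j t => (x, y) ∈ ess (C j t)
  · filter_upwards [ae_not_inE h] with r hr _
    exact hr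
  · filter_upwards with r hr
    exact absurd hr h

theorem mem_nonELe (e : W ↪ K) (hW : ¬ Countable W) (p : CR L K) :
    p ∈ (forcing (CR L K)).nonELe W := by
  refine mem_ex_of_mem (fun w => nmX (e w)) (down_all fun _ => down_imp _ _) fun C => ?_
  refine mem_imp.2 fun q _ hq => ?_
  obtain ⟨w, hw⟩ := exists_notMem_of_embedding e hW
    (rsupp_countable fun p : ℕ × List Bool => C p.1 p.2)
  exact ⟨q, le_rfl, mem_ex_of_mem w (down_neg _) (mem_not_inE (free_of_notMem hw) hq)⟩

theorem not_covELe (hW : #W < #K) (hK : ℵ₀ < #K) (p : CR L K) :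
    p ∈ (forcing (CR L K)).neg ((forcing (CR L K)).covELe W) := by
  intro q _ hq
  obtain ⟨r, hr, C, hC1, hC2⟩ := mem_ex.1 hq q le_rfl
  obtain ⟨k, _, hk⟩ := exists_free hW hK (fun (w : W) (p : ℕ × List Bool) => C w p.1 p.2)
    Set.countable_empty
  obtain ⟨s, hs, w, hw⟩ := mem_ex.1 (hC2 (nmX k)) r le_rfl
  have hdown : Down ((forcing (CR L K)).nullCode (C w)) :=
    down_all fun _ => down_all fun _ => down_ex _
  exact mem_not_inE (hk w) (hdown _ (hC1 w) _ hs) s le_rfl hw

end Q208.F
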