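import Pool.Agent.Q208.F.EqSent

/-!
# Random members of `∏ b` and random points: the probability estimates
-/

open Cardinal Set MeasureTheory Filter Topology
open scoped ENNReal

namespace Q208.F

/-! ### A random member of `∏ b` -/

/-- the number coded by the first `L` bits -/
def cod (L : ℕ) (s : ℕ → Bool) : ℕ := Nat.ofBits (n := L) fun i => s i.1

theorem cod_eq_iff {L : ℕ} {s : ℕ → Bool} {m : ℕ} (hm : m < 2 ^ L) :
    cod L s = m ↔ ∀ i < L, s i = m.testBit i := by
  constructor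
  · rintro rfl i hi
    exact (Nat.testBit_ofBits_lt (fun j : Fin L => s j.1) i hi).symm
  · intro h
    refine Nat.eq_of_testBit_eq fun i => ?_
    by_cases hi : i < L
    · rw [cod, Nat.testBit_ofBits_lt _ _ hi]
      exact h i hi
    · rw [cod, Nat.testBit_ofBits_ge _ _ (not_lt.mp hi)]
      symm
      exact Nat.testBit_lt_two_pow (hm.trans_le (Nat.pow_le_pow_right (by norm_num) (not_lt.mp hi)))

/-- a random member of `∏ b` -/
def hh (b : ℕ → ℕ) (r : ℕ → Bool) (k : ℕ) : ℕ :=
  if cod (Nat.clog 2 (b k)) (blk r k) < b k then cod (Nat.clog 2 (b k)) (blk r k) else 0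

theorem hh_lt {b : ℕ → ℕ} (hb : ∀ k, b k ≠ 0) (r : ℕ → Bool) (k : ℕ) : hh b r k < b k := by
  unfold hh
  split_ifs with h
  · exact h
  · exact Nat.pos_of_ne_zero (hb k)

theorem nu_cod (L m : ℕ) : nu ℕ {s | ∀ i < L, s i = m.testBit i} = (2⁻¹ : ℝ≥0∞) ^ L := by
  have h1 : {s : ℕ → Bool | ∀ i < L, s i = m.testBit i} =
      cyl (Finset.range L) (fun i => m.testBit i) := by
    ext s; simp [cyl]
  rw [h1, nu_cyl, Finset.card_range]

theorem measurableSet_cod (L m : ℕ) : MeasurableSet {s : ℕ → Bool | ∀ i < L, s i = m.testBit i} := by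
  have h1 : {s : ℕ → Bool | ∀ i < L, s i = m.testBit i} =
      ⋂ i ∈ Finset.range L, {s | s i = m.testBit i} := by
    ext s; simp
  rw [h1]
  exact Finset.measurableSet_biInter _ fun i _ =>
    measurableSet_eq_fun (measurable_pi_apply i) measurable_const

/-- the probability of missing `m` is at most `exp (-1 / (2 b))` -/
theorem nu_miss_le {b : ℕ} (hb : b ≠ 0) (m : ℕ) :
    nu ℕ {s | ∀ i < Nat.clog 2 b, s i = m.testBit i}ᶜ ≤
      ENNReal.ofReal (Real.exp (-(1 / (2 * (b : ℝ))))) := by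
  rw [prob_compl_eq_one_sub (measurableSet_cod _ _), nu_cod]
  set L := Nat.clog 2 b
  have h1 : (2 : ℝ) ^ L ≤ 2 * b := by
    rcases Nat.lt_or_ge 1 b with h | h
    · have h2 := Nat.pow_pred_clog_lt_self (b := 2) (by norm_num) h
      have h3 : 0 < Nat.clog 2 b := Nat.clog_pos (by norm_num) h
      have h4 : 2 ^ L = 2 * 2 ^ (L - 1) := by
        rw [← pow_succ']
        congr 1
        omega
      have h5 : 2 ^ L ≤ 2 * b := by
        rw [h4]
        exact Nat.mul_le_mul_left 2 h2.le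
      exact_mod_cast h5
    · have h2 : b = 1 := le_antisymm h (Nat.pos_of_ne_zero hb)
      have h3 : L = 0 := by simp [L, h2]
      rw [h3, h2]; norm_num
  have h2 : (2⁻¹ : ℝ≥0∞) ^ L = ENNReal.ofReal (1 / (2 : ℝ) ^ L) := by
    rw [ENNReal.ofReal_div_of_pos (by positivity), ENNReal.ofReal_one,
      ENNReal.ofReal_pow (by norm_num), one_div, ENNReal.inv_pow]
    norm_num
  rw [h2, ← ENNReal.ofReal_one, ← ENNReal.ofReal_sub _ (by positivity)]
  refine ENNReal.ofReal_le_ofReal ?_
  have h3 : 1 / (2 * (b : ℝ)) ≤ 1 / (2 : ℝ) ^ L := one_div_le_one_div_of_le (by positivity) h1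
  have h4 := Real.add_one_le_exp (-(1 / (2 * (b : ℝ))))
  linarith

theorem nu_miss_all {b : ℕ → ℕ} (hb : ∀ k, b k ≠ 0) {f : ℕ → ℕ} (hf : InProd b f) (F : Finset ℕ) :
    nu ℕ {r | ∀ k ∈ F, f k ≠ hh b r k} ≤
      ENNReal.ofReal (Real.exp (-(∑ k ∈ F, 1 / (2 * (b k : ℝ))))) := by
  have h1 : {r | ∀ k ∈ F, f k ≠ hh b r k} ⊆
      {r | ∀ k ∈ F, blk r k ∈ {s | ∀ i < Nat.clog 2 (b k), s i = (f k).testBit i}ᶜ} := by
    intro r hr k hk hmem
    apply hr k hk
    have h2 : f k < 2 ^ Nat.clog 2 (b k) :=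
      (hf k).trans_le (Nat.le_pow_clog (by norm_num) _)
    have h3 : cod (Nat.clog 2 (b k)) (blk r k) = f k := (cod_eq_iff h2).2 hmem
    unfold hh
    rw [h3, if_pos (hf k)]
  refine (measure_mono h1).trans ?_
  rw [nu_blk F _ fun k => (measurableSet_cod _ _).compl, ← Finset.sum_neg_distrib, Real.exp_sum,
    ENNReal.ofReal_prod_of_nonneg fun k _ => (Real.exp_pos _).le]
  exact Finset.prod_le_prod' fun k _ => nu_miss_le (hb k) _

/-! ### The interval partition -/

/-- the left endpoints of the intervals -/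
noncomputable def ipart (b : ℕ → ℕ) (n : ℕ) : ℕ :=
  sInf {c | ((2 * n * (n + 1) : ℕ) : ℝ) ≤ ∑ k ∈ Finset.range c, 1 / (b k : ℝ)}

section ipart

variable {b : ℕ → ℕ} (hd : ∀ M : ℕ, ∃ n : ℕ, (M : ℝ) ≤ ∑ k ∈ Finset.range n, 1 / (b k : ℝ))
  (hb : ∀ k, b k ≠ 0)

include hd in
theorem ipart_spec (n : ℕ) : ((2 * n * (n + 1) : ℕ) : ℝ) ≤
    ∑ k ∈ Finset.range (ipart b n), 1 / (b k : ℝ) := by
  have : {c | ((2 * n * (n + 1) : ℕ) : ℝ) ≤ ∑ k ∈ Finset.range c, 1 / (b k : ℝ)}.Nonempty :=
    hd _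
  exact Nat.sInf_mem this

theorem ipart_zero (b : ℕ → ℕ) : ipart b 0 = 0 := by
  unfold ipart
  refine Nat.sInf_eq_zero.mpr (Or.inl ?_)
  simp

include hb in
theorem one_div_le_one (k : ℕ) : 1 / (b k : ℝ) ≤ 1 := by
  have : (1 : ℝ) ≤ b k := by exact_mod_cast Nat.one_le_iff_ne_zero.mpr (hb k)
  rw [div_le_one (by positivity)]
  exact this

include hb in
theorem ipart_le (n : ℕ) : ∑ k ∈ Finset.range (ipart b n), 1 / (b k : ℝ) ≤
    ((2 * n * (n + 1) : ℕ) : ℝ) + 1 := by
  rcases Nat.eq_zero_or_pos (ipart b n) with h | h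
  · rw [h]; simp; positivity
  · obtain ⟨c, hc⟩ := Nat.exists_eq_succ_of_ne_zero h.ne'
    have h1 : c ∉ {c | ((2 * n * (n + 1) : ℕ) : ℝ) ≤ ∑ k ∈ Finset.range c, 1 / (b k : ℝ)} := by
      intro h2
      have := Nat.sInf_le h2
      change ipart b n ≤ c at this
      omega
    rw [mem_ofPred_eq, not_le] at h1
    rw [hc, Finset.sum_range_succ]
    have := one_div_le_one hb c
    linarith

include hd hb in
theorem ipart_sum (n : ℕ) (h : ipart b n ≤ ipart b (n + 1)) :
    (4 * (n : ℝ) + 3) ≤ ∑ k ∈ Finset.Ico (ipart b n) (ipart b (n + 1)), 1 / (b k : ℝ) := by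
  rw [Finset.sum_Ico_eq_sub _ h]
  have h1 := ipart_spec hd (n + 1)
  have h2 := ipart_le hb n
  push_cast at h1 h2 ⊢
  linarith

include hd in
theorem ipart_mono (n : ℕ) : ipart b n ≤ ipart b (n + 1) := by
  refine Nat.sInf_le ?_
  refine le_trans ?_ (ipart_spec hd (n + 1))
  exact_mod_cast (by nlinarith : 2 * n * (n + 1) ≤ 2 * (n + 1) * (n + 1 + 1))

include hd hb in
theorem ipart_lt (n : ℕ) : ipart b n < ipart b (n + 1) := by
  refine lt_of_le_of_ne (ipart_mono hd n) fun h => ?_
  have h1 := ipart_sum hd hb n (ipart_mono hd n)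
  rw [← h] at h1
  simp at h1
  have : (0 : ℝ) ≤ n := Nat.cast_nonneg n
  linarith

include hd hb in
theorem isPart_ipart : IsPart (ipart b) :=
  ⟨ipart_zero b, strictMono_nat_of_lt_succ fun n => ipart_lt hd hb n⟩

include hd hb in
/-- Almost every random member of `∏ b` is equal to `f` somewhere in almost all intervals. -/
theorem ae_evEq {f : ℕ → ℕ} (hf : InProd b f) : ∀ᵐ r ∂(nu ℕ), EvEq f (ipart b) (hh b r) := by
  have h1 : nu ℕ {r | ∃ᶠ n in atTop,
      ∀ k ∈ Finset.Ico (ipart b n) (ipart b (n + 1)), f k ≠ hh b r k} = 0 := by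
    apply measure_setOfPred_frequently_eq_zero
    have h2 : ∀ n : ℕ, nu ℕ {r | ∀ k ∈ Finset.Ico (ipart b n) (ipart b (n + 1)), f k ≠ hh b r k} ≤
        (2⁻¹ : ℝ≥0∞) ^ n := by
      intro n
      refine (nu_miss_all hb hf _).trans ?_
      have h3 : (2⁻¹ : ℝ≥0∞) ^ n = ENNReal.ofReal ((1 / 2 : ℝ) ^ n) := by
        rw [ENNReal.ofReal_pow (by norm_num), one_div, ENNReal.ofReal_inv_of_pos (by norm_num)]
        norm_num
      rw [h3]
      refine ENNReal.ofReal_le_ofReal ?_
      have h4 := ipart_sum hd hb n (ipart_mono hd n)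
      have h5 : (n : ℝ) ≤ ∑ k ∈ Finset.Ico (ipart b n) (ipart b (n + 1)), 1 / (2 * (b k : ℝ)) := by
        have h6 : ∑ k ∈ Finset.Ico (ipart b n) (ipart b (n + 1)), 1 / (2 * (b k : ℝ)) =
            (∑ k ∈ Finset.Ico (ipart b n) (ipart b (n + 1)), 1 / (b k : ℝ)) / 2 := by
          rw [Finset.sum_div]
          refine Finset.sum_congr rfl fun k _ => ?_
          rw [div_div, mul_comm]
        rw [h6]
        have : (0 : ℝ) ≤ n := Nat.cast_nonneg n
        linarith
      have h6 : (1 / 2 : ℝ) ^ n = Real.exp (-(n * Real.log 2)) := by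
        rw [Real.exp_neg, mul_comm, Real.exp_mul, Real.exp_log (by norm_num), one_div, inv_pow,
          Real.rpow_natCast]
      rw [h6, Real.exp_le_exp]
      have h7 : Real.log 2 ≤ 1 := by
        have := Real.log_two_lt_d9
        linarith
      have h8 : (n : ℝ) * Real.log 2 ≤ n * 1 :=
        mul_le_mul_of_nonneg_left h7 (Nat.cast_nonneg n)
      linarith
    refine ne_top_of_le_ne_top ?_ (ENNReal.tsum_le_tsum h2)
    rw [ENNReal.tsum_geometric, ENNReal.one_sub_inv_two, inv_inv]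
    exact ENNReal.ofNat_ne_top
  have h2 : ∀ᵐ r ∂(nu ℕ), ¬ ∃ᶠ n in atTop,
      ∀ k ∈ Finset.Ico (ipart b n) (ipart b (n + 1)), f k ≠ hh b r k := by
    rw [ae_iff]
    simp only [not_not]
    exact h1
  filter_upwards [h2] with r hr
  rw [not_frequently] at hr
  filter_upwards [hr] with n hn
  push Not at hn
  obtain ⟨k, hk, h3⟩ := hn
  rw [Finset.mem_Ico] at hk
  exact ⟨k, hk.1, hk.2, h3⟩

end ipart

/-! ### Random points are not in coded closed null sets -/

theorem classical_nullCode (C : ℕ → List Bool → Prop) : classical.nullCode C ↔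
    ∀ j m : ℕ, ∃ n : ℕ, ∀ s : Finset (List Bool), (∀ t ∈ s, t.length = n ∧ C j t) →
      (m + 1) * s.card ≤ 2 ^ n := by
  unfold TV.nullCode
  simp only [classical_conj, classical_all, classical_imp, classical_lit, classical_grd,
    classical_ex, Subtype.forall]

theorem classical_inE (x : ℕ → Bool) (C : ℕ → List Bool → Prop) :
    classical.inE (fun n => x n = true) C ↔ ∃ j, ∀ n, C j ((List.range n).map x) := by
  unfold TV.inE
  simp only [classical_ex, classical_all, classical_imp, classical_iff, classical_lit,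
    classical_grd]
  refine exists_congr fun j => ⟨fun h n => h _ fun i hi => ?_, fun h t ht => ?_⟩
  · rw [List.getD_eq_getElem _ _ hi]
    simp
  · have : t = (List.range t.length).map x := by
      apply List.ext_getElem
      · simp
      · intro i h1 h2
        have h3 := ht i h1
        rw [List.getD_eq_getElem _ _ h1] at h3
        have h4 : x i = t[i] := by
          cases hx : x i <;> cases ht' : t[i] <;> simp_all
        simp [← h4]
    rw [this]; exact h _

/-- the measure of a set of reals given by the initial segments of length `n` -/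
theorem nu_le_card {A : Set (ℕ → Bool)} {n : ℕ} {s : Finset (List Bool)}
    (hA : ∀ x ∈ A, (List.range n).map x ∈ s) :
    nu ℕ A ≤ s.card * (2⁻¹ : ℝ≥0∞) ^ n := by
  have h1 : A ⊆ ⋃ t ∈ s, cyl (Finset.range n) (fun i => t.getD i false) := by
    intro x hx
    refine mem_iUnion₂.mpr ⟨_, hA x hx, fun i hi => ?_⟩
    rw [Finset.mem_range] at hi
    beta_reduce
    rw [List.getD_eq_getElem _ _ (by simpa using hi)]
    simp
  refine (measure_mono h1).trans ((measure_biUnion_finset_le _ _).trans ?_)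
  simp only [nu_cyl, Finset.card_range, Finset.sum_const, nsmul_eq_mul]
  exact le_rfl

theorem finite_lists (n : ℕ) : {t : List Bool | t.length = n}.Finite :=
  List.finite_length_eq Bool n

/-- the closed sets coded by a code have measure zero -/
theorem nu_code {C : List Bool → Prop}
    (hC : ∀ m : ℕ, ∃ n : ℕ, ∀ s : Finset (List Bool), (∀ t ∈ s, t.length = n ∧ C t) →
      (m + 1) * s.card ≤ 2 ^ n) : nu ℕ {x | ∀ n, C ((List.range n).map x)} = 0 := by
  classical
  have h1 : ∀ m : ℕ, nu ℕ {x | ∀ n, C ((List.range n).map x)} ≤ ((m : ℝ≥0∞) + 1)⁻¹ := by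
    intro m
    obtain ⟨n, hn⟩ := hC m
    let s : Finset (List Bool) := (finite_lists n).toFinset.filter C
    have hs : ∀ t ∈ s, t.length = n ∧ C t := by
      intro t ht
      rw [Finset.mem_filter, Set.Finite.mem_toFinset] at ht
      exact ht
    have h2 := nu_le_card (A := {x | ∀ n, C ((List.range n).map x)}) (n := n) (s := s)
      (fun x hx => by
        rw [Finset.mem_filter, Set.Finite.mem_toFinset]
        exact ⟨by simp, hx n⟩)
    refine h2.trans ?_
    have h3 : ((m : ℝ≥0∞) + 1) * s.card ≤ 2 ^ n := by exact_mod_cast hn s hs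
    rw [← ENNReal.inv_pow, ← div_eq_mul_inv, ENNReal.div_le_iff (by simp) (by simp),
      ← ENNReal.div_eq_inv_mul, ENNReal.le_div_iff_mul_le (by simp) (by simp), mul_comm]
    exact h3
  have h2 : Tendsto (fun m : ℕ => ((m : ℝ≥0∞) + 1)⁻¹) atTop (𝓝 0) := by
    have := ENNReal.tendsto_inv_nat_nhds_zero.comp (tendsto_add_atTop_nat 1)
    refine this.congr fun m => ?_
    simp
  exact le_antisymm (ge_of_tendsto' h2 h1) zero_le

theorem ae_not_inE {C : ℕ → List Bool → Prop} (hC : classical.nullCode C) :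
    ∀ᵐ x ∂(nu ℕ), ¬ classical.inE (fun n => x n = true) C := by
  rw [classical_nullCode] at hC
  rw [ae_iff]
  simp only [not_not, classical_inE]
  have h1 : {x : ℕ → Bool | ∃ j, ∀ n, C j ((List.range n).map x)} =
      ⋃ j, {x | ∀ n, C j ((List.range n).map x)} := by ext; simp
  rw [h1]
  exact measure_iUnion_null fun j => nu_code (hC j)

end Q208.F
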