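import Pool.Agent.Q208.F.Tools

/-!
# Sentences about `b_b^eq`, `d_b^eq` and the ideal `E`
-/

open Cardinal Set MeasureTheory Filter Topology
open scoped ENNReal

namespace Q208.F

namespace TV

variable {Ω : Type} (T : TV Ω)

/-- the named function `f` is a member of `∏ b`: `f k < b k` for every `k` -/
def inProd (b f : ℕ → ℕ → Ω) : Ω :=
  T.conj (T.isFun f) (T.all fun k : ℕ => T.all fun m : ℕ => T.all fun c : ℕ =>
    T.imp (T.conj (T.lit (f k m)) (T.lit (b k c))) (T.grd (m < c)))

/-- the named function `b` has positive values and `∑ 1 / b k = ∞`: for every `M` there is `n`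
such that `M ≤ ∑_{k < n} 1 / b k` -/
def divergent (b : ℕ → ℕ → Ω) : Ω :=
  T.conj (T.isFun b) (T.conj (T.all fun k : ℕ => T.neg (T.lit (b k 0)))
    (T.all fun M : ℕ => T.ex fun n : ℕ => T.all fun v : List ℕ =>
      T.imp (T.conj (T.initSeg b v) (T.grd (v.length = n)))
        (T.grd ((M : ℚ) ≤ ∑ k ∈ Finset.range n, 1 / (v.getD k 0 : ℚ)))))

/-- the named function `I` lists the left endpoints of an interval partition, with
the intervals `[I n, I (n + 1))` -/
def part (I : ℕ → ℕ → Ω) : Ω :=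
  T.conj (T.isFun I) (T.conj (T.lit (I 0 0)) (T.all fun n : ℕ => T.all fun a : ℕ =>
    T.all fun c : ℕ => T.imp (T.conj (T.lit (I n a)) (T.lit (I (n + 1) c))) (T.grd (a < c))))

/-- for almost all `n` there is `k` in the interval `[I n, I (n + 1))` with `f k = h k` -/
def evEq (f I h : ℕ → ℕ → Ω) : Ω :=
  T.ex fun N : ℕ => T.all fun n : ℕ => T.imp (T.grd (N ≤ n))
    (T.ex fun k : ℕ => T.ex fun a : ℕ => T.ex fun c : ℕ => T.ex fun m : ℕ =>
      T.conj (T.grd (a ≤ k ∧ k < c)) (T.conj (T.conj (T.lit (I n a)) (T.lit (I (n + 1) c)))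
        (T.conj (T.lit (f k m)) (T.lit (h k m)))))

/-- `b_b^eq ≤ |K|` -/
def bEqLe (K : Type) (b : ℕ → ℕ → Ω) : Ω :=
  T.ex fun F : K → ℕ → ℕ → Ω => T.conj (T.all fun i => T.inProd b (F i))
    (T.all fun I : ℕ → ℕ → Ω => T.all fun h : ℕ → ℕ → Ω =>
      T.imp (T.conj (T.part I) (T.inProd b h)) (T.ex fun i => T.neg (T.evEq (F i) I h)))

/-- `d_b^eq ≤ |K|` -/
def dEqLe (K : Type) (b : ℕ → ℕ → Ω) : Ω :=
  T.ex fun I : K → ℕ → ℕ → Ω => T.ex fun h : K → ℕ → ℕ → Ω =>
    T.conj (T.all fun i => T.conj (T.part (I i)) (T.inProd b (h i)))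
      (T.all fun f : ℕ → ℕ → Ω => T.imp (T.inProd b f) (T.ex fun i => T.evEq f (I i) (h i)))

/-- `C` codes a sequence of closed null sets: for all `j` and `m` there is `n` such that at most
`2 ^ n / (m + 1)` of the sequences of length `n` are in `C j` -/
def nullCode (C : ℕ → List Bool → Ω) : Ω :=
  T.all fun j : ℕ => T.all fun m : ℕ => T.ex fun n : ℕ => T.all fun s : Finset (List Bool) =>
    T.imp (T.all fun t : s => T.conj (T.grd (t.1.length = n)) (T.lit (C j t.1)))
      (T.grd ((m + 1) * s.card ≤ 2 ^ n))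

/-- `x` is in the union of the closed sets coded by `C`: for some `j` all initial segments of
(the characteristic function of) the set `x` are in `C j` -/
def inE (x : ℕ → Ω) (C : ℕ → List Bool → Ω) : Ω :=
  T.ex fun j : ℕ => T.all fun t : List Bool => T.imp
    (T.all fun i : ℕ => T.imp (T.grd (i < t.length))
      (T.iff (T.lit (x i)) (T.grd (t.getD i false = true)))) (T.lit (C j t))

/-- `non(E) ≤ |K|` -/
def nonELe (K : Type) : Ω :=
  T.ex fun x : K → ℕ → Ω => T.all fun C : ℕ → List Bool → Ω =>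
    T.imp (T.nullCode C) (T.ex fun i => T.neg (T.inE (x i) C))

/-- `cov(E) ≤ |K|` -/
def covELe (K : Type) : Ω :=
  T.ex fun C : K → ℕ → List Bool → Ω => T.conj (T.all fun i => T.nullCode (C i))
    (T.all fun x : ℕ → Ω => T.ex fun i => T.inE x (C i))

end TV

/-! ### Classical meaning -/

/-- the members of `∏ b` -/
def InProd (b f : ℕ → ℕ) : Prop := ∀ k, f k < b k

/-- `I` lists the left endpoints of the intervals of an interval partition of `ℕ` -/
def IsPart (I : ℕ → ℕ) : Prop := I 0 = 0 ∧ StrictMono I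

/-- the relation between `f` and `(I, h)`: for almost all `n` there is `k` in the interval
`[I n, I (n + 1))` with `f k = h k` -/
def EvEq (f : ℕ → ℕ) (I h : ℕ → ℕ) : Prop :=
  ∀ᶠ n in atTop, ∃ k, I n ≤ k ∧ k < I (n + 1) ∧ f k = h k

theorem classical_inProd {b f : ℕ → ℕ} {B R : ℕ → ℕ → Prop} (hb : ∀ n m, B n m ↔ b n = m)
    (hf : ∀ n m, R n m ↔ f n = m) : classical.inProd B R ↔ InProd b f := by
  unfold TV.inProd InProd
  simp only [classical_conj, classical_all, classical_imp, classical_lit, classical_grd, hb, hf]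
  constructor
  · rintro ⟨_, h⟩ k
    exact h k _ _ ⟨rfl, rfl⟩
  · intro h
    refine ⟨(classical_isFun _).2 ⟨f, hf⟩, ?_⟩
    rintro k m c ⟨rfl, rfl⟩
    exact h k

theorem classical_divergent {b : ℕ → ℕ} {B : ℕ → ℕ → Prop} (hb : ∀ n m, B n m ↔ b n = m) :
    classical.divergent B ↔ (∀ k, b k ≠ 0) ∧
      ∀ M : ℕ, ∃ n : ℕ, (M : ℝ) ≤ ∑ k ∈ Finset.range n, 1 / (b k : ℝ) := by
  unfold TV.divergent
  simp only [classical_conj, classical_all, classical_imp, classical_lit, classical_grd,
    classical_neg, classical_ex, classical_initSeg b B hb]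
  have key : ∀ M n : ℕ, (∀ v : List ℕ, (v = (List.range v.length).map b ∧ v.length = n) →
      ((M : ℚ) ≤ ∑ k ∈ Finset.range n, 1 / (v.getD k 0 : ℚ))) ↔
      (M : ℝ) ≤ ∑ k ∈ Finset.range n, 1 / (b k : ℝ) := by
    intro M n
    have h1 : ∀ k ∈ Finset.range n, ((List.range n).map b).getD k 0 = b k := by
      intro k hk
      rw [List.getD_eq_getElem _ _ (by simpa using hk)]
      simp
    have h2 : ((M : ℚ) ≤ ∑ k ∈ Finset.range n, 1 / (b k : ℚ)) ↔
        (M : ℝ) ≤ ∑ k ∈ Finset.range n, 1 / (b k : ℝ) := by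
      rw [← Rat.cast_le (K := ℝ)]
      push_cast
      rfl
    rw [← h2]
    constructor
    · intro h
      have := h ((List.range n).map b) ⟨by simp, by simp⟩
      rwa [Finset.sum_congr rfl fun k hk => by rw [h1 k hk]] at this
    · rintro h v ⟨h3, h4⟩
      rw [h4] at h3
      rw [h3, Finset.sum_congr rfl fun k hk => by rw [h1 k hk]]
      exact h
  simp only [key, hb]
  constructor
  · rintro ⟨_, h1, h2⟩
    exact ⟨h1, h2⟩
  · rintro ⟨h1, h2⟩
    exact ⟨(classical_isFun _).2 ⟨b, hb⟩, h1, h2⟩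

theorem divergent_iff (b : ℕ → ℕ) : classical.divergent (fun k m => b k = m) ↔
    (∀ k, 1 ≤ b k) ∧ ¬ Summable fun k => 1 / (b k : ℝ) := by
  rw [classical_divergent (b := b) fun _ _ => Iff.rfl]
  refine and_congr (forall_congr' fun k => Nat.one_le_iff_ne_zero.symm) ?_
  constructor
  · intro h hs
    obtain ⟨M, hM⟩ := exists_nat_gt (∑' k, 1 / (b k : ℝ))
    obtain ⟨n, hn⟩ := h M
    have := hs.sum_le_tsum (Finset.range n) fun k _ => by positivity
    linarith
  · intro h M
    by_contra hno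
    push Not at hno
    exact h (summable_of_sum_range_le (fun k => by positivity) fun n => (hno n).le)

theorem classical_part {I : ℕ → ℕ} {R : ℕ → ℕ → Prop} (hI : ∀ n m, R n m ↔ I n = m) :
    classical.part R ↔ IsPart I := by
  unfold TV.part IsPart
  simp only [classical_conj, classical_all, classical_imp, classical_lit, classical_grd, hI]
  constructor
  · rintro ⟨_, h0, h⟩
    exact ⟨h0, strictMono_nat_of_lt_succ fun n => h n _ _ ⟨rfl, rfl⟩⟩
  · rintro ⟨h0, h⟩
    refine ⟨(classical_isFun _).2 ⟨I, hI⟩, h0, ?_⟩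
    rintro n a c ⟨rfl, rfl⟩
    exact h (Nat.lt_succ_self n)

theorem classical_evEq {f I h : ℕ → ℕ} {Rf RI Rh : ℕ → ℕ → Prop} (hf : ∀ n m, Rf n m ↔ f n = m)
    (hI : ∀ n m, RI n m ↔ I n = m) (hh : ∀ n m, Rh n m ↔ h n = m) :
    classical.evEq Rf RI Rh ↔ EvEq f I h := by
  unfold TV.evEq EvEq
  simp only [classical_conj, classical_all, classical_imp, classical_lit, classical_grd,
    classical_ex, hf, hI, hh, eventually_atTop]
  refine exists_congr fun N => forall_congr' fun n => imp_congr_right fun _ => ?_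
  constructor
  · rintro ⟨k, a, c, m, ⟨h1, h2⟩, ⟨rfl, rfl⟩, h3, h4⟩
    exact ⟨k, h1, h2, h3.trans h4.symm⟩
  · rintro ⟨k, h1, h2, h3⟩
    exact ⟨k, _, _, _, ⟨h1, h2⟩, ⟨rfl, rfl⟩, rfl, h3.symm⟩

/-! ### Representation -/

section rep

variable {Ω : Type} [MeasurableSpace Ω] {I : CI Ω}

theorem Rep.inProd {b f : ℕ → ℕ → Set (Cond I)} {B R : Ω → ℕ → ℕ → Prop}
    (hb : ∀ n m, Rep ((forcing (Cond I)).lit (b n m)) (fun ω => B ω n m))
    (hf : ∀ n m, Rep ((forcing (Cond I)).lit (f n m)) (fun ω => R ω n m)) :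
    Rep ((forcing (Cond I)).inProd b f) (fun ω => classical.inProd (B ω) (R ω)) := by
  refine Rep.congr (Rep.conj (Rep.isFun hf) (Rep.all fun k => Rep.all fun m => Rep.all fun c =>
    Rep.imp (Rep.conj (hf k m) (hb k c)) (rep_grd _))) fun ω => ?_
  unfold TV.inProd
  simp only [classical_conj, classical_all, classical_imp, classical_lit, classical_grd]

theorem Rep.divergent {b : ℕ → ℕ → Set (Cond I)} {B : Ω → ℕ → ℕ → Prop}
    (hb : ∀ n m, Rep ((forcing (Cond I)).lit (b n m)) (fun ω => B ω n m)) :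
    Rep ((forcing (Cond I)).divergent b) (fun ω => classical.divergent (B ω)) := by
  refine Rep.congr (Rep.conj (Rep.isFun hb) (Rep.conj (Rep.all fun k => (hb k 0).neg)
    (Rep.all fun M => Rep.ex fun n => Rep.all fun v =>
      Rep.imp (Rep.conj (Rep.initSeg hb v) (rep_grd _)) (rep_grd _)))) fun ω => ?_
  unfold TV.divergent
  simp only [classical_conj, classical_all, classical_imp, classical_lit, classical_grd,
    classical_neg, classical_ex]

theorem Rep.part {J : ℕ → ℕ → Set (Cond I)} {R : Ω → ℕ → ℕ → Prop}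
    (hJ : ∀ n m, Rep ((forcing (Cond I)).lit (J n m)) (fun ω => R ω n m)) :
    Rep ((forcing (Cond I)).part J) (fun ω => classical.part (R ω)) := by
  refine Rep.congr (Rep.conj (Rep.isFun hJ) (Rep.conj (hJ 0 0) (Rep.all fun n => Rep.all fun a =>
    Rep.all fun c => Rep.imp (Rep.conj (hJ n a) (hJ (n + 1) c)) (rep_grd _)))) fun ω => ?_
  unfold TV.part
  simp only [classical_conj, classical_all, classical_imp, classical_lit, classical_grd]

theorem Rep.evEq {f J h : ℕ → ℕ → Set (Cond I)} {Rf RJ Rh : Ω → ℕ → ℕ → Prop}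
    (hf : ∀ n m, Rep ((forcing (Cond I)).lit (f n m)) (fun ω => Rf ω n m))
    (hJ : ∀ n m, Rep ((forcing (Cond I)).lit (J n m)) (fun ω => RJ ω n m))
    (hh : ∀ n m, Rep ((forcing (Cond I)).lit (h n m)) (fun ω => Rh ω n m)) :
    Rep ((forcing (Cond I)).evEq f J h) (fun ω => classical.evEq (Rf ω) (RJ ω) (Rh ω)) := by
  refine Rep.congr (Rep.ex fun N => Rep.all fun n => Rep.imp (rep_grd _)
    (Rep.ex fun k => Rep.ex fun a => Rep.ex fun c => Rep.ex fun m =>
      Rep.conj (rep_grd _) (Rep.conj (Rep.conj (hJ n a) (hJ (n + 1) c))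
        (Rep.conj (hf k m) (hh k m))))) fun ω => ?_
  unfold TV.evEq
  simp only [classical_conj, classical_all, classical_imp, classical_lit, classical_grd,
    classical_ex]

theorem Rep.nullCode {C : ℕ → List Bool → Set (Cond I)} {S : Ω → ℕ → List Bool → Prop}
    (h : ∀ j t, Rep ((forcing (Cond I)).lit (C j t)) (fun ω => S ω j t)) :
    Rep ((forcing (Cond I)).nullCode C) (fun ω => classical.nullCode (S ω)) := by
  refine Rep.congr (Rep.all fun j => Rep.all fun m => Rep.ex fun n => Rep.all fun s =>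
    Rep.imp (Rep.all fun t => Rep.conj (rep_grd _) (h j t.1)) (rep_grd _)) fun ω => ?_
  unfold TV.nullCode
  simp only [classical_conj, classical_all, classical_imp, classical_lit, classical_grd,
    classical_ex]

theorem Rep.inE {x : ℕ → Set (Cond I)} {X : Ω → ℕ → Prop} {C : ℕ → List Bool → Set (Cond I)}
    {S : Ω → ℕ → List Bool → Prop} (hx : ∀ n, Rep ((forcing (Cond I)).lit (x n)) (fun ω => X ω n))
    (h : ∀ j t, Rep ((forcing (Cond I)).lit (C j t)) (fun ω => S ω j t)) :
    Rep ((forcing (Cond I)).inE x C) (fun ω => classical.inE (X ω) (S ω)) := by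
  refine Rep.congr (Rep.ex fun j => Rep.all fun t => Rep.imp
    (Rep.all fun i => Rep.imp (rep_grd _) (Rep.conj (Rep.imp (hx i) (rep_grd _))
      (Rep.imp (rep_grd _) (hx i)))) (h j t)) fun ω => ?_
  unfold TV.inE
  simp only [classical_ex, classical_all, classical_imp, classical_iff, classical_lit,
    classical_grd]
  refine exists_congr fun j => forall_congr' fun t => ?_
  refine imp_congr_left (forall_congr' fun i => imp_congr_right fun _ => ?_)
  tauto

end rep

end Q208.F
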