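import Pool.Agent.Q208.F.Logic

/-!
# Forcing with the measurable sets modulo a σ-ideal with the countable chain condition

Sentences with countable quantifiers are represented by measurable sets.
-/

open Cardinal Set

namespace Q208.F

/-- A proper σ-ideal of sets, such that every disjoint family of measurable sets outside the ideal
is countable. -/
structure CI (Ω : Type) [MeasurableSpace Ω] where
  null : Set Ω → Prop
  mono : ∀ {A B : Set Ω}, A ⊆ B → null B → null A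
  iUnion : ∀ A : ℕ → Set Ω, (∀ n, null (A n)) → null (⋃ n, A n)
  empty : null ∅
  univ : ¬ null Set.univ
  ccc : ∀ (Y : Type) (A : Y → Set Ω), (∀ y, MeasurableSet (A y)) → (∀ y, ¬ null (A y)) →
    (∀ y y', y ≠ y' → Disjoint (A y) (A y')) → Countable Y

variable {Ω : Type} [MeasurableSpace Ω] (I : CI Ω)

/-- The conditions: measurable sets outside the ideal. -/
def Cond : Type := {A : Set Ω // MeasurableSet A ∧ ¬ I.null A}

instance : PartialOrder (Cond I) := Subtype.partialOrder _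

variable {I}

theorem Cond.le_iff {p q : Cond I} : p ≤ q ↔ p.1 ⊆ q.1 := Iff.rfl

namespace CI

theorem union {A B : Set Ω} (hA : I.null A) (hB : I.null B) : I.null (A ∪ B) := by
  have := I.iUnion (fun n : ℕ => if n = 0 then A else B) (fun n => by
    split_ifs <;> assumption)
  refine I.mono ?_ this
  rintro x (hx | hx)
  · exact mem_iUnion.mpr ⟨0, by simpa using hx⟩
  · exact mem_iUnion.mpr ⟨1, by simpa using hx⟩

theorem iUnion' {ι : Type} [Countable ι] (A : ι → Set Ω) (hA : ∀ i, I.null (A i)) :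
    I.null (⋃ i, A i) := by
  rcases isEmpty_or_nonempty ι with h | h
  · rw [iUnion_of_empty]; exact I.empty
  · obtain ⟨e, he⟩ := exists_surjective_nat ι
    have := I.iUnion (fun n => A (e n)) fun n => hA _
    refine I.mono ?_ this
    rintro x hx
    obtain ⟨i, hi⟩ := mem_iUnion.mp hx
    obtain ⟨n, rfl⟩ := he i
    exact mem_iUnion.mpr ⟨n, hi⟩

end CI

/-- the whole space -/
def Cond.top : Cond I := ⟨Set.univ, MeasurableSet.univ, I.univ⟩

/-- restriction of a condition -/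
def Cond.restr (p : Cond I) (S : Set Ω) (hS : MeasurableSet S) (h : ¬ I.null (p.1 ∩ S)) : Cond I :=
  ⟨p.1 ∩ S, p.2.1.inter hS, h⟩

theorem Cond.restr_le (p : Cond I) (S : Set Ω) (hS : MeasurableSet S)
    (h : ¬ I.null (p.1 ∩ S)) : p.restr S hS h ≤ p := fun _ hx => hx.1

theorem ccc_Cond : CCC (Cond I) := by
  intro Y f hf
  -- well-order the index set and make the sets disjoint modulo the ideal is not needed:
  -- the union of the intersections may be uncountable, so we use a maximal disjoint refinement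
  obtain ⟨𝒟, h𝒟⟩ := zorn_subset {𝒟 : Set (Set Ω) | (∀ D ∈ 𝒟, MeasurableSet D ∧ ¬ I.null D ∧
      ∃ y, D ⊆ (f y).1) ∧ 𝒟.PairwiseDisjoint id}
    (by
      intro c hc hchain
      refine ⟨⋃₀ c, ⟨?_, ?_⟩, fun s hs => subset_sUnion_of_mem hs⟩
      · rintro D ⟨s, hs, hD⟩
        exact (hc hs).1 D hD
      · rintro D ⟨s, hs, hD⟩ D' ⟨s', hs', hD'⟩ hne
        rcases hchain.total hs hs' with h | h
        · exact (hc hs').2 (h hD) hD' hne
        · exact (hc hs).2 hD (h hD') hne)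
  have hcount : Countable 𝒟 := I.ccc 𝒟 (fun D => D.1) (fun D => (h𝒟.prop.1 D.1 D.2).1)
    (fun D => (h𝒟.prop.1 D.1 D.2).2.1) (fun D D' hne => h𝒟.prop.2 D.2 D'.2
      (fun h => hne (Subtype.ext h)))
  have hU : MeasurableSet (⋃₀ 𝒟) := by
    have : 𝒟.Countable := hcount
    exact MeasurableSet.sUnion this fun D hD => (h𝒟.prop.1 D hD).1
  -- each `f y` meets some member of `𝒟` in a positive set
  have hmeet : ∀ y, ∃ D : 𝒟, ¬ I.null ((f y).1 ∩ D.1) := by
    intro y
    by_contra hno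
    push Not at hno
    have h1 : I.null ((f y).1 ∩ ⋃₀ 𝒟) := by
      have := CI.iUnion' (I := I) (fun D : 𝒟 => (f y).1 ∩ D.1) hno
      refine I.mono ?_ this
      rintro x ⟨hx, D, hD, hxD⟩
      exact mem_iUnion.mpr ⟨⟨D, hD⟩, hx, hxD⟩
    have h2 : ¬ I.null ((f y).1 \ ⋃₀ 𝒟) := by
      intro h3
      refine (f y).2.2 (I.mono ?_ (CI.union h1 h3))
      intro x hx
      by_cases hx' : x ∈ ⋃₀ 𝒟
      · exact Or.inl ⟨hx, hx'⟩
      · exact Or.inr ⟨hx, hx'⟩
    have hnew : (f y).1 \ ⋃₀ 𝒟 ∈ 𝒟 := by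
      have hins : insert ((f y).1 \ ⋃₀ 𝒟) 𝒟 ∈ {𝒟 : Set (Set Ω) | (∀ D ∈ 𝒟, MeasurableSet D ∧
          ¬ I.null D ∧ ∃ y, D ⊆ (f y).1) ∧ 𝒟.PairwiseDisjoint id} := by
        constructor
        · rintro D (rfl | hD)
          · exact ⟨(f y).2.1.diff hU, h2, y, sdiff_subset⟩
          · exact h𝒟.prop.1 D hD
        · refine h𝒟.prop.2.insert fun D hD _ => ?_
          rw [Set.disjoint_left]
          intro x hx hx'
          exact hx.2 ⟨D, hD, hx'⟩
      exact h𝒟.le_of_ge hins (subset_insert _ _) (mem_insert _ _)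
    apply h2
    have : (f y).1 \ ⋃₀ 𝒟 = ∅ := by
      ext x
      simp only [mem_empty_iff_false, iff_false]
      intro hx
      exact hx.2 ⟨_, hnew, hx⟩
    rw [this]; exact I.empty
  choose D hD using hmeet
  -- `D` is injective
  have hinj : Function.Injective D := by
    intro y y' h
    by_contra hne
    obtain ⟨z, hz⟩ := (h𝒟.prop.1 (D y).1 (D y).2).2.2
    have hy : y = z := by
      by_contra hyz
      refine hf y z hyz ⟨(f y).restr (D y).1 (h𝒟.prop.1 _ (D y).2).1 (hD y), ?_, ?_⟩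
      · exact fun x hx => hx.1
      · exact fun x hx => hz hx.2
    have hy' : y' = z := by
      by_contra hyz
      refine hf y' z hyz ⟨(f y').restr (D y').1 (h𝒟.prop.1 _ (D y').2).1 (hD y'), ?_, ?_⟩
      · exact fun x hx => hx.1
      · exact fun x hx => hz (by rw [h]; exact hx.2)
    exact hne (hy.trans hy'.symm)
  exact hinj.countable

/-- Every set of conditions has an essential union. -/
theorem exists_ess (N : Set (Cond I)) : ∃ E : Set Ω, MeasurableSet E ∧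
    (∀ s ∈ N, I.null (s.1 \ E)) ∧ ∀ p : Set Ω, ¬ I.null (p ∩ E) → ∃ s ∈ N, ¬ I.null (p ∩ s.1) := by
  obtain ⟨𝒟, h𝒟⟩ := zorn_subset {𝒟 : Set (Set Ω) | (∀ D ∈ 𝒟, MeasurableSet D ∧ ¬ I.null D ∧
      ∃ s ∈ N, D ⊆ s.1) ∧ 𝒟.PairwiseDisjoint id}
    (by
      intro c hc hchain
      refine ⟨⋃₀ c, ⟨?_, ?_⟩, fun s hs => subset_sUnion_of_mem hs⟩
      · rintro D ⟨s, hs, hD⟩
        exact (hc hs).1 D hD
      · rintro D ⟨s, hs, hD⟩ D' ⟨s', hs', hD'⟩ hne
        rcases hchain.total hs hs' with h | h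
        · exact (hc hs').2 (h hD) hD' hne
        · exact (hc hs).2 hD (h hD') hne)
  have hcount : Countable 𝒟 := I.ccc 𝒟 (fun D => D.1) (fun D => (h𝒟.prop.1 D.1 D.2).1)
    (fun D => (h𝒟.prop.1 D.1 D.2).2.1) (fun D D' hne => h𝒟.prop.2 D.2 D'.2
      (fun h => hne (Subtype.ext h)))
  have hU : MeasurableSet (⋃₀ 𝒟) := by
    have : 𝒟.Countable := hcount
    exact MeasurableSet.sUnion this fun D hD => (h𝒟.prop.1 D hD).1
  refine ⟨⋃₀ 𝒟, hU, fun s hs => ?_, fun p hp => ?_⟩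
  · by_contra h2
    have hins : insert (s.1 \ ⋃₀ 𝒟) 𝒟 ∈ {𝒟 : Set (Set Ω) | (∀ D ∈ 𝒟, MeasurableSet D ∧
        ¬ I.null D ∧ ∃ s ∈ N, D ⊆ s.1) ∧ 𝒟.PairwiseDisjoint id} := by
      constructor
      · rintro D (rfl | hD)
        · exact ⟨s.2.1.diff hU, h2, s, hs, sdiff_subset⟩
        · exact h𝒟.prop.1 D hD
      · refine h𝒟.prop.2.insert fun D hD _ => ?_
        rw [Set.disjoint_left]
        intro x hx hx'
        exact hx.2 ⟨D, hD, hx'⟩
    have hnew := h𝒟.le_of_ge hins (subset_insert _ _) (mem_insert _ _)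
    apply h2
    have : s.1 \ ⋃₀ 𝒟 = ∅ := by
      ext x
      simp only [mem_empty_iff_false, iff_false]
      intro hx
      exact hx.2 ⟨_, hnew, hx⟩
    rw [this]; exact I.empty
  · by_contra hno
    push Not at hno
    apply hp
    have := CI.iUnion' (I := I) (fun D : 𝒟 => p ∩ D.1) (fun D => by
      obtain ⟨s, hs, hDs⟩ := (h𝒟.prop.1 D.1 D.2).2.2
      exact I.mono (inter_subset_inter_right _ hDs) (hno s hs))
    refine I.mono ?_ this
    rintro x ⟨hx, D, hD, hxD⟩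
    exact mem_iUnion.mpr ⟨⟨D, hD⟩, hx, hxD⟩

/-- the essential union of a set of conditions -/
noncomputable def ess (N : Set (Cond I)) : Set Ω := (exists_ess N).choose

theorem ess_measurable (N : Set (Cond I)) : MeasurableSet (ess N) := (exists_ess N).choose_spec.1

theorem ess_null {N : Set (Cond I)} {s : Cond I} (hs : s ∈ N) : I.null (s.1 \ ess N) :=
  (exists_ess N).choose_spec.2.1 s hs

theorem ess_pos {N : Set (Cond I)} {p : Set Ω} (hp : ¬ I.null (p ∩ ess N)) :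
    ∃ s ∈ N, ¬ I.null (p ∩ s.1) := (exists_ess N).choose_spec.2.2 p hp

/-- The sentence `Φ` is represented by the measurable set `{ω | S ω}`: a condition forces `Φ` iff
`S` holds almost everywhere on it. -/
def Rep (Φ : Set (Cond I)) (S : Ω → Prop) : Prop :=
  MeasurableSet {ω | S ω} ∧ ∀ p : Cond I, p ∈ Φ ↔ I.null (p.1 ∩ {ω | ¬ S ω})

theorem Rep.meas {Φ : Set (Cond I)} {S : Ω → Prop} (h : Rep Φ S) : MeasurableSet {ω | S ω} := h.1

theorem Rep.iff {Φ : Set (Cond I)} {S : Ω → Prop} (h : Rep Φ S) {p : Cond I} :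
    p ∈ Φ ↔ I.null (p.1 ∩ {ω | ¬ S ω}) := h.2 p

theorem Rep.congr {Φ : Set (Cond I)} {S S' : Ω → Prop} (h : Rep Φ S) (hS : ∀ ω, S ω ↔ S' ω) :
    Rep Φ S' := by
  have : S = S' := funext fun ω => propext (hS ω)
  rw [← this]; exact h

theorem rep_lit (N : Set (Cond I)) : Rep ((forcing (Cond I)).lit N) (fun ω => ω ∈ ess N) := by
  refine ⟨ess_measurable N, fun p => ?_⟩
  rw [mem_lit]
  constructor
  · intro h
    by_contra hpos
    obtain ⟨r, hr, s, hs, hrs⟩ := h (p.restr (ess N)ᶜ (ess_measurable N).compl hpos)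
      (p.restr_le _ _ _)
    refine r.2.2 (I.mono ?_ (ess_null hs))
    intro x hx
    exact ⟨hrs hx, (hr hx).2⟩
  · intro h q hq
    have h1 : ¬ I.null (q.1 ∩ ess N) := by
      intro h2
      refine q.2.2 (I.mono ?_ (CI.union h2 h))
      intro x hx
      by_cases hx' : x ∈ ess N
      · exact Or.inl ⟨hx, hx'⟩
      · exact Or.inr ⟨hq hx, hx'⟩
    obtain ⟨s, hs, h2⟩ := ess_pos h1
    exact ⟨q.restr s.1 s.2.1 h2, q.restr_le _ _ _, s, hs, fun x hx => hx.2⟩

theorem rep_grd (h : Prop) : Rep ((forcing (Cond I)).grd h) (fun _ => h) := by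
  refine ⟨MeasurableSet.const h, fun p => ?_⟩
  rw [mem_grd]
  by_cases hh : h
  · simp only [hh, not_true, true_iff]
    have : p.1 ∩ {_ω | False} = ∅ := by simp
    rw [this]; exact I.empty
  · simp only [hh, not_false_eq_true, false_iff]
    have : p.1 ∩ {_ω | True} = p.1 := by simp
    rw [this]; exact p.2.2

theorem Rep.neg {Φ : Set (Cond I)} {S : Ω → Prop} (h : Rep Φ S) :
    Rep ((forcing (Cond I)).neg Φ) (fun ω => ¬ S ω) := by
  refine ⟨h.1.compl, fun p => ?_⟩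
  rw [mem_neg]
  simp only [not_not]
  constructor
  · intro h1
    by_contra hpos
    refine h1 (p.restr {ω | S ω} h.1 hpos) (p.restr_le _ _ _) (h.iff.2 ?_)
    have : (p.restr {ω | S ω} h.1 hpos).1 ∩ {ω | ¬ S ω} = ∅ := by
      ext x
      simp only [Cond.restr, mem_inter_iff, mem_ofPred_eq, mem_empty_iff_false, iff_false]
      tauto
    rw [this]; exact I.empty
  · intro h1 q hq hqΦ
    have h2 := h.iff.1 hqΦ
    refine q.2.2 (I.mono ?_ (CI.union h1 h2))
    intro x hx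
    by_cases hx' : S x
    · exact Or.inl ⟨hq hx, hx'⟩
    · exact Or.inr ⟨hx, hx'⟩

theorem Rep.conj {Φ Ψ : Set (Cond I)} {S S' : Ω → Prop} (h : Rep Φ S) (h' : Rep Ψ S') :
    Rep ((forcing (Cond I)).conj Φ Ψ) (fun ω => S ω ∧ S' ω) := by
  refine ⟨h.1.inter h'.1, fun p => ?_⟩
  rw [mem_conj, h.iff, h'.iff]
  constructor
  · rintro ⟨h1, h2⟩
    refine I.mono ?_ (CI.union h1 h2)
    rintro x ⟨hx, hx'⟩
    by_cases hS : S x
    · exact Or.inr ⟨hx, fun h => hx' ⟨hS, h⟩⟩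
    · exact Or.inl ⟨hx, hS⟩
  · intro h1
    exact ⟨I.mono (show p.1 ∩ {ω | ¬ S ω} ⊆ p.1 ∩ {ω | ¬ (S ω ∧ S' ω)} from
        fun x hx => ⟨hx.1, fun h => hx.2 h.1⟩) h1,
      I.mono (show p.1 ∩ {ω | ¬ S' ω} ⊆ p.1 ∩ {ω | ¬ (S ω ∧ S' ω)} from
        fun x hx => ⟨hx.1, fun h => hx.2 h.2⟩) h1⟩

theorem Rep.all {ι : Type} [Countable ι] {Φ : ι → Set (Cond I)} {S : ι → Ω → Prop}
    (h : ∀ i, Rep (Φ i) (S i)) : Rep ((forcing (Cond I)).all Φ) (fun ω => ∀ i, S i ω) := by
  refine ⟨?_, fun p => ?_⟩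
  · have : {ω | ∀ i, S i ω} = ⋂ i, {ω | S i ω} := by ext; simp
    rw [this]
    exact MeasurableSet.iInter fun i => (h i).1
  · rw [mem_all]
    constructor
    · intro h1
      have := CI.iUnion' (I := I) (fun i => p.1 ∩ {ω | ¬ S i ω}) fun i => (h i).iff.1 (h1 i)
      refine I.mono ?_ this
      rintro x ⟨hx, hx'⟩
      rw [mem_ofPred_eq, not_forall] at hx'
      obtain ⟨i, hi⟩ := hx'
      exact mem_iUnion.mpr ⟨i, hx, hi⟩
    · intro h1 i
      exact (h i).iff.2 (I.mono (show p.1 ∩ {ω | ¬ S i ω} ⊆ p.1 ∩ {ω | ¬ ∀ i, S i ω} from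
        fun x hx => ⟨hx.1, fun h => hx.2 (h i)⟩) h1)

theorem Rep.imp {Φ Ψ : Set (Cond I)} {S S' : Ω → Prop} (h : Rep Φ S) (h' : Rep Ψ S') :
    Rep ((forcing (Cond I)).imp Φ Ψ) (fun ω => S ω → S' ω) :=
  ((h.conj h'.neg).neg).congr fun ω => by tauto

theorem Rep.disj {Φ Ψ : Set (Cond I)} {S S' : Ω → Prop} (h : Rep Φ S) (h' : Rep Ψ S') :
    Rep ((forcing (Cond I)).disj Φ Ψ) (fun ω => S ω ∨ S' ω) :=
  ((h.neg.conj h'.neg).neg).congr fun ω => by tauto

theorem Rep.ex {ι : Type} [Countable ι] {Φ : ι → Set (Cond I)} {S : ι → Ω → Prop}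
    (h : ∀ i, Rep (Φ i) (S i)) : Rep ((forcing (Cond I)).ex Φ) (fun ω => ∃ i, S i ω) :=
  (Rep.neg (Rep.all fun i => (h i).neg)).congr fun ω => by push Not; rfl

/-- if `S` holds almost everywhere then every condition forces `Φ` -/
theorem Rep.of_null {Φ : Set (Cond I)} {S : Ω → Prop} (h : Rep Φ S)
    (hS : I.null {ω | ¬ S ω}) (p : Cond I) : p ∈ Φ :=
  h.iff.2 (I.mono inter_subset_right hS)

/-- The truth values of the sentences over `Ω`: sets of points. -/
def pointwise (Ω : Type) : TV (Ω → Prop) where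
  lit := id
  neg := fun φ ω => ¬ φ ω
  conj := fun φ ψ ω => φ ω ∧ ψ ω
  all := fun φ ω => ∀ i, φ i ω
  grd := fun h _ => h

/-- the name of a measurable function -/
def nm {Y : Type} (f : Ω → ℕ → Y) : ℕ → Y → Set (Cond I) :=
  fun n y => {p | p.1 ⊆ {ω | f ω n = y}}

theorem rep_lit_of {N : Set (Cond I)} {S : Ω → Prop} (hS : MeasurableSet {ω | S ω})
    (hN : ∀ p : Cond I, p ∈ N ↔ p.1 ⊆ {ω | S ω}) : Rep ((forcing (Cond I)).lit N) S := by
  refine ⟨hS, fun p => ?_⟩
  rw [mem_lit]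
  constructor
  · intro h
    by_contra hpos
    obtain ⟨r, hr, s, hs, hrs⟩ := h (p.restr {ω | S ω}ᶜ hS.compl hpos) (p.restr_le _ _ _)
    refine r.2.2 (I.mono ?_ I.empty)
    intro x hx
    exact absurd ((hN s).1 hs (hrs hx)) (hr hx).2
  · intro h q hq
    have h1 : ¬ I.null (q.1 ∩ {ω | S ω}) := by
      intro h2
      refine q.2.2 (I.mono ?_ (CI.union h2 h))
      intro x hx
      by_cases hx' : S x
      · exact Or.inl ⟨hx, hx'⟩
      · exact Or.inr ⟨hq hx, hx'⟩
    exact ⟨q.restr _ hS h1, q.restr_le _ _ _, q.restr _ hS h1, (hN _).2 fun x hx => hx.2, le_rfl⟩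

theorem rep_nm {Y : Type} {f : Ω → ℕ → Y} {n : ℕ} {y : Y} (hf : MeasurableSet {ω | f ω n = y}) :
    Rep ((forcing (Cond I)).lit (nm f n y)) (fun ω => f ω n = y) :=
  rep_lit_of hf fun _ => Iff.rfl

/-- the name of a measurable set of natural numbers -/
def nmS (f : Ω → ℕ → Prop) : ℕ → Set (Cond I) := fun n => {p | p.1 ⊆ {ω | f ω n}}

theorem rep_nmS {f : Ω → ℕ → Prop} {n : ℕ} (hf : MeasurableSet {ω | f ω n}) :
    Rep ((forcing (Cond I)).lit (nmS f n)) (fun ω => f ω n) :=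
  rep_lit_of hf fun _ => Iff.rfl

theorem Rep.isFun {X Y : Type} [Countable X] [Countable Y] {R : X → Y → Set (Cond I)}
    {S : X → Y → Ω → Prop} (h : ∀ x y, Rep ((forcing (Cond I)).lit (R x y)) (S x y)) :
    Rep ((forcing (Cond I)).isFun R)
      (fun ω => classical.isFun fun x y => S x y ω) := by
  refine Rep.congr (Rep.conj (Rep.all fun x => Rep.ex fun y => h x y)
    (Rep.all fun x => Rep.all fun y => Rep.all fun y' =>
      Rep.imp (Rep.conj (h x y) (h x y')) (rep_grd _))) fun ω => ?_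
  unfold TV.isFun
  simp only [classical_conj, classical_all, classical_ex, classical_lit, classical_imp,
    classical_grd]

theorem isFun_nm {Y : Type} [Countable Y] {f : Ω → ℕ → Y}
    (hf : ∀ n y, MeasurableSet {ω | f ω n = y}) (p : Cond I) :
    p ∈ (forcing (Cond I)).isFun (nm f) := by
  refine Rep.of_null (Rep.isFun fun n y => rep_nm (hf n y)) ?_ p
  refine I.mono ?_ I.empty
  intro ω hω
  exfalso
  exact hω ((classical_isFun _).2 ⟨f ω, fun _ _ => Iff.rfl⟩)

end Q208.F
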