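import Pool.Agent.Q208.F.Tree

/-!
# Forcing notions in a forcing extension

For a name `le` of a preorder on the ground model set `X`, the sentences of the forcing language
of this named forcing notion are given truth values in `X → Ω`: the truth value of a sentence at
the condition `x` is the truth value of the statement that `x` forces the sentence.
-/

open Cardinal Set

namespace Q208.F

namespace TV

variable {Ω : Type} (T : TV Ω)

/-- The forcing relation of the named forcing notion `(X, le)`. -/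
def iter {X : Type} (le : X → X → Ω) : TV (X → Ω) where
  lit := fun N p => T.all fun q : X => T.imp (T.lit (le q p)) (T.ex fun r : X =>
    T.conj (T.lit (le r q)) (T.ex fun s : X => T.conj (T.lit (N s)) (T.lit (le r s))))
  neg := fun φ p => T.all fun q : X => T.imp (T.lit (le q p)) (T.neg (φ q))
  conj := fun φ ψ p => T.conj (φ p) (ψ p)
  all := fun φ p => T.all fun i => φ i p
  grd := fun h _ => T.grd h

/-- `le` is a reflexive and transitive relation on the nonempty set `X` -/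
def isForcingNotion {X : Type} (le : X → X → Ω) : Ω :=
  T.conj (T.ex fun _ : X => T.grd True)
    (T.conj (T.all fun x => T.lit (le x x))
      (T.all fun x => T.all fun y => T.all fun z =>
        T.imp (T.conj (T.lit (le x y)) (T.lit (le y z))) (T.lit (le x z))))

/-- The forcing notion `(X, le)` adds no new subsets of `ω`: for every name `A` of a subset of `ω`
and every condition `p` there are a stronger condition `q` and a set `B` of natural numbers such
that `q` forces `A = B`. -/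
def noNewReals {X : Type} (le : X → X → Ω) : Ω :=
  T.all fun A : ℕ → X → Ω => T.all fun p : X => T.ex fun q : X => T.conj (T.lit (le q p))
    (T.ex fun B : ℕ → Ω => T.all fun n : ℕ =>
      T.conj (T.imp (T.lit (B n)) ((T.iter le).lit (A n) q))
        (T.imp (T.neg (T.lit (B n))) ((T.iter le).neg ((T.iter le).lit (A n)) q)))

/-- The relation `R` on `K` is special: there is `f : K → ω` with `f s ≠ f t` whenever `R s t`. -/
def special {K : Type} (R : K → K → Ω) : Ω :=
  T.ex fun f : K → ℕ → Ω => T.conj (T.isFun f)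
    (T.all fun s => T.all fun t => T.all fun n : ℕ =>
      T.imp (T.conj (R s t) (T.conj (T.lit (f s n)) (T.lit (f t n)))) (T.grd False))

/-- `(X, le)` is a forcing notion which adds no new subsets of `ω` and forces that the tree
`(K, lt)` is special. -/
def specialises {K X : Type} (lt : K → K → Ω) (le : X → X → Ω) : Ω :=
  T.conj (T.isForcingNotion le) (T.conj (T.noNewReals le)
    (T.all fun p : X => (T.iter le).special (fun s t (_ : X) => T.lit (lt s t)) p))

end TV

/-! ### The forcing relation -/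

section forcing

variable {P : Type} [Preorder P]

/-- `lit` sets are regular -/
theorem lit_of_dense {A : Set P} {p : P} (h : ∀ q ≤ p, ∃ r ≤ q, r ∈ (forcing P).lit A) :
    p ∈ (forcing P).lit A := by
  intro q hq
  obtain ⟨r, hr, h1⟩ := h q hq
  obtain ⟨s, hs, t, ht, hst⟩ := h1 r le_rfl
  exact ⟨s, hs.trans hr, t, ht, hst⟩

theorem mem_lit_of_mem {A : Set P} {p q : P} (h : q ∈ A) (hpq : p ≤ q) :
    p ∈ (forcing P).lit A := fun r hr => ⟨r, le_rfl, q, h, hr.trans hpq⟩

/-- a name of a preorder, below a condition -/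
structure Ext (P X : Type) [Preorder P] where
  p₀ : P
  le : X → X → Set P
  refl : ∀ x, p₀ ∈ (forcing P).lit (le x x)
  trans : ∀ x y z, ∀ p ≤ p₀, p ∈ (forcing P).lit (le x y) → p ∈ (forcing P).lit (le y z) →
    p ∈ (forcing P).lit (le x z)

variable {X : Type}

/-- the two step iteration -/
def Ext.R (E : Ext P X) : Type := {p : P // p ≤ E.p₀} × X

instance (E : Ext P X) : Preorder E.R where
  le r s := r.1.1 ≤ s.1.1 ∧ r.1.1 ∈ (forcing P).lit (E.le r.2 s.2)
  le_refl r := ⟨le_rfl, down_lit _ _ (E.refl r.2) _ r.1.2⟩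
  le_trans r s t h1 h2 := ⟨h1.1.trans h2.1,
    E.trans _ _ _ _ r.1.2 h1.2 (down_lit _ _ h2.2 _ h1.1)⟩

namespace Ext

variable {E : Ext P X}

theorem le_def {r s : E.R} :
    r ≤ s ↔ r.1.1 ≤ s.1.1 ∧ r.1.1 ∈ (forcing P).lit (E.le r.2 s.2) := Iff.rfl

/-- strengthen the first coordinate -/
def res (r : E.R) (q : P) (hq : q ≤ r.1.1) : E.R := (⟨q, hq.trans r.1.2⟩, r.2)

theorem res_le (r : E.R) (q : P) (hq : q ≤ r.1.1) : res r q hq ≤ r :=
  ⟨hq, down_lit _ _ (E.refl r.2) _ (hq.trans r.1.2)⟩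

theorem res_le_res {r s : E.R} (h : r ≤ s) {q q' : P} (hq : q ≤ r.1.1) (hq' : q' ≤ s.1.1)
    (hqq : q ≤ q') : res r q hq ≤ res s q' hq' :=
  ⟨hqq, down_lit _ _ h.2 _ hq⟩

theorem res_mem {φ : Set E.R} (hφ : Down φ) {r : E.R} (h : r ∈ φ) {q : P} (hq : q ≤ r.1.1) :
    res r q hq ∈ φ := hφ _ h _ (res_le r q hq)

/-- the conditions of the iteration which force a sentence -/
def hat (E : Ext P X) (φ : X → Set P) : Set E.R := {r | r.1.1 ∈ φ r.2}

/-- stronger conditions force more -/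
def DownF (φ : X → Set P) : Prop := ∀ x, Down (φ x)

theorem hat_neg {φ : X → Set P} (hφ : DownF φ) :
    E.hat (((forcing P).iter E.le).neg φ) = (forcing E.R).neg (E.hat φ) := by
  ext r
  constructor
  · intro h s hs hsφ
    obtain ⟨t, ht, h1⟩ := mem_imp.1 (h s.2) s.1.1 hs.1 hs.2
    exact h1 t le_rfl (hφ _ _ hsφ _ ht)
  · intro h y
    refine mem_imp.2 fun q hq hqy => ⟨q, le_rfl, fun q' hq' hmem => ?_⟩
    refine h ((⟨q', hq'.trans (hq.trans r.1.2)⟩, y) : E.R) ⟨hq'.trans hq, ?_⟩ hmem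
    exact down_lit _ _ hqy _ hq'

theorem hat_conj {φ ψ : X → Set P} :
    E.hat (((forcing P).iter E.le).conj φ ψ) = (forcing E.R).conj (E.hat φ) (E.hat ψ) := rfl

theorem hat_all {ι : Type} {φ : ι → X → Set P} :
    E.hat (((forcing P).iter E.le).all φ) = (forcing E.R).all fun i => E.hat (φ i) := rfl

theorem hat_grd {h : Prop} :
    E.hat (((forcing P).iter E.le).grd h) = (forcing E.R).grd h := rfl

theorem hat_lit {A : X → Set P} :
    E.hat (((forcing P).iter E.le).lit A) =
      (forcing E.R).lit (E.hat fun x => (forcing P).lit (A x)) := by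
  ext r
  constructor
  · intro h s hs
    obtain ⟨t, ht, h1⟩ := mem_imp.1 (h s.2) s.1.1 hs.1 hs.2
    obtain ⟨u, hu, z, h2⟩ := mem_ex.1 h1 t le_rfl
    obtain ⟨v, hv, w, h3⟩ := mem_ex.1 h2.2 u le_rfl
    have hvs : v ≤ s.1.1 := hv.trans (hu.trans ht)
    refine ⟨(⟨v, hvs.trans s.1.2⟩, z), ⟨hvs, down_lit _ _ h2.1 _ hv⟩,
      (⟨v, hvs.trans s.1.2⟩, w), h3.1, le_rfl, h3.2⟩
  · intro h y
    refine mem_imp.2 fun q hq hqy => ?_
    obtain ⟨s, hs, t, ht, hst⟩ := h ((⟨q, hq.trans r.1.2⟩, y) : E.R) ⟨hq, hqy⟩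
    refine ⟨s.1.1, hs.1, mem_ex_of_mem s.2 ?_ ⟨hs.2, mem_ex_of_mem t.2 ?_ ⟨?_, hst.2⟩⟩⟩
    · exact down_conj (down_lit _) (down_ex _)
    · exact down_conj (down_lit _) (down_lit _)
    · exact down_lit _ _ ht _ hst.1

theorem downF_lit (A : X → Set P) : DownF (((forcing P).iter E.le).lit A) :=
  fun _ => down_all fun _ => down_imp _ _

theorem downF_neg (φ : X → Set P) : DownF (((forcing P).iter E.le).neg φ) :=
  fun _ => down_all fun _ => down_imp _ _

theorem downF_conj {φ ψ : X → Set P} (h : DownF φ) (h' : DownF ψ) :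
    DownF (((forcing P).iter E.le).conj φ ψ) := fun x => down_conj (h x) (h' x)

theorem downF_all {ι : Type} {φ : ι → X → Set P} (h : ∀ i, DownF (φ i)) :
    DownF (((forcing P).iter E.le).all φ) := fun x => down_all fun i => h i x

theorem downF_grd (h : Prop) : DownF (((forcing P).iter E.le).grd h) := fun _ => down_grd h

theorem downF_imp (φ ψ : X → Set P) : DownF (((forcing P).iter E.le).imp φ ψ) := downF_neg _

theorem downF_ex {ι : Type} (φ : ι → X → Set P) : DownF (((forcing P).iter E.le).ex φ) :=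
  downF_neg _

theorem hat_imp {φ ψ : X → Set P} (h : DownF φ) (h' : DownF ψ) :
    E.hat (((forcing P).iter E.le).imp φ ψ) = (forcing E.R).imp (E.hat φ) (E.hat ψ) := by
  unfold TV.imp
  rw [hat_neg (downF_conj h (downF_neg _)), hat_conj, hat_neg h']

theorem hat_ex {ι : Type} {φ : ι → X → Set P} (h : ∀ i, DownF (φ i)) :
    E.hat (((forcing P).iter E.le).ex φ) = (forcing E.R).ex fun i => E.hat (φ i) := by
  unfold TV.ex
  rw [hat_neg (downF_all fun i => downF_neg _), hat_all]
  congr 2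
  funext i
  exact hat_neg (h i)

theorem hat_isFun {Y Z : Type} (f : Y → Z → X → Set P) :
    E.hat (((forcing P).iter E.le).isFun f) =
      (forcing E.R).isFun fun y z => E.hat fun x => (forcing P).lit (f y z x) := by
  unfold TV.isFun
  rw [hat_conj, hat_all, hat_all]
  congr 2
  · funext y
    rw [hat_ex fun z => downF_lit _]
    congr 1
    funext z
    exact hat_lit
  · funext y
    rw [hat_all]
    congr 1
    funext z
    rw [hat_all]
    congr 1
    funext z'
    rw [hat_imp (downF_conj (downF_lit _) (downF_lit _)) (downF_grd _), hat_conj, hat_lit, hat_lit,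
      hat_grd]

/-- a name for the iteration, as a name in the extension -/
def lower (E : Ext P X) (A : Set E.R) (x : X) : Set P := {p | ∃ h : p ≤ E.p₀, ((⟨p, h⟩, x) : E.R) ∈ A}

theorem lit_lower (A : Set E.R) :
    (forcing E.R).lit (E.hat fun x => (forcing P).lit (E.lower A x)) = (forcing E.R).lit A := by
  ext t
  constructor
  · intro h t₁ ht₁
    obtain ⟨t₂, ht₂, s, hs, hts⟩ := h t₁ ht₁
    obtain ⟨q, hq, s', ⟨hs', hs'A⟩, hqs⟩ := hs t₂.1.1 hts.1
    refine ⟨res t₂ q hq, (res_le _ _ _).trans ht₂, _, hs'A, hqs, ?_⟩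
    exact down_lit _ _ hts.2 _ hq
  · intro h t₁ ht₁
    obtain ⟨t₂, ht₂, s, hs, hts⟩ := h t₁ ht₁
    refine ⟨t₂, ht₂, s, ?_, hts⟩
    exact mem_lit_of_mem (A := E.lower A s.2) ⟨s.1.2, hs⟩ le_rfl

/-- No new reals, in terms of the iteration. -/
def NNR (E : Ext P X) : Prop :=
  ∀ (A : ℕ → Set E.R) (r : E.R), ∃ r' ≤ r, ∃ B : ℕ → Set P, ∀ n,
    (∀ q (hq : q ≤ r'.1.1), q ∈ (forcing P).lit (B n) → res r' q hq ∈ (forcing E.R).lit (A n)) ∧
    (∀ q (hq : q ≤ r'.1.1), q ∈ (forcing P).neg ((forcing P).lit (B n)) →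
      res r' q hq ∈ (forcing E.R).neg ((forcing E.R).lit (A n)))

theorem nnr (h : E.p₀ ∈ (forcing P).noNewReals E.le) : E.NNR := by
  intro A r
  have h1 := h (fun n => E.lower (A n)) r.2
  obtain ⟨p₁, hp₁, y, hy, h2⟩ := mem_ex.1 h1 r.1.1 r.1.2
  obtain ⟨p₂, hp₂, B, h3⟩ := mem_ex.1 h2 p₁ le_rfl
  have hp₂' : p₂ ≤ E.p₀ := hp₂.trans (hp₁.trans r.1.2)
  refine ⟨(⟨p₂, hp₂'⟩, y), ⟨hp₂.trans hp₁, down_lit _ _ hy _ hp₂⟩, B, fun n => ⟨?_, ?_⟩⟩
  · intro q hq hqB
    refine lit_of_dense fun t ht => ?_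
    obtain ⟨s, hs, h4⟩ := mem_imp.1 (h3 n).1 t.1.1 (ht.1.trans hq) (down_lit _ _ hqB _ ht.1)
    have h5 : ((⟨s, hs.trans t.1.2⟩, y) : E.R) ∈ (forcing E.R).lit (A n) := by
      rw [← lit_lower, ← hat_lit]
      exact h4
    have h6 : res t s hs ≤ ((⟨s, hs.trans t.1.2⟩, y) : E.R) := ⟨le_rfl, down_lit _ _ ht.2 _ hs⟩
    exact ⟨res t s hs, res_le _ _ _, down_lit (P := E.R) _ _ h5 _ h6⟩
  · intro q hq hqB t ht htA
    obtain ⟨s, hs, h4⟩ := mem_imp.1 (h3 n).2 t.1.1 (ht.1.trans hq) (down_neg _ _ hqB _ ht.1)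
    have h5 : ((⟨s, hs.trans t.1.2⟩, y) : E.R) ∈
        (forcing E.R).neg ((forcing E.R).lit (A n)) := by
      rw [← lit_lower, ← hat_lit, ← hat_neg (downF_lit _)]
      exact h4
    have h6 : res t s hs ≤ ((⟨s, hs.trans t.1.2⟩, y) : E.R) := ⟨le_rfl, down_lit _ _ ht.2 _ hs⟩
    exact h5 (res t s hs) h6 (res_mem (down_lit _) htA hs)

end Ext

end forcing

end Q208.F
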