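import Mathlib

/-!
# Averages of subsequences of a sequence of events

Every sequence of events has a subsequence such that the averages of the indicator functions
converge almost everywhere.
-/

open MeasureTheory Filter Topology Set
open scoped ENNReal InnerProductSpace

namespace Q208.F

section hilbert

variable {H : Type*} [NormedAddCommGroup H] [InnerProductSpace ℝ H] [CompleteSpace H]

theorem exists_weak_limit (x : ℕ → H) (hx : ∀ n, ‖x n‖ ≤ 1) :
    ∃ (U : Ultrafilter ℕ) (y : H), (U : Filter ℕ) ≤ atTop ∧ ‖y‖ ≤ 1 ∧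
      ∀ z, Tendsto (fun n => ⟪x n, z⟫_ℝ) U (𝓝 ⟪y, z⟫_ℝ) := by
  let U : Ultrafilter ℕ := hyperfilter ℕ
  let g : ℕ → WeakDual ℝ H := fun n => StrongDual.toWeakDual (InnerProductSpace.toDual ℝ H (x n))
  have hc := WeakDual.isCompact_closedBall (𝕜 := ℝ) (E := H) 0 1
  have hg : ∀ n, g n ∈ WeakDual.toStrongDual ⁻¹' Metric.closedBall (0 : StrongDual ℝ H) 1 := by
    intro n
    rw [mem_preimage, mem_closedBall_zero_iff]
    change ‖InnerProductSpace.toDual ℝ H (x n)‖ ≤ 1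
    rw [LinearIsometryEquiv.norm_map]
    exact hx n
  rw [isCompact_iff_ultrafilter_le_nhds] at hc
  obtain ⟨φ, hφ, hφ2⟩ := hc (U.map g) (by
    rw [le_principal_iff]
    exact Ultrafilter.mem_map.mpr (Filter.univ_mem' hg))
  refine ⟨U, (InnerProductSpace.toDual ℝ H).symm (WeakDual.toStrongDual φ), Nat.hyperfilter_le_atTop,
    ?_, fun z => ?_⟩
  · rw [LinearIsometryEquiv.norm_map]
    rw [mem_preimage, mem_closedBall_zero_iff] at hφ
    exact hφ
  · rw [InnerProductSpace.toDual_symm_apply]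
    have h1 : Tendsto g U (𝓝 φ) := hφ2
    exact ((WeakDual.eval_continuous z).tendsto φ).comp h1

theorem exists_subseq_inner (x : ℕ → H) (hx : ∀ n, ‖x n‖ ≤ 1) :
    ∃ (n : ℕ → ℕ) (y : H), StrictMono n ∧ ‖y‖ ≤ 1 ∧
      ∀ i j, i < j → ⟪x (n i) - y, x (n j) - y⟫_ℝ ≤ (1 / 2 : ℝ) ^ i := by
  obtain ⟨U, y, hU, hy, hlim⟩ := exists_weak_limit x hx
  have h0 : ∀ z, Tendsto (fun n => ⟪z, x n - y⟫_ℝ) U (𝓝 0) := by
    intro z
    have h1 := (hlim z).sub (tendsto_const_nhds (x := ⟪y, z⟫_ℝ))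
    rw [sub_self] at h1
    refine h1.congr fun n => ?_
    rw [← inner_sub_left, real_inner_comm]
  obtain ⟨n, _, hn⟩ := exists_seq_of_forall_finset_exists (fun _ : ℕ => True)
    (fun a b => a < b ∧ ⟪x a - y, x b - y⟫_ℝ ≤ (1 / 2 : ℝ) ^ a) (by
      intro s _
      have h1 : ∀ᶠ b in (U : Filter ℕ), ∀ a ∈ s, a < b ∧ ⟪x a - y, x b - y⟫_ℝ ≤ (1 / 2 : ℝ) ^ a := by
        rw [Filter.eventually_all_finset]
        intro a _
        have h2 : ∀ᶠ b in (U : Filter ℕ), a < b := hU (Ioi_mem_atTop a)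
        refine h2.and ?_
        refine ((h0 (x a - y)).eventually (gt_mem_nhds (show (0 : ℝ) < (1 / 2) ^ a by
          positivity))).mono fun b hb => hb.le
      obtain ⟨b, hb⟩ := h1.exists
      exact ⟨b, trivial, hb⟩)
  have hmono : StrictMono n := strictMono_nat_of_lt_succ fun k => (hn k (k + 1) (by omega)).1
  refine ⟨n, y, hmono, hy, fun i j hij => ((hn i j hij).2).trans ?_⟩
  exact pow_le_pow_of_le_one (by norm_num) (by norm_num) hmono.le_apply

omit [CompleteSpace H] in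
theorem norm_sum_sq_le {x : ℕ → H} (hx : ∀ n, ‖x n‖ ≤ 1) {n : ℕ → ℕ} {y : H} (hy : ‖y‖ ≤ 1)
    (h : ∀ i j, i < j → ⟪x (n i) - y, x (n j) - y⟫_ℝ ≤ (1 / 2 : ℝ) ^ i) (J : ℕ) :
    ‖∑ j ∈ Finset.range J, (x (n j) - y)‖ ^ 2 ≤ 8 * J := by
  induction J with
  | zero => simp
  | succ J ih =>
    rw [Finset.sum_range_succ, norm_add_sq_real]
    have h1 : ⟪∑ j ∈ Finset.range J, (x (n j) - y), x (n J) - y⟫_ℝ ≤ 2 := by
      rw [sum_inner]
      calc ∑ i ∈ Finset.range J, ⟪x (n i) - y, x (n J) - y⟫_ℝ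
          ≤ ∑ i ∈ Finset.range J, (1 / 2 : ℝ) ^ i :=
            Finset.sum_le_sum fun i hi => h i J (Finset.mem_range.mp hi)
        _ ≤ 2 := sum_geometric_two_le J
    have h2 : ‖x (n J) - y‖ ≤ 2 := by
      have := norm_sub_le (x (n J)) y
      have := hx (n J)
      linarith
    have h3 : ‖x (n J) - y‖ ^ 2 ≤ 4 := by
      have := norm_nonneg (x (n J) - y)
      nlinarith
    push_cast
    linarith

end hilbert

/-- convergence along the squares is enough for averages -/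
theorem tendsto_average {u : ℕ → ℝ} (hu : Monotone u) {l : ℝ}
    (h : Tendsto (fun m : ℕ => u ((m + 1) ^ 2) / (((m + 1) ^ 2 : ℕ) : ℝ)) atTop (𝓝 l)) :
    Tendsto (fun n => u n / n) atTop (𝓝 l) := by
  refine tendsto_div_of_monotone_of_exists_subseq_tendsto_div u l hu fun a ha => ?_
  refine ⟨fun m => (m + 1) ^ 2, ?_, ?_, h⟩
  · -- growth
    have hs : 1 < Real.sqrt a := by
      rw [Real.lt_sqrt (by norm_num)]
      simpa using ha
    obtain ⟨M, hM⟩ := exists_nat_gt (1 / (Real.sqrt a - 1))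
    filter_upwards [eventually_ge_atTop M] with m hm
    have h1 : (1 : ℝ) ≤ (Real.sqrt a - 1) * (m + 1) := by
      have h2 : (0 : ℝ) < Real.sqrt a - 1 := by linarith
      rw [div_lt_iff₀ h2] at hM
      have h3 : (M : ℝ) ≤ m := by exact_mod_cast hm
      nlinarith
    have h2 : ((m : ℝ) + 1 + 1) ≤ Real.sqrt a * (m + 1) := by linarith
    have h3 : ((m : ℝ) + 1 + 1) ^ 2 ≤ (Real.sqrt a * (m + 1)) ^ 2 :=
      pow_le_pow_left₀ (by positivity) h2 2
    rw [mul_pow, Real.sq_sqrt (by linarith)] at h3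
    push_cast
    exact h3
  · refine tendsto_atTop_mono (fun m => ?_) tendsto_id
    change m ≤ (m + 1) ^ 2
    nlinarith

/-- Every sequence of events has a subsequence for which the averages of the indicator functions
converge almost everywhere. -/
theorem exists_average {α : Type*} [MeasurableSpace α] (μ : Measure α) [IsProbabilityMeasure μ]
    {A : ℕ → Set α} (hA : ∀ n, MeasurableSet (A n)) :
    ∃ n : ℕ → ℕ, StrictMono n ∧ ∀ᵐ ω ∂μ, ∃ l : ℝ,
      Tendsto (fun J : ℕ => (∑ j ∈ Finset.range J, (A (n j)).indicator (fun _ => (1 : ℝ)) ω) / J)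
        atTop (𝓝 l) := by
  let x : ℕ → Lp ℝ 2 μ := fun n => indicatorConstLp 2 (hA n) (measure_ne_top μ _) (1 : ℝ)
  have hx : ∀ n, ‖x n‖ ≤ 1 := by
    intro n
    have h1 := norm_indicatorConstLp_le (p := 2) (hs := hA n) (hμs := measure_ne_top μ _)
      (c := (1 : ℝ))
    refine h1.trans ?_
    rw [norm_one, one_mul]
    refine Real.rpow_le_one measureReal_nonneg measureReal_le_one (by positivity)
  obtain ⟨n, y, hn, hy, hinner⟩ := exists_subseq_inner x hx
  refine ⟨n, hn, ?_⟩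
  let T : ℕ → Lp ℝ 2 μ := fun J => ∑ j ∈ Finset.range J, (x (n j) - y)
  have hT : ∀ J, ∫ ω, (T J ω) ^ 2 ∂μ ≤ 8 * J := by
    intro J
    have h1 := norm_sum_sq_le hx hy hinner J
    have h2 : ‖T J‖ ^ 2 = ∫ ω, (T J ω) ^ 2 ∂μ := by
      rw [← real_inner_self_eq_norm_sq, L2.inner_def]
      refine integral_congr_ae (ae_of_all _ fun ω => ?_)
      simp [sq]
    rw [← h2]; exact h1
  have hTint : ∀ J, Integrable (fun ω => (T J ω) ^ 2) μ := by
    intro J
    exact (Lp.memLp (T J)).integrable_sq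
  let G : ℕ → α → ℝ≥0∞ := fun m ω =>
    ENNReal.ofReal ((T ((m + 1) ^ 2) ω / (((m + 1) ^ 2 : ℕ) : ℝ)) ^ 2)
  have hG : ∀ m, ∫⁻ ω, G m ω ∂μ ≤ ENNReal.ofReal (8 * (1 / ((m : ℝ) + 1) ^ 2)) := by
    intro m
    have h1 : ∀ ω, (T ((m + 1) ^ 2) ω / (((m + 1) ^ 2 : ℕ) : ℝ)) ^ 2 =
        (T ((m + 1) ^ 2) ω) ^ 2 * ((((m + 1) ^ 2 : ℕ) : ℝ) ^ 2)⁻¹ := by
      intro ω; rw [div_pow, div_eq_mul_inv]
    have h2 : ∫⁻ ω, G m ω ∂μ = ENNReal.ofReal (∫ ω, (T ((m + 1) ^ 2) ω) ^ 2 *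
        ((((m + 1) ^ 2 : ℕ) : ℝ) ^ 2)⁻¹ ∂μ) := by
      rw [ofReal_integral_eq_lintegral_ofReal ((hTint _).mul_const _)
        (ae_of_all _ fun ω => by positivity)]
      simp only [G, h1]
    rw [h2]
    refine ENNReal.ofReal_le_ofReal ?_
    rw [integral_mul_const]
    have h3 := hT ((m + 1) ^ 2)
    have h4 : (0 : ℝ) < (m : ℝ) + 1 := by positivity
    calc (∫ ω, (T ((m + 1) ^ 2) ω) ^ 2 ∂μ) * ((((m + 1) ^ 2 : ℕ) : ℝ) ^ 2)⁻¹
        ≤ (8 * (((m + 1) ^ 2 : ℕ) : ℝ)) * ((((m + 1) ^ 2 : ℕ) : ℝ) ^ 2)⁻¹ := by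
          refine mul_le_mul_of_nonneg_right h3 (by positivity)
      _ = 8 * (1 / ((m : ℝ) + 1) ^ 2) := by
          push_cast
          field_simp
  have hsum : ∑' m, ∫⁻ ω, G m ω ∂μ ≠ ∞ := by
    have h1 : Summable fun m : ℕ => 8 * (1 / ((m : ℝ) + 1) ^ 2) := by
      refine Summable.mul_left _ ?_
      have := (summable_nat_add_iff 1).mpr (Real.summable_one_div_nat_pow.mpr (show 1 < 2 by norm_num))
      refine this.congr fun m => ?_
      push_cast
      rfl
    refine ne_top_of_le_ne_top ?_ (ENNReal.tsum_le_tsum hG)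
    rw [← ENNReal.ofReal_tsum_of_nonneg (fun m => by positivity) h1]
    exact ENNReal.ofReal_ne_top
  have hGm : ∀ m, AEMeasurable (G m) μ := by
    intro m
    have h1 : AEMeasurable (T ((m + 1) ^ 2)) μ := (Lp.aestronglyMeasurable _).aemeasurable
    exact ((h1.div_const _).pow_const 2).ennreal_ofReal
  have hae : ∀ᵐ ω ∂μ, ∑' m, G m ω < ∞ := by
    refine ae_lt_top' (AEMeasurable.tsum hGm) ?_
    rw [lintegral_tsum hGm]
    exact hsum
  have hT2 : ∀ᵐ ω ∂μ, ∀ J, T J ω = ∑ j ∈ Finset.range J,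
      ((A (n j)).indicator (fun _ => (1 : ℝ)) ω - y ω) := by
    rw [ae_all_iff]
    intro J
    have h1 := Lp.coeFn_fun_finsetSum (Finset.range J) fun j => x (n j) - y
    have h2 : ∀ᵐ ω ∂μ, ∀ j, (x (n j) - y : Lp ℝ 2 μ) ω =
        (A (n j)).indicator (fun _ => (1 : ℝ)) ω - y ω := by
      rw [ae_all_iff]
      intro j
      have h3 := Lp.coeFn_sub (x (n j)) y
      have h4 := indicatorConstLp_coeFn (p := 2) (hs := hA (n j)) (hμs := measure_ne_top μ _)
        (c := (1 : ℝ))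
      filter_upwards [h3, h4] with ω h5 h6
      rw [h5, Pi.sub_apply]
      congr 1
    filter_upwards [h1, h2] with ω h5 h6
    rw [h5]
    exact Finset.sum_congr rfl fun j _ => h6 j
  filter_upwards [hae, hT2] with ω h1 h2
  refine ⟨y ω, ?_⟩
  refine tendsto_average (u := fun J => ∑ j ∈ Finset.range J,
    (A (n j)).indicator (fun _ => (1 : ℝ)) ω) ?_ ?_
  · refine monotone_nat_of_le_succ fun J => ?_
    rw [Finset.sum_range_succ]
    have : 0 ≤ (A (n J)).indicator (fun _ => (1 : ℝ)) ω :=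
      Set.indicator_nonneg (fun _ _ => zero_le_one) _
    linarith
  · have h3 := ENNReal.tendsto_atTop_zero_of_tsum_ne_top h1.ne
    have h4 : Tendsto (fun m : ℕ => (T ((m + 1) ^ 2) ω / (((m + 1) ^ 2 : ℕ) : ℝ)) ^ 2) atTop
        (𝓝 0) := by
      have h5 := (ENNReal.tendsto_toReal ENNReal.zero_ne_top).comp h3
      rw [ENNReal.toReal_zero] at h5
      refine h5.congr fun m => ?_
      simp only [Function.comp, G]
      rw [ENNReal.toReal_ofReal (by positivity)]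
    have h5 : Tendsto (fun m : ℕ => T ((m + 1) ^ 2) ω / (((m + 1) ^ 2 : ℕ) : ℝ)) atTop
        (𝓝 0) := by
      have h6 := h4.sqrt
      rw [Real.sqrt_zero] at h6
      rw [tendsto_zero_iff_abs_tendsto_zero]
      refine h6.congr fun m => ?_
      rw [Real.sqrt_sq_eq_abs]
      rfl
    have h6 := h5.add_const (y ω)
    rw [zero_add] at h6
    refine h6.congr fun m => ?_
    rw [h2, Finset.sum_sub_distrib, Finset.sum_const, Finset.card_range, nsmul_eq_mul]
    have h7 : (((m + 1) ^ 2 : ℕ) : ℝ) ≠ 0 := by positivity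
    field_simp
    ring

end Q208.F
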