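import Mathlib

/-!
# Sentences with truth values, and the forcing relation

A sentence about reals is written once, for an arbitrary structure `TV Ω` of truth values. With
`Ω = Prop` and the classical operations one gets the ordinary meaning of the sentence. With
`Ω = Set P`, where `P` is a preordered set of forcing conditions, and the usual clauses of the
forcing relation, one gets the set of the conditions which force the sentence.

Named objects: a name for a subset of a ground model set `X` is a map `X → Ω`; a name for a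
relation between `X` and `Y` is a map `X → Y → Ω`, and a function is named by its graph. In the
classical case names are just predicates and relations.
-/

open Cardinal

namespace Q208.F

/-- Truth values with the logical operations. `lit` is the truth value of the membership in
a named set, `grd` the truth value of a statement about ground model objects. -/
structure TV (Ω : Type) where
  lit : Ω → Ω
  neg : Ω → Ω
  conj : Ω → Ω → Ω
  all : {ι : Type} → (ι → Ω) → Ω
  grd : Prop → Ω

/-- The classical truth values. -/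
def classical : TV Prop where
  lit := id
  neg := Not
  conj := And
  all := fun φ => ∀ i, φ i
  grd := id

/-- The forcing relation for the preordered set `P`: a sentence is identified with the set of
the conditions which force it. -/
def forcing (P : Type) [Preorder P] : TV (Set P) where
  lit := fun N => {p | ∀ q ≤ p, ∃ r ≤ q, ∃ s ∈ N, r ≤ s}
  neg := fun φ => {p | ∀ q ≤ p, q ∉ φ}
  conj := fun φ ψ => {p | p ∈ φ ∧ p ∈ ψ}
  all := fun φ => {p | ∀ i, p ∈ φ i}
  grd := fun h => {_p | h}

namespace TV

variable {Ω : Type} (T : TV Ω)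

/-- implication -/
def imp (φ ψ : Ω) : Ω := T.neg (T.conj φ (T.neg ψ))

/-- disjunction -/
def disj (φ ψ : Ω) : Ω := T.neg (T.conj (T.neg φ) (T.neg ψ))

/-- equivalence -/
def iff (φ ψ : Ω) : Ω := T.conj (T.imp φ ψ) (T.imp ψ φ)

/-- existential quantification -/
def ex {ι : Type} (φ : ι → Ω) : Ω := T.neg (T.all fun i => T.neg (φ i))

/-- the named relation `R` is (the graph of) a function from `X` to `Y` -/
def isFun {X Y : Type} (R : X → Y → Ω) : Ω :=
  T.conj (T.all fun x => T.ex fun y => T.lit (R x y))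
    (T.all fun x => T.all fun y => T.all fun y' =>
      T.imp (T.conj (T.lit (R x y)) (T.lit (R x y'))) (T.grd (y = y')))

/-- the named relation `R` is onto `Y` -/
def isOnto {X Y : Type} (R : X → Y → Ω) : Ω :=
  T.all fun y => T.ex fun x => T.lit (R x y)

/-- the named set `A` of natural numbers is infinite -/
def inf (A : ℕ → Ω) : Ω :=
  T.all fun n : ℕ => T.ex fun m : ℕ => T.conj (T.grd (n ≤ m)) (T.lit (A m))

/-- the complement of the named set `A` of natural numbers is infinite -/
def coinf (A : ℕ → Ω) : Ω :=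
  T.all fun n : ℕ => T.ex fun m : ℕ => T.conj (T.grd (n ≤ m)) (T.neg (T.lit (A m)))

/-- `v` lists the first values of the named function `R` -/
def initSeg {Y : Type} [Inhabited Y] (R : ℕ → Y → Ω) (v : List Y) : Ω :=
  T.all fun i : ℕ => T.imp (T.grd (i < v.length)) (T.lit (R i (v.getD i default)))

end TV

/-! ### The classical meaning -/

section classical

theorem classical_imp (φ ψ : Prop) : classical.imp φ ψ ↔ (φ → ψ) := by
  change ¬ (φ ∧ ¬ ψ) ↔ _
  tauto

theorem classical_disj (φ ψ : Prop) : classical.disj φ ψ ↔ (φ ∨ ψ) := by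
  change ¬ (¬ φ ∧ ¬ ψ) ↔ _
  tauto

theorem classical_iff (φ ψ : Prop) : classical.iff φ ψ ↔ (φ ↔ ψ) := by
  change (classical.imp φ ψ ∧ classical.imp ψ φ) ↔ _
  rw [classical_imp, classical_imp]
  tauto

theorem classical_ex {ι : Type} (φ : ι → Prop) : classical.ex φ ↔ ∃ i, φ i := by
  change ¬ (∀ i, ¬ φ i) ↔ _
  push Not
  rfl

theorem classical_all {ι : Type} (φ : ι → Prop) : classical.all φ ↔ ∀ i, φ i := Iff.rfl

theorem classical_neg (φ : Prop) : classical.neg φ ↔ ¬ φ := Iff.rfl

theorem classical_conj (φ ψ : Prop) : classical.conj φ ψ ↔ (φ ∧ ψ) := Iff.rfl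

theorem classical_lit (φ : Prop) : classical.lit φ ↔ φ := Iff.rfl

theorem classical_grd (φ : Prop) : classical.grd φ ↔ φ := Iff.rfl

theorem classical_isFun {X Y : Type} (R : X → Y → Prop) :
    classical.isFun R ↔ ∃ f : X → Y, ∀ x y, R x y ↔ f x = y := by
  unfold TV.isFun
  simp only [classical_conj, classical_all, classical_ex, classical_lit, classical_imp,
    classical_grd]
  constructor
  · rintro ⟨h1, h2⟩
    choose f hf using h1
    refine ⟨f, fun x y => ⟨fun h => h2 x _ _ ⟨hf x, h⟩, ?_⟩⟩
    rintro rfl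
    exact hf x
  · rintro ⟨f, hf⟩
    refine ⟨fun x => ⟨f x, (hf x _).2 rfl⟩, fun x y y' h => ?_⟩
    rw [← (hf x y).1 h.1, ← (hf x y').1 h.2]

theorem classical_inf (A : ℕ → Prop) : classical.inf A ↔ {n | A n}.Infinite := by
  unfold TV.inf
  simp only [classical_conj, classical_all, classical_ex, classical_lit, classical_grd]
  rw [Set.infinite_iff_exists_gt]
  constructor
  · intro h a
    obtain ⟨m, h1, h2⟩ := h (a + 1)
    exact ⟨m, h2, h1⟩
  · intro h a
    obtain ⟨m, h1, h2⟩ := h a
    exact ⟨m, h2.le, h1⟩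

theorem classical_coinf (A : ℕ → Prop) : classical.coinf A ↔ {n | A n}ᶜ.Infinite := by
  unfold TV.coinf
  simp only [classical_conj, classical_all, classical_ex, classical_lit, classical_grd,
    classical_neg]
  rw [Set.infinite_iff_exists_gt]
  constructor
  · intro h a
    obtain ⟨m, h1, h2⟩ := h (a + 1)
    exact ⟨m, h2, h1⟩
  · intro h a
    obtain ⟨m, h1, h2⟩ := h a
    exact ⟨m, h2.le, h1⟩

theorem classical_initSeg {Y : Type} [Inhabited Y] (f : ℕ → Y) (R : ℕ → Y → Prop)
    (hR : ∀ n y, R n y ↔ f n = y) (v : List Y) :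
    classical.initSeg R v ↔ v = (List.range v.length).map f := by
  unfold TV.initSeg
  simp only [classical_all, classical_imp, classical_grd, classical_lit, hR]
  constructor
  · intro h
    apply List.ext_getElem
    · simp
    · intro i h1 h2
      have := h i h1
      rw [List.getD_eq_getElem _ _ h1] at this
      simp [this]
  · intro h i hi
    rw [List.getD_eq_getElem _ _ hi]
    have h1 : v[i] = ((List.range v.length).map f)[i]'(by simpa using hi) := by
      congr 1
    rw [h1]
    simp

end classical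

/-! ### The forcing relation -/

section forcing

variable {P : Type} [Preorder P]

theorem mem_lit {N : Set P} {p : P} :
    p ∈ (forcing P).lit N ↔ ∀ q ≤ p, ∃ r ≤ q, ∃ s ∈ N, r ≤ s := Iff.rfl

theorem mem_neg {φ : Set P} {p : P} : p ∈ (forcing P).neg φ ↔ ∀ q ≤ p, q ∉ φ := Iff.rfl

theorem mem_conj {φ ψ : Set P} {p : P} : p ∈ (forcing P).conj φ ψ ↔ p ∈ φ ∧ p ∈ ψ := Iff.rfl

theorem mem_all {ι : Type} {φ : ι → Set P} {p : P} :
    p ∈ (forcing P).all φ ↔ ∀ i, p ∈ φ i := Iff.rfl

theorem mem_grd {h : Prop} {p : P} : p ∈ (forcing P).grd h ↔ h := Iff.rfl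

theorem mem_ex {ι : Type} {φ : ι → Set P} {p : P} :
    p ∈ (forcing P).ex φ ↔ ∀ q ≤ p, ∃ r ≤ q, ∃ i, r ∈ φ i := by
  simp only [TV.ex, mem_neg, mem_all, not_forall, not_not]
  constructor
  · intro h q hq
    obtain ⟨i, r, hr, h'⟩ := h q hq
    exact ⟨r, hr, i, h'⟩
  · intro h q hq
    obtain ⟨r, hr, i, h'⟩ := h q hq
    exact ⟨i, r, hr, h'⟩

theorem mem_imp {φ ψ : Set P} {p : P} :
    p ∈ (forcing P).imp φ ψ ↔ ∀ q ≤ p, q ∈ φ → ∃ r ≤ q, r ∈ ψ := by
  simp only [TV.imp, mem_neg, mem_conj, not_and, not_forall, not_not]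
  constructor
  · intro h q hq h'
    obtain ⟨r, hr, h''⟩ := h q hq h'
    exact ⟨r, hr, h''⟩
  · intro h q hq h'
    obtain ⟨r, hr, h''⟩ := h q hq h'
    exact ⟨r, hr, h''⟩

/-- stronger conditions force more -/
def Down (φ : Set P) : Prop := ∀ p ∈ φ, ∀ q ≤ p, q ∈ φ

theorem down_neg (φ : Set P) : Down ((forcing P).neg φ) :=
  fun _ hp _ hq r hr => hp r (hr.trans hq)

theorem down_lit (N : Set P) : Down ((forcing P).lit N) :=
  fun _ hp _ hq r hr => hp r (hr.trans hq)

theorem down_conj {φ ψ : Set P} (h : Down φ) (h' : Down ψ) : Down ((forcing P).conj φ ψ) :=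
  fun _ hp _ hq => ⟨h _ hp.1 _ hq, h' _ hp.2 _ hq⟩

theorem down_all {ι : Type} {φ : ι → Set P} (h : ∀ i, Down (φ i)) : Down ((forcing P).all φ) :=
  fun _ hp _ hq i => h i _ (hp i) _ hq

theorem down_ex {ι : Type} (φ : ι → Set P) : Down ((forcing P).ex φ) := down_neg _

theorem down_imp (φ ψ : Set P) : Down ((forcing P).imp φ ψ) := down_neg _

theorem down_grd (h : Prop) : Down ((forcing P).grd h) := fun _ hp _ _ => hp

theorem down_isFun {X Y : Type} (R : X → Y → Set P) : Down ((forcing P).isFun R) :=
  down_conj (down_all fun _ => down_ex _) (down_all fun _ => down_all fun _ => down_all fun _ =>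
    down_imp _ _)

theorem mem_ex_of_mem {ι : Type} {φ : ι → Set P} {p : P} (i : ι) (hd : Down (φ i))
    (h : p ∈ φ i) : p ∈ (forcing P).ex φ :=
  mem_ex.2 fun q hq => ⟨q, le_rfl, i, hd _ h _ hq⟩

end forcing

/-! ### Preservation of cardinals -/

/-- the countable chain condition: there is no uncountable family of pairwise incompatible
conditions -/
def CCC (P : Type) [Preorder P] : Prop :=
  ∀ (Y : Type) (f : Y → P), (∀ y y', y ≠ y' → ¬ ∃ s, s ≤ f y ∧ s ≤ f y') → Countable Y

/-- Every uncountable cardinal is preserved: for all ground model sets `X, Y` with `|X| < |Y|` and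
`Y` uncountable, no function from `X` to `Y` is onto. -/
def CardinalsPreserved (P : Type) [Preorder P] : Prop :=
  ∀ X Y : Type, #X < #Y → ℵ₀ < #Y → ∀ p : P,
    p ∈ (forcing P).neg ((forcing P).ex fun R : X → Y → Set P =>
      (forcing P).conj ((forcing P).isFun R) ((forcing P).isOnto R))

theorem cardinalsPreserved {P : Type} [Preorder P] (hP : CCC P) : CardinalsPreserved P := by
  intro X Y hXY hY p q _ hq
  obtain ⟨r, _, R, hR1, hR2⟩ := mem_ex.1 hq q le_rfl
  choose f hf x hx using fun y => mem_ex.1 (hR2 y) r le_rfl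
  -- the fibres of `x` are countable
  have hfib : ∀ a : X, Countable {y : Y // x y = a} := by
    intro a
    refine hP _ (fun y => f y.1) ?_
    rintro ⟨y, hy⟩ ⟨y', hy'⟩ hne ⟨s, hs1, hs2⟩
    apply hne
    have h1 : s ∈ (forcing P).lit (R a y) := down_lit _ _ (hy ▸ hx y) _ hs1
    have h2 : s ∈ (forcing P).lit (R a y') := down_lit _ _ (hy' ▸ hx y') _ hs2
    obtain ⟨_, _, h3⟩ := mem_imp.1 (hR1.2 a y y') s (hs1.trans (hf y)) ⟨h1, h2⟩
    exact Subtype.ext h3
  have h1 : #Y ≤ #X * ℵ₀ := by
    have h2 : #(Σ a : X, {y : Y // x y = a}) = #Y :=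
      Cardinal.mk_congr (Equiv.sigmaFiberEquiv x)
    rw [← h2, Cardinal.mk_sigma]
    refine (Cardinal.sum_le_sum _ (fun _ => ℵ₀) fun a => ?_).trans ?_
    · exact Cardinal.mk_le_aleph0_iff.mpr (hfib a)
    · rw [Cardinal.sum_const]
      simp
  have h2 : #X * ℵ₀ < #Y := Cardinal.mul_lt_of_lt hY.le hXY hY
  exact absurd h1 (not_le.mpr h2)

end Q208.F
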