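import Pool.Agent.Q208.F.NoTree

/-!
# The tree in the Cohen extension is a wide Aronszajn tree
-/

open Cardinal Set MeasureTheory Filter Topology
open Q208.F.Tree

namespace Q208.F

/-! ### The sentences -/

namespace TV

variable {Ω : Type} (T : TV Ω)

/-- `(K, lt)` is a tree: `lt` is irreflexive and transitive, the predecessors of each node are
linearly ordered, and every nonempty subset of `K` has a minimal element. -/
def isTree {K : Type} (lt : K → K → Ω) : Ω :=
  T.conj (T.all fun x => T.neg (T.lit (lt x x)))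
    (T.conj (T.all fun x => T.all fun y => T.all fun z =>
        T.imp (T.conj (T.lit (lt x y)) (T.lit (lt y z))) (T.lit (lt x z)))
      (T.conj (T.all fun x => T.all fun y => T.all fun z =>
          T.imp (T.conj (T.lit (lt x z)) (T.lit (lt y z)))
            (T.disj (T.grd (x = y)) (T.disj (T.lit (lt x y)) (T.lit (lt y x)))))
        (T.all fun A : K → Ω => T.imp (T.ex fun x => T.lit (A x))
          (T.ex fun x => T.conj (T.lit (A x))
            (T.all fun y => T.imp (T.lit (lt y x)) (T.neg (T.lit (A y))))))))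

/-- The tree `(K, lt)` has height `ω₁`: every node has countably many predecessors, and for each
`a` of the well-order `O` of type `ω₁` there is a node with a chain of order type at least `a`
below it. -/
def heightOmegaOne {K : Type} (lt : K → K → Ω) : Ω :=
  T.conj (T.all fun v => T.ex fun f : ℕ → K → Ω =>
      T.conj (T.all fun w => T.imp (T.lit (lt w v)) (T.ex fun n => T.lit (f n w)))
        (T.all fun n => T.all fun w => T.all fun w' =>
          T.imp (T.conj (T.lit (f n w)) (T.lit (f n w'))) (T.grd (w = w'))))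
    (T.all fun a : O => T.ex fun v => T.ex fun g : O → K → Ω => T.all fun b : O =>
      T.imp (T.grd (b < a))
        (T.conj (T.ex fun w => T.conj (T.lit (g b w)) (T.lit (lt w v)))
          (T.all fun b' : O => T.all fun w => T.all fun w' =>
            T.imp (T.conj (T.grd (b < b' ∧ b' < a)) (T.conj (T.lit (g b w)) (T.lit (g b' w'))))
              (T.lit (lt w w')))))

/-- The tree `(K, lt)` has no cofinal branch: there is no strictly increasing function from the
well-order `O` of type `ω₁` to `K`. -/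
def noCofinalBranch {K : Type} (lt : K → K → Ω) : Ω :=
  T.all fun h : O → K → Ω => T.neg (T.conj (T.isFun h)
    (T.all fun a : O => T.all fun b : O => T.all fun x => T.all fun y =>
      T.imp (T.conj (T.grd (a < b)) (T.conj (T.lit (h a x)) (T.lit (h b y)))) (T.lit (lt x y))))

/-- `(K, lt)` is an Aronszajn tree of height `ω₁` (with levels of arbitrary size) -/
def isAronszajn {K : Type} (lt : K → K → Ω) : Ω :=
  T.conj (T.isTree lt) (T.conj (T.heightOmegaOne lt) (T.noCofinalBranch lt))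

end TV

/-! ### The tree has the required properties -/

variable {L : Type} (ι : N ↪ L)

/-- a rank function in the ground model -/
def rk : Nodes → O
  | .inl z => z.1
  | .inr x => x.2

theorem rk_lt {ω : Pt L} {a b : Nodes} (h : Lt ι ω a b) : rk a < rk b := by
  match a, b, h with
  | .inl w, .inl v, h => exact (inT_of_mem h).1
  | .inr x, .inr y, h => exact h.2.1

theorem cond_nonempty (p : CR L Empty) : ∃ ω, ω ∈ p.1 := by
  by_contra hno
  push Not at hno
  apply p.2.2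
  have : p.1 = ∅ := by ext ω; simp [hno ω]
  rw [this]
  exact (cohenRandom _ _).empty

/-- what is forced by some condition below `q` holds at some point of `q` -/
theorem exists_Lt {q : CR L Empty} {a b : Nodes}
    (h : q ∈ (forcing (CR L Empty)).lit (tr ι a b)) : ∃ ω, Lt ι ω a b := by
  obtain ⟨r, _, s, hs, hrs⟩ := h q le_rfl
  obtain ⟨ω, hω⟩ := cond_nonempty r
  exact ⟨ω, hs (hrs hω)⟩

theorem isTree_tr (p : CR L Empty) : p ∈ (forcing (CR L Empty)).isTree (tr ι) := by
  refine ⟨fun x => ?_, fun x y z => ?_, fun x y z => ?_, fun A => ?_⟩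
  · exact mem_of_forall (rep_tr ι x x).neg (fun ω h => lt_irrefl _ (rk_lt ι h)) p
  · refine mem_of_forall (((rep_tr ι x y).conj (rep_tr ι y z)).imp (rep_tr ι x z)) ?_ p
    rintro ω ⟨h, h'⟩
    match x, y, z, h, h' with
    | .inl x, .inl y, .inl z, h, h' => exact trans_pred h h'
    | .inr x, .inr y, .inr z, h, h' =>
      exact ⟨h.1.trans h'.1, h.2.1.trans h'.2.1, h'.2.2⟩
  · refine mem_of_forall (((rep_tr ι x z).conj (rep_tr ι y z)).imp
      ((rep_grd _).disj ((rep_tr ι x y).disj (rep_tr ι y x)))) ?_ p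
    rintro ω ⟨h, h'⟩
    match x, y, z, h, h' with
    | .inl x, .inl y, .inl z, h, h' =>
      rcases pred_linear h h' with h1 | h1 | h1
      · left; rw [h1]
      · right; left; exact h1
      · right; right; exact h1
    | .inr x, .inr y, .inr z, h, h' =>
      rcases lt_trichotomy x.2 y.2 with h1 | h1 | h1
      · right; left; exact ⟨h.1.trans h'.1.symm, h1, h'.2.1.trans (by rw [h'.1]; exact h'.2.2)⟩
      · left; rw [Prod.ext (h.1.trans h'.1.symm) h1]
      · right; right; exact ⟨h'.1.trans h.1.symm, h1, h.2.1.trans (by rw [h.1]; exact h.2.2)⟩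
  · refine mem_imp.2 fun q _ hq => ⟨q, le_rfl, mem_ex.2 fun q₁ hq₁ => ?_⟩
    obtain ⟨q₂, hq₂, x₀, hx₀⟩ := mem_ex.1 hq q₁ hq₁
    obtain ⟨b, ⟨x, hxb, q₃, hq₃, hx⟩, hmin⟩ := wellFounded_lt.has_min
      {b : O | ∃ x, rk x = b ∧ ∃ q' ≤ q₁, q' ∈ (forcing (CR L Empty)).lit (A x)}
      ⟨_, x₀, rfl, q₂, hq₂, hx₀⟩
    refine ⟨q₃, hq₃, x, hx, fun y => mem_imp.2 fun q₄ hq₄ hyx => ⟨q₄, le_rfl, ?_⟩⟩
    intro q₅ hq₅ hy
    obtain ⟨ω, hω⟩ := exists_Lt ι hyx
    exact hmin _ ⟨y, rfl, q₅, hq₅.trans (hq₄.trans hq₃), hy⟩ (hxb ▸ rk_lt ι hω)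

theorem heightOmegaOne_tr (p : CR L Empty) : p ∈ (forcing (CR L Empty)).heightOmegaOne (tr ι) := by
  constructor
  · intro v
    have hc : {w : Nodes | ∃ ω : Pt L, Lt ι ω w v}.Countable := by
      match v with
      | .inl z =>
        refine ((countable_inT z.1).image Sum.inl).mono ?_
        rintro w ⟨ω, hω⟩
        match w, hω with
        | .inl w, hω => exact ⟨w, inT_of_mem hω, rfl⟩
      | .inr y =>
        refine ((countable_Iio y.2).image fun b => (Sum.inr (y.1, b) : Nodes)).mono ?_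
        rintro w ⟨ω, hω⟩
        match w, hω with
        | .inr x, hω => exact ⟨x.2, hω.2.1, by rw [← hω.1]⟩
    obtain ⟨e, he⟩ : ∃ e : ℕ → Nodes, {w : Nodes | ∃ ω : Pt L, Lt ι ω w v} ⊆ range e := by
      rcases eq_empty_or_nonempty {w : Nodes | ∃ ω : Pt L, Lt ι ω w v} with h | h
      · exact ⟨fun _ => v, by rw [h]; exact empty_subset _⟩
      · obtain ⟨e, he⟩ := hc.exists_eq_range h
        exact ⟨e, he.subset⟩
    refine mem_ex_of_mem (fun n w => {_p | e n = w}) (down_conj (down_all fun _ => down_imp _ _)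
      (down_all fun _ => down_all fun _ => down_all fun _ => down_imp _ _)) ⟨fun w => ?_, ?_⟩
    · refine mem_imp.2 fun q _ hq => ⟨q, le_rfl, ?_⟩
      obtain ⟨n, hn⟩ := he (exists_Lt ι hq)
      exact mem_ex_of_mem n (down_lit _) (mem_lit_of_mem hn le_rfl)
    · intro n w w'
      refine mem_imp.2 fun q _ hq => ⟨q, le_rfl, ?_⟩
      obtain ⟨_, _, _, h1, _⟩ := hq.1 q le_rfl
      obtain ⟨_, _, _, h2, _⟩ := hq.2 q le_rfl
      exact (show e n = w from h1).symm.trans h2
  · intro a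
    obtain ⟨α, hα, _⟩ := Ext.exists_gt_pair a a
    refine mem_ex_of_mem (.inr (α, a)) (down_ex _) (mem_ex_of_mem
      (fun b w => {_p | w = .inr (α, b)}) (down_all fun _ => down_imp _ _) fun b =>
        mem_imp.2 fun q _ hb => ⟨q, le_rfl, ?_, ?_⟩)
    · refine mem_ex_of_mem (.inr (α, b)) (down_conj (down_lit _) (down_lit _))
        ⟨mem_lit_of_mem rfl le_rfl, ?_⟩
      exact mem_of_forall (rep_tr ι (.inr (α, b)) (.inr (α, a))) (fun ω => ⟨rfl, hb, hα⟩) q
    · intro b' w w'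
      refine mem_imp.2 fun r _ hr => ⟨r, le_rfl, ?_⟩
      obtain ⟨_, _, _, h1, _⟩ := hr.2.1 r le_rfl
      obtain ⟨_, _, _, h2, _⟩ := hr.2.2 r le_rfl
      have h1 : w = .inr (α, b) := h1
      have h2 : w' = .inr (α, b') := h2
      subst h1; subst h2
      exact mem_of_forall (rep_tr ι (.inr (α, b)) (.inr (α, b')))
        (fun ω => ⟨rfl, hr.1.1, hr.1.2.trans hα⟩) r

/-! ### No cofinal branch -/

/-- closed points below `ω₁` -/
theorem exists_closed (g : O → O) : ∃ δ : O, (∃ a, a < δ) ∧ ∀ a < δ, g a < δ := by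
  have h1 : ∀ a : O, ∃ b, a < b ∧ ∀ a' ≤ a, g a' < b := by
    intro a
    obtain ⟨b, hb⟩ := exists_gt (((countable_Iic a).image g).union (Set.countable_singleton a))
    exact ⟨b, hb a (Or.inr rfl), fun a' ha' => hb _ (Or.inl ⟨a', ha', rfl⟩)⟩
  choose G hG1 hG2 using h1
  let s : ℕ → O := fun n => Nat.rec (Classical.arbitrary O) (fun _ a => G a) n
  obtain ⟨b₀, hb₀⟩ := exists_gt (Set.countable_range s)
  obtain ⟨δ, hδ, hmin⟩ := wellFounded_lt.has_min {b : O | ∀ n, s n < b}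
    ⟨b₀, fun n => hb₀ _ ⟨n, rfl⟩⟩
  refine ⟨δ, ⟨s 0, hδ 0⟩, fun a ha => ?_⟩
  have h2 : ∃ n, a ≤ s n := by
    by_contra hno
    push Not at hno
    exact hmin a hno ha
  obtain ⟨n, hn⟩ := h2
  exact (hG2 (s n) a hn).trans (hδ (n + 1))

theorem noCofinalBranch_tr (p : CR L Empty) :
    p ∈ (forcing (CR L Empty)).noCofinalBranch (tr ι) := by
  classical
  rintro h q - ⟨hfun, hinc⟩
  have hccc : CCC (CR L Empty) := ccc_Cond
  have hinc' : ∀ a b, a < b → ∀ x y, ∀ r ≤ q, r ∈ (forcing (CR L Empty)).lit (h a x) →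
      r ∈ (forcing (CR L Empty)).lit (h b y) → r ∈ (forcing (CR L Empty)).lit (tr ι x y) := by
    intro a b hab x y r hr h1 h2
    exact lit_of_dense fun t ht => mem_imp.1 (hinc a b x y) t (ht.trans hr)
      ⟨hab, down_lit _ _ h1 _ ht, down_lit _ _ h2 _ ht⟩
  have huniq : ∀ a x y, ∀ r ≤ q, r ∈ (forcing (CR L Empty)).lit (h a x) →
      r ∈ (forcing (CR L Empty)).lit (h a y) → x = y := by
    intro a x y r hr h1 h2
    obtain ⟨_, _, h3⟩ := mem_imp.1 (hfun.2 a x y) r hr ⟨h1, h2⟩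
    exact h3
  have hval : ∀ a, ∀ r ≤ q, ∃ r' ≤ r, ∃ x, r' ∈ (forcing (CR L Empty)).lit (h a x) :=
    fun a r hr => mem_ex.1 (hfun.1 a) r hr
  -- the first value
  obtain ⟨a₀, -, ha₀⟩ := wellFounded_lt.has_min (Set.univ : Set O) ⟨Classical.arbitrary O, trivial⟩
  have ha₀' : ∀ a, a₀ ≤ a := fun a => not_lt.1 (ha₀ a trivial)
  obtain ⟨q₀, hq₀, x₀, hx₀⟩ := hval a₀ q le_rfl
  -- possible values
  let V : O → Set Nodes := fun a => {x | ∃ r ≤ q₀, r ∈ (forcing (CR L Empty)).lit (h a x)}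
  have hVc : ∀ a, (V a).Countable := by
    intro a
    have h1 : ∀ x : V a, ∃ r ≤ q₀, r ∈ (forcing (CR L Empty)).lit (h a x.1) := fun x => x.2
    choose f hf1 hf2 using h1
    refine hccc _ f ?_
    rintro x y hne ⟨s, hsx, hsy⟩
    exact hne (Subtype.ext (huniq a x.1 y.1 s (hsx.trans ((hf1 x).trans hq₀))
      (down_lit _ _ (hf2 x) _ hsx) (down_lit _ _ (hf2 y) _ hsy)))
  have hV0 : ∀ a, ∀ x ∈ V a, x = x₀ ∨ ∃ ω : Pt L, Lt ι ω x₀ x := by
    rintro a x ⟨r, hr, hrx⟩
    rcases (ha₀' a).eq_or_lt with h1 | h1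
    · left
      rw [← h1] at hrx
      exact huniq a₀ _ _ r (hr.trans hq₀) hrx (down_lit _ _ hx₀ _ hr)
    · right
      exact exists_Lt ι (hinc' a₀ a h1 x₀ x r (hr.trans hq₀) (down_lit _ _ hx₀ _ hr) hrx)
  match x₀, hx₀, hV0 with
  | .inr c, hx₀, hV0 =>
    -- the second summand has no uncountable chains
    have h1 : ∀ a, ∃ r ≤ q₀, ∃ b : O, b ≤ c.1 ⊔ c.2 ∧
        r ∈ (forcing (CR L Empty)).lit (h a (.inr (c.1, b))) := by
      intro a
      obtain ⟨r, hr, x, hx⟩ := hval a q₀ hq₀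
      rcases hV0 a x ⟨r, hr, hx⟩ with rfl | ⟨ω, hω⟩
      · exact ⟨r, hr, c.2, le_sup_right, hx⟩
      · match x, hx, hω with
        | .inr y, hx, hω =>
          refine ⟨r, hr, y.2, ?_, ?_⟩
          · have h3 : y.2 < y.1 := hω.2.2
            rw [← hω.1] at h3
            exact h3.le.trans le_sup_left
          · have h4 : c.1 = y.1 := hω.1
            rw [h4]; exact hx
    choose r hr b hb hrb using h1
    apply not_countable_O
    have h2 : (⋃ β ∈ Iic (c.1 ⊔ c.2), {a | b a = β}) = Set.univ := by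
      ext a
      simp only [mem_iUnion, mem_univ, iff_true]
      exact ⟨b a, hb a, rfl⟩
    rw [← Set.countable_univ_iff, ← h2]
    refine (countable_Iic _).biUnion fun β _ => ?_
    refine hccc _ (fun a : {a | b a = β} => r a.1) ?_
    rintro ⟨a, ha⟩ ⟨a', ha'⟩ hne ⟨s, hs, hs'⟩
    have ha : b a = β := ha
    have ha' : b a' = β := ha'
    have h3 : s ∈ (forcing (CR L Empty)).lit (h a (.inr (c.1, β))) := by
      rw [← ha]; exact down_lit _ _ (hrb a) _ hs
    have h4 : s ∈ (forcing (CR L Empty)).lit (h a' (.inr (c.1, β))) := by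
      rw [← ha']; exact down_lit _ _ (hrb a') _ hs'
    have hsq : s ≤ q := hs.trans ((hr a).trans hq₀)
    have hne' : a ≠ a' := fun h => hne (Subtype.ext h)
    rcases lt_or_gt_of_ne hne' with h5 | h5
    · obtain ⟨ω, hω⟩ := exists_Lt ι (hinc' a a' h5 _ _ s hsq h3 h4)
      exact lt_irrefl _ (rk_lt ι hω)
    · obtain ⟨ω, hω⟩ := exists_Lt ι (hinc' a' a h5 _ _ s hsq h4 h3)
      exact lt_irrefl _ (rk_lt ι hω)
  | .inl z₀, hx₀, hV0 =>
    have hVinl : ∀ a, ∀ x ∈ V a, ∃ z, x = .inl z := by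
      intro a x hx
      rcases hV0 a x hx with rfl | ⟨ω, hω⟩
      · exact ⟨z₀, rfl⟩
      · match x, hω with
        | .inl z, _ => exact ⟨z, rfl⟩
    -- a closed ordinal
    have hVcount : ∀ a, Countable (V a) := fun a => hVc a
    let sp : O → Set L := fun a => csupp fun x : V a => h a x.1
    have hsp : ∀ a, (sp a).Countable := fun a => csupp_countable _
    have hg : ∀ a : O, ∃ b : O, a < b ∧ (∀ z : N, .inl z ∈ V a → z.1 < b ∧ z.2 < b) ∧
        (∀ z : N, ι z ∈ sp a → z.1 < b ∧ z.2 < b) ∧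
        ∀ u : N, u.1 ≤ a → u.2 ≤ a → ∀ s, code.symm (u, s) < b := by
      intro a
      have c1 : {z : N | .inl z ∈ V a}.Countable := (hVc a).preimage Sum.inl_injective
      have c2 : {z : N | ι z ∈ sp a}.Countable := (hsp a).preimage ι.injective
      have c3 : {u : N | u.1 ≤ a ∧ u.2 ≤ a}.Countable :=
        ((countable_Iic a).prod (countable_Iic a)).mono fun u hu => hu
      obtain ⟨b, hb⟩ := exists_gt ((Set.countable_singleton a).union
        (((c1.image Prod.fst).union (c1.image Prod.snd)).union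
          (((c2.image Prod.fst).union (c2.image Prod.snd)).union
            ((c3.image fun u => code.symm (u, true)).union
              (c3.image fun u => code.symm (u, false))))))
      refine ⟨b, hb a (Or.inl rfl), fun z hz => ⟨?_, ?_⟩, fun z hz => ⟨?_, ?_⟩, ?_⟩
      · exact hb _ (Or.inr (Or.inl (Or.inl ⟨z, hz, rfl⟩)))
      · exact hb _ (Or.inr (Or.inl (Or.inr ⟨z, hz, rfl⟩)))
      · exact hb _ (Or.inr (Or.inr (Or.inl (Or.inl ⟨z, hz, rfl⟩))))
      · exact hb _ (Or.inr (Or.inr (Or.inl (Or.inr ⟨z, hz, rfl⟩))))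
      · intro u hu1 hu2 s
        cases s
        · exact hb _ (Or.inr (Or.inr (Or.inr (Or.inr ⟨u, ⟨hu1, hu2⟩, rfl⟩))))
        · exact hb _ (Or.inr (Or.inr (Or.inr (Or.inl ⟨u, ⟨hu1, hu2⟩, rfl⟩))))
    choose g hg1 hg2 hg3 hg4 using hg
    obtain ⟨δ, ⟨a₁, ha₁⟩, hδ⟩ := exists_closed g
    have hδV : ∀ a < δ, ∀ z : N, .inl z ∈ V a → inT δ z := fun a ha z hz =>
      ⟨(hg2 a z hz).1.trans (hδ a ha), (hg2 a z hz).2.trans (hδ a ha)⟩
    have hδs : ∀ a < δ, ∀ z : N, ι z ∈ sp a → inT δ z := fun a ha z hz =>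
      ⟨(hg3 a z hz).1.trans (hδ a ha), (hg3 a z hz).2.trans (hδ a ha)⟩
    -- the value at `δ`
    obtain ⟨q₁, hq₁, y, hy⟩ := hval δ q₀ hq₀
    obtain ⟨y', rfl⟩ := hVinl δ y ⟨q₁, hq₁, hy⟩
    -- the downward closure of the values below `δ`
    let Z : Pt L → Set N := fun ω => {z | ∃ a < δ, ∃ x : N, .inl x ∈ V a ∧
      ω ∈ ess (h a (.inl x)) ∧ (z = x ∨ z ∈ pred (reals ι ω) x)}
    have hZT : ∀ ω z, z ∈ Z ω → inT δ z := by
      rintro ω z ⟨a, ha, x, hx, -, rfl | h1⟩
      · exact hδV a ha z hx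
      · exact (hδV a ha x hx).trans (inT_of_mem h1)
    have hZmeas : ∀ z, MeasurableSet {ω | z ∈ Z ω} := by
      intro z
      have h1 : {ω | z ∈ Z ω} = ⋃ a ∈ Iio δ, ⋃ x ∈ {x : N | .inl x ∈ V a},
          (ess (h a (.inl x)) ∩ ({ω | z = x} ∪ {ω | Lt ι ω (.inl z) (.inl x)})) := by
        ext ω
        simp only [Z, mem_ofPred_eq, mem_iUnion, mem_inter_iff, mem_union, mem_Iio]
        constructor
        · rintro ⟨a, ha, x, hx, h2, h3⟩; exact ⟨a, ha, x, hx, h2, h3⟩
        · rintro ⟨a, ha, x, hx, h2, h3⟩; exact ⟨a, ha, x, hx, h2, h3⟩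
      rw [h1]
      refine MeasurableSet.biUnion (countable_Iio δ) fun a _ => MeasurableSet.biUnion
        ((hVc a).preimage Sum.inl_injective) fun x _ => ?_
      exact (ess_measurable _).inter ((MeasurableSet.const _).union (measurableSet_Lt ι _ _))
    -- the sets where `w` is a least node above all the values are null
    let B : N → Set (Pt L) := fun w =>
      {ω | ∀ z, inT w.1 z → (z ∈ pred (reals ι ω) w ↔ z ∈ Z ω)}
    have hBmeas : ∀ w, MeasurableSet (B w) := by
      intro w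
      have h1 : B w = ⋂ z ∈ {z | inT w.1 z}, (({ω | Lt ι ω (.inl z) (.inl w)} ∩ {ω | z ∈ Z ω}) ∪
          ({ω | Lt ι ω (.inl z) (.inl w)}ᶜ ∩ {ω | z ∈ Z ω}ᶜ)) := by
        ext ω
        simp only [B, mem_ofPred_eq, mem_iInter, mem_union, mem_inter_iff, mem_compl_iff]
        refine forall_congr' fun z => imp_congr_right fun _ => ?_
        change (z ∈ pred (reals ι ω) w ↔ z ∈ Z ω) ↔
          ((z ∈ pred (reals ι ω) w ∧ z ∈ Z ω) ∨ (¬ z ∈ pred (reals ι ω) w ∧ ¬ z ∈ Z ω))
        tauto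
      rw [h1]
      exact MeasurableSet.biInter (countable_inT _) fun z _ =>
        ((measurableSet_Lt ι _ _).inter (hZmeas z)).union
          ((measurableSet_Lt ι _ _).compl.inter (hZmeas z).compl)
    have hBnull : ∀ w : N, δ ≤ w.1 → (cohenRandom (L × ℕ) (Empty × ℕ)).null (B w) := by
      intro w hw
      have hwT : ¬ inT δ w := fun h1 => absurd h1.1 (not_lt.2 hw)
      refine null_criterion_cohen (hBmeas w) (ι w) fun a' => ?_
      have hb : ∀ b b' : Empty × ℕ → Bool, b = b' := fun b b' => funext fun x => x.1.elim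
      let b₀ : Empty × ℕ → Bool := fun x => x.1.elim
      -- `Z` does not depend on the real of `w`
      have hZ : ∀ c, Z (repl a' (ι w) c, b₀) = Z (a', b₀) := by
        intro c
        have h2 : ∀ a < δ, ∀ x : N, .inl x ∈ V a →
            ((repl a' (ι w) c, b₀) ∈ ess (h a (.inl x)) ↔ (a', b₀) ∈ ess (h a (.inl x))) := by
          intro a ha x hx
          have h3 : ι w ∉ sp a := fun h4 => hwT (hδs a ha w h4)
          exact cfree_of_notMem h3 a' b₀ c ⟨.inl x, hx⟩
        have h3 : ∀ x : N, inT δ x → pred (reals ι (repl a' (ι w) c, b₀)) x =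
            pred (reals ι (a', b₀)) x := by
          intro x hx
          refine pred_repl ι ?_ ?_ _ _ _
          · rintro rfl; exact hwT hx
          · intro h4; exact hwT (hx.trans h4)
        ext z
        constructor
        · rintro ⟨a, ha, x, hx, h4, h5⟩
          refine ⟨a, ha, x, hx, (h2 a ha x hx).1 h4, ?_⟩
          rw [← h3 x (hδV a ha x hx)]; exact h5
        · rintro ⟨a, ha, x, hx, h4, h5⟩
          refine ⟨a, ha, x, hx, (h2 a ha x hx).2 h4, ?_⟩
          rw [h3 x (hδV a ha x hx)]; exact h5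
      -- successors of the nodes
      have hsucc : ∀ u : N, inT δ u → ∃ b < δ, inT b u ∧ ∀ s, code.symm (u, s) < δ := by
        intro u hu
        have h2 : max u.1 u.2 < δ := max_lt hu.1 hu.2
        refine ⟨g (max u.1 u.2), hδ _ h2, ⟨(le_max_left _ _).trans_lt (hg1 _),
          (le_max_right _ _).trans_lt (hg1 _)⟩, fun s => ?_⟩
        exact (hg4 _ u (le_max_left _ _) (le_max_right _ _) s).trans (hδ _ h2)
      choose! b hb1 hb2 hb3 using hsucc
      have hsT : ∀ u, inT δ u → ∀ s, inT δ (b u, code.symm (u, s)) := fun u hu s =>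
        ⟨hb1 u hu, hb3 u hu s⟩
      by_cases hcase : ∃ u, inT δ u ∧ ∀ s, (b u, code.symm (u, s)) ∈ Z (a', b₀)
      · obtain ⟨u, hu, hus⟩ := hcase
        refine Filter.Eventually.of_forall fun c => Filter.Eventually.of_forall fun b' hmem => ?_
        rw [hb b' b₀] at hmem
        have h2 : ∀ s, (b u, code.symm (u, s)) ∈ pred (reals ι (repl a' (ι w) c, b₀)) w := by
          intro s
          refine (hmem _ ((hsT u hu s).mono hw)).2 ?_
          rw [hZ c]; exact hus s
        rcases pred_linear (h2 false) (h2 true) with h3 | h3 | h3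
        · have h4 := code.symm.injective (Prod.ext_iff.1 h3).2
          have h5 := (Prod.ext_iff.1 h4).2
          exact Bool.noConfusion h5
        · exact lt_irrefl _ (inT_of_mem h3).1
        · exact lt_irrefl _ (inT_of_mem h3).1
      · push Not at hcase
        have hne : ∃ x, inT w.1 x := ⟨(a₁, a₁), ha₁.trans_le hw, ha₁.trans_le hw⟩
        have h2 := branch_meets (reals ι (a', b₀)) w hne (D := {v | v ∉ Z (a', b₀)}) (by
          intro u hu
          by_cases h3 : u ∈ Z (a', b₀)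
          · have h4 := hZT _ _ h3
            obtain ⟨s, hs⟩ := hcase u h4
            exact ⟨_, hs, (hsT u h4 s).mono hw, Or.inr (Tree.split s (hb2 u h4))⟩
          · exact ⟨u, h3, hu, Or.inl rfl⟩)
        filter_upwards [h2] with c hc
        refine Filter.Eventually.of_forall fun b' hmem => ?_
        rw [hb b' b₀] at hmem
        obtain ⟨v, hv, hvw⟩ := hc
        have h3 : v ∈ pred (reals ι (repl a' (ι w) c, b₀)) w := by rw [reals_repl]; exact hvw
        have h4 := (hmem v (inT_of_mem h3)).1 h3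
        rw [hZ c] at h4
        exact hv h4
    -- choose a good point of `q₁`
    have hq₁q : q₁ ≤ q := hq₁.trans hq₀
    have hcI : Countable (Iio δ) := countable_Iio δ
    have n1 : ∀ a : Iio δ, (cohenRandom (L × ℕ) (Empty × ℕ)).null
        (q₁.1 ∩ {ω | ¬ ∃ x : V a, ω ∈ ess (h a x.1)}) := by
      intro a
      have h2 : q₁ ∈ (forcing (CR L Empty)).ex fun x : V a =>
          (forcing (CR L Empty)).lit (h a x.1) := by
        refine mem_ex.2 fun r hr => ?_
        obtain ⟨r', hr', x, hx⟩ := hval a r (hr.trans hq₁q)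
        exact ⟨r', hr', ⟨x, r', hr'.trans (hr.trans hq₁), hx⟩, hx⟩
      exact (Rep.ex fun x : V a => rep_lit (h a x.1)).iff.1 h2
    have n2 : ∀ i : (Σ a : Iio δ, V a), (cohenRandom (L × ℕ) (Empty × ℕ)).null
        (q₁.1 ∩ {ω | ¬ (ω ∈ ess (h i.1 i.2.1) → Lt ι ω i.2.1 (.inl y'))}) := by
      rintro ⟨a, x⟩
      refine ((rep_lit (h a x.1)).imp (rep_tr ι x.1 (.inl y'))).iff.1 ?_
      exact mem_imp.2 fun r hr hrx => ⟨r, le_rfl,
        hinc' a δ a.2 _ _ r (hr.trans hq₁q) hrx (down_lit _ _ hy _ hr)⟩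
    have n3 : ∀ i : (Σ a : Iio δ, V a) × (Σ a : Iio δ, V a),
        (cohenRandom (L × ℕ) (Empty × ℕ)).null
        (q₁.1 ∩ {ω | ¬ (i.1.1.1 < i.2.1.1 ∧ ω ∈ ess (h i.1.1 i.1.2.1) ∧
          ω ∈ ess (h i.2.1 i.2.2.1) → Lt ι ω i.1.2.1 i.2.2.1)}) := by
      rintro ⟨⟨a, x⟩, ⟨a', x'⟩⟩
      refine (((rep_grd (a.1 < a'.1)).conj ((rep_lit (h a x.1)).conj
        (rep_lit (h a' x'.1)))).imp (rep_tr ι x.1 x'.1)).iff.1 ?_
      exact mem_imp.2 fun r hr hrx => ⟨r, le_rfl,
        hinc' a a' hrx.1 _ _ r (hr.trans hq₁q) hrx.2.1 hrx.2.2⟩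
    have n4 : ∀ w : {w : N | (w = y' ∨ inT y'.1 w) ∧ δ ≤ w.1},
        (cohenRandom (L × ℕ) (Empty × ℕ)).null (B w) := fun w => hBnull w.1 w.2.2
    have hcW : Countable {w : N | (w = y' ∨ inT y'.1 w) ∧ δ ≤ w.1} := by
      refine Set.Countable.mono (s₂ := {y'} ∪ {w | inT y'.1 w}) ?_
        ((Set.countable_singleton y').union (countable_inT _))
      rintro w ⟨h1 | h1, _⟩
      · exact Or.inl h1
      · exact Or.inr h1
    have hgood : ∃ ω ∈ q₁.1, (∀ a : Iio δ, ∃ x : V a, ω ∈ ess (h a x.1)) ∧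
        (∀ i : (Σ a : Iio δ, V a), ω ∈ ess (h i.1 i.2.1) → Lt ι ω i.2.1 (.inl y')) ∧
        (∀ i : (Σ a : Iio δ, V a) × (Σ a : Iio δ, V a), i.1.1.1 < i.2.1.1 ∧
          ω ∈ ess (h i.1.1 i.1.2.1) ∧ ω ∈ ess (h i.2.1 i.2.2.1) → Lt ι ω i.1.2.1 i.2.2.1) ∧
        ∀ w : {w : N | (w = y' ∨ inT y'.1 w) ∧ δ ≤ w.1}, ω ∉ B w := by
      by_contra hno
      push Not at hno
      apply q₁.2.2
      refine CI.mono _ ?_ (CI.union (CI.union (CI.iUnion' _ n1) (CI.iUnion' _ n2))
        (CI.union (CI.iUnion' _ n3) (CI.iUnion' _ n4)))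
      intro ω hω
      by_contra hnot
      simp only [mem_union, mem_iUnion, mem_inter_iff, mem_ofPred_eq, not_or, not_exists,
        not_and, not_not] at hnot
      obtain ⟨⟨m1, m2⟩, m3, m4⟩ := hnot
      obtain ⟨w, hw⟩ := hno ω hω (fun a => by
        have h2 := m1 a hω
        push Not at h2
        exact h2) (fun i => m2 i hω) (fun i hi => m3 i hω hi)
      exact m4 w hw
    obtain ⟨ω, hω, g1, g2, g3, g4⟩ := hgood
    -- the values at `ω`
    have k1 : ∀ a < δ, ∃ x : N, .inl x ∈ V a ∧ ω ∈ ess (h a (.inl x)) := by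
      intro a ha
      obtain ⟨⟨x, hx⟩, hxω⟩ := g1 ⟨a, ha⟩
      obtain ⟨z, rfl⟩ := hVinl a x hx
      exact ⟨z, hx, hxω⟩
    choose! X hX1 hX2 using k1
    have k2 : ∀ a < δ, X a ∈ pred (reals ι ω) y' := fun a ha =>
      g2 ⟨⟨a, ha⟩, ⟨.inl (X a), hX1 a ha⟩⟩ (hX2 a ha)
    have k3 : ∀ a < δ, ∀ b < δ, a < b → X a ∈ pred (reals ι ω) (X b) := fun a ha b hb hab =>
      g3 ⟨⟨⟨a, ha⟩, ⟨.inl (X a), hX1 a ha⟩⟩, ⟨⟨b, hb⟩, ⟨.inl (X b), hX1 b hb⟩⟩⟩
        ⟨hab, hX2 a ha, hX2 b hb⟩
    -- stages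
    have k4 : ∀ a < δ, a ≤ (X a).1 := by
      intro a
      induction a using (wellFounded_lt (α := O)).induction with
      | _ a ih =>
        intro ha
        by_contra hlt
        rw [not_le] at hlt
        have h1 := ih (X a).1 hlt (hlt.trans ha)
        have h2 := (inT_of_mem (k3 (X a).1 (hlt.trans ha) a ha hlt)).1
        exact absurd h1 (not_le.2 h2)
    have hy'Z : y' ∉ Z ω := by
      intro h1
      have h2 := (hZT ω y' h1).1
      have h3 := (inT_of_mem (k2 y'.1 h2)).1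
      exact absurd (k4 y'.1 h2) (not_le.2 h3)
    obtain ⟨w, ⟨hw1, hw2⟩, hw3⟩ := stage_wf.has_min
      {w : N | (w = y' ∨ w ∈ pred (reals ι ω) y') ∧ w ∉ Z ω} ⟨y', Or.inl rfl, hy'Z⟩
    have k5 : ∀ a < δ, ∀ x : N, .inl x ∈ V a → ω ∈ ess (h a (.inl x)) →
        x ∈ pred (reals ι ω) w := by
      intro a ha x hx hxω
      have h1 : x ∈ pred (reals ι ω) y' := g2 ⟨⟨a, ha⟩, ⟨.inl x, hx⟩⟩ hxω
      rcases hw1 with rfl | hw1
      · exact h1
      · rcases pred_linear h1 hw1 with h2 | h2 | h2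
        · exact absurd ⟨a, ha, x, hx, hxω, Or.inl h2.symm⟩ hw2
        · exact h2
        · exact absurd ⟨a, ha, x, hx, hxω, Or.inr h2⟩ hw2
    have k6 : ∀ a < δ, X a ∈ pred (reals ι ω) w := fun a ha => k5 a ha _ (hX1 a ha) (hX2 a ha)
    have hδw : δ ≤ w.1 := by
      by_contra hlt
      rw [not_le] at hlt
      exact absurd (k4 w.1 hlt) (not_le.2 (inT_of_mem (k6 w.1 hlt)).1)
    refine g4 ⟨w, ⟨?_, hδw⟩⟩ fun z hz => ⟨fun h1 => ?_, fun h1 => ?_⟩
    · rcases hw1 with h1 | h1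
      · exact Or.inl h1
      · exact Or.inr (inT_of_mem h1)
    · by_contra hzZ
      refine hw3 z ⟨Or.inr ?_, hzZ⟩ (inT_of_mem h1).1
      rcases hw1 with rfl | hw1
      · exact h1
      · exact trans_pred h1 hw1
    · obtain ⟨a, ha, x, hx, hxω, h2⟩ := h1
      rcases h2 with rfl | h2
      · exact k5 a ha _ hx hxω
      · exact trans_pred h2 (k5 a ha x hx hxω)

end Q208.F
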