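import Pool.Agent.Q208.F.NoBranch

/-!
# The classical meaning of the sentences about trees and forcing notions
-/

open Cardinal Set
open Q208.F.Tree

namespace Q208.F

theorem classical_isTree {K : Type} (lt : K → K → Prop) :
    classical.isTree lt ↔ (∀ x, ¬ lt x x) ∧ (∀ x y z, lt x y → lt y z → lt x z) ∧
      (∀ x y z, lt x z → lt y z → x = y ∨ lt x y ∨ lt y x) ∧ WellFounded lt := by
  unfold TV.isTree
  simp only [classical_conj, classical_all, classical_neg, classical_lit, classical_imp,
    classical_disj, classical_grd, classical_ex]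
  refine and_congr_right fun _ => and_congr ?_ (and_congr ?_ ?_)
  · exact forall_congr' fun x => forall_congr' fun y => forall_congr' fun z => and_imp
  · exact forall_congr' fun x => forall_congr' fun y => forall_congr' fun z => and_imp
  · constructor
    · intro h
      rw [WellFounded.wellFounded_iff_has_min]
      rintro A ⟨a, ha⟩
      obtain ⟨x, hx, hmin⟩ := h (fun x => x ∈ A) ⟨a, ha⟩
      exact ⟨x, hx, fun y hy hyx => hmin y hyx hy⟩
    · rintro h A ⟨a, ha⟩
      obtain ⟨x, hx, hmin⟩ := h.has_min {x | A x} ⟨a, ha⟩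
      exact ⟨x, hx, fun y hyx hy => hmin y hy hyx⟩

theorem classical_heightOmegaOne {K : Type} (lt : K → K → Prop) :
    classical.heightOmegaOne lt ↔ (∀ v, {w | lt w v}.Countable) ∧
      ∀ a : O, ∃ v, ∃ g : O → K, (∀ b < a, lt (g b) v) ∧
        ∀ b b', b < b' → b' < a → lt (g b) (g b') := by
  classical
  unfold TV.heightOmegaOne
  simp only [classical_conj, classical_all, classical_lit, classical_imp, classical_grd,
    classical_ex]
  refine and_congr (forall_congr' fun v => ?_) (forall_congr' fun a => exists_congr fun v => ?_)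
  · constructor
    · rintro ⟨f, hf1, hf2⟩
      have h1 : {w | lt w v} ⊆ ⋃ n, {w | f n w} := by
        intro w hw
        obtain ⟨n, hn⟩ := hf1 w hw
        exact mem_iUnion.2 ⟨n, hn⟩
      refine Set.Countable.mono h1 (countable_iUnion fun n => Set.Subsingleton.countable ?_)
      intro w hw w' hw'
      exact hf2 n w w' ⟨hw, hw'⟩
    · intro h
      rcases eq_empty_or_nonempty {w | lt w v} with h1 | h1
      · refine ⟨fun _ _ => False, fun w hw => ?_, fun _ _ _ h2 => h2.1.elim⟩
        have : w ∈ {w | lt w v} := hw
        rw [h1] at this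
        exact this.elim
      · obtain ⟨e, he⟩ := h.exists_eq_range h1
        refine ⟨fun n w => e n = w, fun w hw => ?_, fun _ _ _ h2 => h2.1.symm.trans h2.2⟩
        have : w ∈ range e := by rw [← he]; exact hw
        exact this
  · constructor
    · rintro ⟨g, hg⟩
      have h1 : ∀ b, ∃ w, b < a → g b w ∧ lt w v := by
        intro b
        by_cases hb : b < a
        · obtain ⟨w, hw⟩ := (hg b hb).1
          exact ⟨w, fun _ => hw⟩
        · exact ⟨v, fun h => absurd h hb⟩
      choose G hG using h1
      exact ⟨G, fun b hb => (hG b hb).2, fun b b' hbb' hb' =>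
        (hg b (hbb'.trans hb')).2 b' _ _ ⟨⟨hbb', hb'⟩, (hG b (hbb'.trans hb')).1,
          (hG b' hb').1⟩⟩
    · rintro ⟨g, hg1, hg2⟩
      refine ⟨fun b w => w = g b, fun b hb => ⟨⟨g b, rfl, hg1 b hb⟩, ?_⟩⟩
      rintro b' w w' ⟨⟨h1, h2⟩, rfl, rfl⟩
      exact hg2 b b' h1 h2

theorem classical_noCofinalBranch {K : Type} (lt : K → K → Prop) :
    classical.noCofinalBranch lt ↔ ¬ ∃ h : O → K, ∀ a b, a < b → lt (h a) (h b) := by
  unfold TV.noCofinalBranch
  simp only [classical_conj, classical_all, classical_neg, classical_lit, classical_imp,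
    classical_grd, classical_isFun, not_exists]
  constructor
  · intro H h hh
    refine H (fun a x => h a = x) ⟨⟨h, fun a x => Iff.rfl⟩, ?_⟩
    rintro a b x y ⟨hab, rfl, rfl⟩
    exact hh a b hab
  · rintro H h ⟨⟨f, hf⟩, h2⟩
    exact H f fun a b hab => h2 a b _ _ ⟨hab, (hf a _).2 rfl, (hf b _).2 rfl⟩

theorem classical_special {K : Type} (R : K → K → Prop) :
    classical.special R ↔ ∃ f : K → ℕ, ∀ s t, R s t → f s ≠ f t := by
  unfold TV.special
  simp only [classical_conj, classical_all, classical_lit, classical_imp, classical_grd,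
    classical_ex, classical_isFun]
  constructor
  · rintro ⟨F, ⟨f, hf⟩, h⟩
    exact ⟨f, fun s t hst heq => h s t (f s) ⟨hst, (hf s _).2 rfl, (hf t _).2 heq.symm⟩⟩
  · rintro ⟨f, hf⟩
    refine ⟨fun k n => f k = n, ⟨f, fun _ _ => Iff.rfl⟩, ?_⟩
    rintro s t n ⟨hst, h1, h2⟩
    exact hf s t hst (h1.trans h2.symm)

/-- For an actual preordered set, the truth values of the second level are the usual forcing
relation. -/
theorem classical_iter (X : Type) [Preorder X] :
    (classical.iter (fun x y : X => x ≤ y) : TV (X → Prop)) = (forcing X : TV (Set X)) := by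
  have h1 : (classical.iter (fun x y : X => x ≤ y)).lit = (forcing X).lit := by
    funext A p
    refine propext ?_
    change classical.all (fun q : X => classical.imp (q ≤ p) (classical.ex fun r : X =>
      classical.conj (r ≤ q) (classical.ex fun s : X => classical.conj (A s) (r ≤ s)))) ↔ _
    simp only [classical_all, classical_imp, classical_ex, classical_conj]
    rfl
  have h2 : (classical.iter (fun x y : X => x ≤ y)).neg = (forcing X).neg := by
    funext φ p
    refine propext ?_
    change classical.all (fun q : X => classical.imp (q ≤ p) (classical.neg (φ q))) ↔ _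
    simp only [classical_all, classical_imp, classical_neg]
    rfl
  have h3 : (classical.iter (fun x y : X => x ≤ y)).conj = (forcing X).conj := rfl
  have h4 : @(classical.iter (fun x y : X => x ≤ y)).all = @(forcing X).all := by
    funext ι φ p
    refine propext ?_
    rfl
  have h5 : (classical.iter (fun x y : X => x ≤ y)).grd = (forcing X).grd := rfl
  cases h6 : classical.iter (fun x y : X => x ≤ y)
  cases h7 : forcing X
  simp only [h6, h7] at h1 h2 h3 h4 h5
  subst h1 h2 h3 h5
  congr

/-- In the classical case: the preordered set `X` adds no new subsets of `ω` and forces that the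
tree is special. -/
theorem classical_specialises {K : Type} (lt : K → K → Prop) (X : Type) [Preorder X] :
    classical.specialises lt (fun x y : X => x ≤ y) ↔ Nonempty X ∧
      (∀ (A : ℕ → Set X) (p : X), ∃ q ≤ p, ∃ B : Set ℕ, ∀ n,
        (n ∈ B → q ∈ (forcing X).lit (A n)) ∧
        (n ∉ B → q ∈ (forcing X).neg ((forcing X).lit (A n)))) ∧
      ∀ p : X, p ∈ (forcing X).special fun s t => (forcing X).grd (lt s t) := by
  unfold TV.specialises TV.isForcingNotion TV.noNewReals
  rw [classical_iter]
  simp only [classical_conj, classical_all, classical_neg, classical_lit, classical_imp,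
    classical_grd, classical_ex]
  constructor
  · rintro ⟨⟨⟨x, -⟩, -, -⟩, h2, h3⟩
    refine ⟨⟨x⟩, fun A p => ?_, h3⟩
    obtain ⟨q, hq, B, hB⟩ := h2 (fun n => A n) p
    exact ⟨q, hq, {n | B n}, hB⟩
  · rintro ⟨⟨x⟩, h2, h3⟩
    refine ⟨⟨⟨x, trivial⟩, fun x => le_rfl, fun x y z h => h.1.trans h.2⟩, fun A p => ?_, h3⟩
    obtain ⟨q, hq, B, hB⟩ := h2 (fun n => A n) p
    exact ⟨q, hq, fun n => n ∈ B, hB⟩

end Q208.F
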