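import Pool.Agent.Q208.F.Bound

/-!
# The tree in the Cohen extension, and why it cannot be specialised without adding reals
-/

open Cardinal Set MeasureTheory Filter Topology
open Q208.F.Tree

namespace Q208.F

variable {L : Type}

/-- the points of the space whose measurable nonmeager sets are the conditions of Cohen forcing -/
abbrev Pt (L : Type) : Type := (L × ℕ → Bool) × (Empty × ℕ → Bool)

/-- the Cohen reals used for the tree -/
def reals (ι : N ↪ L) (ω : Pt L) : N → ℕ → Bool := fun v => coh (ι v) ω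

/-- the underlying set of the tree -/
abbrev Nodes : Type := N ⊕ (O × O)

/-- The order of the tree. The second summand consists of chains of all countable lengths. -/
def Lt (ι : N ↪ L) (ω : Pt L) : Nodes → Nodes → Prop
  | .inl w, .inl v => w ∈ pred (reals ι ω) v
  | .inr x, .inr y => x.1 = y.1 ∧ x.2 < y.2 ∧ y.2 < y.1
  | _, _ => False

/-- the name of the order of the tree -/
def tr (ι : N ↪ L) (a b : Nodes) : Set (CR L Empty) := {p | p.1 ⊆ {ω | Lt ι ω a b}}

theorem measurable_reals (ι : N ↪ L) : Measurable (reals ι) := by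
  rw [measurable_pi_iff]
  intro v
  rw [measurable_pi_iff]
  intro n
  exact measurable_coh (ι v) n

theorem measurableSet_Lt (ι : N ↪ L) (a b : Nodes) : MeasurableSet {ω | Lt ι ω a b} := by
  match a, b with
  | .inl w, .inl v => exact measurable_reals ι (measurableSet_pred v w)
  | .inr x, .inr y => exact MeasurableSet.const _
  | .inl _, .inr _ => exact MeasurableSet.const False
  | .inr _, .inl _ => exact MeasurableSet.const False

theorem rep_tr (ι : N ↪ L) (a b : Nodes) :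
    Rep ((forcing (CR L Empty)).lit (tr ι a b)) (fun ω => Lt ι ω a b) :=
  rep_lit_of (measurableSet_Lt ι a b) fun _ => Iff.rfl

open Classical in
theorem reals_repl (ι : N ↪ L) (v : N) (a : L × ℕ → Bool) (b : Empty × ℕ → Bool) (c : ℕ → Bool) :
    reals ι (repl a (ι v) c, b) = Function.update (reals ι (a, b)) v c := by
  funext w
  by_cases h : w = v
  · subst h
    rw [Function.update_self]
    exact coh_repl _ _ _ _
  · rw [Function.update_of_ne h]
    exact coh_repl_other (fun h' => h (ι.injective h')) _ _ _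

theorem pred_repl (ι : N ↪ L) {v w : N} (h : v ≠ w) (h' : ¬ inT w.1 v) (a : L × ℕ → Bool)
    (b : Empty × ℕ → Bool) (c : ℕ → Bool) :
    pred (reals ι (repl a (ι v) c, b)) w = pred (reals ι (a, b)) w := by
  classical
  rw [reals_repl]
  refine pred_congr ?_ fun z hz => ?_
  · exact Function.update_of_ne (Ne.symm h) _ _
  · refine Function.update_of_ne (fun hzv => h' ?_) _ _
    rw [← hzv]; exact hz

theorem Ext.downF_isFun {P X : Type} [Preorder P] {E : Ext P X} {Y Z : Type}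
    (f : Y → Z → X → Set P) : Ext.DownF (((forcing P).iter E.le).isFun f) := by
  unfold TV.isFun
  refine Ext.downF_conj (Ext.downF_all fun y => Ext.downF_ex _) ?_
  exact Ext.downF_all fun y => Ext.downF_all fun z => Ext.downF_all fun z' => Ext.downF_imp _ _

theorem Ext.mem_special {P X : Type} [Preorder P] {E : Ext P X} {K : Type}
    {R : K → K → X → Set P} (hR : ∀ s t, Ext.DownF (R s t)) {r : E.R}
    (h : r ∈ E.hat (((forcing P).iter E.le).special R)) :
    ∃ r' ≤ r, ∃ F : K → ℕ → Set E.R, (∀ v n, Down (F v n)) ∧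
      (∀ v, ∀ s ≤ r', ∃ s' ≤ s, ∃ n, s' ∈ F v n) ∧
      ∀ s t n, ∀ r'' ≤ r', r'' ∈ E.hat (R s t) → r'' ∈ F s n → r'' ∈ F t n → False := by
  unfold TV.special at h
  rw [Ext.hat_ex fun f => Ext.downF_conj (Ext.downF_isFun f) (Ext.downF_all fun s =>
    Ext.downF_all fun t => Ext.downF_all fun n => Ext.downF_imp _ _)] at h
  obtain ⟨r', hr', f, h1, h2⟩ := mem_ex.1 h r le_rfl
  have h3 : r' ∈ (forcing E.R).isFun fun y z => E.hat fun x => (forcing P).lit (f y z x) := by
    rw [← Ext.hat_isFun]; exact h1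
  refine ⟨r', hr', fun v n => (forcing E.R).lit (E.hat fun x => (forcing P).lit (f v n x)),
    fun v n => down_lit _, fun v s hs => ?_, fun s t n r'' hr'' hst hs ht => ?_⟩
  · exact mem_ex.1 (down_ex _ _ (h3.1 v) _ hs) s le_rfl
  · have h4 : r' ∈ E.hat (((forcing P).iter E.le).imp (((forcing P).iter E.le).conj (R s t)
        (((forcing P).iter E.le).conj (((forcing P).iter E.le).lit (f s n))
          (((forcing P).iter E.le).lit (f t n)))) (((forcing P).iter E.le).grd False)) := h2 s t n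
    rw [Ext.hat_imp (Ext.downF_conj (hR s t) (Ext.downF_conj (Ext.downF_lit _)
      (Ext.downF_lit _))) (Ext.downF_grd _), Ext.hat_conj, Ext.hat_conj, Ext.hat_lit,
      Ext.hat_lit, Ext.hat_grd] at h4
    obtain ⟨_, _, h5⟩ := mem_imp.1 h4 r'' hr'' ⟨hst, hs, ht⟩
    exact h5

/-- the tree is not specialised by a forcing notion which adds no reals -/
theorem not_specialises (ι : N ↪ L) {X : Type} (le : X → X → Set (CR L Empty))
    (p : CR L Empty) :
    p ∈ (forcing (CR L Empty)).neg ((forcing (CR L Empty)).specialises (tr ι) le) := by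
  classical
  rintro q - ⟨⟨hX, hrefl, htrans⟩, hnew, hspec⟩
  -- the iteration
  let E : Ext (CR L Empty) X :=
    { p₀ := q
      le := le
      refl := hrefl
      trans := fun x y z p hp h1 h2 => lit_of_dense fun t ht =>
        mem_imp.1 (htrans x y z) t (ht.trans hp) ⟨down_lit _ _ h1 _ ht, down_lit _ _ h2 _ ht⟩ }
  have hN : E.NNR := Ext.nnr hnew
  have hccc : CCC (CR L Empty) := ccc_Cond
  obtain ⟨q₀, hq₀, x₀, -⟩ := mem_ex.1 hX q le_rfl
  -- a name of a specialising function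
  let r₀ : E.R := (⟨q, le_rfl⟩, x₀)
  have h1 : r₀ ∈ E.hat (((forcing (CR L Empty)).iter le).special
      (fun s t (_ : X) => (forcing (CR L Empty)).lit (tr ι s t))) := hspec x₀
  obtain ⟨r₁, hr₁, F₀, hF₀, hFex, hFsp⟩ := Ext.mem_special (fun s t _ => down_lit _) h1
  let LT : N → N → Set (CR L Empty) := fun u v => (forcing (CR L Empty)).lit
    (tr ι (.inl u) (.inl v))
  let F : N → ℕ → Set E.R := fun v n => F₀ (.inl v) n
  have hLT : ∀ u v, Down (LT u v) := fun u v => down_lit _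
  have hF : ∀ v n, Down (F v n) := fun v n => hF₀ _ n
  -- a closed countable part of the tree
  obtain ⟨r₂, hr₂, δ, hδ, hclosed⟩ := Ext.closure hccc hN hLT hF r₁ (Classical.arbitrary O)
  have hne : ∃ x, inT δ x := ⟨(Classical.arbitrary O, Classical.arbitrary O), hδ, hδ⟩
  -- the dense sets are coded by a real
  let A : ℕ → Set E.R := fun m => {s | s ∈ F (enm δ m.unpair.2) m.unpair.1 ∨
    s ∈ Ext.Blk LT F (enm δ m.unpair.2) m.unpair.1}
  have hA : ∀ m, Down (A m) := by
    rintro m s (hs | hs) s' hs'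
    · exact Or.inl (hF _ _ _ hs _ hs')
    · exact Or.inr (Ext.down_Blk _ _ _ hs _ hs')
  obtain ⟨r₃, hr₃, B, hB⟩ := hN A r₂
  -- decide membership in `B`
  have hBdec : ∀ m, ∀ s ≤ r₃, s ∈ A m → ∃ q' ≤ s.1.1, q' ∈ (forcing (CR L Empty)).lit (B m) := by
    intro m s hs hsA
    by_contra hno
    push Not at hno
    have h2 := (hB m).2 s.1.1 hs.1 hno
    have h3 : s ≤ Ext.res r₃ s.1.1 hs.1 := ⟨le_rfl, hs.2⟩
    exact h2 s h3 (mem_lit_of_mem hsA le_rfl)
  -- a node whose Cohen real is generic over `B`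
  obtain ⟨i, hi⟩ := exists_notMem_of_embedding
    (⟨fun i : O => ι (δ, i), fun i j h => (Prod.ext_iff.1 (ι.injective h)).2⟩ : O ↪ L)
    not_countable_O (csupp_countable B)
  have hfree : CFree (ι (δ, i)) B := cfree_of_notMem hi
  let S : Pt L → Prop := fun ω => ∀ n j : ℕ, ∃ j' : ℕ, (enm δ j = enm δ j' ∨
    Lt ι ω (.inl (enm δ j)) (.inl (enm δ j'))) ∧ ω ∈ ess (B (Nat.pair n j'))
  let Φ : Set (CR L Empty) := (forcing (CR L Empty)).all fun n : ℕ =>
    (forcing (CR L Empty)).all fun j : ℕ => (forcing (CR L Empty)).ex fun j' : ℕ =>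
      (forcing (CR L Empty)).conj ((forcing (CR L Empty)).disj
        ((forcing (CR L Empty)).grd (enm δ j = enm δ j'))
        ((forcing (CR L Empty)).lit (tr ι (.inl (enm δ j)) (.inl (enm δ j')))))
        ((forcing (CR L Empty)).lit (B (Nat.pair n j')))
  have hΦ : Rep Φ S := Rep.all fun n => Rep.all fun j => Rep.ex fun j' =>
    Rep.conj (Rep.disj (rep_grd _) (rep_tr ι _ _)) (rep_lit _)
  have hr₃Φ : r₃.1.1 ∈ Φ := by
    intro n j
    refine mem_ex.2 fun q₁ hq₁ => ?_
    have hu : inT δ (enm δ j) := inT_enm hne j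
    obtain ⟨s, hs, h2⟩ := hclosed (enm δ j) hu n (Ext.res r₃ q₁ hq₁)
      ((Ext.res_le _ _ _).trans hr₃)
    have hsr₃ : s ≤ r₃ := hs.trans (Ext.res_le _ _ _)
    have h3 : ∃ j', (enm δ j = enm δ j' ∨ s.1.1 ∈ LT (enm δ j) (enm δ j')) ∧
        s ∈ A (Nat.pair n j') := by
      rcases h2 with ⟨u', hu', h4, h5⟩ | h4
      · have : u' ∈ range (enm δ) := by rw [range_enm hne]; exact hu'
        obtain ⟨j', rfl⟩ := this
        refine ⟨j', h4, Or.inl ?_⟩
        simpa using h5
      · refine ⟨j, Or.inl rfl, Or.inr ?_⟩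
        simpa using h4
    obtain ⟨j', h4, h5⟩ := h3
    obtain ⟨q₂, hq₂, hq₂B⟩ := hBdec _ s hsr₃ h5
    refine ⟨q₂, hq₂.trans hs.1, j', ?_, hq₂B⟩
    rw [(Rep.disj (rep_grd _) (rep_tr ι _ _)).iff]
    rcases h4 with h4 | h4
    · have : {ω : Pt L | ¬ (enm δ j = enm δ j' ∨ Lt ι ω (.inl (enm δ j)) (.inl (enm δ j')))} = ∅ := by
        ext ω; simp [h4]
      rw [this, inter_empty]
      exact (cohenRandom _ _).empty
    · refine CI.mono _ ?_ ((rep_tr ι (.inl (enm δ j)) (.inl (enm δ j'))).iff.1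
        (hLT _ _ _ h4 _ hq₂))
      rintro ω ⟨h5, h6⟩
      exact ⟨h5, fun h7 => h6 (Or.inr h7)⟩
  -- the branch of the node `(δ, i)` meets all the dense sets
  let T : Pt L → Prop := fun ω => ∀ n : ℕ, ∃ j : ℕ,
    Lt ι ω (.inl (enm δ j)) (.inl (δ, i)) ∧ ω ∈ ess (B (Nat.pair n j))
  let Ψ : Set (CR L Empty) := (forcing (CR L Empty)).all fun n : ℕ =>
    (forcing (CR L Empty)).ex fun j : ℕ => (forcing (CR L Empty)).conj
      ((forcing (CR L Empty)).lit (tr ι (.inl (enm δ j)) (.inl (δ, i))))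
      ((forcing (CR L Empty)).lit (B (Nat.pair n j)))
  have hΨ : Rep Ψ T := Rep.all fun n => Rep.ex fun j => Rep.conj (rep_tr ι _ _) (rep_lit _)
  have hr₃Ψ : r₃.1.1 ∈ Ψ := by
    refine mem_of_cohen hΦ hΨ (ι (δ, i)) (fun a => ?_) hr₃Φ
    have hb : ∀ b b' : Empty × ℕ → Bool, b = b' := fun b b' => funext fun x => x.1.elim
    let b₀ : Empty × ℕ → Bool := fun x => x.1.elim
    have hloc : ∀ c, ∀ w, inT δ w → pred (reals ι (repl a (ι (δ, i)) c, b₀)) w =
        pred (reals ι (a, b₀)) w := by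
      intro c w hw
      refine pred_repl ι ?_ ?_ _ _ _
      · rintro rfl; exact lt_irrefl _ hw.1
      · intro h; exact lt_irrefl _ (h.1.trans hw.1)
    by_cases hS : S (a, b₀)
    · have h2 : ∀ n : ℕ, ∀ᶠ c in residual (ℕ → Bool),
          ∃ w ∈ {w : N | ∃ j, w = enm δ j ∧ (a, b₀) ∈ ess (B (Nat.pair n j))},
            w ∈ pred (Function.update (reals ι (a, b₀)) (δ, i) c) (δ, i) := by
        intro n
        refine branch_meets (reals ι (a, b₀)) (δ, i) hne fun u hu => ?_
        have : u ∈ range (enm δ) := by rw [range_enm hne]; exact hu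
        obtain ⟨j, rfl⟩ := this
        obtain ⟨j', h3, h4⟩ := hS n j
        exact ⟨enm δ j', ⟨j', rfl, h4⟩, inT_enm hne j', h3⟩
      filter_upwards [eventually_countable_forall.2 h2] with c hc
      refine Filter.Eventually.of_forall fun b _ n => ?_
      rw [hb b b₀]
      obtain ⟨_, ⟨j, rfl, h3⟩, h4⟩ := hc n
      refine ⟨j, ?_, (hfree a b₀ c _).2 h3⟩
      change enm δ j ∈ pred (reals ι (repl a (ι (δ, i)) c, b₀)) (δ, i)
      rw [reals_repl]
      exact h4
    · refine Filter.Eventually.of_forall fun c => Filter.Eventually.of_forall fun b hSb => ?_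
      exfalso
      apply hS
      rw [hb b b₀] at hSb
      intro n j
      obtain ⟨j', h3, h4⟩ := hSb n j
      refine ⟨j', ?_, (hfree a b₀ c _).1 h4⟩
      rcases h3 with h3 | h3
      · exact Or.inl h3
      · right
        have h5 : enm δ j ∈ pred (reals ι (repl a (ι (δ, i)) c, b₀)) (enm δ j') := h3
        rw [hloc c _ (inT_enm hne j')] at h5
        exact h5
  -- the colour of the node `(δ, i)`
  obtain ⟨s, hs, n, hsn⟩ := hFex (.inl (δ, i)) r₃ (hr₃.trans hr₂)
  obtain ⟨q₄, hq₄, j, hj1, hj2⟩ := mem_ex.1 (hr₃Ψ n) s.1.1 hs.1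
  have h2 := (hB (Nat.pair n j)).1 q₄ (hq₄.trans hs.1) hj2
  have h3 : Ext.res s q₄ hq₄ ≤ Ext.res r₃ q₄ (hq₄.trans hs.1) := Ext.res_le_res hs _ _ le_rfl
  obtain ⟨s₅, hs₅, t, ht, hs₅t⟩ := h2 _ h3
  have h4 : s₅ ∈ A (Nat.pair n j) := hA _ _ ht _ hs₅t
  have hs₅s : s₅ ≤ s := hs₅.trans (Ext.res_le _ _ _)
  have h5 : s₅ ∈ F (δ, i) n := hF _ _ _ hsn _ hs₅s
  have h6 : s₅.1.1 ∈ LT (enm δ j) (δ, i) := hLT _ _ _ hj1 _ hs₅.1
  have hs₅r₁ : s₅ ≤ r₁ := hs₅s.trans (hs.trans (hr₃.trans hr₂))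
  rcases h4 with h4 | h4
  · rw [Nat.unpair_pair] at h4
    exact hFsp _ _ n s₅ hs₅r₁ h6 h4 h5
  · rw [Nat.unpair_pair] at h4
    exact h4 s₅ le_rfl (δ, i) (Or.inr h6) h5

end Q208.F
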