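import Pool.Agent.Q208.F.OscSent

/-!
# Random reals: `r_osc` is at most the old continuum, and `cov(N)` is large
-/

open Cardinal Set MeasureTheory Filter Topology
open scoped ENNReal

namespace Q208.F

variable {L K W : Type}

section rep

variable {Ω : Type} [MeasurableSpace Ω] {I : CI Ω}

theorem Rep.noOsc {X Y : ℕ → Set (Cond I)} {S R : Ω → ℕ → Prop}
    (h : ∀ n, Rep ((forcing (Cond I)).lit (X n)) (fun ω => S ω n))
    (h' : ∀ n, Rep ((forcing (Cond I)).lit (Y n)) (fun ω => R ω n)) :
    Rep ((forcing (Cond I)).noOsc X Y) (fun ω => classical.noOsc (S ω) (R ω)) := by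
  refine Rep.congr (Rep.all fun m => Rep.ex fun N => Rep.all fun n => Rep.all fun n' =>
    Rep.imp (rep_grd _) (Rep.all fun s => Rep.all fun r => Rep.imp
      (Rep.conj (Rep.trace h n' s) (Rep.trace h' n' r)) (rep_grd _)))
    fun ω => ?_
  unfold TV.noOsc
  simp only [classical_all, classical_imp, classical_ex, classical_grd, classical_conj]

theorem Rep.nullGCode {C : ℕ → List Bool → Set (Cond I)} {S : Ω → ℕ → List Bool → Prop}
    (h : ∀ j t, Rep ((forcing (Cond I)).lit (C j t)) (fun ω => S ω j t)) :
    Rep ((forcing (Cond I)).nullGCode C) (fun ω => classical.nullGCode (S ω)) := by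
  refine Rep.congr (Rep.all fun m => Rep.all fun s =>
    Rep.imp (Rep.all fun t => h m t.1) (rep_grd _)) fun ω => ?_
  unfold TV.nullGCode
  simp only [classical_all, classical_imp, classical_lit, classical_grd]

theorem Rep.inNull {x : ℕ → Set (Cond I)} {X : Ω → ℕ → Prop} {C : ℕ → List Bool → Set (Cond I)}
    {S : Ω → ℕ → List Bool → Prop} (hx : ∀ n, Rep ((forcing (Cond I)).lit (x n)) (fun ω => X ω n))
    (h : ∀ j t, Rep ((forcing (Cond I)).lit (C j t)) (fun ω => S ω j t)) :
    Rep ((forcing (Cond I)).inNull x C) (fun ω => classical.inNull (X ω) (S ω)) := by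
  refine Rep.congr (Rep.all fun m => Rep.ex fun t => Rep.conj (h m t)
    (Rep.all fun i => Rep.imp (rep_grd _) (Rep.conj (Rep.imp (hx i) (rep_grd _))
      (Rep.imp (rep_grd _) (hx i))))) fun ω => ?_
  unfold TV.inNull
  simp only [classical_ex, classical_all, classical_imp, classical_iff, classical_lit,
    classical_grd, classical_conj]
  refine forall_congr' fun m => exists_congr fun t => and_congr_right fun _ =>
    forall_congr' fun i => imp_congr_right fun _ => ?_
  tauto

end rep

/-! ### `cov(N)` -/

theorem mem_not_inNull {C : ℕ → List Bool → Set (CR L K)} {k : K}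
    (hk : Free k fun p : ℕ × List Bool => C p.1 p.2) {p : CR L K}
    (hC : p ∈ (forcing (CR L K)).nullGCode C) :
    p ∈ (forcing (CR L K)).neg ((forcing (CR L K)).inNull (nmX k) C) := by
  have hrep : ∀ j t, Rep ((forcing (CR L K)).lit (C j t)) (fun ω => ω ∈ ess (C j t)) :=
    fun j t => rep_lit _
  refine mem_of_random (Rep.nullGCode (S := fun ω j t => ω ∈ ess (C j t)) hrep)
    (Rep.neg (Rep.inNull (X := fun ω n => ran k ω n = true) (S := fun ω j t => ω ∈ ess (C j t))
      (rep_nmX k) hrep)) k (fun x y => ?_) hC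
  have hsC : ∀ r j t, ((x, repl y k r) ∈ ess (C j t) ↔ (x, y) ∈ ess (C j t)) :=
    fun r j t => hk x y r (j, t)
  simp only [hsC, ran_repl]
  by_cases h : classical.nullGCode fun j t => (x, y) ∈ ess (C j t)
  · have h1 := nu_gcode h
    have h2 : ∀ᵐ r ∂(nu ℕ), ¬ classical.inNull (fun n => r n = true)
        fun j t => (x, y) ∈ ess (C j t) := by
      rw [ae_iff]
      simp only [not_not]
      exact h1
    filter_upwards [h2] with r hr _
    exact hr
  · filter_upwards with r hr
    exact absurd hr h

theorem not_covNLe (hW : #W < #K) (hK : ℵ₀ < #K) (p : CR L K) :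
    p ∈ (forcing (CR L K)).neg ((forcing (CR L K)).covNLe W) := by
  intro q _ hq
  obtain ⟨r, hr, C, hC1, hC2⟩ := mem_ex.1 hq q le_rfl
  obtain ⟨k, _, hk⟩ := exists_free hW hK (fun (w : W) (p : ℕ × List Bool) => C w p.1 p.2)
    Set.countable_empty
  obtain ⟨s, hs, w, hw⟩ := mem_ex.1 (hC2 (nmX k)) r le_rfl
  have hdown : Down ((forcing (CR L K)).nullGCode (C w)) :=
    down_all fun _ => down_all fun _ => down_imp _ _
  exact mem_not_inNull (hk w) (hdown _ (hC1 w) _ hs) s le_rfl hw

/-! ### The oscillation reaping number -/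

open Classical in
theorem dens_tendsto {n : ℕ → ℕ} (hn : StrictMono n) (S : Set ℕ) {l : ℝ}
    (h : Tendsto (fun J : ℕ => (∑ j ∈ Finset.range J, if n j ∈ S then (1 : ℝ) else 0) / J)
      atTop (𝓝 l)) : Tendsto (dens S (Set.range n)) atTop (𝓝 l) := by
  have hinf : {i | i ∈ Set.range n}.Infinite := Set.infinite_range_of_injective hn.injective
  have hnth : ∀ j, Nat.nth (· ∈ Set.range n) j = n j := by
    have h1 : Set.range (Nat.nth (· ∈ Set.range n)) = Set.range n :=
      Nat.range_nth_of_infinite hinf
    exact fun j => congrFun (((Nat.nth_strictMono hinf).range_inj hn).mp h1) j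
  have hcount : Tendsto (Nat.count (· ∈ Set.range n)) atTop atTop := by
    refine tendsto_atTop_atTop.mpr fun b => ⟨Nat.nth (· ∈ Set.range n) b, fun m hm => ?_⟩
    have := Nat.count_monotone (· ∈ Set.range n) hm
    rwa [Nat.count_nth_of_infinite hinf] at this
  refine (h.comp hcount).congr fun N => ?_
  simp only [Function.comp]
  unfold dens
  have h1 := sum_nth (Set.range n) (fun i => if i ∈ S then (1 : ℝ) else 0) N
  simp only [hnth] at h1
  rw [← h1]
  congr 1
  · have h2 : (S ∩ Set.range n ∩ Set.Iio N) =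
        (((Finset.range N).filter fun i => i ∈ Set.range n ∧ i ∈ S : Finset ℕ) : Set ℕ) := by
      ext i
      simp only [mem_inter_iff, mem_Iio, Finset.coe_filter, Finset.mem_range, mem_ofPred_eq]
      tauto
    rw [h2, Set.ncard_coe_finset, Finset.card_filter]
    push_cast
    refine Finset.sum_congr rfl fun i _ => ?_
    by_cases h3 : i ∈ Set.range n <;> by_cases h4 : i ∈ S <;> simp [h3, h4]
  · have h2 : (Set.range n ∩ Set.Iio N) =
        (((Finset.range N).filter fun i => i ∈ Set.range n : Finset ℕ) : Set ℕ) := by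
      ext i
      simp only [mem_inter_iff, mem_Iio, Finset.coe_filter, Finset.mem_range, mem_ofPred_eq]
      tauto
    rw [h2, Set.ncard_coe_finset, Nat.count_eq_card_filter_range]

/-- the name of a ground model set -/
def nmG (R : Set ℕ) : ℕ → Set (CR L K) := nmS fun _ n => n ∈ R

theorem rep_nmG (R : Set ℕ) (n : ℕ) :
    Rep ((forcing (CR L K)).lit (nmG R n)) (fun _ => n ∈ R) :=
  rep_nmS (MeasurableSet.const _)

open Classical in
/-- an infinite set -/
noncomputable def fixInf (R : Set ℕ) : Set ℕ := if R.Infinite then R else Set.univ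

theorem fixInf_infinite (R : Set ℕ) : (fixInf R).Infinite := by
  unfold fixInf
  split_ifs with h
  · exact h
  · exact Set.infinite_univ

/-- The ground model sets witness `r_osc`. -/
theorem mem_roscLe (g : W → Set ℕ) (hg : Function.Surjective g) (p : CR Empty K) :
    p ∈ (forcing (CR Empty K)).roscLe W := by
  classical
  refine mem_ex_of_mem (fun w => nmG (fixInf (g w))) (down_conj (down_all fun _ => down_all
    fun _ => down_ex _) (down_all fun _ => down_imp _ _)) ⟨fun w => ?_, fun X => ?_⟩
  · refine mem_of_forall (Rep.inf (S := fun _ n => n ∈ fixInf (g w)) (rep_nmG _)) (fun ω => ?_) p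
    rw [classical_inf]
    exact fixInf_infinite _
  · refine mem_imp.2 fun q _ _ => ⟨q, le_rfl, ?_⟩
    let x0 : Empty × ℕ → Bool := fun _ => true
    obtain ⟨n, hn, hae⟩ := exists_average (nu (K × ℕ)) (A := fun m => sec (ess (X m)) x0)
      (fun m => measurable_prodMk_left (ess_measurable (X m)))
    obtain ⟨w, hw⟩ := hg (Set.range n)
    refine mem_ex_of_mem w (down_all fun _ => down_ex _) ?_
    have hfix : fixInf (g w) = Set.range n := by
      unfold fixInf
      rw [hw, if_pos (Set.infinite_range_of_injective hn.injective)]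
    have hrep := Rep.noOsc (S := fun ω m => ω ∈ ess (X m)) (fun m => rep_lit (X m))
      (R := fun (_ : (Empty × ℕ → Bool) × (K × ℕ → Bool)) m => m ∈ fixInf (g w)) (rep_nmG _)
    refine hrep.of_null ?_ q
    rw [null_iff]
    have hempty : {x : Empty × ℕ → Bool | nu (K × ℕ) (sec {ω : (Empty × ℕ → Bool) × (K × ℕ → Bool) |
        ¬ classical.noOsc (fun m => ω ∈ ess (X m)) (fun m => m ∈ fixInf (g w))} x) ≠ 0} = ∅ := by
      ext x
      have hx : x = x0 := by
        funext i
        exact i.1.elim
      subst hx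
      simp only [mem_ofPred_eq, mem_empty_iff_false, iff_false, not_not]
      have h1 : ∀ᵐ y ∂(nu (K × ℕ)), classical.noOsc (fun m => (x0, y) ∈ ess (X m))
          (fun m => m ∈ fixInf (g w)) := by
        filter_upwards [hae] with y hy
        obtain ⟨l, hl⟩ := hy
        rw [hfix]
        have h2 := noOsc_iff {m | (x0, y) ∈ ess (X m)} (Set.range n)
        refine h2.2 ?_
        rw [← tendsto_iff_liminf (dens_nonneg _ _) (dens_le_one _ _)]
        refine ⟨l, dens_tendsto hn _ (hl.congr fun J => ?_)⟩
        congr 1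
      rw [ae_iff] at h1
      exact h1
    rw [hempty]
    exact IsMeagre.empty

end Q208.F
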