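import Pool.Agent.Q208.F.EqClassical
import Pool.Agent.Q208.F.Komlos

/-!
# The oscillation reaping number and the covering number of the null ideal
-/

open Cardinal Set MeasureTheory Filter Topology
open scoped ENNReal

namespace Q208.F

/-- the relative density `|A ∩ B ∩ n| / |B ∩ n|` -/
noncomputable def dens (A B : Set ℕ) (n : ℕ) : ℝ :=
  ((A ∩ B ∩ Set.Iio n).ncard : ℝ) / ((B ∩ Set.Iio n).ncard : ℝ)

namespace TV

variable {Ω : Type} (T : TV Ω)

/-- the relative density of `S` in `R` does not oscillate, in the form of the Cauchy criterion: for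
every `m` there is `N` such that for `N ≤ n ≤ n'` the difference of `|S ∩ R ∩ n| / |R ∩ n|` and
`|S ∩ R ∩ n'| / |R ∩ n'|` has absolute value at most `1 / (m + 1)` -/
def noOsc (S R : ℕ → Ω) : Ω :=
  T.all fun m : ℕ => T.ex fun N : ℕ => T.all fun n : ℕ => T.all fun n' : ℕ =>
    T.imp (T.grd (N ≤ n ∧ n ≤ n')) (T.all fun s : Finset ℕ => T.all fun r : Finset ℕ =>
      T.imp (T.conj (T.trace S n' s) (T.trace R n' r))
        (T.grd (|((s ∩ r ∩ Finset.range n).card : ℚ) / ((r ∩ Finset.range n).card : ℚ) -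
          ((s ∩ r ∩ Finset.range n').card : ℚ) / ((r ∩ Finset.range n').card : ℚ)| ≤
            1 / ((m : ℚ) + 1))))

/-- `r_osc ≤ |K|` -/
def roscLe (K : Type) : Ω :=
  T.ex fun R : K → ℕ → Ω => T.conj (T.all fun k => T.inf (R k))
    (T.all fun S : ℕ → Ω => T.imp (T.conj (T.inf S) (T.coinf S)) (T.ex fun k => T.noOsc S (R k)))

/-- `C` codes a null set: for all `m`, the basic clopen sets of finitely many members of `C m`
have measures with sum at most `1 / (m + 1)` -/
def nullGCode (C : ℕ → List Bool → Ω) : Ω :=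
  T.all fun m : ℕ => T.all fun s : Finset (List Bool) =>
    T.imp (T.all fun t : s => T.lit (C m t.1))
      (T.grd (∑ t ∈ s, (1 / 2 : ℚ) ^ t.length ≤ 1 / ((m : ℚ) + 1)))

/-- `x` is in the null set coded by `C`: for all `m` some initial segment of `x` is in `C m` -/
def inNull (x : ℕ → Ω) (C : ℕ → List Bool → Ω) : Ω :=
  T.all fun m : ℕ => T.ex fun t : List Bool => T.conj (T.lit (C m t))
    (T.all fun i : ℕ => T.imp (T.grd (i < t.length))
      (T.iff (T.lit (x i)) (T.grd (t.getD i false = true))))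

/-- `cov(N) ≤ |K|` -/
def covNLe (K : Type) : Ω :=
  T.ex fun C : K → ℕ → List Bool → Ω => T.conj (T.all fun i => T.nullGCode (C i))
    (T.all fun x : ℕ → Ω => T.ex fun i => T.inNull x (C i))

end TV

/-! ### Classical meaning -/

theorem ncard_eq_card {A : Set ℕ} {n : ℕ} {s : Finset ℕ} (h : ∀ i < n, (i ∈ A ↔ i ∈ s)) :
    (A ∩ Set.Iio n).ncard = (s ∩ Finset.range n).card := by
  rw [← Set.ncard_coe_finset]
  congr 1
  ext i
  simp only [mem_inter_iff, mem_Iio, Finset.coe_inter, Finset.mem_coe, Finset.mem_range]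
  constructor
  · rintro ⟨h1, h2⟩
    exact ⟨(h i h2).1 h1, h2⟩
  · rintro ⟨h1, h2⟩
    exact ⟨(h i h2).2 h1, h2⟩

open Classical in
theorem classical_noOsc (S R : Set ℕ) :
    classical.noOsc (fun i => i ∈ S) (fun i => i ∈ R) ↔
      ∀ m : ℕ, ∃ N : ℕ, ∀ n n' : ℕ, N ≤ n → n ≤ n' →
        |dens S R n - dens S R n'| ≤ 1 / ((m : ℝ) + 1) := by
  unfold TV.noOsc
  simp only [classical_all, classical_imp, classical_ex, classical_grd, classical_conj,
    classical_trace]
  refine forall_congr' fun m => exists_congr fun N => forall_congr' fun n => forall_congr' fun n' =>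
    ?_
  have key : ∀ s r : Finset ℕ, (∀ i < n', (i ∈ S ↔ i ∈ s)) → (∀ i < n', (i ∈ R ↔ i ∈ r)) →
      n ≤ n' →
      (|((s ∩ r ∩ Finset.range n).card : ℚ) / ((r ∩ Finset.range n).card : ℚ) -
        ((s ∩ r ∩ Finset.range n').card : ℚ) / ((r ∩ Finset.range n').card : ℚ)| ≤
          1 / ((m : ℚ) + 1) ↔ |dens S R n - dens S R n'| ≤ 1 / ((m : ℝ) + 1)) := by
    intro s r hs hr hnn
    have h1 : (S ∩ R ∩ Set.Iio n).ncard = (s ∩ r ∩ Finset.range n).card :=
      ncard_eq_card fun i hi => by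
        rw [Set.mem_inter_iff, Finset.mem_inter, hs i (hi.trans_le hnn), hr i (hi.trans_le hnn)]
    have h2 : (S ∩ R ∩ Set.Iio n').ncard = (s ∩ r ∩ Finset.range n').card :=
      ncard_eq_card fun i hi => by rw [Set.mem_inter_iff, Finset.mem_inter, hs i hi, hr i hi]
    have h3 : (R ∩ Set.Iio n).ncard = (r ∩ Finset.range n).card :=
      ncard_eq_card fun i hi => hr i (hi.trans_le hnn)
    have h4 : (R ∩ Set.Iio n').ncard = (r ∩ Finset.range n').card := ncard_eq_card hr
    unfold dens
    rw [h1, h2, h3, h4, ← Rat.cast_le (K := ℝ), Rat.cast_abs]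
    push_cast
    rfl
  constructor
  · intro h h1 h2
    rw [← key ((Finset.range n').filter fun i => i ∈ S) ((Finset.range n').filter fun i => i ∈ R)
      (fun i hi => by simp [hi]) (fun i hi => by simp [hi]) h2]
    exact h ⟨h1, h2⟩ _ _ ⟨fun i hi => by simp [hi], fun i hi => by simp [hi]⟩
  · rintro h ⟨h1, h2⟩ s r ⟨h3, h4⟩
    rw [key s r h3 h4 h2]
    exact h h1 h2

theorem dens_nonneg (A B : Set ℕ) (n : ℕ) : 0 ≤ dens A B n := by
  unfold dens; positivity

theorem dens_le_one (A B : Set ℕ) (n : ℕ) : dens A B n ≤ 1 := by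
  unfold dens
  refine div_le_one_of_le₀ ?_ (by positivity)
  have : (A ∩ B ∩ Set.Iio n).ncard ≤ (B ∩ Set.Iio n).ncard :=
    Set.ncard_le_ncard (fun x hx => ⟨hx.1.2, hx.2⟩) ((Set.finite_Iio n).inter_of_right _)
  exact_mod_cast this

theorem cauchy_iff_tendsto {u : ℕ → ℝ} :
    (∀ m : ℕ, ∃ N : ℕ, ∀ n n' : ℕ, N ≤ n → n ≤ n' → |u n - u n'| ≤ 1 / ((m : ℝ) + 1)) ↔
      ∃ l, Tendsto u atTop (𝓝 l) := by
  constructor
  · intro h
    refine cauchySeq_tendsto_of_complete ?_
    rw [Metric.cauchySeq_iff']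
    intro ε hε
    obtain ⟨m, hm⟩ := exists_nat_one_div_lt hε
    obtain ⟨N, hN⟩ := h m
    refine ⟨N, fun n hn => ?_⟩
    rw [Real.dist_eq, abs_sub_comm]
    exact (hN N n le_rfl hn).trans_lt hm
  · rintro ⟨l, hl⟩ m
    have h1 := hl.cauchySeq
    rw [Metric.cauchySeq_iff] at h1
    obtain ⟨N, hN⟩ := h1 (1 / ((m : ℝ) + 1)) (by positivity)
    refine ⟨N, fun n n' h2 h3 => ?_⟩
    have := hN n h2 n' (h2.trans h3)
    rw [Real.dist_eq] at this
    exact this.le

theorem tendsto_iff_liminf {u : ℕ → ℝ} (h0 : ∀ n, 0 ≤ u n) (h1 : ∀ n, u n ≤ 1) :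
    (∃ l, Tendsto u atTop (𝓝 l)) ↔ liminf u atTop = limsup u atTop := by
  have hb1 : IsBoundedUnder (· ≤ ·) atTop u := isBoundedUnder_of ⟨1, h1⟩
  have hb2 : IsBoundedUnder (· ≥ ·) atTop u := isBoundedUnder_of ⟨0, h0⟩
  constructor
  · rintro ⟨l, hl⟩
    rw [hl.liminf_eq, hl.limsup_eq]
  · intro h
    exact ⟨_, tendsto_of_liminf_eq_limsup rfl h.symm hb1 hb2⟩

/-- The relative density of `S` in `R` does not oscillate. -/
theorem noOsc_iff (S R : Set ℕ) : classical.noOsc (fun i => i ∈ S) (fun i => i ∈ R) ↔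
    liminf (dens S R) atTop = limsup (dens S R) atTop := by
  rw [classical_noOsc, cauchy_iff_tendsto, tendsto_iff_liminf (dens_nonneg S R) (dens_le_one S R)]

/-- the oscillation reaping number -/
noncomputable def rosc : Cardinal.{0} :=
  sInf {κ | ∃ F : Set (Set ℕ), (∀ R ∈ F, R.Infinite) ∧
    (∀ S : Set ℕ, S.Infinite → Sᶜ.Infinite →
      ∃ R ∈ F, liminf (dens S R) atTop = limsup (dens S R) atTop) ∧ #F = κ}

theorem dens_self {R : Set ℕ} (hR : R.Infinite) : Tendsto (dens R R) atTop (𝓝 1) := by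
  obtain ⟨a, ha⟩ := hR.nonempty
  refine tendsto_const_nhds.congr' ?_
  filter_upwards [eventually_gt_atTop a] with n hn
  unfold dens
  rw [inter_self, div_self]
  have : (R ∩ Set.Iio n).ncard ≠ 0 := by
    rw [Ne, Set.ncard_eq_zero ((Set.finite_Iio n).inter_of_right _)]
    exact Set.Nonempty.ne_empty ⟨a, ha, hn⟩
  exact_mod_cast this

theorem roscLe_iff (K : Type) : classical.roscLe K ↔ rosc ≤ #K := by
  have h0 : rosc = sInf {κ : Cardinal.{0} | ∃ F : Set (Set ℕ), (∀ R ∈ F, R.Infinite) ∧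
      (∀ S : Set ℕ, S.Infinite ∧ Sᶜ.Infinite →
        ∃ R ∈ F, liminf (dens S R) atTop = limsup (dens S R) atTop) ∧ #F = κ} := by
    unfold rosc
    simp only [and_imp]
  rw [h0, ← index_iff (fun R : Set ℕ => R.Infinite) (fun S : Set ℕ => S.Infinite ∧ Sᶜ.Infinite)
    (fun S R => liminf (dens S R) atTop = limsup (dens S R) atTop) K ?_ ?_]
  · unfold TV.roscLe
    simp only [classical_ex, classical_conj, classical_all, classical_imp, classical_inf,
      classical_coinf]
    constructor
    · rintro ⟨R, h1, h2⟩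
      refine ⟨fun k => {n | R k n}, h1, fun S hS => ?_⟩
      obtain ⟨k, hk⟩ := h2 (fun n => n ∈ S) hS
      exact ⟨k, (noOsc_iff S {n | R k n}).1 hk⟩
    · rintro ⟨R, h1, h2⟩
      refine ⟨fun k n => n ∈ R k, h1, fun S hS => ?_⟩
      obtain ⟨k, hk⟩ := h2 {n | S n} hS
      exact ⟨k, (noOsc_iff {n | S n} (R k)).2 hk⟩
  · refine ⟨{n | Even n}, ?_, ?_⟩
    · exact Set.infinite_of_injective_forall_mem (f := fun n : ℕ => 2 * n)
        (fun a b h => by simpa using h) fun n => by simp
    · exact Set.infinite_of_injective_forall_mem (f := fun n : ℕ => 2 * n + 1)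
        (fun a b h => by simpa using h) fun n => by simp
  · rintro S ⟨hS, _⟩
    refine ⟨S, hS, ?_⟩
    rw [← tendsto_iff_liminf (dens_nonneg S S) (dens_le_one S S)]
    exact ⟨1, dens_self hS⟩

/-- the covering number of the null ideal -/
noncomputable def covN : Cardinal.{0} :=
  sInf {κ | ∃ F : Set (Set (ℕ → Bool)), (∀ A ∈ F, nu ℕ A = 0) ∧ (∀ x, ∃ A ∈ F, x ∈ A) ∧ #F = κ}

theorem classical_nullGCode (C : ℕ → List Bool → Prop) : classical.nullGCode C ↔
    ∀ (m : ℕ) (s : Finset (List Bool)), (∀ t ∈ s, C m t) →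
      ∑ t ∈ s, (1 / 2 : ℚ) ^ t.length ≤ 1 / ((m : ℚ) + 1) := by
  unfold TV.nullGCode
  simp only [classical_all, classical_imp, classical_lit, classical_grd, Subtype.forall]

theorem classical_seg (x : ℕ → Bool) (t : List Bool) :
    (∀ i : ℕ, i < t.length → (x i = true ↔ t.getD i false = true)) ↔ x ∈ cylL t := by
  rw [mem_cylL_iff]
  unfold cyl
  simp only [mem_ofPred_eq, Finset.mem_range]
  exact forall_congr' fun i => imp_congr_right fun _ => Bool.eq_iff_iff.symm

theorem measurableSet_cylL (t : List Bool) : MeasurableSet (cylL t) := by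
  rw [cylL_eq]
  have : cyl (Finset.range t.length) (fun i => t.getD i false) =
      ⋂ i ∈ Finset.range t.length, {x : ℕ → Bool | x i = t.getD i false} := by
    ext x; simp [cyl]
  rw [this]
  exact Finset.measurableSet_biInter _ fun i _ =>
    measurableSet_eq_fun (measurable_pi_apply i) measurable_const

theorem classical_inNull (x : ℕ → Bool) (C : ℕ → List Bool → Prop) :
    classical.inNull (fun n => x n = true) C ↔ ∀ m, ∃ t, C m t ∧ x ∈ cylL t := by
  unfold TV.inNull
  simp only [classical_ex, classical_all, classical_imp, classical_iff, classical_lit,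
    classical_grd, classical_conj, classical_seg]

/-- the null set of a code -/
theorem nu_gcode {C : ℕ → List Bool → Prop} (hC : classical.nullGCode C) :
    nu ℕ {x | classical.inNull (fun n => x n = true) C} = 0 := by
  classical
  rw [classical_nullGCode] at hC
  have h1 : ∀ m : ℕ, nu ℕ {x | classical.inNull (fun n => x n = true) C} ≤
      ENNReal.ofReal (1 / ((m : ℝ) + 1)) := by
    intro m
    have h2 : {x | classical.inNull (fun n => x n = true) C} ⊆
        ⋃ t : {t : List Bool // C m t}, cylL t.1 := by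
      intro x hx
      rw [mem_ofPred_eq, classical_inNull] at hx
      obtain ⟨t, ht, hxt⟩ := hx m
      exact mem_iUnion.mpr ⟨⟨t, ht⟩, hxt⟩
    refine (measure_mono h2).trans ((measure_iUnion_le _).trans ?_)
    rw [ENNReal.tsum_eq_iSup_sum]
    refine iSup_le fun s => ?_
    have h3 := hC m (s.image Subtype.val) (by
      intro t ht
      obtain ⟨u, _, rfl⟩ := Finset.mem_image.mp ht
      exact u.2)
    rw [Finset.sum_image (fun a _ b _ h => Subtype.ext h)] at h3
    have h4 : ∑ t ∈ s, nu ℕ (cylL t.1) =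
        ENNReal.ofReal (((∑ t ∈ s, (1 / 2 : ℚ) ^ t.1.length : ℚ) : ℝ)) := by
      rw [Rat.cast_sum, ENNReal.ofReal_sum_of_nonneg fun _ _ => by positivity]
      refine Finset.sum_congr rfl fun t _ => ?_
      rw [nu_cylL]
      push_cast
      rw [ENNReal.ofReal_pow (by norm_num), one_div, ENNReal.ofReal_inv_of_pos (by norm_num)]
      norm_num
    rw [h4]
    refine ENNReal.ofReal_le_ofReal ?_
    have h5 := (Rat.cast_le (K := ℝ)).2 h3
    push_cast at h5 ⊢
    exact h5
  have h2 : Tendsto (fun m : ℕ => ENNReal.ofReal (1 / ((m : ℝ) + 1))) atTop (𝓝 0) := by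
    have := ENNReal.tendsto_ofReal tendsto_one_div_add_atTop_nhds_zero_nat
    rwa [ENNReal.ofReal_zero] at this
  exact le_antisymm (ge_of_tendsto' h2 h1) zero_le

/-- open sets and sets of finite sequences -/
theorem exists_disjoint_code {U : Set (ℕ → Bool)} (hU : IsOpen U) :
    ∃ C : List Bool → Prop, (∀ x, (∃ t, C t ∧ x ∈ cylL t) ↔ x ∈ U) ∧
      ∀ t t', C t → C t' → t ≠ t' → Disjoint (cylL t) (cylL t') := by
  -- minimal sequences with basic open set inside `U`
  let C : List Bool → Prop := fun t => cylL t ⊆ U ∧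
    ∀ n < t.length, ¬ cylL (t.take n) ⊆ U
  refine ⟨C, fun x => ⟨?_, fun hx => ?_⟩, fun t t' ht ht' hne => ?_⟩
  · rintro ⟨t, ht, hxt⟩
    exact ht.1 hxt
  · obtain ⟨F, hF⟩ := exists_cyl hU hx
    obtain ⟨N, hN⟩ := F.bddAbove
    have hex : ∃ n, cylL ((List.range n).map x) ⊆ U := by
      refine ⟨N + 1, fun y hy => hF ?_⟩
      rw [mem_cylL_iff] at hy
      intro i hi
      have hi' : i ≤ N := hN hi
      have := hy i (by simp; omega)
      rw [this]
      beta_reduce
      rw [List.getD_eq_getElem _ _ (by simp; omega)]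
      simp
    classical
    refine ⟨(List.range (Nat.find hex)).map x, ⟨Nat.find_spec hex, fun n hn => ?_⟩, ?_⟩
    · have hn' : n < Nat.find hex := by simpa using hn
      have h1 : ((List.range (Nat.find hex)).map x).take n = (List.range n).map x := by
        rw [← List.map_take, List.take_range, min_eq_left hn'.le]
      rw [h1]
      exact Nat.find_min hex hn'
    · change _ = _
      simp
  · rw [Set.disjoint_left]
    intro x hx hx'
    apply hne
    have h1 : t = (List.range t.length).map x := hx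
    have h2 : t' = (List.range t'.length).map x := hx'
    have h3 : ∀ s s' : List Bool, C s → C s' → s = (List.range s.length).map x →
        s' = (List.range s'.length).map x → ¬ s.length < s'.length := by
      intro s s' hs hs' h4 h5 hlt
      apply hs'.2 s.length hlt
      have h6 : s'.take s.length = s := by
        rw [h5, ← List.map_take, List.take_range, min_eq_left hlt.le]
        exact h4.symm
      rw [h6]; exact hs.1
    have h4 : t.length = t'.length :=
      le_antisymm (not_lt.mp (h3 t' t ht' ht h2 h1)) (not_lt.mp (h3 t t' ht ht' h1 h2))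
    rw [h1, h2, h4]

theorem gcode_of_null {A : Set (ℕ → Bool)} (hA : nu ℕ A = 0) :
    ∃ C : ℕ → List Bool → Prop, classical.nullGCode C ∧
      ∀ x ∈ A, classical.inNull (fun n => x n = true) C := by
  classical
  have h1 : ∀ m : ℕ, ∃ U, A ⊆ U ∧ IsOpen U ∧ nu ℕ U < ENNReal.ofReal (1 / ((m : ℝ) + 1)) := by
    intro m
    have : nu ℕ A < ENNReal.ofReal (1 / ((m : ℝ) + 1)) := by
      rw [hA, ENNReal.ofReal_pos]; positivity
    obtain ⟨U, hU1, hU2, hU3⟩ := Set.exists_isOpen_lt_of_lt A _ this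
    exact ⟨U, hU1, hU2, hU3⟩
  choose U hU1 hU2 hU3 using h1
  choose C hC1 hC2 using fun m => exists_disjoint_code (hU2 m)
  refine ⟨C, (classical_nullGCode C).2 fun m s hs => ?_, fun x hx => ?_⟩
  · have h2 : ∑ t ∈ s, nu ℕ (cylL t) ≤ nu ℕ (U m) := by
      rw [← measure_biUnion_finset]
      · refine measure_mono fun x hx => ?_
        simp only [mem_iUnion, exists_prop] at hx
        obtain ⟨t, ht, hxt⟩ := hx
        exact (hC1 m x).1 ⟨t, hs t ht, hxt⟩
      · intro t ht t' ht' hne
        exact hC2 m t t' (hs t ht) (hs t' ht') hne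
      · intro t _
        exact measurableSet_cylL t
    have h4 : ∑ t ∈ s, nu ℕ (cylL t) =
        ENNReal.ofReal (((∑ t ∈ s, (1 / 2 : ℚ) ^ t.length : ℚ) : ℝ)) := by
      rw [Rat.cast_sum, ENNReal.ofReal_sum_of_nonneg fun _ _ => by positivity]
      refine Finset.sum_congr rfl fun t _ => ?_
      rw [nu_cylL]
      push_cast
      rw [ENNReal.ofReal_pow (by norm_num), one_div, ENNReal.ofReal_inv_of_pos (by norm_num)]
      norm_num
    rw [h4] at h2
    have h5 := (h2.trans_lt (hU3 m)).le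
    rw [ENNReal.ofReal_le_ofReal_iff (by positivity)] at h5
    rw [← Rat.cast_le (K := ℝ)]
    push_cast at h5 ⊢
    exact h5
  · rw [classical_inNull]
    intro m
    exact (hC1 m x).2 (hU1 m hx)

theorem covNLe_iff (K : Type) : classical.covNLe K ↔ covN ≤ #K := by
  have h0 : covN = sInf {κ : Cardinal.{0} | ∃ F : Set (Set (ℕ → Bool)), (∀ A ∈ F, nu ℕ A = 0) ∧
      (∀ x : ℕ → Bool, True → ∃ A ∈ F, x ∈ A) ∧ #F = κ} := by
    unfold covN
    simp only [true_imp_iff]
  rw [h0, ← index_iff (fun A : Set (ℕ → Bool) => nu ℕ A = 0) (fun _ : ℕ → Bool => True)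
    (fun x A => x ∈ A) K ⟨fun _ => true, trivial⟩ (fun x _ => ⟨{x}, isClosed_singleton_null x,
      rfl⟩)]
  unfold TV.covNLe
  simp only [classical_ex, classical_conj, classical_all]
  constructor
  · rintro ⟨C, h1, h2⟩
    refine ⟨fun i => {x | classical.inNull (fun n => x n = true) (C i)}, fun i =>
      nu_gcode (h1 i), fun x _ => ?_⟩
    exact h2 fun n => x n = true
  · rintro ⟨X, h1, h2⟩
    choose C hC1 hC2 using fun i => gcode_of_null (h1 i)
    refine ⟨C, hC1, fun x => ?_⟩
    obtain ⟨i, hi⟩ := h2 (toB x) trivial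
    refine ⟨i, ?_⟩
    have := hC2 i _ hi
    rwa [toB_eq] at this

end Q208.F
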