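import Pool.Agent.Q208.F.Ideal

/-!
# Cohen reals followed by random reals

The space is the product of two Cantor cubes. A set is null if for all points of the first cube
outside a meager set, the section has measure zero in the second cube. Forcing with the measurable
sets outside this ideal adds Cohen reals (first cube) and then random reals (second cube). If the
first cube is trivial then this is the measure algebra.
-/

open Cardinal Set MeasureTheory Topology
open scoped ENNReal

namespace Q208.F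

/-- the fair coin -/
noncomputable def coin : Measure Bool :=
  (2⁻¹ : ℝ≥0∞) • Measure.dirac true + (2⁻¹ : ℝ≥0∞) • Measure.dirac false

instance : IsProbabilityMeasure coin := ⟨by
  simp [coin, ENNReal.inv_two_add_inv_two]⟩

theorem coin_singleton (b : Bool) : coin {b} = 2⁻¹ := by
  cases b <;> simp [coin]

/-- the measure on the Cantor cube -/
noncomputable def nu (B : Type) : Measure (B → Bool) := Measure.infinitePi fun _ => coin

instance (B : Type) : IsProbabilityMeasure (nu B) := by unfold nu; infer_instance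

variable {A B : Type}

/-- basic clopen sets -/
def cyl (F : Finset A) (t : A → Bool) : Set (A → Bool) := {x | ∀ i ∈ F, x i = t i}

theorem isOpen_cyl (F : Finset A) (t : A → Bool) : IsOpen (cyl F t) := by
  have : cyl F t = ⋂ i ∈ F, {x : A → Bool | x i = t i} := by
    ext x; simp [cyl]
  rw [this]
  exact isOpen_biInter_finset fun i _ =>
    (isOpen_discrete ({t i} : Set Bool)).preimage (continuous_apply (A := fun _ : A => Bool) i)

theorem nu_cyl (F : Finset B) (t : B → Bool) : nu B (cyl F t) = (2⁻¹ : ℝ≥0∞) ^ F.card := by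
  have h1 : cyl F t = (F : Set B).pi fun i => {t i} := by
    ext x; simp [cyl, Set.mem_pi]
  rw [h1, nu, Measure.infinitePi_pi _ (fun i _ => measurableSet_singleton _)]
  simp [coin_singleton]

/-- an open set contains basic clopen neighbourhoods -/
theorem exists_cyl {U : Set (A → Bool)} (hU : IsOpen U) {x : A → Bool} (hx : x ∈ U) :
    ∃ F : Finset A, cyl F x ⊆ U := by
  rw [isOpen_pi_iff] at hU
  obtain ⟨F, u, h1, h2⟩ := hU x hx
  refine ⟨F, fun y hy => h2 ?_⟩
  intro i hi
  rw [hy i hi]
  exact (h1 i hi).2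

theorem measurable_le_borel : (MeasurableSpace.pi : MeasurableSpace (A → Bool)) ≤ borel _ := by
  refine iSup_le fun i => ?_
  rintro _ ⟨s, hs, rfl⟩
  exact MeasurableSpace.measurableSet_generateFrom
    ((isOpen_discrete s).preimage (continuous_apply i))

theorem baireMeasurable {s : Set (A → Bool)} (hs : MeasurableSet s) : BaireMeasurableSet s := by
  have h1 : MeasurableSet[borel (A → Bool)] s := measurable_le_borel _ hs
  let _ : MeasurableSpace (A → Bool) := borel _
  have : BorelSpace (A → Bool) := ⟨rfl⟩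
  exact MeasurableSet.baireMeasurableSet h1

/-- a nonmeager measurable set is comeager in some basic clopen set -/
theorem exists_cyl_of_not_meagre {s : Set (A → Bool)} (hs : MeasurableSet s)
    (h : ¬ IsMeagre s) : ∃ (F : Finset A) (t : A → Bool), IsMeagre (cyl F t \ s) := by
  obtain ⟨u, hu, hsu⟩ := (baireMeasurable hs).residualEq_isOpen
  have hne : u.Nonempty := by
    by_contra hne
    rw [not_nonempty_iff_eq_empty] at hne
    apply h
    rw [hne] at hsu
    have : sᶜ ∈ residual (A → Bool) := by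
      filter_upwards [hsu] with x hx
      intro hxs
      have : (∅ : Set (A → Bool)) x := hx.mp hxs
      exact this
    exact this
  obtain ⟨x, hx⟩ := hne
  obtain ⟨F, hF⟩ := exists_cyl hu hx
  refine ⟨F, x, ?_⟩
  change (cyl F x \ s)ᶜ ∈ residual (A → Bool)
  filter_upwards [hsu] with y hy
  rintro ⟨h1, h2⟩
  exact h2 (hy.mpr (hF h1))

theorem not_meagre_of_open {U : Set (A → Bool)} (hU : IsOpen U) (hne : U.Nonempty) :
    ¬ IsMeagre U := not_isMeagre_of_isOpen hU hne

/-- the section -/
def sec (S : Set ((A → Bool) × (B → Bool))) (x : A → Bool) : Set (B → Bool) := {y | (x, y) ∈ S}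

theorem measurable_sec {S : Set ((A → Bool) × (B → Bool))} (hS : MeasurableSet S) :
    Measurable fun x => nu B (sec S x) := measurable_measure_prodMk_left hS

/-- pigeonhole: an uncountable type mapped to `ℕ` has an infinite fibre -/
theorem exists_infinite_fibre {Y : Type} (hY : ¬ Countable Y) (f : Y → ℕ) :
    ∃ n, {y | f y = n}.Infinite := by
  by_contra hno
  push Not at hno
  apply hY
  have h1 : (⋃ n, {y | f y = n}) = Set.univ := by ext y; simp
  rw [← Set.countable_univ_iff, ← h1]
  exact Set.countable_iUnion fun n => (hno n).countable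

theorem ccc_aux (Y : Type) (S : Y → Set ((A → Bool) × (B → Bool)))
    (hS : ∀ y, MeasurableSet (S y)) (hpos : ∀ y, ¬ IsMeagre {x | nu B (sec (S y) x) ≠ 0})
    (hd : ∀ y y', y ≠ y' → Disjoint (S y) (S y')) : Countable Y := by
  by_contra hY
  -- a positive lower bound on a nonmeager set
  have h1 : ∀ y, ∃ n : ℕ, ¬ IsMeagre {x | ((n : ℝ≥0∞) + 1)⁻¹ ≤ nu B (sec (S y) x)} := by
    intro y
    by_contra hno
    push Not at hno
    apply hpos y
    have h2 : {x | nu B (sec (S y) x) ≠ 0} ⊆
        ⋃ n : ℕ, {x | ((n : ℝ≥0∞) + 1)⁻¹ ≤ nu B (sec (S y) x)} := by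
      intro x hx
      have hx' : nu B (sec (S y) x) ≠ 0 := hx
      obtain ⟨n, hn⟩ := ENNReal.exists_inv_nat_lt hx'
      refine mem_iUnion.mpr ⟨n, ?_⟩
      refine le_trans ?_ hn.le
      exact ENNReal.inv_le_inv.mpr le_self_add
    exact (isMeagre_iUnion hno).mono h2
  choose n hn using h1
  have h2 : ∀ y, ∃ (F : Finset A) (t : A → Bool),
      IsMeagre (cyl F t \ {x | ((n y : ℝ≥0∞) + 1)⁻¹ ≤ nu B (sec (S y) x)}) := fun y =>
    exists_cyl_of_not_meagre (measurableSet_le measurable_const (measurable_sec (hS y))) (hn y)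
  choose F t hFt using h2
  obtain ⟨k, hk⟩ := exists_infinite_fibre hY fun y => Nat.pair (n y) (F y).card
  obtain ⟨G, hG, hGc⟩ := hk.exists_subset_card_eq ((k.unpair.1 + 1) * 2 ^ k.unpair.2 + 1)
  have hGn : ∀ y ∈ G, n y = k.unpair.1 ∧ (F y).card = k.unpair.2 := by
    intro y hy
    have : Nat.pair (n y) (F y).card = k := hG hy
    rw [← this]; simp
  classical
  -- some point lies in more than `n + 1` of the clopen sets
  have h3 : ∃ x : A → Bool, k.unpair.1 + 1 < (G.filter fun y => x ∈ cyl (F y) (t y)).card := by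
    by_contra hno
    push Not at hno
    have h4 : ∑ y ∈ G, nu A (cyl (F y) (t y)) ≤ (k.unpair.1 + 1 : ℕ) := by
      have h5 : ∑ y ∈ G, nu A (cyl (F y) (t y)) =
          ∫⁻ x, ∑ y ∈ G, (cyl (F y) (t y)).indicator 1 x ∂(nu A) := by
        rw [lintegral_finsetSum]
        · refine Finset.sum_congr rfl fun y _ => ?_
          rw [lintegral_indicator_one]
          have : cyl (F y) (t y) = ⋂ i ∈ F y, {x : A → Bool | x i = t y i} := by
            ext x; simp [cyl]
          rw [this]
          exact Finset.measurableSet_biInter _ fun i _ =>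
            measurableSet_eq_fun (measurable_pi_apply i) measurable_const
        · intro y _
          apply Measurable.indicator measurable_const
          have : cyl (F y) (t y) = ⋂ i ∈ F y, {x : A → Bool | x i = t y i} := by
            ext x; simp [cyl]
          rw [this]
          exact Finset.measurableSet_biInter _ fun i _ =>
            measurableSet_eq_fun (measurable_pi_apply i) measurable_const
      rw [h5]
      calc ∫⁻ x, ∑ y ∈ G, (cyl (F y) (t y)).indicator 1 x ∂(nu A)
          ≤ ∫⁻ _, ((k.unpair.1 + 1 : ℕ) : ℝ≥0∞) ∂(nu A) := by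
            refine lintegral_mono fun x => ?_
            have h6 : ∑ y ∈ G, (cyl (F y) (t y)).indicator (1 : (A → Bool) → ℝ≥0∞) x =
                ((G.filter fun y => x ∈ cyl (F y) (t y)).card : ℝ≥0∞) := by
              rw [Finset.card_filter]
              push_cast
              refine Finset.sum_congr rfl fun y _ => ?_
              by_cases hx : x ∈ cyl (F y) (t y) <;> simp [hx]
            rw [h6]
            exact Nat.cast_le.mpr (hno x)
        _ = ((k.unpair.1 + 1 : ℕ) : ℝ≥0∞) := by simp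
    have h5 : ∑ y ∈ G, nu A (cyl (F y) (t y)) =
        ((k.unpair.1 + 1) * 2 ^ k.unpair.2 + 1 : ℕ) * (2⁻¹ : ℝ≥0∞) ^ k.unpair.2 := by
      rw [Finset.sum_congr rfl fun y hy => by rw [nu_cyl, (hGn y hy).2], Finset.sum_const, hGc,
        nsmul_eq_mul]
    rw [h5] at h4
    have h6 : ((k.unpair.1 + 1 : ℕ) : ℝ≥0∞) <
        ((k.unpair.1 + 1) * 2 ^ k.unpair.2 + 1 : ℕ) * (2⁻¹ : ℝ≥0∞) ^ k.unpair.2 := by
      have h7 : (2 : ℝ≥0∞) ^ k.unpair.2 * (2⁻¹ : ℝ≥0∞) ^ k.unpair.2 = 1 := by
        rw [← mul_pow, ENNReal.mul_inv_cancel (by simp) (by simp), one_pow]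
      calc ((k.unpair.1 + 1 : ℕ) : ℝ≥0∞)
          = ((k.unpair.1 + 1 : ℕ) : ℝ≥0∞) *
            ((2 : ℝ≥0∞) ^ k.unpair.2 * (2⁻¹ : ℝ≥0∞) ^ k.unpair.2) := by rw [h7, mul_one]
        _ < ((k.unpair.1 + 1 : ℕ) : ℝ≥0∞) *
            ((2 : ℝ≥0∞) ^ k.unpair.2 * (2⁻¹ : ℝ≥0∞) ^ k.unpair.2) +
              (2⁻¹ : ℝ≥0∞) ^ k.unpair.2 := by
            refine ENNReal.lt_add_right ?_ ?_
            · rw [h7, mul_one]; exact ENNReal.natCast_ne_top _
            · exact (ENNReal.pow_pos (by simp) _).ne'
        _ = _ := by push_cast; ring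
    exact absurd h4 (not_le.mpr h6)
  obtain ⟨x, hx⟩ := h3
  set H := G.filter fun y => x ∈ cyl (F y) (t y) with hH
  -- a generic point in the intersection
  let O : Set (A → Bool) := ⋂ y ∈ H, cyl (F y) (t y)
  have hO : IsOpen O := isOpen_biInter_finset fun y _ => isOpen_cyl _ _
  have hxO : x ∈ O := by
    simp only [O, mem_iInter]
    intro y hy
    exact (Finset.mem_filter.mp hy).2
  have h4 : IsMeagre (⋃ y ∈ (H : Set Y),
      (cyl (F y) (t y) \ {x | ((n y : ℝ≥0∞) + 1)⁻¹ ≤ nu B (sec (S y) x)})) :=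
    isMeagre_biUnion H.countable_toSet fun y _ => hFt y
  have h5 : ∃ z ∈ O, z ∉ ⋃ y ∈ (H : Set Y),
      (cyl (F y) (t y) \ {x | ((n y : ℝ≥0∞) + 1)⁻¹ ≤ nu B (sec (S y) x)}) := by
    by_contra hno
    push Not at hno
    exact not_meagre_of_open hO ⟨x, hxO⟩ (h4.mono hno)
  obtain ⟨z, hzO, hz⟩ := h5
  have h6 : ∀ y ∈ H, ((k.unpair.1 : ℝ≥0∞) + 1)⁻¹ ≤ nu B (sec (S y) z) := by
    intro y hy
    by_contra hlt
    apply hz
    refine mem_biUnion (Finset.mem_coe.mpr hy) ⟨?_, ?_⟩
    · simp only [O, mem_iInter] at hzO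
      exact hzO y hy
    · rw [mem_ofPred_eq, (hGn y (Finset.mem_filter.mp hy).1).1]
      exact hlt
  have h7 : ∑ y ∈ H, nu B (sec (S y) z) ≤ 1 := by
    rw [← measure_biUnion_finset]
    · exact prob_le_one
    · intro y _ y' _ hne
      change Disjoint (sec (S y) z) (sec (S y') z)
      rw [Set.disjoint_left]
      intro w hw hw'
      exact Set.disjoint_left.mp (hd y y' hne) hw hw'
    · intro y _
      exact measurable_prodMk_left (hS y)
  have h8 : ((H.card : ℕ) : ℝ≥0∞) * ((k.unpair.1 : ℝ≥0∞) + 1)⁻¹ ≤ 1 := by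
    refine le_trans ?_ h7
    rw [← nsmul_eq_mul, ← Finset.sum_const]
    exact Finset.sum_le_sum h6
  have h9 : (1 : ℝ≥0∞) < ((H.card : ℕ) : ℝ≥0∞) * ((k.unpair.1 : ℝ≥0∞) + 1)⁻¹ := by
    have h10 : ((k.unpair.1 : ℝ≥0∞) + 1) < ((H.card : ℕ) : ℝ≥0∞) := by exact_mod_cast hx
    have h11 : ((k.unpair.1 : ℝ≥0∞) + 1) ≠ 0 := by simp
    have h12 : ((k.unpair.1 : ℝ≥0∞) + 1) ≠ ∞ := by simp
    calc (1 : ℝ≥0∞) = ((k.unpair.1 : ℝ≥0∞) + 1) * ((k.unpair.1 : ℝ≥0∞) + 1)⁻¹ :=
          (ENNReal.mul_inv_cancel h11 h12).symm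
      _ < _ := by
          refine (ENNReal.mul_lt_mul_iff_left ?_ ?_).mpr h10
          · exact ENNReal.inv_ne_zero.mpr h12
          · exact ENNReal.inv_ne_top.mpr h11
  exact absurd h8 (not_le.mpr h9)

variable (A B) in
/-- The ideal: for all `x` outside a meager set, the section at `x` has measure zero. -/
noncomputable def cohenRandom : CI ((A → Bool) × (B → Bool)) where
  null S := IsMeagre {x | nu B (sec S x) ≠ 0}
  mono := by
    intro S S' h hS'
    refine hS'.mono fun x hx => ?_
    intro h0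
    exact hx (measure_mono_null (fun y hy => h hy) h0)
  iUnion := by
    intro S hS
    refine (isMeagre_iUnion hS).mono fun x hx => ?_
    by_contra hno
    simp only [mem_iUnion, mem_ofPred_eq, not_exists, not_not] at hno
    apply hx
    have : sec (⋃ n, S n) x = ⋃ n, sec (S n) x := by
      ext y; simp [sec]
    rw [this]
    exact measure_iUnion_null hno
  empty := by
    have : {x : A → Bool | nu B (sec (∅ : Set ((A → Bool) × (B → Bool))) x) ≠ 0} = ∅ := by
      ext x; simp [sec]
    rw [this]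
    exact IsMeagre.empty
  univ := by
    have : {x : A → Bool | nu B (sec (Set.univ : Set ((A → Bool) × (B → Bool))) x) ≠ 0} =
        Set.univ := by
      ext x; simp [sec]
    rw [this]
    exact not_meagre_of_open isOpen_univ ⟨fun _ => true, trivial⟩
  ccc := fun Y S hS hpos hd => ccc_aux Y S hS hpos hd

theorem null_iff {S : Set ((A → Bool) × (B → Bool))} :
    (cohenRandom A B).null S ↔ IsMeagre {x | nu B (sec S x) ≠ 0} := Iff.rfl

end Q208.F
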