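import Pool.Agent.Q208.F.SubMain

/-!
# The sentences are forced

Cohen reals indexed by `L` followed by random reals indexed by `K` force that `ss_c` is larger
than the ground model cardinals smaller than `|L|` and `|K|`, and that `cov(M)` and the splitting
number are at most the first uncountable cardinal.
-/

open Cardinal Set MeasureTheory Filter Topology
open scoped ENNReal

namespace Q208.F

/-- conditions for adding Cohen reals indexed by `L` and then random reals indexed by `K` -/
abbrev CR (L K : Type) : Type := Cond (cohenRandom (L × ℕ) (K × ℕ))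

variable {L K W : Type}

/-- there are coordinate blocks outside of few countable supports -/
theorem exists_block (hW : #W < #L) (hL : ℵ₀ < #L) (C : W → Set (L × ℕ))
    (hC : ∀ w, (C w).Countable) : ∃ l : L, ∀ w n, (l, n) ∉ C w := by
  by_contra hno
  push Not at hno
  have h1 : (⋃ w, Prod.fst '' C w) = Set.univ := by
    ext l
    simp only [mem_iUnion, mem_univ, iff_true]
    obtain ⟨w, n, h⟩ := hno l
    exact ⟨w, (l, n), h, rfl⟩
  have h2 : #(⋃ w, Prod.fst '' C w : Set L) ≤ #W * ℵ₀ := by
    refine (Cardinal.mk_iUnion_le _).trans ?_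
    gcongr
    refine ciSup_le' fun w => ?_
    exact Cardinal.mk_le_aleph0_iff.mpr ((hC w).image _).to_subtype
  rw [h1, Cardinal.mk_univ] at h2
  exact absurd (Cardinal.mul_lt_of_lt hL.le hW hL) (not_lt.mpr h2)

/-- the Cohen real with index `l` -/
def coh (l : L) (ω : (L × ℕ → Bool) × (K × ℕ → Bool)) : ℕ → Bool := fun n => ω.1 (l, n)

/-- the random real with index `k` -/
def ran (k : K) (ω : (L × ℕ → Bool) × (K × ℕ → Bool)) : ℕ → Bool := fun n => ω.2 (k, n)

theorem measurable_coh (l : L) (n : ℕ) :
    Measurable fun ω : (L × ℕ → Bool) × (K × ℕ → Bool) => coh l ω n :=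
  (measurable_pi_apply (l, n)).comp measurable_fst

theorem measurable_ran (k : K) (n : ℕ) :
    Measurable fun ω : (L × ℕ → Bool) × (K × ℕ → Bool) => ran k ω n :=
  (measurable_pi_apply (k, n)).comp measurable_snd

/-- the series of rational numbers in the extension -/
noncomputable def serN (l : L) (k : K) (ω : (L × ℕ → Bool) × (K × ℕ → Bool)) : ℕ → ℚ :=
  ser (coh l ω) (ran k ω)

theorem measurableSet_serN (l : L) (k : K) (n : ℕ) (q : ℚ) :
    MeasurableSet {ω : (L × ℕ → Bool) × (K × ℕ → Bool) | serN l k ω n = q} :=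
  (measurable_ser (measurable_coh l) (measurable_ran k) n) (measurableSet_singleton q)

theorem rep_serN (l : L) (k : K) (n : ℕ) (q : ℚ) :
    Rep ((forcing (CR L K)).lit (nm (serN l k) n q)) (fun ω => serN l k ω n = q) :=
  rep_nm (measurableSet_serN l k n q)

open Classical in
/-- absolutely convergent series have convergent subseries -/
theorem cauchy_of_abs {f : ℕ → ℚ} {M : ℕ} (hM : ∀ n, ∑ i ∈ Finset.range n, |f i| ≤ (M : ℚ))
    (X : Set ℕ) (m : ℕ) : ∃ N : ℕ, ∀ n n', N ≤ n → n ≤ n' →
      |∑ i ∈ Finset.Ico n n', if i ∈ X then f i else 0| ≤ 1 / ((m : ℚ) + 1) := by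
  have h4 : Summable fun i => ((|f i| : ℚ) : ℝ) := by
    refine summable_of_sum_range_le (c := M) (fun i => by positivity) fun n => ?_
    have := hM n
    exact_mod_cast this
  have h5 := h4.hasSum.tendsto_sum_nat.cauchySeq
  rw [Metric.cauchySeq_iff] at h5
  obtain ⟨N, hN⟩ := h5 (1 / ((m : ℝ) + 1)) (by positivity)
  refine ⟨N, fun n n' h1 h2 => ?_⟩
  have h6 := hN n' (h1.trans h2) n h1
  rw [Real.dist_eq, ← Finset.sum_Ico_eq_sub _ h2] at h6
  have h7 : |∑ i ∈ Finset.Ico n n', if i ∈ X then f i else 0| ≤ ∑ i ∈ Finset.Ico n n', |f i| := by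
    refine (Finset.abs_sum_le_sum_abs _ _).trans (Finset.sum_le_sum fun i _ => ?_)
    split_ifs
    · exact le_rfl
    · simp
  refine h7.trans ?_
  have h8 := (le_abs_self _).trans h6.le
  have h9 : (((∑ i ∈ Finset.Ico n n', |f i|) : ℚ) : ℝ) ≤ ((1 / ((m : ℚ) + 1) : ℚ) : ℝ) := by
    push_cast
    push_cast at h8
    exact h8
  exact_mod_cast h9

/-- The series is conditionally convergent. -/
theorem mem_condConv (l : L) (k : K) (p : CR L K) :
    p ∈ (forcing (CR L K)).condConv (forcing (CR L K)).everything (nm (serN l k)) := by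
  classical
  have hrep := Rep.condConv (rep_everything (I := cohenRandom (L × ℕ) (K × ℕ)))
    (rep_serN l k)
  refine hrep.of_null ?_ p
  refine null_criterion hrep.meas.compl l k fun x => ?_
  -- use the even numbers
  have h1 : {n : ℕ | Even n}.Infinite := by
    refine Set.infinite_of_injective_forall_mem (f := fun n : ℕ => 2 * n)
      (fun a b h => by simpa using h) fun n => ?_
    simp
  have h2 : {n : ℕ | Even n}ᶜ.Infinite := by
    refine Set.infinite_of_injective_forall_mem (f := fun n : ℕ => 2 * n + 1)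
      (fun a b h => by simpa using h) fun n => ?_
    simp
  have h3 := cohen_good (nu (K × ℕ)) (X := fun _ => {n : ℕ | Even n})
    (fun t => MeasurableSet.const _)
  filter_upwards [h3] with c hc
  filter_upwards [hc] with y hy
  have hgood := hy h1 h2
  filter_upwards [diverge hgood] with r hr
  have hser : serN l k (repl x l c, repl y k r) = ser c r := by
    unfold serN coh ran
    simp only [repl_same]
  refine not_not.mpr ?_
  unfold TV.condConv
  rw [classical_conj, classical_neg, classical_everything,
    classical_conv Set.univ (ser c r) (by intro n q; rw [hser]),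
    classical_absConv Set.univ (ser c r) (by intro n q; rw [hser])]
  simp only [mem_univ, if_true]
  refine ⟨ser_conv hgood.1 r, ?_⟩
  rintro ⟨M, hM⟩
  apply hr
  intro m
  have := cauchy_of_abs hM {n | Even n} m
  exact this

/-- `ss_c` is larger than the cardinals below `|L|` and `|K|`. -/
theorem not_sscLe (hL : #W < #L) (hL' : ℵ₀ < #L) (hK : #W < #K) (hK' : ℵ₀ < #K) (p : CR L K) :
    p ∈ (forcing (CR L K)).neg ((forcing (CR L K)).sscLe W) := by
  classical
  intro q _ hq
  obtain ⟨r, _, X, hX1, hX2⟩ := mem_ex.1 hq q le_rfl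
  -- supports
  let S : W → ℕ → Set ((L × ℕ → Bool) × (K × ℕ → Bool)) := fun w n => ess (X w n)
  have hS : ∀ w n, MeasurableSet (S w n) := fun w n => ess_measurable _
  choose C D hC hD hCD using fun w => exists_supp_family (hS w)
  obtain ⟨l, hl⟩ := exists_block hL hL' C hC
  obtain ⟨k, hk⟩ := exists_block hK hK' D hD
  -- the sets of natural numbers
  let Xh : W → ((L × ℕ → Bool) × (K × ℕ → Bool)) → Set ℕ := fun w ω => {n | ω ∈ ess (X w n)}
  have hXh : ∀ w x c y r, Xh w (repl x l c, repl y k r) = Xh w (x, y) := by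
    intro w x c y r
    ext n
    refine hCD w n _ _ (fun i hi => ?_) (fun i hi => ?_)
    · refine repl_other _ _ _ fun h => ?_
      obtain ⟨a, b⟩ := i
      change a = l at h
      subst h
      exact hl w b hi
    · refine repl_other _ _ _ fun h => ?_
      obtain ⟨a, b⟩ := i
      change a = k at h
      subst h
      exact hk w b hi
  have hrepX : ∀ w n, Rep ((forcing (CR L K)).lit (X w n)) (fun ω => n ∈ Xh w ω) :=
    fun w n => rep_lit _
  have hconv : ∀ w, Rep ((forcing (CR L K)).conv (X w) (nm (serN l k)))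
      (fun ω => classical.conv (fun n => n ∈ Xh w ω) (fun n q => serN l k ω n = q)) :=
    fun w => Rep.conv (S := fun ω n => n ∈ Xh w ω) (hrepX w) (rep_serN l k)
  have hinf : ∀ w, Rep ((forcing (CR L K)).inf (X w))
      (fun ω => classical.inf (fun n => n ∈ Xh w ω)) :=
    fun w => Rep.inf (S := fun ω n => n ∈ Xh w ω) (hrepX w)
  have hcoinf : ∀ w, Rep ((forcing (CR L K)).coinf (X w))
      (fun ω => classical.coinf (fun n => n ∈ Xh w ω)) :=
    fun w => Rep.coinf (S := fun ω n => n ∈ Xh w ω) (hrepX w)
  -- the set where the subseries along `X w` converges is null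
  have hnull : ∀ w, (cohenRandom (L × ℕ) (K × ℕ)).null
      {ω | (classical.inf (fun n => n ∈ Xh w ω) ∧ classical.coinf (fun n => n ∈ Xh w ω)) ∧
        classical.conv (fun n => n ∈ Xh w ω) (fun n q => serN l k ω n = q)} := by
    intro w
    refine null_criterion (((hinf w).meas.inter (hcoinf w).meas).inter (hconv w).meas) l k
      fun x => ?_
    have h3 := cohen_good (nu (K × ℕ)) (X := fun y => Xh w (x, y))
      (fun t => measurable_prodMk_left (hS w t))
    filter_upwards [h3] with c hc
    filter_upwards [hc] with y hy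
    by_cases hXic : (Xh w (x, y)).Infinite ∧ (Xh w (x, y))ᶜ.Infinite
    swap
    · filter_upwards with r hmem
      obtain ⟨⟨h4, h5⟩, _⟩ := hmem
      rw [classical_inf] at h4
      rw [classical_coinf] at h5
      simp only [hXh] at h4 h5
      exact hXic ⟨h4, h5⟩
    · have hgood := hy hXic.1 hXic.2
      filter_upwards [diverge hgood] with r hr hmem
      obtain ⟨_, h6⟩ := hmem
      have hser : serN l k (repl x l c, repl y k r) = ser c r := by
        unfold serN coh ran
        simp only [repl_same]
      rw [classical_conv (Xh w (repl x l c, repl y k r)) (ser c r) (by intro n q; rw [hser]),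
        hXh] at h6
      exact hr h6
  -- the series in the extension
  have h1 := mem_imp.1 (hX2 (nm (serN l k))) r le_rfl
    ⟨isFun_nm (measurableSet_serN l k) r, mem_condConv l k r⟩
  obtain ⟨r1, hr1, h2⟩ := h1
  obtain ⟨r2, hr2, w, h3⟩ := mem_ex.1 h2 r1 le_rfl
  have h4 := (hconv w).iff.1 h3
  have h5 := (hinf w).iff.1 (down_all (fun _ => down_ex _) _ (hX1 w).1 r2 (hr2.trans hr1))
  have h6 := (hcoinf w).iff.1 (down_all (fun _ => down_ex _) _ (hX1 w).2 r2 (hr2.trans hr1))
  refine r2.2.2 (CI.mono _ ?_ (CI.union (hnull w) (CI.union h4 (CI.union h5 h6))))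
  intro ω hω
  by_cases h7 : classical.conv (fun n => n ∈ Xh w ω) (fun n q => serN l k ω n = q)
  · by_cases h8 : classical.inf (fun n => n ∈ Xh w ω)
    · by_cases h9 : classical.coinf (fun n => n ∈ Xh w ω)
      · exact Or.inl ⟨⟨h8, h9⟩, h7⟩
      · exact Or.inr (Or.inr (Or.inr ⟨hω, h9⟩))
    · exact Or.inr (Or.inr (Or.inl ⟨hω, h8⟩))
  · exact Or.inr (Or.inl ⟨hω, h7⟩)

end Q208.F
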