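import Pool.Agent.Q208.F.Ideal

/-!
# Sentences about subseries, splitting families and meager covers
-/

open Cardinal Set Filter Topology

namespace Q208.F

namespace TV

variable {Ω : Type} (T : TV Ω)

/-- `X ∩ n = s` -/
def trace (X : ℕ → Ω) (n : ℕ) (s : Finset ℕ) : Ω :=
  T.all fun i : ℕ => T.imp (T.grd (i < n)) (T.iff (T.lit (X i)) (T.grd (i ∈ s)))

/-- the subseries of the series `a` of rational numbers along `X` is convergent, in the form of the
Cauchy criterion: for every `m` there is `N` such that for `N ≤ n ≤ n'` the sum of the `a i` with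
`i ∈ X` and `n ≤ i < n'` has absolute value at most `1/(m+1)` -/
def conv (X : ℕ → Ω) (a : ℕ → ℚ → Ω) : Ω :=
  T.all fun m : ℕ => T.ex fun N : ℕ => T.all fun n : ℕ => T.all fun n' : ℕ =>
    T.imp (T.grd (N ≤ n ∧ n ≤ n')) (T.all fun s : Finset ℕ => T.all fun v : List ℚ =>
      T.imp (T.conj (T.trace X n' s) (T.conj (T.initSeg a v) (T.grd (v.length = n'))))
        (T.grd (|∑ i ∈ Finset.Ico n n', if i ∈ s then v.getD i 0 else 0| ≤ 1 / ((m : ℚ) + 1))))

/-- the subseries of the series `a` along `X` is absolutely convergent: the sums of the `|a i|`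
with `i ∈ X` and `i < n` are bounded -/
def absConv (X : ℕ → Ω) (a : ℕ → ℚ → Ω) : Ω :=
  T.ex fun M : ℕ => T.all fun n : ℕ => T.all fun s : Finset ℕ => T.all fun v : List ℚ =>
    T.imp (T.conj (T.trace X n s) (T.conj (T.initSeg a v) (T.grd (v.length = n))))
      (T.grd ((∑ i ∈ Finset.range n, if i ∈ s then |v.getD i 0| else 0) ≤ (M : ℚ)))

/-- the subseries of `a` along `X` is conditionally convergent -/
def condConv (X : ℕ → Ω) (a : ℕ → ℚ → Ω) : Ω := T.conj (T.conv X a) (T.neg (T.absConv X a))

/-- the set of all natural numbers -/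
def everything : ℕ → Ω := fun _ => T.grd True

/-- `ss_c ≤ |K|`: there is a family, indexed by `K`, of infinite coinfinite sets such that for
every conditionally convergent series of rational numbers the subseries along a member of
the family converges -/
def sscLe (K : Type) : Ω :=
  T.ex fun X : K → ℕ → Ω =>
    T.conj (T.all fun k => T.conj (T.inf (X k)) (T.coinf (X k)))
      (T.all fun a : ℕ → ℚ → Ω => T.imp (T.conj (T.isFun a) (T.condConv T.everything a))
        (T.ex fun k => T.conv (X k) a))

/-- `ss_cc ≤ |K|`: the same with conditional convergence of the subseries -/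
def ssccLe (K : Type) : Ω :=
  T.ex fun X : K → ℕ → Ω =>
    T.conj (T.all fun k => T.conj (T.inf (X k)) (T.coinf (X k)))
      (T.all fun a : ℕ → ℚ → Ω => T.imp (T.conj (T.isFun a) (T.condConv T.everything a))
        (T.ex fun k => T.condConv (X k) a))

/-- `C` codes a meager subset of the Baire space: for every `k` every finite sequence has an
extension which is not in `C k` -/
def meagerCode (C : ℕ → List ℕ → Ω) : Ω :=
  T.all fun k : ℕ => T.all fun s : List ℕ => T.ex fun t : List ℕ =>
    T.conj (T.grd (s <+: t)) (T.neg (T.lit (C k t)))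

/-- `x` is in the meager set coded by `C`: for some `k` all initial segments of `x` are in `C k` -/
def inMeager (x : ℕ → ℕ → Ω) (C : ℕ → List ℕ → Ω) : Ω :=
  T.ex fun k : ℕ => T.all fun s : List ℕ => T.imp (T.initSeg x s) (T.lit (C k s))

/-- `cov(M) ≤ |K|`: the Baire space is covered by a family, indexed by `K`, of meager sets -/
def covMLe (K : Type) : Ω :=
  T.ex fun C : K → ℕ → List ℕ → Ω => T.conj (T.all fun k => T.meagerCode (C k))
    (T.all fun x : ℕ → ℕ → Ω => T.imp (T.isFun x) (T.ex fun k => T.inMeager x (C k)))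

/-- `s ≤ |K|`: there is a splitting family indexed by `K` -/
def splitLe (K : Type) : Ω :=
  T.ex fun S : K → ℕ → Ω => T.all fun A : ℕ → Ω => T.imp (T.inf A) (T.ex fun k =>
    T.conj
      (T.all fun n : ℕ => T.ex fun m : ℕ => T.conj (T.grd (n ≤ m))
        (T.conj (T.lit (A m)) (T.lit (S k m))))
      (T.all fun n : ℕ => T.ex fun m : ℕ => T.conj (T.grd (n ≤ m))
        (T.conj (T.lit (A m)) (T.neg (T.lit (S k m))))))

end TV

/-! ### The classical meaning of the convergence sentences -/

theorem classical_trace (X : Set ℕ) (n : ℕ) (s : Finset ℕ) :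
    classical.trace (fun i => i ∈ X) n s ↔ ∀ i < n, (i ∈ X ↔ i ∈ s) := by
  unfold TV.trace
  simp only [classical_all, classical_imp, classical_iff, classical_lit, classical_grd]

open Classical in
theorem classical_conv (X : Set ℕ) (f : ℕ → ℚ) {a : ℕ → ℚ → Prop} (ha : ∀ n q, a n q ↔ f n = q) :
    classical.conv (fun i => i ∈ X) a ↔ ∀ m : ℕ, ∃ N : ℕ, ∀ n n', N ≤ n → n ≤ n' →
      |∑ i ∈ Finset.Ico n n', if i ∈ X then f i else 0| ≤ 1 / ((m : ℚ) + 1) := by
  unfold TV.conv
  simp only [classical_all, classical_imp, classical_ex, classical_grd, classical_conj,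
    classical_trace, classical_initSeg f a ha]
  refine forall_congr' fun m => exists_congr fun N => forall_congr' fun n => forall_congr' fun n' =>
    ?_
  constructor
  · intro h h1 h2
    have := h ⟨h1, h2⟩ ((Finset.range n').filter fun i => i ∈ X) ((List.range n').map f)
      ⟨fun i hi => by simp [hi], by simp, by simp⟩
    refine le_trans (le_of_eq ?_) this
    congr 1
    refine Finset.sum_congr rfl fun i hi => ?_
    have hi' : i < n' := (Finset.mem_Ico.mp hi).2
    have : ((List.range n').map f).getD i 0 = f i := by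
      rw [List.getD_eq_getElem _ _ (by simpa using hi')]
      simp
    rw [this]
    simp [hi']
  · rintro h ⟨h1, h2⟩ s v ⟨h3, h4, h5⟩
    refine le_trans (le_of_eq ?_) (h h1 h2)
    congr 1
    refine Finset.sum_congr rfl fun i hi => ?_
    have hi' : i < n' := (Finset.mem_Ico.mp hi).2
    have : v.getD i 0 = f i := by
      rw [h4, List.getD_eq_getElem _ _ (by simpa [h5] using hi')]
      simp
    rw [this]
    simp only [h3 i hi']

open Classical in
theorem classical_absConv (X : Set ℕ) (f : ℕ → ℚ) {a : ℕ → ℚ → Prop}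
    (ha : ∀ n q, a n q ↔ f n = q) :
    classical.absConv (fun i => i ∈ X) a ↔ ∃ M : ℕ, ∀ n : ℕ,
      (∑ i ∈ Finset.range n, if i ∈ X then |f i| else 0) ≤ (M : ℚ) := by
  unfold TV.absConv
  simp only [classical_all, classical_imp, classical_ex, classical_grd, classical_conj,
    classical_trace, classical_initSeg f a ha]
  refine exists_congr fun M => forall_congr' fun n => ?_
  constructor
  · intro h
    have := h ((Finset.range n).filter fun i => i ∈ X) ((List.range n).map f)
      ⟨fun i hi => by simp [hi], by simp, by simp⟩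
    refine le_trans (le_of_eq ?_) this
    refine Finset.sum_congr rfl fun i hi => ?_
    have hi' : i < n := Finset.mem_range.mp hi
    have : ((List.range n).map f).getD i 0 = f i := by
      rw [List.getD_eq_getElem _ _ (by simpa using hi')]
      simp
    rw [this]
    simp [hi']
  · rintro h s v ⟨h3, h4, h5⟩
    refine le_trans (le_of_eq ?_) h
    refine Finset.sum_congr rfl fun i hi => ?_
    have hi' : i < n := Finset.mem_range.mp hi
    have : v.getD i 0 = f i := by
      rw [h4, List.getD_eq_getElem _ _ (by simpa [h5] using hi')]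
      simp
    rw [this]
    simp only [h3 i hi']

theorem classical_everything : classical.everything = fun i => i ∈ (Set.univ : Set ℕ) := by
  funext i
  exact propext ⟨fun _ => trivial, fun _ => trivial⟩

/-! ### Representation -/

section rep

variable {Ω : Type} [MeasurableSpace Ω] {I : CI Ω}

theorem Rep.initSeg {Y : Type} [Inhabited Y] {R : ℕ → Y → Set (Cond I)}
    {S : Ω → ℕ → Y → Prop} (h : ∀ n y, Rep ((forcing (Cond I)).lit (R n y)) (fun ω => S ω n y))
    (v : List Y) :
    Rep ((forcing (Cond I)).initSeg R v) (fun ω => classical.initSeg (S ω) v) := by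
  refine Rep.congr (Rep.all fun i => Rep.imp (rep_grd _) (h i _)) fun ω => ?_
  unfold TV.initSeg
  simp only [classical_all, classical_imp, classical_grd, classical_lit]

theorem Rep.trace {X : ℕ → Set (Cond I)} {S : Ω → ℕ → Prop}
    (h : ∀ n, Rep ((forcing (Cond I)).lit (X n)) (fun ω => S ω n)) (n : ℕ) (s : Finset ℕ) :
    Rep ((forcing (Cond I)).trace X n s) (fun ω => classical.trace (S ω) n s) := by
  refine Rep.congr (Rep.all fun i => Rep.imp (rep_grd _)
    (Rep.conj (Rep.imp (h i) (rep_grd _)) (Rep.imp (rep_grd _) (h i)))) fun ω => ?_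
  unfold TV.trace
  simp only [classical_all, classical_imp, classical_grd, classical_lit, classical_iff]
  refine forall_congr' fun i => imp_congr_right fun _ => ?_
  tauto

theorem Rep.conv {X : ℕ → Set (Cond I)} {S : Ω → ℕ → Prop} {a : ℕ → ℚ → Set (Cond I)}
    {A : Ω → ℕ → ℚ → Prop}
    (h : ∀ n, Rep ((forcing (Cond I)).lit (X n)) (fun ω => S ω n))
    (ha : ∀ n q, Rep ((forcing (Cond I)).lit (a n q)) (fun ω => A ω n q)) :
    Rep ((forcing (Cond I)).conv X a) (fun ω => classical.conv (S ω) (A ω)) := by
  refine Rep.congr (Rep.all fun m => Rep.ex fun N => Rep.all fun n => Rep.all fun n' =>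
    Rep.imp (rep_grd _) (Rep.all fun s => Rep.all fun v => Rep.imp
      (Rep.conj (Rep.trace h n' s) (Rep.conj (Rep.initSeg ha v) (rep_grd _))) (rep_grd _)))
    fun ω => ?_
  unfold TV.conv
  simp only [classical_all, classical_imp, classical_ex, classical_grd, classical_conj]

theorem Rep.absConv {X : ℕ → Set (Cond I)} {S : Ω → ℕ → Prop} {a : ℕ → ℚ → Set (Cond I)}
    {A : Ω → ℕ → ℚ → Prop}
    (h : ∀ n, Rep ((forcing (Cond I)).lit (X n)) (fun ω => S ω n))
    (ha : ∀ n q, Rep ((forcing (Cond I)).lit (a n q)) (fun ω => A ω n q)) :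
    Rep ((forcing (Cond I)).absConv X a) (fun ω => classical.absConv (S ω) (A ω)) := by
  refine Rep.congr (Rep.ex fun M => Rep.all fun n => Rep.all fun s => Rep.all fun v => Rep.imp
      (Rep.conj (Rep.trace h n s) (Rep.conj (Rep.initSeg ha v) (rep_grd _))) (rep_grd _))
    fun ω => ?_
  unfold TV.absConv
  simp only [classical_all, classical_imp, classical_ex, classical_grd, classical_conj]

theorem Rep.condConv {X : ℕ → Set (Cond I)} {S : Ω → ℕ → Prop} {a : ℕ → ℚ → Set (Cond I)}
    {A : Ω → ℕ → ℚ → Prop}
    (h : ∀ n, Rep ((forcing (Cond I)).lit (X n)) (fun ω => S ω n))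
    (ha : ∀ n q, Rep ((forcing (Cond I)).lit (a n q)) (fun ω => A ω n q)) :
    Rep ((forcing (Cond I)).condConv X a) (fun ω => classical.condConv (S ω) (A ω)) :=
  (Rep.conv h ha).conj (Rep.absConv h ha).neg

theorem Rep.inf {X : ℕ → Set (Cond I)} {S : Ω → ℕ → Prop}
    (h : ∀ n, Rep ((forcing (Cond I)).lit (X n)) (fun ω => S ω n)) :
    Rep ((forcing (Cond I)).inf X) (fun ω => classical.inf (S ω)) := by
  refine Rep.congr (Rep.all fun n => Rep.ex fun m => Rep.conj (rep_grd _) (h m)) fun ω => ?_
  unfold TV.inf
  simp only [classical_all, classical_ex, classical_grd, classical_lit, classical_conj]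

theorem Rep.coinf {X : ℕ → Set (Cond I)} {S : Ω → ℕ → Prop}
    (h : ∀ n, Rep ((forcing (Cond I)).lit (X n)) (fun ω => S ω n)) :
    Rep ((forcing (Cond I)).coinf X) (fun ω => classical.coinf (S ω)) := by
  refine Rep.congr (Rep.all fun n => Rep.ex fun m => Rep.conj (rep_grd _) (h m).neg) fun ω => ?_
  unfold TV.coinf
  simp only [classical_all, classical_ex, classical_grd, classical_lit, classical_conj,
    classical_neg]

theorem rep_everything (n : ℕ) :
    Rep ((forcing (Cond I)).lit ((forcing (Cond I)).everything n))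
      (fun _ => classical.everything n) := by
  refine Rep.congr (rep_lit_of (S := fun _ => True) (by simp) fun p => ?_) fun ω => ?_
  · constructor
    · intro _ x _; trivial
    · intro _; trivial
  · exact Iff.rfl

end rep

end Q208.F
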