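import Pool.Agent.Q208.F.SubSeries
import Pool.Agent.Q208.F.SubSent

/-!
# Divergence of the subseries, and the forcing argument
-/

open Cardinal Set MeasureTheory Filter Topology
open scoped ENNReal

namespace Q208.F

theorem pow_le_half (n : ℕ) : (1 - (2⁻¹ : ℝ≥0∞) ^ n) ^ (2 ^ n) ≤ 2⁻¹ := by
  have h1 : (1 - (2⁻¹ : ℝ≥0∞) ^ n) = ENNReal.ofReal (1 - 1 / ((2 ^ n : ℕ) : ℝ)) := by
    rw [ENNReal.ofReal_sub _ (by positivity), ENNReal.ofReal_one]
    congr 1
    rw [one_div, ENNReal.ofReal_inv_of_pos (by positivity), ENNReal.ofReal_natCast]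
    push_cast
    rw [ENNReal.inv_pow]
  have h2 : (0 : ℝ) ≤ 1 - 1 / ((2 ^ n : ℕ) : ℝ) := by
    have : (1 : ℝ) ≤ ((2 ^ n : ℕ) : ℝ) := by exact_mod_cast Nat.one_le_two_pow
    have h3 : 1 / ((2 ^ n : ℕ) : ℝ) ≤ 1 := by
      rw [div_le_one (by positivity)]; exact this
    linarith
  rw [h1, ← ENNReal.ofReal_pow h2]
  have h3 : (1 - 1 / ((2 ^ n : ℕ) : ℝ)) ^ (2 ^ n) ≤ Real.exp (-1) := by
    apply Real.one_sub_div_pow_le_exp_neg
    exact_mod_cast Nat.one_le_two_pow
  have h4 : Real.exp (-1) ≤ 2⁻¹ := by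
    rw [Real.exp_neg]
    apply inv_anti₀ (by norm_num)
    have := Real.add_one_le_exp (1 : ℝ)
    linarith
  refine (ENNReal.ofReal_le_ofReal (h3.trans h4)).trans ?_
  rw [ENNReal.ofReal_inv_of_pos (by norm_num)]
  simp

/-- the number of intervals which are needed -/
def Mn (n : ℕ) : ℕ := (n + 1) * (4 ^ (n + 1) * (n + 1))

/-- `X` has many intervals in infinitely many gaps of `c` -/
def Good (c : ℕ → Bool) (X : Set ℕ) : Prop :=
  {n | c n = true}.Infinite ∧ ∀ N, ∃ n ≥ N, ∃ n', (∀ i, n ≤ i → i < n' → c i = false) ∧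
    Win X n n' (Mn n)

open Classical in
/-- in a window with many intervals, the probability that no group is hit is small -/
theorem window {c : ℕ → Bool} {X : Set ℕ} {n n' : ℕ} (hc : ∀ i, n ≤ i → i < n' → c i = false)
    (hW : Win X n n' (Mn n)) :
    nu ℕ {r | ∀ a b, n ≤ a → a ≤ b →
      (∑ i ∈ Finset.Ico a b, if i ∈ X then ser c r i else 0) ≠ 1} ≤ (2⁻¹ : ℝ≥0∞) ^ lvl c n := by
  obtain ⟨p, e, h1, h2, h3⟩ := hW.nat
  set m := lvl c n with hm
  have hmn : m ≤ n := lvl_le c n
  set Kg := m + 1 with hKg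
  set G := 4 ^ (m + 1) * m with hG
  set M := Mn n with hM
  have hKG : Kg * G ≤ M := by
    rw [hKg, hG, hM, Mn]
    have : (4 : ℕ) ^ (m + 1) ≤ 4 ^ (n + 1) := Nat.pow_le_pow_right (by norm_num) (by omega)
    have h5 : m ≤ n + 1 := by omega
    have h6 : m + 1 ≤ n + 1 := by omega
    exact Nat.mul_le_mul h6 (Nat.mul_le_mul this h5)
  -- the endpoints in one sequence
  let u : ℕ → ℕ := fun j => if j % 2 = 0 then p (j / 2) else e (j / 2)
  have hu0 : ∀ i, u (2 * i) = p i := fun i => by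
    simp only [u]
    rw [if_pos (by omega), Nat.mul_div_cancel_left _ (by norm_num)]
  have hu1 : ∀ i, u (2 * i + 1) = e i := fun i => by
    simp only [u]
    rw [if_neg (by omega), show (2 * i + 1) / 2 = i by omega]
  have hstep : ∀ j, j + 1 < 2 * M → u j < u (j + 1) := by
    intro j hj
    rcases Nat.even_or_odd' j with ⟨i, rfl | rfl⟩
    · rw [hu0, hu1]; exact (h1 i (by omega)).2.1
    · rw [hu1, show 2 * i + 1 + 1 = 2 * (i + 1) by ring, hu0]
      exact (h2 i (by omega)).1
  have hmono : ∀ a b, a < b → b < 2 * M → u a < u b := by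
    intro a b hab hb
    induction b, hab using Nat.le_induction with
    | base => exact hstep a hb
    | succ b hab ih => exact (ih (by omega)).trans (hstep b hb)
  have hinj : ∀ a b, a < 2 * M → b < 2 * M → u a = u b → a = b := by
    intro a b ha hb hab
    rcases lt_trichotomy a b with h | h | h
    · have := hmono a b h hb; omega
    · exact h
    · have := hmono b a h ha; omega
  -- groups
  let T : ℕ → Finset ℕ := fun g => (Finset.Ico (2 * (g * Kg)) (2 * (g * Kg) + 2 * Kg)).image u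
  have hgK : ∀ g < G, 2 * (g * Kg) + 2 * Kg ≤ 2 * M := by
    intro g hg
    have : g * Kg + Kg ≤ M := by
      calc g * Kg + Kg = (g + 1) * Kg := by ring
        _ ≤ G * Kg := Nat.mul_le_mul_right _ hg
        _ = Kg * G := by ring
        _ ≤ M := hKG
    omega
  let t : ℕ → Bool := fun x => decide (∃ i < M, p i = x)
  have ht0 : ∀ i < M, t (p i) = true := fun i hi => by
    simp only [t, decide_eq_true_eq]; exact ⟨i, hi, rfl⟩
  have ht1 : ∀ i < M, t (e i) = false := fun i hi => by
    simp only [t, decide_eq_false_iff_not]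
    rintro ⟨j, hj, hj'⟩
    rw [← hu0, ← hu1] at hj'
    have := hinj _ _ (by omega) (by omega) hj'
    omega
  have hcard : ∀ g < G, (T g).card = 2 * Kg := by
    intro g hg
    rw [Finset.card_image_of_injOn]
    · simp
    · intro a ha b hb hab
      rw [Finset.coe_Ico, Set.mem_Ico] at ha hb
      have := hgK g hg
      exact hinj a b (by omega) (by omega) hab
  have hdisj : ∀ g < G, ∀ g' < G, g ≠ g' → Disjoint (T g) (T g') := by
    intro g hg g' hg' hne
    rw [Finset.disjoint_left]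
    intro x hx hx'
    obtain ⟨a, ha, rfl⟩ := Finset.mem_image.mp hx
    obtain ⟨b, hb, hab⟩ := Finset.mem_image.mp hx'
    rw [Finset.mem_Ico] at ha hb
    have h4 := hgK g hg
    have h5 := hgK g' hg'
    have h6 := hinj b a (by omega) (by omega) hab
    subst h6
    rcases lt_or_gt_of_ne hne with h | h
    · have : (g + 1) * Kg ≤ g' * Kg := Nat.mul_le_mul_right _ h
      have h7 : (g + 1) * Kg = g * Kg + Kg := by ring
      omega
    · have : (g' + 1) * Kg ≤ g * Kg := Nat.mul_le_mul_right _ h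
      have h7 : (g' + 1) * Kg = g' * Kg + Kg := by ring
      omega
  have hmiss := miss_le (2 * Kg) t T G hcard hdisj
  refine le_trans (measure_mono ?_) (hmiss.trans ?_)
  · intro r hr g hg hcyl
    -- the sum over the group is one
    have h4 : g * Kg + m < M := by
      have := hgK g hg
      omega
    have h5 := sum_group (X := X) (fun i hi => (h1 i hi).2.1) h2 h3 c r (g * Kg) m h4
    have hlvl : ∀ x, n ≤ x → x ≤ n' → lvl c x = m := fun x hx hx' =>
      lvl_eq hx fun i hi hi' => hc i hi (by omega)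
    have h6 : ∀ i ∈ Finset.range (m + 1),
        bt c r (p (g * Kg + i)) - bt c r (e (g * Kg + i)) = 1 / ((m : ℚ) + 1) := by
      intro i hi
      rw [Finset.mem_range] at hi
      have hlt : g * Kg + i < M := by omega
      have h7 := h1 _ hlt
      have h8 : r (p (g * Kg + i)) = true := by
        rw [← ht0 _ hlt]
        refine hcyl _ (Finset.mem_image.mpr ⟨2 * (g * Kg + i), ?_, hu0 _⟩)
        rw [Finset.mem_Ico]
        omega
      have h9 : r (e (g * Kg + i)) = false := by
        rw [← ht1 _ hlt]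
        refine hcyl _ (Finset.mem_image.mpr ⟨2 * (g * Kg + i) + 1, ?_, hu1 _⟩)
        rw [Finset.mem_Ico]
        omega
      unfold bt
      rw [h8, h9, hlvl _ h7.1 (h7.2.1.le.trans h7.2.2)]
      simp
    rw [Finset.sum_congr rfl h6, Finset.sum_const, Finset.card_range, nsmul_eq_mul] at h5
    have h7 : ((m + 1 : ℕ) : ℚ) * (1 / ((m : ℚ) + 1)) = 1 := by
      push_cast
      have : (m : ℚ) + 1 ≠ 0 := by positivity
      field_simp
    rw [h7] at h5
    exact hr _ _ (h1 (g * Kg) (by omega)).1 h5.1.le h5.2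
  · rw [hG]
    calc (1 - (2⁻¹ : ℝ≥0∞) ^ (2 * Kg)) ^ (4 ^ (m + 1) * m)
        = ((1 - (2⁻¹ : ℝ≥0∞) ^ (2 * Kg)) ^ (2 ^ (2 * Kg))) ^ m := by
          rw [← pow_mul]
          congr 2
          rw [pow_mul]
          norm_num [hKg]
      _ ≤ (2⁻¹ : ℝ≥0∞) ^ m := by gcongr; exact pow_le_half _

open Classical in
/-- if `X` is good for `c` then for almost all `r` the subseries along `X` diverges -/
theorem diverge {c : ℕ → Bool} {X : Set ℕ} (h : Good c X) :
    ∀ᵐ r ∂(nu ℕ), ¬ ∀ m : ℕ, ∃ N : ℕ, ∀ n n', N ≤ n → n ≤ n' →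
      |∑ i ∈ Finset.Ico n n', if i ∈ X then ser c r i else 0| ≤ 1 / ((m : ℚ) + 1) := by
  have h1 : ∀ N : ℕ, nu ℕ {r | ∀ a b, N ≤ a → a ≤ b →
      (∑ i ∈ Finset.Ico a b, if i ∈ X then ser c r i else 0) ≠ 1} = 0 := by
    intro N
    have h2 : ∀ m : ℕ, nu ℕ {r | ∀ a b, N ≤ a → a ≤ b →
        (∑ i ∈ Finset.Ico a b, if i ∈ X then ser c r i else 0) ≠ 1} ≤ (2⁻¹ : ℝ≥0∞) ^ m := by
      intro m
      obtain ⟨N', hN'⟩ := ((lvl_tendsto h.1).eventually (eventually_ge_atTop m)).exists_forall_of_atTop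
      obtain ⟨n, hn, n', hc, hW⟩ := h.2 (max N N')
      refine le_trans (measure_mono ?_) ((window hc hW).trans ?_)
      · intro r hr a b ha hab
        exact hr a b ((le_max_left N N').trans (hn.trans ha)) hab
      · have : m ≤ lvl c n := hN' n ((le_max_right N N').trans hn)
        exact pow_le_pow_right_of_le_one' (by simp) this
    have h3 : Tendsto (fun m : ℕ => (2⁻¹ : ℝ≥0∞) ^ m) atTop (𝓝 0) :=
      ENNReal.tendsto_pow_atTop_nhds_zero_of_lt_one (by simp)
    exact le_antisymm (ge_of_tendsto' h3 h2) zero_le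
  have h2 : ∀ᵐ r ∂(nu ℕ), ∀ N : ℕ, ¬ ∀ a b, N ≤ a → a ≤ b →
      (∑ i ∈ Finset.Ico a b, if i ∈ X then ser c r i else 0) ≠ 1 := by
    rw [ae_all_iff]
    intro N
    rw [ae_iff]
    simp only [not_not]
    exact h1 N
  filter_upwards [h2] with r hr hcau
  obtain ⟨N, hN⟩ := hcau 1
  have := hr N
  push Not at this
  obtain ⟨a, b, ha, hab, hsum⟩ := this
  have h3 := hN a b ha hab
  rw [hsum] at h3
  norm_num at h3

theorem win_congr {X X' : Set ℕ} {n n' M : ℕ} (h : ∀ t < n', (t ∈ X ↔ t ∈ X'))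
    (hW : Win X n n' M) : Win X' n n' M := by
  obtain ⟨p, e, h1, h2, h3⟩ := hW
  refine ⟨p, e, h1, fun i j hij => ⟨(h2 i j hij).1, fun t ht ht' hX => ?_⟩,
    fun i t ht ht' => ?_⟩
  · have h4 := h1 j
    exact (h2 i j hij).2 t ht ht' ((h t (by omega)).2 hX)
  · have h4 := h1 i
    exact (h t (by omega)).1 (h3 i t ht ht')

theorem win_mono {X : Set ℕ} {n n' n'' M : ℕ} (h : n' ≤ n'') (hW : Win X n n' M) :
    Win X n n'' M := by
  obtain ⟨p, e, h1, h2, h3⟩ := hW
  exact ⟨p, e, fun i => ⟨(h1 i).1, (h1 i).2.1, (h1 i).2.2.trans h⟩, h2, h3⟩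

section

variable {Y : Type} [MeasurableSpace Y]

theorem measurable_win {X : Y → Set ℕ} (hX : ∀ t, MeasurableSet {y | t ∈ X y}) (n n' M : ℕ) :
    MeasurableSet {y | Win (X y) n n' M} := by
  classical
  have h1 : {y | Win (X y) n n' M} =
      ⋃ s : Finset ℕ, {y | Win (s : Set ℕ) n n' M ∧ ∀ t < n', (t ∈ X y ↔ t ∈ s)} := by
    ext y
    simp only [mem_ofPred_eq, mem_iUnion]
    constructor
    · intro h
      refine ⟨(Finset.range n').filter fun t => t ∈ X y, ?_, ?_⟩
      · refine win_congr ?_ h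
        intro t ht
        simp [ht]
      · intro t ht
        simp [ht]
    · rintro ⟨s, h2, h3⟩
      exact win_congr (fun t ht => (h3 t ht).symm) h2
  rw [h1]
  refine MeasurableSet.iUnion fun s => ?_
  refine (MeasurableSet.const _).inter ?_
  have h2 : {y | ∀ t < n', (t ∈ X y ↔ t ∈ s)} = ⋂ t ∈ Finset.range n', {y | t ∈ X y ↔ t ∈ s} := by
    ext y; simp
  have h3 : MeasurableSet {y | ∀ t < n', (t ∈ X y ↔ t ∈ s)} := by
    rw [h2]
    refine Finset.measurableSet_biInter _ fun t _ => ?_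
    by_cases h : t ∈ s
    · have : {y | t ∈ X y ↔ t ∈ s} = {y | t ∈ X y} := by ext y; simp [h]
      rw [this]; exact hX t
    · have : {y | t ∈ X y ↔ t ∈ s} = {y | t ∈ X y}ᶜ := by ext y; simp [h]
      rw [this]; exact (hX t).compl
  exact h3

theorem measurable_inf {X : Y → Set ℕ} (hX : ∀ t, MeasurableSet {y | t ∈ X y}) :
    MeasurableSet {y | (X y).Infinite} := by
  have : {y | (X y).Infinite} = ⋂ a : ℕ, ⋃ b : ℕ, {y | b ∈ X y ∧ a < b} := by
    ext y
    simp only [mem_ofPred_eq, mem_iInter, mem_iUnion]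
    rw [Set.infinite_iff_exists_gt]
  rw [this]
  exact MeasurableSet.iInter fun a => MeasurableSet.iUnion fun b =>
    (hX b).inter (MeasurableSet.const _)

/-- for comeager many `c`, almost all infinite coinfinite sets `X y` are good for `c` -/
theorem cohen_good (μ : Measure Y) [IsProbabilityMeasure μ] {X : Y → Set ℕ}
    (hX : ∀ t, MeasurableSet {y | t ∈ X y}) :
    {c : ℕ → Bool | ∀ᵐ y ∂μ, (X y).Infinite → (X y)ᶜ.Infinite → Good c (X y)} ∈
      residual (ℕ → Bool) := by
  -- the bad sets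
  let V : ℕ → ℕ → Set Y := fun n n' =>
    {y | ((X y).Infinite ∧ (X y)ᶜ.Infinite) ∧ ¬ Win (X y) n n' (Mn n)}
  have hXc : ∀ t, MeasurableSet {y | t ∈ (X y)ᶜ} := fun t => (hX t).compl
  have hV : ∀ n n', MeasurableSet (V n n') := fun n n' =>
    ((measurable_inf hX).inter (measurable_inf hXc)).inter (measurable_win hX _ _ _).compl
  have hVg : ∀ n, ∃ n', μ (V n n') ≤ (2⁻¹ : ℝ≥0∞) ^ n := by
    intro n
    have hanti : Antitone (V n) := by
      intro a b hab y hy
      exact ⟨hy.1, fun h => hy.2 (win_mono hab h)⟩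
    have hempty : ⋂ n', V n n' = ∅ := by
      ext y
      simp only [mem_iInter, mem_empty_iff_false, iff_false]
      intro hy
      obtain ⟨n', hn'⟩ := exists_win (hy 0).1.1 (hy 0).1.2 n (Mn n)
      exact (hy n').2 hn'
    have h3 : Tendsto (fun n' => μ (V n n')) atTop (𝓝 0) := by
      have := tendsto_measure_iInter_atTop (μ := μ) (s := V n)
        (fun n' => (hV n n').nullMeasurableSet) hanti ⟨0, measure_ne_top _ _⟩
      rwa [hempty, measure_empty] at this
    have hpos : (0 : ℝ≥0∞) < (2⁻¹ : ℝ≥0∞) ^ n := ENNReal.pow_pos (by simp) n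
    obtain ⟨n', hn'⟩ := (h3.eventually (gt_mem_nhds hpos)).exists
    exact ⟨n', hn'.le⟩
  choose g hg using hVg
  -- two comeager sets
  have hC1 : {c : ℕ → Bool | {n | c n = true}.Infinite} ∈ residual (ℕ → Bool) := by
    have : {c : ℕ → Bool | {n | c n = true}.Infinite} =
        ⋂ a : ℕ, {c | ∃ b, a < b ∧ c b = true} := by
      ext c
      simp only [mem_ofPred_eq, mem_iInter]
      rw [Set.infinite_iff_exists_gt]
      exact forall_congr' fun a => exists_congr fun b => and_comm
    rw [this]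
    refine countable_iInter_mem.mpr fun a => residual_of_dense_open ?_ ?_
    · have : {c : ℕ → Bool | ∃ b, a < b ∧ c b = true} =
          ⋃ b : ℕ, ⋃ _ : a < b, {c | c b = true} := by ext; simp
      rw [this]
      exact isOpen_iUnion fun b => isOpen_iUnion fun _ =>
        (isOpen_discrete ({true} : Set Bool)).preimage (continuous_apply (A := fun _ => Bool) b)
    · rw [dense_iff_inter_open]
      intro U hU ⟨c, hc⟩
      obtain ⟨F, hF⟩ := exists_cyl hU hc
      obtain ⟨N, hN⟩ := F.bddAbove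
      refine ⟨Function.update c (max a N + 1) true, hF fun i hi => ?_, max a N + 1, by omega,
        by simp⟩
      have : i ≤ N := hN hi
      rw [Function.update_of_ne (by omega)]
  have hC2 : {c : ℕ → Bool | ∀ N, ∃ n ≥ N, ∀ i, n ≤ i → i < g n → c i = false} ∈
      residual (ℕ → Bool) := by
    have : {c : ℕ → Bool | ∀ N, ∃ n ≥ N, ∀ i, n ≤ i → i < g n → c i = false} =
        ⋂ N : ℕ, {c | ∃ n ≥ N, ∀ i, n ≤ i → i < g n → c i = false} := by ext; simp
    rw [this]
    refine countable_iInter_mem.mpr fun N => residual_of_dense_open ?_ ?_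
    · have : {c : ℕ → Bool | ∃ n ≥ N, ∀ i, n ≤ i → i < g n → c i = false} =
          ⋃ n : ℕ, ⋃ _ : n ≥ N, ⋂ i ∈ Finset.Ico n (g n), {c | c i = false} := by
        ext c; simp
      rw [this]
      exact isOpen_iUnion fun n => isOpen_iUnion fun _ => isOpen_biInter_finset fun i _ =>
        (isOpen_discrete ({false} : Set Bool)).preimage (continuous_apply (A := fun _ => Bool) i)
    · rw [dense_iff_inter_open]
      intro U hU ⟨c, hc⟩
      obtain ⟨F, hF⟩ := exists_cyl hU hc
      obtain ⟨N', hN'⟩ := F.bddAbove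
      refine ⟨fun i => if N' < i then false else c i, hF fun i hi => ?_, max N (N' + 1),
        le_max_left _ _, fun i hi _ => ?_⟩
      · have : i ≤ N' := hN' hi
        rw [if_neg (by omega)]
      · have : N' + 1 ≤ max N (N' + 1) := le_max_right _ _
        beta_reduce
        rw [if_pos (by omega)]
  filter_upwards [hC1, hC2] with c hc1 hc2
  have hbc : μ {y | ∃ᶠ n in atTop, y ∈ V n (g n)} = 0 := by
    apply measure_setOfPred_frequently_eq_zero
    refine ne_top_of_le_ne_top ?_ (ENNReal.tsum_le_tsum hg)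
    rw [ENNReal.tsum_geometric, ENNReal.one_sub_inv_two, inv_inv]
    exact ENNReal.ofNat_ne_top
  have hbc' : ∀ᵐ y ∂μ, ¬ ∃ᶠ n in atTop, y ∈ V n (g n) := by
    rw [ae_iff]
    simp only [not_not]
    exact hbc
  filter_upwards [hbc'] with y hy h1 h2
  refine ⟨hc1, fun N => ?_⟩
  rw [not_frequently, eventually_atTop] at hy
  obtain ⟨N', hN'⟩ := hy
  obtain ⟨n, hn, hn'⟩ := hc2 (max N N')
  refine ⟨n, (le_max_left _ _).trans hn, g n, hn', ?_⟩
  by_contra hW
  exact hN' n ((le_max_right _ _).trans hn) ⟨⟨h1, h2⟩, hW⟩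

end

theorem measurable_bt {Ω : Type} [MeasurableSpace Ω] {c r : Ω → ℕ → Bool}
    (hc : ∀ n, Measurable fun ω => c ω n) (hr : ∀ n, Measurable fun ω => r ω n) (n : ℕ) :
    Measurable fun ω => bt (c ω) (r ω) n := by
  have h1 : Measurable fun ω => lvl (c ω) n := by
    have : (fun ω => lvl (c ω) n) =
        fun ω => ∑ i ∈ Finset.range n, if c ω i = true then 1 else 0 := by
      funext ω
      rw [lvl, Finset.card_filter]
    rw [this]
    exact Finset.measurable_sum _ fun i _ =>
      Measurable.ite ((hc i) (measurableSet_singleton true)) measurable_const measurable_const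
  have h2 : Measurable fun ω => (1 / ((lvl (c ω) n : ℚ) + 1) : ℚ) :=
    (measurable_from_top (f := fun k : ℕ => (1 / ((k : ℚ) + 1) : ℚ))).comp h1
  unfold bt
  exact Measurable.ite ((hr n) (measurableSet_singleton true)) h2 measurable_const

theorem measurable_ser {Ω : Type} [MeasurableSpace Ω] {c r : Ω → ℕ → Bool}
    (hc : ∀ n, Measurable fun ω => c ω n) (hr : ∀ n, Measurable fun ω => r ω n) (n : ℕ) :
    Measurable fun ω => ser (c ω) (r ω) n :=
  (measurable_bt hc hr n).sub (measurable_bt hc hr (n + 1))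

end Q208.F
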