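import Pool.Agent.Q208.F.Coord

/-!
# A series built from a Cohen real and a random real

`ser c r` is the telescoping series with partial sums `b 0 - b n`, where `b n` is `r n` divided by
one plus the number of the ones of `c` below `n`. We show that if a set `X` has many switches in
infinitely many gaps of `c` then for almost all `r` the subseries along `X` diverges.
-/

open Cardinal Set MeasureTheory Filter Topology
open scoped ENNReal

namespace Q208.F

/-- the number of ones of `c` below `n` -/
def lvl (c : ℕ → Bool) (n : ℕ) : ℕ := ((Finset.range n).filter fun i => c i = true).card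

/-- the terms whose differences are the series -/
def bt (c r : ℕ → Bool) (n : ℕ) : ℚ := if r n = true then 1 / ((lvl c n : ℚ) + 1) else 0

/-- the series -/
def ser (c r : ℕ → Bool) (n : ℕ) : ℚ := bt c r n - bt c r (n + 1)

theorem lvl_mono (c : ℕ → Bool) : Monotone (lvl c) := by
  intro m n h
  exact Finset.card_le_card (Finset.filter_subset_filter _ (Finset.range_mono h))

theorem lvl_le (c : ℕ → Bool) (n : ℕ) : lvl c n ≤ n :=
  (Finset.card_filter_le _ _).trans (by simp)

theorem lvl_eq {c : ℕ → Bool} {n n' : ℕ} (h : n ≤ n') (hc : ∀ i, n ≤ i → i < n' → c i = false) :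
    lvl c n' = lvl c n := by
  unfold lvl
  congr 1
  ext i
  simp only [Finset.mem_filter, Finset.mem_range]
  constructor
  · rintro ⟨h1, h2⟩
    refine ⟨?_, h2⟩
    by_contra hlt
    rw [hc i (not_lt.mp hlt) h1] at h2
    exact absurd h2 (by simp)
  · rintro ⟨h1, h2⟩
    exact ⟨h1.trans_le h, h2⟩

theorem lvl_tendsto {c : ℕ → Bool} (hc : {n | c n = true}.Infinite) :
    Tendsto (lvl c) atTop atTop := by
  refine tendsto_atTop_atTop.mpr fun b => ?_
  obtain ⟨t, ht, hcard⟩ := hc.exists_subset_card_eq b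
  obtain ⟨N, hN⟩ := t.bddAbove
  refine ⟨N + 1, fun n hn => ?_⟩
  rw [← hcard]
  refine Finset.card_le_card fun m hm => ?_
  rw [Finset.mem_filter, Finset.mem_range]
  exact ⟨lt_of_lt_of_le (Nat.lt_succ_of_le (hN hm)) hn, ht hm⟩

theorem bt_nonneg (c r : ℕ → Bool) (n : ℕ) : 0 ≤ bt c r n := by
  unfold bt
  split_ifs
  · positivity
  · exact le_rfl

theorem bt_le (c r : ℕ → Bool) (n : ℕ) : bt c r n ≤ 1 / ((lvl c n : ℚ) + 1) := by
  unfold bt
  split_ifs
  · exact le_rfl
  · positivity

theorem sum_ser (c r : ℕ → Bool) {n n' : ℕ} (h : n ≤ n') :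
    ∑ i ∈ Finset.Ico n n', ser c r i = bt c r n - bt c r n' := by
  induction n', h using Nat.le_induction with
  | base => simp
  | succ m hm ih =>
    rw [Finset.sum_Ico_succ_top hm, ih, ser]
    ring

/-- the series converges -/
theorem ser_conv {c : ℕ → Bool} (hc : {n | c n = true}.Infinite) (r : ℕ → Bool) (m : ℕ) :
    ∃ N : ℕ, ∀ n n', N ≤ n → n ≤ n' →
      |∑ i ∈ Finset.Ico n n', ser c r i| ≤ 1 / ((m : ℚ) + 1) := by
  obtain ⟨N, hN⟩ := (lvl_tendsto hc).eventually (eventually_ge_atTop m) |>.exists_forall_of_atTop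
  refine ⟨N, fun n n' h1 h2 => ?_⟩
  rw [sum_ser c r h2]
  have h3 : ∀ k ≥ N, bt c r k ≤ 1 / ((m : ℚ) + 1) := by
    intro k hk
    refine (bt_le c r k).trans ?_
    have : (m : ℚ) ≤ lvl c k := by exact_mod_cast hN k hk
    gcongr
  rw [abs_le]
  have h4 := bt_nonneg c r n
  have h5 := bt_nonneg c r n'
  have h6 := h3 n h1
  have h7 := h3 n' (h1.trans h2)
  constructor <;> linarith

/-- `M` consecutive maximal intervals `[p i, e i)` of `X` between `n` and `n'` -/
def Win (X : Set ℕ) (n n' M : ℕ) : Prop :=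
  ∃ p e : Fin M → ℕ, (∀ i, n ≤ p i ∧ p i < e i ∧ e i ≤ n') ∧
    (∀ i j : Fin M, i.1 + 1 = j.1 → e i < p j ∧ ∀ t, e i ≤ t → t < p j → t ∉ X) ∧
    ∀ i, ∀ t, p i ≤ t → t < e i → t ∈ X

/-- an infinite coinfinite set has arbitrarily many consecutive maximal intervals -/
theorem exists_win {X : Set ℕ} (h1 : X.Infinite) (h2 : Xᶜ.Infinite) (n M : ℕ) :
    ∃ n', Win X n n' M := by
  classical
  -- after every number there are an interval of the complement and an interval of `X`
  have hA : ∀ k, ∃ t, k < t ∧ t ∈ X := fun k => by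
    obtain ⟨t, ht, hk⟩ := h1.exists_gt k
    exact ⟨t, hk, ht⟩
  have hB : ∀ k, ∃ t, k < t ∧ t ∉ X := fun k => by
    obtain ⟨t, ht, hk⟩ := h2.exists_gt k
    exact ⟨t, hk, ht⟩
  -- the next start after `k ∉ X`, and the end after `k ∈ X`
  let st : ℕ → ℕ := fun k => Nat.find (hA k)
  let en : ℕ → ℕ := fun k => Nat.find (hB k)
  have hst : ∀ k, k < st k ∧ st k ∈ X := fun k => Nat.find_spec (hA k)
  have hen : ∀ k, k < en k ∧ en k ∉ X := fun k => Nat.find_spec (hB k)
  have hst' : ∀ k t, k < t → t < st k → t ∉ X := fun k t h3 h4 h5 =>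
    Nat.find_min (hA k) h4 ⟨h3, h5⟩
  have hen' : ∀ k t, k < t → t < en k → t ∈ X := fun k t h3 h4 => by
    by_contra h5
    exact Nat.find_min (hB k) h4 ⟨h3, h5⟩
  let e : ℕ → ℕ := fun i => Nat.rec (en n) (fun _ k => en (st k)) i
  have he : ∀ i, e (i + 1) = en (st (e i)) := fun i => rfl
  have heX : ∀ i, e i ∉ X := by
    intro i
    cases i with
    | zero => exact (hen n).2
    | succ i => exact (hen _).2
  have hemono : ∀ i, e i < e (i + 1) := fun i => by
    rw [he]; exact (hst _).1.trans (hen _).1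
  have hestrict : StrictMono e := strictMono_nat_of_lt_succ hemono
  refine ⟨e M, fun i => st (e i), fun i => e (i + 1), fun i => ⟨?_, ?_, ?_⟩, ?_, ?_⟩
  · have : n < e i := (hen n).1.trans_le (hestrict.monotone (Nat.zero_le i.1))
    exact (this.trans (hst _).1).le
  · beta_reduce; rw [he]; exact (hen _).1
  · exact hestrict.monotone i.2
  · intro i j hij
    beta_reduce
    rw [← hij]
    refine ⟨(hst _).1, fun t h3 h4 h5 => ?_⟩
    rcases h3.eq_or_lt with h6 | h6
    · rw [← h6] at h5; exact heX (i.1 + 1) h5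
    · exact hst' _ t h6 h4 h5
  · intro i t h3 h4
    beta_reduce at h3 h4
    rw [he] at h4
    rcases h3.eq_or_lt with h6 | h6
    · rw [← h6]; exact (hst _).2
    · exact hen' _ t h6 h4

/-- the same with functions defined on all natural numbers -/
theorem Win.nat {X : Set ℕ} {n n' M : ℕ} (h : Win X n n' M) : ∃ p e : ℕ → ℕ,
    (∀ i < M, n ≤ p i ∧ p i < e i ∧ e i ≤ n') ∧
    (∀ i, i + 1 < M → e i < p (i + 1) ∧ ∀ t, e i ≤ t → t < p (i + 1) → t ∉ X) ∧
    ∀ i < M, ∀ t, p i ≤ t → t < e i → t ∈ X := by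
  obtain ⟨p, e, h1, h2, h3⟩ := h
  refine ⟨fun i => if h : i < M then p ⟨i, h⟩ else 0, fun i => if h : i < M then e ⟨i, h⟩ else 0,
    ?_, ?_, ?_⟩
  · intro i hi
    simp only [hi, dif_pos]
    exact h1 _
  · intro i hi
    have hi' : i < M := by omega
    simp only [hi, hi', dif_pos]
    exact h2 ⟨i, hi'⟩ ⟨i + 1, hi⟩ rfl
  · intro i hi
    simp only [hi, dif_pos]
    exact h3 _

/-- the partial sum over a group of `k + 1` consecutive intervals, from the `j`-th one on -/
theorem sum_group {X : Set ℕ} [DecidablePred (· ∈ X)] {M : ℕ} {p e : ℕ → ℕ}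
    (h1 : ∀ i < M, p i < e i)
    (h2 : ∀ i, i + 1 < M → e i < p (i + 1) ∧ ∀ t, e i ≤ t → t < p (i + 1) → t ∉ X)
    (h3 : ∀ i < M, ∀ t, p i ≤ t → t < e i → t ∈ X) (c r : ℕ → Bool) (j k : ℕ) (hjk : j + k < M) :
    p j < e (j + k) ∧
    ∑ i ∈ Finset.Ico (p j) (e (j + k)), (if i ∈ X then ser c r i else 0) =
      ∑ i ∈ Finset.range (k + 1), (bt c r (p (j + i)) - bt c r (e (j + i))) := by
  have hint : ∀ i < M, ∑ t ∈ Finset.Ico (p i) (e i), (if t ∈ X then ser c r t else 0) =
      bt c r (p i) - bt c r (e i) := by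
    intro i hi
    rw [← sum_ser c r (h1 i hi).le]
    refine Finset.sum_congr rfl fun t ht => ?_
    rw [Finset.mem_Ico] at ht
    rw [if_pos (h3 i hi t ht.1 ht.2)]
  induction k with
  | zero =>
    refine ⟨h1 _ hjk, ?_⟩
    rw [zero_add, Finset.sum_range_one]
    exact hint j hjk
  | succ k ih =>
    obtain ⟨h4, h5⟩ := ih (by omega)
    obtain ⟨h6, h7⟩ := h2 (j + k) (by omega)
    have h8 := h1 (j + k + 1) (by omega)
    rw [← add_assoc]
    refine ⟨(h4.trans h6).trans h8, ?_⟩
    rw [Finset.sum_range_succ,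
      ← Finset.sum_Ico_consecutive _ (h4.trans h6).le h8.le,
      ← Finset.sum_Ico_consecutive _ h4.le h6.le, h5]
    have h9 : ∑ i ∈ Finset.Ico (e (j + k)) (p (j + k + 1)),
        (if i ∈ X then ser c r i else 0) = 0 := by
      refine Finset.sum_eq_zero fun i hi => ?_
      rw [Finset.mem_Ico] at hi
      rw [if_neg (h7 i hi.1 hi.2)]
    rw [h9, hint _ (by omega), add_zero]
    rfl

/-! ### The probability that a pattern is missed -/

/-- flipping one coordinate -/
def flip1 (i : ℕ) (r : ℕ → Bool) : ℕ → Bool := Function.update r i (!(r i))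

theorem measurePreserving_flip1 (i : ℕ) : MeasurePreserving (flip1 i) (nu ℕ) (nu ℕ) := by
  have hm : Measurable (flip1 i) := by
    rw [measurable_pi_iff]
    intro j
    by_cases h : j = i
    · subst h
      simp only [flip1, Function.update_self]
      exact (measurable_of_finite Bool.not).comp (measurable_pi_apply j)
    · simp only [flip1, Function.update_of_ne h]
      exact measurable_pi_apply j
  refine ⟨hm, ?_⟩
  refine Measure.eq_infinitePi _ ?_
  intro s t ht
  rw [Measure.map_apply hm (MeasurableSet.pi s.countable_toSet fun i _ => ht i)]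
  have h1 : flip1 i ⁻¹' ((s : Set ℕ).pi t) =
      (s : Set ℕ).pi fun j => if j = i then Bool.not ⁻¹' t j else t j := by
    ext r
    simp only [mem_preimage, Set.mem_pi]
    refine forall_congr' fun j => imp_congr_right fun _ => ?_
    by_cases h : j = i
    · subst h; simp [flip1]
    · simp [flip1, h]
  rw [h1, nu, Measure.infinitePi_pi]
  · refine Finset.prod_congr rfl fun j _ => ?_
    split_ifs with h
    · -- the coin is invariant under the flip
      have h2 : ∀ u : Set Bool, coin (Bool.not ⁻¹' u) = coin u := by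
        intro u
        unfold coin
        simp only [Measure.coe_add, Measure.coe_smul, Pi.add_apply, Pi.smul_apply, smul_eq_mul]
        rw [Measure.dirac_apply, Measure.dirac_apply, Measure.dirac_apply, Measure.dirac_apply]
        have e1 : (Bool.not ⁻¹' u).indicator (1 : Bool → ℝ≥0∞) true = u.indicator 1 false := rfl
        have e2 : (Bool.not ⁻¹' u).indicator (1 : Bool → ℝ≥0∞) false = u.indicator 1 true := rfl
        rw [e1, e2, add_comm]
      exact h2 _
    · rfl
  · intro j _
    split_ifs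
    · exact (measurable_of_finite Bool.not) (ht j)
    · exact ht j

/-- a set which does not depend on the coordinates in `F` is independent of `cyl F t` -/
theorem nu_inter_cyl {S : Set (ℕ → Bool)} (hS : MeasurableSet S) (F : Finset ℕ) (t : ℕ → Bool)
    (hSF : ∀ r r' : ℕ → Bool, (∀ i, i ∉ F → r i = r' i) → (r ∈ S ↔ r' ∈ S)) :
    nu ℕ (S ∩ cyl F t) = (2⁻¹ : ℝ≥0∞) ^ F.card * nu ℕ S := by
  induction F using Finset.induction_on with
  | empty => simp [cyl]
  | insert i F hi ih =>
    have hSF' : ∀ r r' : ℕ → Bool, (∀ j, j ∉ F → r j = r' j) → (r ∈ S ↔ r' ∈ S) := by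
      intro r r' h
      exact hSF r r' fun j hj => h j fun h' => hj (Finset.mem_insert_of_mem h')
    have ih' := ih hSF'
    rw [Finset.card_insert_of_notMem hi, pow_succ, mul_comm ((2⁻¹ : ℝ≥0∞) ^ F.card), mul_assoc,
      ← ih']
    -- the two halves have the same measure
    have hmc : ∀ (G : Finset ℕ) (u : ℕ → Bool), MeasurableSet (cyl G u) := by
      intro G u
      have : cyl G u = ⋂ i ∈ G, {x : ℕ → Bool | x i = u i} := by
        ext x; simp [cyl]
      rw [this]
      exact Finset.measurableSet_biInter _ fun i _ =>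
        measurableSet_eq_fun (measurable_pi_apply i) measurable_const
    let t' : ℕ → Bool := Function.update t i (!(t i))
    have h1 : S ∩ cyl F t = (S ∩ cyl (insert i F) t) ∪ (S ∩ cyl (insert i F) t') := by
      ext r
      simp only [mem_inter_iff, mem_union, cyl, mem_ofPred_eq, Finset.mem_insert,
        forall_eq_or_imp, t', Function.update_self]
      constructor
      · rintro ⟨h1, h2⟩
        by_cases h3 : r i = t i
        · exact Or.inl ⟨h1, h3, h2⟩
        · refine Or.inr ⟨h1, ?_, fun j hj => ?_⟩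
          · cases h4 : r i <;> cases h5 : t i <;> simp_all
          · have : j ≠ i := fun h => hi (h ▸ hj)
            rw [Function.update_of_ne this]; exact h2 j hj
      · rintro (⟨h1, h3, h2⟩ | ⟨h1, h3, h2⟩)
        · exact ⟨h1, h2⟩
        · refine ⟨h1, fun j hj => ?_⟩
          have : j ≠ i := fun h => hi (h ▸ hj)
          have := h2 j hj
          rwa [Function.update_of_ne ‹j ≠ i›] at this
    have h2 : Disjoint (S ∩ cyl (insert i F) t) (S ∩ cyl (insert i F) t') := by
      rw [Set.disjoint_left]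
      rintro r ⟨_, h3⟩ ⟨_, h4⟩
      have h5 := h3 i (Finset.mem_insert_self _ _)
      have h6 := h4 i (Finset.mem_insert_self _ _)
      rw [h5] at h6
      simp [t'] at h6
    have h3 : nu ℕ (S ∩ cyl (insert i F) t') = nu ℕ (S ∩ cyl (insert i F) t) := by
      rw [← (measurePreserving_flip1 i).measure_preimage
        (hS.inter (hmc (insert i F) t)).nullMeasurableSet]
      congr 1
      ext r
      simp only [mem_inter_iff, mem_preimage]
      have h4 : r ∈ S ↔ flip1 i r ∈ S := by
        refine hSF r _ fun j hj => ?_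
        have : j ≠ i := fun h => hj (h ▸ Finset.mem_insert_self _ _)
        simp [flip1, this]
      rw [← h4]
      refine and_congr_right fun _ => ?_
      simp only [cyl, mem_ofPred_eq, Finset.mem_insert, forall_eq_or_imp, t', flip1,
        Function.update_self]
      refine and_congr ?_ (forall_congr' fun j => imp_congr_right fun hj => ?_)
      · cases r i <;> cases t i <;> simp
      · have : j ≠ i := fun h => hi (h ▸ hj)
        rw [Function.update_of_ne this, Function.update_of_ne this]
    have h4 : nu ℕ (S ∩ cyl F t) = 2 * nu ℕ (S ∩ cyl (insert i F) t) := by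
      rw [h1, measure_union h2 (hS.inter (hmc _ _)), h3, two_mul]
    rw [h4, ← mul_assoc, ENNReal.inv_mul_cancel (by simp) (by simp), one_mul]

/-- the probability to miss the pattern `t` on `G` disjoint sets of size `k` -/
theorem miss_le (k : ℕ) (t : ℕ → Bool) (T : ℕ → Finset ℕ) (G : ℕ)
    (hk : ∀ g < G, (T g).card = k)
    (hd : ∀ g < G, ∀ g' < G, g ≠ g' → Disjoint (T g) (T g')) :
    nu ℕ {r | ∀ g < G, r ∉ cyl (T g) t} ≤ (1 - (2⁻¹ : ℝ≥0∞) ^ k) ^ G := by
  have hmc : ∀ (G : Finset ℕ) (u : ℕ → Bool), MeasurableSet (cyl G u) := by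
    intro G u
    have : cyl G u = ⋂ i ∈ G, {x : ℕ → Bool | x i = u i} := by
      ext x; simp [cyl]
    rw [this]
    exact Finset.measurableSet_biInter _ fun i _ =>
      measurableSet_eq_fun (measurable_pi_apply i) measurable_const
  induction G with
  | zero => simp
  | succ G ih =>
    have ih := ih (fun g hg => hk g (by omega)) (fun g hg g' hg' => hd g (by omega) g' (by omega))
    set S : Set (ℕ → Bool) := {r | ∀ g < G, r ∉ cyl (T g) t} with hSdef
    have hS : MeasurableSet S := by
      have : S = ⋂ g ∈ Finset.range G, (cyl (T g) t)ᶜ := by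
        ext r; simp [S]
      rw [this]
      exact Finset.measurableSet_biInter _ fun g _ => (hmc _ _).compl
    have h1 : {r | ∀ g < G + 1, r ∉ cyl (T g) t} = S \ (S ∩ cyl (T G) t) := by
      ext r
      simp only [S, mem_ofPred_eq, Set.mem_sdiff, mem_inter_iff, not_and]
      constructor
      · intro h
        exact ⟨fun g hg => h g (by omega), fun _ => h G (by omega)⟩
      · rintro ⟨h1, h2⟩ g hg
        rcases Nat.lt_succ_iff_lt_or_eq.mp hg with h | h
        · exact h1 g h
        · rw [h]; exact h2 h1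
    have h2 : nu ℕ (S ∩ cyl (T G) t) = (2⁻¹ : ℝ≥0∞) ^ k * nu ℕ S := by
      rw [nu_inter_cyl hS, hk G (by omega)]
      intro r r' hr
      simp only [S, mem_ofPred_eq]
      refine forall_congr' fun g => imp_congr_right fun hg => not_congr ?_
      simp only [cyl, mem_ofPred_eq]
      refine forall_congr' fun i => imp_congr_right fun hi => ?_
      rw [hr i fun h => Finset.disjoint_left.mp (hd g (by omega) G (by omega) (by omega)) hi h]
    rw [h1, measure_sdiff inter_subset_left (hS.inter (hmc _ _)).nullMeasurableSet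
      (measure_ne_top _ _), h2]
    calc nu ℕ S - (2⁻¹ : ℝ≥0∞) ^ k * nu ℕ S = (1 - (2⁻¹ : ℝ≥0∞) ^ k) * nu ℕ S := by
          rw [ENNReal.sub_mul, one_mul]
          intro _ _
          exact measure_ne_top _ _
      _ ≤ (1 - (2⁻¹ : ℝ≥0∞) ^ k) * (1 - (2⁻¹ : ℝ≥0∞) ^ k) ^ G := by gcongr
      _ = (1 - (2⁻¹ : ℝ≥0∞) ^ k) ^ (G + 1) := by rw [pow_succ, mul_comm]

end Q208.F
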