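import Pool.Agent.Q208.F.SubForce

/-!
# Tools for forcing with random reals: supports of names, and free blocks
-/

open Cardinal Set MeasureTheory Filter Topology
open scoped ENNReal

namespace Q208.F

variable {L K W ι : Type}

/-- If, whatever the other coordinates are, `S` implies `T` for almost all values of the random
real `k`, then every condition which forces `Φ` forces `Ψ`. -/
theorem mem_of_random {Φ Ψ : Set (CR L K)} {S T : (L × ℕ → Bool) × (K × ℕ → Bool) → Prop}
    (hΦ : Rep Φ S) (hΨ : Rep Ψ T) (k : K)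
    (h : ∀ a b, ∀ᵐ r ∂(nu ℕ), S (a, repl b k r) → T (a, repl b k r)) {p : CR L K} (hp : p ∈ Φ) :
    p ∈ Ψ := by
  have h1 : (cohenRandom (L × ℕ) (K × ℕ)).null {ω | S ω ∧ ¬ T ω} := by
    refine null_criterion_random (hΦ.meas.inter hΨ.meas.compl) k fun a b => ?_
    filter_upwards [h a b] with r hr hmem
    exact hmem.2 (hr hmem.1)
  rw [hΨ.iff]
  refine CI.mono _ ?_ (CI.union h1 (hΦ.iff.1 hp))
  rintro ω ⟨h2, h3⟩
  by_cases h4 : S ω
  · exact Or.inl ⟨h4, h3⟩
  · exact Or.inr ⟨h2, h4⟩

/-- If `S` implies `T` everywhere, then every condition which forces `Φ` forces `Ψ`. -/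
theorem mem_of_imp {Ω : Type} [MeasurableSpace Ω] {I : CI Ω} {Φ Ψ : Set (Cond I)} {S T : Ω → Prop}
    (hΦ : Rep Φ S) (hΨ : Rep Ψ T) (h : ∀ ω, S ω → T ω) {p : Cond I} (hp : p ∈ Φ) : p ∈ Ψ := by
  rw [hΨ.iff]
  refine CI.mono _ ?_ (hΦ.iff.1 hp)
  rintro ω ⟨h2, h3⟩
  exact ⟨h2, fun h4 => h3 (h ω h4)⟩

/-- If `T` holds everywhere, then every condition forces `Ψ`. -/
theorem mem_of_forall {Ω : Type} [MeasurableSpace Ω] {I : CI Ω} {Ψ : Set (Cond I)} {T : Ω → Prop}
    (hΨ : Rep Ψ T) (h : ∀ ω, T ω) (p : Cond I) : p ∈ Ψ := by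
  refine hΨ.of_null ?_ p
  have : {ω | ¬ T ω} = ∅ := by
    ext ω
    simp only [mem_ofPred_eq, mem_empty_iff_false, iff_false, not_not]
    exact h ω
  rw [this]; exact I.empty

/-- a condition does not force a sentence and its negation -/
theorem not_mem_of_rep {Ω : Type} [MeasurableSpace Ω] {I : CI Ω} {Ψ : Set (Cond I)} {T : Ω → Prop}
    (hΨ : Rep Ψ T) {p : Cond I} (h : p ∈ Ψ) (h' : I.null (p.1 ∩ {ω | T ω})) : False := by
  refine p.2.2 (CI.mono _ ?_ (CI.union h' (hΨ.iff.1 h)))
  intro ω hω
  by_cases h2 : T ω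
  · exact Or.inl ⟨hω, h2⟩
  · exact Or.inr ⟨hω, h2⟩

/-- The names `x i` do not depend on the random real with index `k`. -/
def Free (k : K) (x : ι → Set (CR L K)) : Prop :=
  ∀ a b r i, ((a, repl b k r) ∈ ess (x i) ↔ (a, b) ∈ ess (x i))

theorem exists_rsupp [Countable ι] (x : ι → Set (CR L K)) :
    ∃ D : Set K, D.Countable ∧ ∀ k ∉ D, Free k x := by
  obtain ⟨C, D, hC, hD, hCD⟩ := exists_supp_family (S := fun i => ess (x i))
    (fun i => ess_measurable _)
  refine ⟨Prod.fst '' D, hD.image _, fun k hk a b r i => ?_⟩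
  refine hCD i _ _ (fun j _ => rfl) (fun j hj => repl_other _ _ _ fun h => ?_)
  exact hk ⟨j, hj, h⟩

/-- the indices of the random reals on which the names depend -/
noncomputable def rsupp [Countable ι] (x : ι → Set (CR L K)) : Set K := (exists_rsupp x).choose

theorem rsupp_countable [Countable ι] (x : ι → Set (CR L K)) : (rsupp x).Countable :=
  (exists_rsupp x).choose_spec.1

theorem free_of_notMem [Countable ι] {x : ι → Set (CR L K)} {k : K} (hk : k ∉ rsupp x) :
    Free k x := (exists_rsupp x).choose_spec.2 k hk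

theorem exists_notMem (hW : #W < #K) (hK : ℵ₀ < #K) (D : W → Set K) (hD : ∀ w, (D w).Countable) :
    ∃ k : K, ∀ w, k ∉ D w := by
  by_contra hno
  push Not at hno
  have h1 : (⋃ w, D w) = Set.univ := by
    ext l
    simp only [mem_iUnion, mem_univ, iff_true]
    exact hno l
  have h2 : #(⋃ w, D w : Set K) ≤ #W * ℵ₀ := by
    refine (Cardinal.mk_iUnion_le _).trans ?_
    gcongr
    refine ciSup_le' fun w => ?_
    exact Cardinal.mk_le_aleph0_iff.mpr (hD w).to_subtype
  rw [h1, Cardinal.mk_univ] at h2
  exact absurd (Cardinal.mul_lt_of_lt hK.le hW hK) (not_lt.mpr h2)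

/-- there is a random real on which the names in a small family of countable families of names do
not depend -/
theorem exists_free [Countable ι] (hW : #W < #K) (hK : ℵ₀ < #K) (x : W → ι → Set (CR L K))
    {D : Set K} (hD : D.Countable) : ∃ k : K, k ∉ D ∧ ∀ w, Free k (x w) := by
  have hW' : #(Option W) < #K := by
    rw [Cardinal.mk_option]
    exact Cardinal.add_lt_of_lt hK.le hW (Cardinal.one_lt_aleph0.trans hK)
  obtain ⟨k, hk⟩ := exists_notMem hW' hK (fun w : Option W => w.elim D fun w => rsupp (x w))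
    (by rintro (_ | w); exacts [hD, rsupp_countable _])
  exact ⟨k, hk none, fun w => free_of_notMem (hk (some w))⟩

/-- a countable set does not contain all members of an uncountable family -/
theorem exists_notMem_of_embedding (e : W ↪ K) (hW : ¬ Countable W) {D : Set K}
    (hD : D.Countable) : ∃ w : W, e w ∉ D := by
  by_contra hno
  push Not at hno
  apply hW
  have h3 : (Set.range e).Countable := hD.mono (by rintro _ ⟨w, rfl⟩; exact hno w)
  have h4 : Countable (Set.range e) := h3
  exact (Equiv.ofInjective e e.injective).countable_iff.mpr h4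

theorem ran_repl (k : K) (a : L × ℕ → Bool) (b : K × ℕ → Bool) (r : ℕ → Bool) :
    ran k (a, repl b k r) = r := by
  unfold ran
  simp only [repl_same]

/-! ### Independence of the blocks of a random real -/

/-- reindexing of the coordinates preserves the measure -/
theorem measurePreserving_comp {A B : Type} (f : A → B) (hf : Function.Injective f) :
    MeasurePreserving (fun r : B → Bool => fun a => r (f a)) (nu B) (nu A) := by
  classical
  have hm : Measurable (fun r : B → Bool => fun a => r (f a)) :=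
    measurable_pi_iff.mpr fun a => measurable_pi_apply (f a)
  refine ⟨hm, ?_⟩
  refine Measure.eq_infinitePi _ ?_
  intro s t ht
  rcases isEmpty_or_nonempty A with hA | hA
  · have : s = ∅ := Finset.eq_empty_of_isEmpty s
    subst this
    rw [Measure.map_apply hm (MeasurableSet.pi (Finset.countable_toSet _) fun i _ => ht i)]
    simp
  rw [Measure.map_apply hm (MeasurableSet.pi s.countable_toSet fun i _ => ht i)]
  have h1 : (fun r : B → Bool => fun a => r (f a)) ⁻¹' ((s : Set A).pi t) =
      ((s.image f : Finset B) : Set B).pi fun b => t (Function.invFun f b) := by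
    ext r
    simp only [mem_preimage, Set.mem_pi, Finset.coe_image, mem_image, Finset.mem_coe,
      forall_exists_index, and_imp, forall_apply_eq_imp_iff₂]
    refine forall_congr' fun a => imp_congr_right fun _ => ?_
    rw [Function.leftInverse_invFun hf a]
  rw [h1, nu, Measure.infinitePi_pi _ (fun i _ => ht _), Finset.prod_image (fun a _ b _ h => hf h)]
  exact Finset.prod_congr rfl fun a _ => by rw [Function.leftInverse_invFun hf a]

/-- the blocks of a real -/
def blk (r : ℕ → Bool) (k : ℕ) : ℕ → Bool := fun i => r (Nat.pair k i)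

theorem measurePreserving_blk :
    MeasurePreserving blk (nu ℕ) (Measure.infinitePi fun _ : ℕ => nu ℕ) := by
  have h1 := Measure.infinitePi_map_curry (ι := ℕ) (κ := ℕ) (X := Bool) (fun _ _ => coin)
  have h2 := measurePreserving_comp (fun p : ℕ × ℕ => Nat.pair p.1 p.2)
    (fun p q h => by simpa [Prod.ext_iff] using h)
  have h3 : MeasurePreserving (MeasurableEquiv.curry ℕ ℕ Bool) (nu (ℕ × ℕ))
      (Measure.infinitePi fun _ : ℕ => nu ℕ) := ⟨(MeasurableEquiv.curry ℕ ℕ Bool).measurable, h1⟩
  exact h3.comp h2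

/-- different blocks are independent -/
theorem nu_blk (F : Finset ℕ) (A : ℕ → Set (ℕ → Bool)) (hA : ∀ k, MeasurableSet (A k)) :
    nu ℕ {r | ∀ k ∈ F, blk r k ∈ A k} = ∏ k ∈ F, nu ℕ (A k) := by
  have h1 : {r | ∀ k ∈ F, blk r k ∈ A k} = blk ⁻¹' ((F : Set ℕ).pi A) := by
    ext r; simp [Set.mem_pi]
  rw [h1, measurePreserving_blk.measure_preimage
    (MeasurableSet.pi F.countable_toSet fun i _ => hA i).nullMeasurableSet,
    Measure.infinitePi_pi _ (fun i _ => hA i)]

end Q208.F
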