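import Pool.Agent.Q208.F.Cohen

/-!
# A tree on `ω₁ × ω₁` built from reals

The stage of the node `v = (δ, i)` is `δ`. Its set of predecessors is a branch through the countable
part of the tree which consists of the nodes `(a, j)` with `a, j < δ`; this branch is read off
from a real `c v`.
-/

open Cardinal Set MeasureTheory Filter Topology

namespace Q208.F.Tree

/-- a well-order of type `ω₁` -/
abbrev O : Type := (Cardinal.ord (Cardinal.aleph 1)).ToType

theorem mk_O : #O = Cardinal.aleph 1 := by rw [mk_toType, card_ord]

theorem not_countable_O : ¬ Countable O := by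
  intro h
  have h1 := Cardinal.mk_le_aleph0_iff.2 h
  rw [mk_O] at h1
  exact absurd h1 (not_le.2 aleph0_lt_aleph_one)

theorem countable_Iio (a : O) : (Iio a).Countable := by
  have h1 : #(Iio a) < #O := mk_Iio_lt a (by rw [mk_O, Ordinal.type_toType])
  rw [← Cardinal.le_aleph0_iff_set_countable]
  exact Order.lt_succ_iff.1 ((h1.trans_eq mk_O).trans_eq succ_aleph0.symm)

theorem countable_Iic (a : O) : (Iic a).Countable := by
  rw [← Iio_insert]
  exact (countable_Iio a).insert a

/-- countable sets are bounded -/
theorem exists_gt {S : Set O} (hS : S.Countable) : ∃ b, ∀ a ∈ S, a < b := by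
  by_contra hno
  push Not at hno
  apply not_countable_O
  have h1 : (⋃ a ∈ S, Iic a) = Set.univ := by
    ext b
    simp only [mem_iUnion, mem_Iic, mem_univ, iff_true]
    obtain ⟨a, ha, hab⟩ := hno b
    exact ⟨a, ha, hab⟩
  rw [← Set.countable_univ_iff, ← h1]
  exact hS.biUnion fun a _ => countable_Iic a

instance : Nonempty O := by
  by_contra h
  rw [not_nonempty_iff] at h
  exact not_countable_O inferInstance

/-- the nodes -/
abbrev N : Type := O × O

/-- the node `x` is in the countable part of the tree with index `δ` -/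
def inT (δ : O) (x : N) : Prop := x.1 < δ ∧ x.2 < δ

theorem countable_inT (δ : O) : {x | inT δ x}.Countable := by
  have h : {x | inT δ x} = Iio δ ×ˢ Iio δ := by
    ext x; rfl
  rw [h]
  exact (countable_Iio δ).prod (countable_Iio δ)

theorem inT.trans {δ : O} {x y : N} (h : inT δ x) (h' : inT x.1 y) : inT δ y :=
  ⟨h'.1.trans h.1, h'.2.trans h.1⟩

theorem inT.mono {δ δ' : O} {x : N} (h : inT δ x) (h' : δ ≤ δ') : inT δ' x :=
  ⟨h.1.trans_le h', h.2.trans_le h'⟩

theorem exists_code : Nonempty (O ≃ N × Bool) := by
  rw [← Cardinal.eq, mk_prod, mk_prod]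
  simp only [Cardinal.lift_id, mk_O, mk_bool]
  have h1 : ℵ₀ ≤ Cardinal.aleph 1 := aleph0_lt_aleph_one.le
  rw [mul_eq_self h1, mul_eq_left h1 (by exact_mod_cast (natCast_lt_aleph0 (n := 2)).le.trans h1)
    (by norm_num)]

/-- a bijection which tells above which node the branch of `(δ, i)` starts -/
noncomputable def code : O ≃ N × Bool := Classical.choice exists_code

theorem exists_enum (δ : O) : ∃ e : ℕ → N, (∃ x, inT δ x) → range e = {x | inT δ x} := by
  by_cases h : ∃ x, inT δ x
  · obtain ⟨e, he⟩ := (countable_inT δ).exists_eq_range h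
    exact ⟨e, fun _ => he.symm⟩
  · exact ⟨fun _ => (δ, δ), fun h' => absurd h' h⟩

/-- an enumeration of the countable part of the tree -/
noncomputable def enm (δ : O) : ℕ → N := (exists_enum δ).choose

theorem range_enm {δ : O} (h : ∃ x, inT δ x) : range (enm δ) = {x | inT δ x} :=
  (exists_enum δ).choose_spec h

theorem inT_enm {δ : O} (h : ∃ x, inT δ x) (n : ℕ) : inT δ (enm δ n) := by
  have : enm δ n ∈ range (enm δ) := ⟨n, rfl⟩
  rwa [range_enm h] at this

open Classical in
/-- the node at which the branch of `(δ, i)` starts -/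
noncomputable def start (δ i : O) : N := if inT δ (code i).1 then (code i).1 else enm δ 0

theorem inT_start {δ : O} (h : ∃ x, inT δ x) (i : O) : inT δ (start δ i) := by
  unfold start
  split_ifs with h1
  · exact h1
  · exact inT_enm h 0

/-- the number coded by a row of the real -/
noncomputable def rowval (c : ℕ → Bool) (k : ℕ) : ℕ := sInf {i | c (Nat.pair k i) = false}

theorem rowval_eq {c : ℕ → Bool} {k n : ℕ} (h : c (Nat.pair k n) = false)
    (h' : ∀ i < n, c (Nat.pair k i) = true) : rowval c k = n := by
  apply le_antisymm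
  · exact Nat.sInf_le h
  · refine le_csInf ⟨n, h⟩ fun i hi => ?_
    by_contra hlt
    have h1 : c (Nat.pair k i) = false := hi
    rw [h' i (not_le.1 hlt)] at h1
    exact Bool.noConfusion h1

open Classical in
/-- the branch through a set of nodes coded by `g` -/
noncomputable def pth (r : N → Set N) (e : ℕ → N) (z : N) (g : ℕ → ℕ) : ℕ → N
  | 0 => z
  | k + 1 => if pth r e z g k ∈ r (e (g k)) then e (g k) else pth r e z g k

theorem pth_congr {r r' : N → Set N} {e : ℕ → N} (h : ∀ n, r (e n) = r' (e n)) (z : N)
    (g : ℕ → ℕ) (k : ℕ) : pth r e z g k = pth r' e z g k := by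
  induction k with
  | zero => rfl
  | succ k ih =>
    simp only [pth]
    rw [ih, h]

theorem pth_congr' {r : N → Set N} {e : ℕ → N} {z : N} {g g' : ℕ → ℕ} {k : ℕ}
    (h : ∀ j < k, g j = g' j) : pth r e z g k = pth r e z g' k := by
  induction k with
  | zero => rfl
  | succ k ih =>
    simp only [pth]
    rw [ih fun j hj => h j (by omega), h k (by omega)]

theorem pth_mem {r : N → Set N} {e : ℕ → N} {z : N} {g : ℕ → ℕ} {A : Set N} (hz : z ∈ A)
    (he : ∀ n, e n ∈ A) (k : ℕ) : pth r e z g k ∈ A := by
  induction k with
  | zero => exact hz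
  | succ k ih =>
    simp only [pth]
    split_ifs
    · exact he _
    · exact ih

theorem stage_wf : WellFounded fun x y : N => x.1 < y.1 :=
  InvImage.wf Prod.fst wellFounded_lt

/-- one step of the recursion -/
def step (c : N → ℕ → Bool) (v : N) (IH : ∀ z : N, z.1 < v.1 → Set N) : Set N :=
  {w | ∃ k, inT v.1 (pth (fun z => {w | ∃ h : z.1 < v.1, w ∈ IH z h}) (enm v.1)
      (start v.1 v.2) (rowval (c v)) k) ∧
    (w = pth (fun z => {w | ∃ h : z.1 < v.1, w ∈ IH z h}) (enm v.1) (start v.1 v.2)
      (rowval (c v)) k ∨
      w ∈ {w | ∃ h : (pth (fun z => {w | ∃ h : z.1 < v.1, w ∈ IH z h}) (enm v.1)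
        (start v.1 v.2) (rowval (c v)) k).1 < v.1, w ∈ IH _ h})}

/-- the set of predecessors of the node `v`, where the branches are coded by the reals `c` -/
noncomputable def pred (c : N → ℕ → Bool) : N → Set N := stage_wf.fix (step c)

/-- the branch of the node `v` -/
noncomputable def P (c : N → ℕ → Bool) (v : N) (k : ℕ) : N :=
  pth (pred c) (enm v.1) (start v.1 v.2) (rowval (c v)) k

variable {c c' : N → ℕ → Bool} {u v w x y z : N}

theorem pred_eq_step : pred c v = step c v fun z _ => pred c z := stage_wf.fix_eq _ _

theorem mem_pred : w ∈ pred c v ↔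
    ∃ k, inT v.1 (P c v k) ∧ (w = P c v k ∨ w ∈ pred c (P c v k)) := by
  rw [pred_eq_step]
  by_cases h : ∃ x, inT v.1 x
  · have h1 : ∀ k, pth (fun z => {w | ∃ _ : z.1 < v.1, w ∈ pred c z}) (enm v.1)
        (start v.1 v.2) (rowval (c v)) k = P c v k := by
      intro k
      refine pth_congr (fun n => ?_) _ _ k
      ext w
      constructor
      · rintro ⟨_, hw⟩; exact hw
      · intro hw; exact ⟨(inT_enm h n).1, hw⟩
    unfold step
    simp only [h1]
    refine exists_congr fun k => and_congr_right fun hk => or_congr_right ?_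
    constructor
    · rintro ⟨_, hw⟩; exact hw
    · intro hw; exact ⟨hk.1, hw⟩
  · constructor
    · rintro ⟨k, hk, _⟩; exact absurd ⟨_, hk⟩ h
    · rintro ⟨k, hk, _⟩; exact absurd ⟨_, hk⟩ h

theorem inT_P (h : ∃ x, inT v.1 x) (k : ℕ) : inT v.1 (P c v k) :=
  pth_mem (A := {x | inT v.1 x}) (inT_start h _) (fun n => inT_enm h n) k

theorem inT_of_mem (h : w ∈ pred c v) : inT v.1 w := by
  induction v using stage_wf.induction generalizing w with
  | _ v ih =>
    obtain ⟨k, hk, h1 | h1⟩ := mem_pred.1 h
    · rw [h1]; exact hk
    · exact hk.trans (ih _ hk.1 h1)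

theorem trans_pred (h : x ∈ pred c w) (h' : w ∈ pred c v) : x ∈ pred c v := by
  induction v using stage_wf.induction generalizing w x with
  | _ v ih =>
    obtain ⟨k, hk, h1 | h1⟩ := mem_pred.1 h'
    · subst h1
      exact mem_pred.2 ⟨k, hk, Or.inr h⟩
    · exact mem_pred.2 ⟨k, hk, Or.inr (ih _ hk.1 h h1)⟩


theorem P_le {k l : ℕ} (hkl : k ≤ l) :
    P c v k = P c v l ∨ P c v k ∈ pred c (P c v l) := by
  induction l, hkl using Nat.le_induction with
  | base => exact Or.inl rfl
  | succ l _ ih =>
    have h1 : P c v (l + 1) = P c v l ∨ P c v l ∈ pred c (P c v (l + 1)) := by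
      by_cases h2 : P c v l ∈ pred c (enm v.1 (rowval (c v) l))
      · have h3 : P c v (l + 1) = enm v.1 (rowval (c v) l) := by
          change pth _ _ _ _ _ = _
          simp only [pth]
          exact if_pos h2
        right; rw [h3]; exact h2
      · left
        change pth _ _ _ _ _ = _
        simp only [pth]
        exact if_neg h2
    rcases h1 with h1 | h1
    · rwa [h1]
    · rcases ih with h2 | h2
      · right; rw [h2]; exact h1
      · right; exact trans_pred h2 h1

/-- the predecessors of a node are comparable -/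
theorem pred_linear (h : w ∈ pred c v) (h' : x ∈ pred c v) :
    w = x ∨ w ∈ pred c x ∨ x ∈ pred c w := by
  induction v using stage_wf.induction generalizing w x with
  | _ v ih =>
    obtain ⟨k, hk, h1⟩ := mem_pred.1 h
    obtain ⟨l, hl, h2⟩ := mem_pred.1 h'
    have hne : ∃ x, inT v.1 x := ⟨_, hk⟩
    have key : ∀ j, k ≤ j → (w = P c v j ∨ w ∈ pred c (P c v j)) := by
      intro j hj
      rcases P_le (c := c) (v := v) hj with h3 | h3
      · rwa [← h3]
      · rcases h1 with h1 | h1
        · right; rw [h1]; exact h3
        · right; exact trans_pred h1 h3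
    have key' : ∀ j, l ≤ j → (x = P c v j ∨ x ∈ pred c (P c v j)) := by
      intro j hj
      rcases P_le (c := c) (v := v) hj with h3 | h3
      · rwa [← h3]
      · rcases h2 with h2 | h2
        · right; rw [h2]; exact h3
        · right; exact trans_pred h2 h3
    have h3 := key (max k l) (le_max_left _ _)
    have h4 := key' (max k l) (le_max_right _ _)
    rcases h3 with h3 | h3 <;> rcases h4 with h4 | h4
    · left; rw [h3, h4]
    · right; right; rw [h3]; exact h4
    · right; left; rw [h4]; exact h3
    · exact ih _ (inT_P hne _).1 h3 h4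

/-- above every node there are at least two incomparable nodes on every later stage -/
theorem split (s : Bool) {a : O} (h : inT a u) : u ∈ pred c (a, code.symm (u, s)) := by
  have h1 : P c (a, code.symm (u, s)) 0 = u := by
    change start a (code.symm (u, s)) = u
    unfold start
    rw [Equiv.apply_symm_apply]
    exact if_pos h
  exact mem_pred.2 ⟨0, by rw [h1]; exact h, Or.inl h1.symm⟩

/-- locality -/
theorem pred_congr (hv : c v = c' v) (h : ∀ z, inT v.1 z → c z = c' z) : pred c v = pred c' v := by
  induction v using stage_wf.induction with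
  | _ v ih =>
    have h1 : ∀ z, inT v.1 z → pred c z = pred c' z := fun z hz =>
      ih z hz.1 (h z hz) fun y hy => h y (hz.trans hy)
    by_cases hne : ∃ x, inT v.1 x
    · have h2 : ∀ k, P c v k = P c' v k := by
        intro k
        unfold P
        rw [hv]
        exact pth_congr (fun n => h1 _ (inT_enm hne n)) _ _ k
      ext w
      rw [mem_pred, mem_pred]
      refine exists_congr fun k => ?_
      rw [h2 k]
      refine and_congr_right fun hk => ?_
      rw [h1 _ hk]
    · ext w
      constructor
      · intro hw; exact absurd ⟨_, inT_of_mem hw⟩ hne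
      · intro hw; exact absurd ⟨_, inT_of_mem hw⟩ hne

/-! ### Measurability -/

theorem measurableSet_rowval (k n : ℕ) : MeasurableSet {x : ℕ → Bool | rowval x k = n} := by
  have h1 : {x : ℕ → Bool | rowval x k = n} =
      ({x | x (Nat.pair k n) = false} ∩ ⋂ i ∈ Finset.range n, {x | x (Nat.pair k i) = true}) ∪
        ({x | n = 0} ∩ ⋂ i, {x | x (Nat.pair k i) = true}) := by
    ext x
    simp only [mem_ofPred_eq, mem_union, mem_inter_iff, mem_iInter, Finset.mem_range]
    constructor
    · rintro rfl
      by_cases hne : {i | x (Nat.pair k i) = false}.Nonempty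
      · left
        refine ⟨Nat.sInf_mem hne, fun i hi => ?_⟩
        have := Nat.notMem_of_lt_sInf hi
        simpa using this
      · right
        rw [not_nonempty_iff_eq_empty] at hne
        refine ⟨?_, fun i => ?_⟩
        · unfold rowval; rw [hne]; exact Nat.sInf_empty
        · by_contra hx
          have : i ∈ {i | x (Nat.pair k i) = false} := by simpa using hx
          rw [hne] at this
          exact this
    · rintro (⟨h2, h3⟩ | ⟨rfl, h3⟩)
      · exact rowval_eq h2 h3
      · unfold rowval
        have : {i | x (Nat.pair k i) = false} = ∅ := by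
          ext i
          simp [h3 i]
        rw [this]; exact Nat.sInf_empty
  rw [h1]
  have h2 : ∀ (i : ℕ) (b : Bool), MeasurableSet {x : ℕ → Bool | x i = b} := fun i b =>
    measurableSet_eq_fun (measurable_pi_apply i) measurable_const
  exact ((h2 _ _).inter (Finset.measurableSet_biInter _ fun i _ => h2 _ _)).union
    ((MeasurableSet.const _).inter (MeasurableSet.iInter fun i => h2 _ _))

theorem measurableSet_pred (v w : N) :
    MeasurableSet {c : N → ℕ → Bool | w ∈ pred c v} := by
  induction v using stage_wf.induction generalizing w with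
  | _ v ih =>
    by_cases hne : ∃ x, inT v.1 x
    · have hP : ∀ k x, MeasurableSet {c : N → ℕ → Bool | P c v k = x} := by
        intro k
        induction k with
        | zero =>
          intro x
          change MeasurableSet {_c : N → ℕ → Bool | start v.1 v.2 = x}
          exact MeasurableSet.const _
        | succ k ihk =>
          intro x
          have h1 : {c : N → ℕ → Bool | P c v (k + 1) = x} =
              ⋃ n : ℕ, {c | rowval (c v) k = n} ∩
                (({c | P c v k ∈ pred c (enm v.1 n)} ∩ {c | enm v.1 n = x}) ∪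
                  ({c | P c v k ∈ pred c (enm v.1 n)}ᶜ ∩ {c | P c v k = x})) := by
            ext c
            simp only [mem_iUnion, mem_inter_iff, mem_ofPred_eq, mem_union, mem_compl_iff]
            change pth _ _ _ _ _ = x ↔ _
            simp only [pth]
            constructor
            · intro h
              refine ⟨rowval (c v) k, rfl, ?_⟩
              by_cases h2 : P c v k ∈ pred c (enm v.1 (rowval (c v) k))
              · left
                exact ⟨h2, by rw [← h]; exact (if_pos h2).symm⟩
              · right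
                exact ⟨h2, by rw [← h]; exact (if_neg h2).symm⟩
            · rintro ⟨n, rfl, ⟨h2, h3⟩ | ⟨h2, h3⟩⟩
              · rw [← h3]; exact if_pos h2
              · rw [← h3]; exact if_neg h2
          have h2 : ∀ n, MeasurableSet {c : N → ℕ → Bool | P c v k ∈ pred c (enm v.1 n)} := by
            intro n
            have h3 : {c : N → ℕ → Bool | P c v k ∈ pred c (enm v.1 n)} =
                ⋃ y ∈ {x | inT v.1 x}, ({c | P c v k = y} ∩ {c | y ∈ pred c (enm v.1 n)}) := by
              ext c
              simp only [mem_iUnion, mem_inter_iff, mem_ofPred_eq]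
              constructor
              · intro h; exact ⟨_, inT_P hne k, rfl, h⟩
              · rintro ⟨y, _, rfl, h⟩; exact h
            rw [h3]
            exact MeasurableSet.biUnion (countable_inT _) fun y _ =>
              (ihk y).inter (ih _ (inT_enm hne n).1 y)
          have h5 : Measurable fun c : N → ℕ → Bool => c v := measurable_pi_apply v
          have h4 : ∀ n, MeasurableSet {c : N → ℕ → Bool | rowval (c v) k = n} := fun n =>
            h5 (measurableSet_rowval k n)
          rw [h1]
          exact MeasurableSet.iUnion fun n => (h4 n).inter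
            (((h2 n).inter (MeasurableSet.const _)).union ((h2 n).compl.inter (ihk x)))
      have h1 : {c : N → ℕ → Bool | w ∈ pred c v} = ⋃ k, ⋃ y ∈ {x | inT v.1 x},
          ({c | P c v k = y} ∩ ({c | w = y} ∪ {c | w ∈ pred c y})) := by
        ext c
        simp only [mem_iUnion, mem_inter_iff, mem_ofPred_eq, mem_union]
        rw [mem_pred]
        constructor
        · rintro ⟨k, hk, h⟩; exact ⟨k, _, hk, rfl, h⟩
        · rintro ⟨k, y, hk, rfl, h⟩; exact ⟨k, hk, h⟩
      rw [h1]
      exact MeasurableSet.iUnion fun k => MeasurableSet.biUnion (countable_inT _) fun y hy =>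
        (hP k y).inter ((MeasurableSet.const _).union (ih y hy.1 w))
    · have h1 : {c : N → ℕ → Bool | w ∈ pred c v} = ∅ := by
        ext c
        simp only [mem_ofPred_eq, mem_empty_iff_false, iff_false]
        intro h
        exact hne ⟨_, inT_of_mem h⟩
      rw [h1]; exact MeasurableSet.empty

/-! ### Genericity -/

/-- a generic real codes a branch which meets a given dense set -/
theorem generic_meets {r : N → Set N} {e : ℕ → N} {z : N} {D : Set N}
    (hD : ∀ u, (u = z ∨ ∃ n, u = e n) → ∃ n, e n ∈ D ∧ (u = e n ∨ u ∈ r (e n))) :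
    ∀ᶠ c in residual (ℕ → Bool), ∃ k, pth r e z (rowval c) k ∈ D := by
  classical
  let U : Set (ℕ → Bool) :=
    {c | ∃ k, (∀ j < k, ∃ i, c (Nat.pair j i) = false) ∧ pth r e z (rowval c) k ∈ D}
  have hopen : IsOpen U := by
    rw [isOpen_iff_forall_mem_open]
    rintro c ⟨k, hk, hc⟩
    have hrow : ∀ j < k, c (Nat.pair j (rowval c j)) = false ∧
        ∀ i < rowval c j, c (Nat.pair j i) = true := by
      intro j hj
      refine ⟨Nat.sInf_mem (s := {i | c (Nat.pair j i) = false}) (hk j hj), fun i hi => ?_⟩
      have := Nat.notMem_of_lt_sInf hi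
      simpa using this
    let V : Set (ℕ → Bool) := ⋂ j ∈ Finset.range k, ⋂ i ∈ Finset.range (rowval c j + 1),
      {c' | c' (Nat.pair j i) = c (Nat.pair j i)}
    have hV : IsOpen V := isOpen_biInter_finset fun j _ => isOpen_biInter_finset fun i _ =>
      (isOpen_discrete ({c (Nat.pair j i)} : Set Bool)).preimage
        (continuous_apply (A := fun _ : ℕ => Bool) (Nat.pair j i))
    refine ⟨V, ?_, hV, ?_⟩
    · intro c' hc'
      have h1 : ∀ j < k, ∀ i ≤ rowval c j, c' (Nat.pair j i) = c (Nat.pair j i) := by
        intro j hj i hi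
        simp only [V, mem_iInter, Finset.mem_range] at hc'
        exact hc' j hj i (by omega)
      have h2 : ∀ j < k, rowval c' j = rowval c j := by
        intro j hj
        refine rowval_eq ?_ fun i hi => ?_
        · rw [h1 j hj _ le_rfl]; exact (hrow j hj).1
        · rw [h1 j hj i hi.le]; exact (hrow j hj).2 i hi
      refine ⟨k, fun j hj => ⟨rowval c j, ?_⟩, ?_⟩
      · rw [h1 j hj _ le_rfl]; exact (hrow j hj).1
      · rw [pth_congr' h2]; exact hc
    · simp [V]
  have hdense : Dense U := by
    rw [dense_iff_inter_open]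
    rintro W hW ⟨c₀, hc₀⟩
    obtain ⟨F, hF⟩ := exists_cyl hW hc₀
    let m : ℕ := F.sup (fun q => q.unpair.1) + 1
    have hm : ∀ q ∈ F, q.unpair.1 < m := fun q hq =>
      Nat.lt_succ_of_le (Finset.le_sup (f := fun q : ℕ => q.unpair.1) hq)
    let c₁ : ℕ → Bool := fun q => if q ∈ F then c₀ q else false
    obtain ⟨n, hn, hun⟩ := hD (pth r e z (rowval c₁) m)
      (pth_mem (A := {u | u = z ∨ ∃ n, u = e n}) (Or.inl rfl) (fun n => Or.inr ⟨n, rfl⟩) m)
    let c₂ : ℕ → Bool := fun q => if q.unpair.1 = m then decide (q.unpair.2 < n) else c₁ q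
    have h1 : ∀ j < m, ∀ i, c₂ (Nat.pair j i) = c₁ (Nat.pair j i) := by
      intro j hj i
      simp only [c₂, Nat.unpair_pair]
      exact if_neg hj.ne
    have h2 : ∀ j < m, rowval c₂ j = rowval c₁ j := by
      intro j hj
      unfold rowval
      simp only [h1 j hj]
    have h3 : rowval c₂ m = n := by
      refine rowval_eq ?_ fun i hi => ?_
      · simp [c₂]
      · simp [c₂, hi]
    have h4 : ∀ j < m + 1, ∃ i, c₂ (Nat.pair j i) = false := by
      intro j hj
      rcases Nat.lt_succ_iff_lt_or_eq.1 hj with hj | rfl
      · have hinf : (range fun i => Nat.pair j i).Infinite :=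
          Set.infinite_range_of_injective fun i i' h => by
            have := congrArg (fun q => (Nat.unpair q).2) h
            simpa using this
        obtain ⟨_, ⟨i, rfl⟩, hi⟩ := hinf.exists_notMem_finset F
        refine ⟨i, ?_⟩
        rw [h1 j hj]
        simp only [c₁]
        exact if_neg hi
      · exact ⟨n, by simp [c₂]⟩
    refine ⟨c₂, hF fun q hq => ?_, m + 1, h4, ?_⟩
    · simp only [c₂, c₁]
      rw [if_neg (hm q hq).ne, if_pos hq]
    · simp only [pth, h3]
      rw [pth_congr' h2]
      split_ifs with h5
      · exact hn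
      · rcases hun with h6 | h6
        · rw [h6]; exact hn
        · exact absurd h6 h5
  filter_upwards [residual_of_dense_open hopen hdense] with c hc
  obtain ⟨k, _, hk⟩ := hc
  exact ⟨k, hk⟩

open Classical in
/-- if the real of the node `v` is generic then the branch of `v` meets a given dense set -/
theorem branch_meets (c : N → ℕ → Bool) (v : N) (hne : ∃ x, inT v.1 x) {D : Set N}
    (hD : ∀ u, inT v.1 u → ∃ u' ∈ D, inT v.1 u' ∧ (u = u' ∨ u ∈ pred c u')) :
    ∀ᶠ x in residual (ℕ → Bool), ∃ w ∈ D, w ∈ pred (Function.update c v x) v := by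
  have h1 : ∀ x : ℕ → Bool, ∀ z, inT v.1 z → pred (Function.update c v x) z = pred c z := by
    intro x z hz
    refine pred_congr ?_ fun y hy => ?_
    · exact Function.update_of_ne (fun h => by rw [h] at hz; exact lt_irrefl _ hz.1) _ _
    · refine Function.update_of_ne (fun h => ?_) _ _
      rw [h] at hy
      exact lt_irrefl _ (hy.1.trans hz.1)
  have h2 := generic_meets (r := pred c) (e := enm v.1) (z := start v.1 v.2) (D := D) (by
    intro u hu
    have hu' : inT v.1 u := by
      rcases hu with rfl | ⟨n, rfl⟩
      · exact inT_start hne _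
      · exact inT_enm hne n
    obtain ⟨u', hu'D, hu'T, h⟩ := hD u hu'
    have : u' ∈ range (enm v.1) := by rw [range_enm hne]; exact hu'T
    obtain ⟨n, rfl⟩ := this
    exact ⟨n, hu'D, h⟩)
  filter_upwards [h2] with x hx
  obtain ⟨k, hk⟩ := hx
  have h3 : P (Function.update c v x) v k = pth (pred c) (enm v.1) (start v.1 v.2) (rowval x) k := by
    unfold P
    rw [Function.update_self]
    exact pth_congr (fun n => h1 x _ (inT_enm hne n)) _ _ k
  refine ⟨_, hk, ?_⟩
  rw [← h3]
  exact mem_pred.2 ⟨k, inT_P hne k, Or.inl rfl⟩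

end Q208.F.Tree
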